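import Pool.Agent.Lib.MP_ecd12e_nt.ZS.AXEnergy

/-!
The bilinear estimate for an abstract kernel.
-/

set_option autoImplicit false

namespace Pool.Agent.Lib.MP_ecd12e_nt.ZS

open Finset Real
open scoped Pointwise
open Pool.Agent.Lib.MP_ecd12e_nt.Bar

section
variable {th k X : ℕ} {al : ℕ → ℕ} {A B : Finset ℕ} {jA jB : ℕ} {ca cb : ℕ → ℂ}
  {om : ℝ → ℝ → ℂ} {Φ F U ps : ℝ → ℝ → ℝ}

lemma br_top (h : Setup th k X al A B jA jB ca cb om Φ F U ps) {z e c : ℕ} (hz : X + 21 ≤ z)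
    (hz' : z ≤ 2 * k) (he : 2 * e + 21 ≤ (2 * k - z) + 2 * c) :
    al z * th ^ e ≤ th ^ c * al (2 * k) := by
  have hth : 1000 ≤ th := h.big.h1000
  have hb := h.branch hz hz'
  have h1 : (al z * th ^ e) ^ 2 * th ^ 21 ≤ (th ^ c * al (2 * k)) ^ 2 * th ^ 21 := by
    calc (al z * th ^ e) ^ 2 * th ^ 21 = al z ^ 2 * th ^ (2 * e + 21) := by ring
      _ ≤ al z ^ 2 * th ^ ((2 * k - z) + 2 * c) :=
          Nat.mul_le_mul_left _ (Nat.pow_le_pow_right (by omega) he)
      _ = (al z ^ 2 * th ^ (2 * k - z)) * th ^ (2 * c) := by ring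
      _ ≤ (th ^ 21 * al (2 * k) ^ 2) * th ^ (2 * c) := Nat.mul_le_mul_right _ hb
      _ = (th ^ c * al (2 * k)) ^ 2 * th ^ 21 := by ring
  have h2 := Nat.le_of_mul_le_mul_right h1 (by positivity)
  exact (Nat.pow_le_pow_iff_left (by norm_num)).1 h2

lemma br_nearP (h : Setup th k X al A B jA jB ca cb om Φ F U ps) {x : ℕ} (hx : x + 985 ≤ 2 * k)
    (hX : X + 1006 ≤ 2 * k) (P : ℕ) :
    ((cells A (th ^ x)).filter
      (fun P' : ℕ => |(P' : ℝ) - P| ≤ (th : ℝ) ^ (2 * k - 985 - x))).card * (40000 * (th ^ 240) ^ 2)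
      ≤ (cells A (th ^ x)).card := by
  have hth : 1000 ≤ th := h.big.h1000
  have h1 := h.uA.near (by omega) (i := x) (j := 2 * k - 985) (by omega) (by omega) (P : ℝ)
  have h2 := br_top h (z := 2 * k - 985) (e := 482) (c := 0) (by omega) (by omega) (by omega)
  have h3 := h.uA.le_cells_mul (j := x) (by omega)
  have h4 := h.card_bounds.1
  have h5 := h.uA.pos h.nonempty.1 (j := x) (by omega)
  set c := ((cells A (th ^ x)).filter
      (fun P' : ℕ => |(P' : ℝ) - P| ≤ (th : ℝ) ^ (2 * k - 985 - x))).card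
  have h6 : 480000 ≤ th ^ 2 := by nlinarith
  refine Nat.le_of_mul_le_mul_right (c := 2 * al x) ?_ (by omega)
  calc c * (40000 * (th ^ 240) ^ 2) * (2 * al x) = (c * al x) * (80000 * th ^ 480) := by ring
    _ ≤ (6 * al (2 * k - 985)) * (80000 * th ^ 480) := Nat.mul_le_mul_right _ h1
    _ = al (2 * k - 985) * (480000 * th ^ 480) := by ring
    _ ≤ al (2 * k - 985) * (th ^ 2 * th ^ 480) :=
        Nat.mul_le_mul_left _ (Nat.mul_le_mul_right _ h6)
    _ = al (2 * k - 985) * th ^ 482 := by ring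
    _ ≤ al (2 * k) := by simpa using h2
    _ ≤ _ := h4.trans h3

lemma br_NH (h : Setup th k X al A B jA jB ca cb om Φ F U ps) {p r w e : ℕ} (hrw : r ≤ w) (hwp : w ≤ p)
    (hp : p ≤ 2 * k) (hbr : al w * th ^ e ≤ al p) {Q : ℕ} (hQ : Q ∈ cells B (th ^ p)) (z : ℤ) :
    ((zc th r p B Q).filter (fun z' : ℤ => |(z' : ℝ) - z| < (th : ℝ) ^ (w - r))).card * th ^ e
      ≤ 12 * (zc th r p B Q).card := by
  have hth : 1000 ≤ th := h.big.h1000
  have h1 := h.uB.near (by omega) (i := r) (j := w) hrw (by omega) (z : ℝ)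
  have h2 := (zc_card h.uB (hrw.trans hwp) hp hQ).2
  have h5 := h.uB.pos h.nonempty.2 (j := r) (by omega)
  have h3 : ((zc th r p B Q).filter
      (fun z' : ℤ => |(z' : ℝ) - z| < (th : ℝ) ^ (w - r))).card ≤
      ((cells B (th ^ r)).filter
        (fun c : ℕ => |(c : ℝ) - (z : ℝ)| ≤ (th : ℝ) ^ (w - r))).card := by
    refine le_trans (card_le_card (t := ((cells B (th ^ r)).filter
        (fun c : ℕ => |(c : ℝ) - (z : ℝ)| ≤ (th : ℝ) ^ (w - r))).image (fun c : ℕ => (c : ℤ))) ?_)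
      card_image_le
    intro z' hz'
    rw [mem_filter] at hz'
    obtain ⟨hz1, hz2⟩ := hz'
    unfold zc at hz1
    obtain ⟨c, hc, rfl⟩ := mem_image.1 hz1
    refine mem_image.2 ⟨c, mem_filter.2 ⟨?_, ?_⟩, rfl⟩
    · unfold cells at hc ⊢
      obtain ⟨s, hs, rfl⟩ := mem_image.1 hc
      exact mem_image.2 ⟨s, (mem_filter.1 hs).1, rfl⟩
    · simpa using hz2.le
  set c := ((zc th r p B Q).filter
      (fun z' : ℤ => |(z' : ℝ) - z| < (th : ℝ) ^ (w - r))).card
  set c' := ((cells B (th ^ r)).filter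
        (fun c : ℕ => |(c : ℝ) - (z : ℝ)| ≤ (th : ℝ) ^ (w - r))).card
  refine Nat.le_of_mul_le_mul_right (c := al r) ?_ (by omega)
  calc c * th ^ e * al r = (c * al r) * th ^ e := by ring
    _ ≤ (c' * al r) * th ^ e := Nat.mul_le_mul_right _ (Nat.mul_le_mul_right _ h3)
    _ ≤ (6 * al w) * th ^ e := Nat.mul_le_mul_right _ h1
    _ = 6 * (al w * th ^ e) := by ring
    _ ≤ 6 * ((zc th r p B Q).card * (2 * al r)) := Nat.mul_le_mul_left _ (hbr.trans h2)
    _ = _ := by ring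

lemma br_NY (h : Setup th k X al A B jA jB ca cb om Φ F U ps) {x p w : ℕ} (hx : x + 985 ≤ 2 * k)
    (hw : 494 ≤ w) (hXw : X + 2 * w ≤ 2 * k) (hpw : p + 2 * w ≤ 2 * k) {P1 P2 Q1 : ℕ}
    (hP1 : P1 ∈ cells A (th ^ x)) (hP2 : P2 ∈ cells A (th ^ x))
    (hfar : ¬ |(P2 : ℝ) - P1| ≤ (th : ℝ) ^ (2 * k - 985 - x)) (hQ1 : Q1 ∈ cells B (th ^ p))
    {QQ : Finset ℕ} (hQQ : QQ ⊆ cells B (th ^ p))
    (hc : (cells B (th ^ p)).card ≤ 80000 * (th ^ 240) ^ 2 * QQ.card) {Q : ℕ} (hQ : Q ∈ QQ) :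
    (QQ.filter (fun Q' => |lam U th x p P2 Q' Q1 / lam U th x p P1 Q' Q1 -
      lam U th x p P2 Q Q1 / lam U th x p P1 Q Q1| ≤ 2 * ((th : ℝ) ^ (2 * w))⁻¹)).card * th ^ w
      ≤ th ^ 987 * QQ.card := by
  have hth : 1000 ≤ th := h.big.h1000
  have hth0 : (0 : ℝ) < th := by positivity
  have hth4 : (4 : ℝ) ≤ th := by exact_mod_cast (by omega : 4 ≤ th)
  have hx2 : x ≤ 2 * k := by omega
  have hp2 : p ≤ 2 * k := by omega
  set z := 2 * k + 988 - 2 * w with hz
  have h1 := h.uB.near (by omega) (i := p) (j := z) (by omega) (by omega) (Q : ℝ)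
  have h2 := br_top h (z := z) (e := w) (c := 505) (by omega) (by omega) (by omega)
  have h3 := h.uB.le_cells_mul (j := p) hp2
  have h4 := h.card_bounds.2.2.1
  have h5 := h.uB.pos h.nonempty.2 (j := 2 * k) le_rfl
  have hsub : (QQ.filter (fun Q' => |lam U th x p P2 Q' Q1 / lam U th x p P1 Q' Q1 -
      lam U th x p P2 Q Q1 / lam U th x p P1 Q Q1| ≤ 2 * ((th : ℝ) ^ (2 * w))⁻¹)) ⊆
      (cells B (th ^ p)).filter (fun c : ℕ => |(c : ℝ) - (Q : ℝ)| ≤ (th : ℝ) ^ (z - p)) := by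
    intro Q' hQ'
    rw [mem_filter] at hQ' ⊢
    obtain ⟨hQ'1, hQ'2⟩ := hQ'
    refine ⟨hQQ hQ'1, ?_⟩
    have g6 := h.ker.y_diff h.Lpos (h.memA hx2 hP1) (h.memA hx2 hP2) (h.memB hp2 (hQQ hQ))
      (h.memB hp2 (hQQ hQ'1)) (h.memB hp2 hQ1)
    rw [← pow_succ'] at g6
    unfold lam at hQ'2
    have g7 : (th : ℝ) ^ (2 * k - 985) ≤ |(P2 : ℝ) * (th : ℝ) ^ x - (P1 : ℝ) * (th : ℝ) ^ x| := by
      rw [← sub_mul, abs_mul, abs_of_pos (by positivity : (0 : ℝ) < (th : ℝ) ^ x)]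
      have e : (th : ℝ) ^ (2 * k - 985) = (th : ℝ) ^ (2 * k - 985 - x) * (th : ℝ) ^ x := by
        rw [← pow_add]; exact congrArg _ (by omega)
      rw [e]
      exact mul_le_mul_of_nonneg_right (not_le.1 hfar).le (by positivity)
    have g8 : |(Q' : ℝ) * (th : ℝ) ^ p - (Q : ℝ) * (th : ℝ) ^ p| =
        |(Q' : ℝ) - Q| * (th : ℝ) ^ p := by
      rw [← sub_mul, abs_mul, abs_of_pos (by positivity : (0 : ℝ) < (th : ℝ) ^ p)]
    rw [g8] at g6
    have g9 : (th : ℝ) ^ (2 * k - 985) * (|(Q' : ℝ) - Q| * (th : ℝ) ^ p) ≤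
        2 * ((th : ℝ) ^ (2 * k + 1)) ^ 2 * (2 * ((th : ℝ) ^ (2 * w))⁻¹) :=
      le_trans (mul_le_mul_of_nonneg_right g7 (by positivity))
        (g6.trans (mul_le_mul_of_nonneg_left hQ'2 (by positivity)))
    have e2 : (th : ℝ) * ((th : ℝ) ^ (2 * k + 1)) ^ 2 =
        (th : ℝ) ^ (2 * k - 985) * ((th : ℝ) ^ (z - p) * (th : ℝ) ^ p) * (th : ℝ) ^ (2 * w) := by
      rw [← pow_mul, ← pow_succ', ← pow_add, ← pow_add, ← pow_add]; exact congrArg _ (by omega)
    have g10 : 2 * ((th : ℝ) ^ (2 * k + 1)) ^ 2 * (2 * ((th : ℝ) ^ (2 * w))⁻¹) ≤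
        (th : ℝ) ^ (2 * k - 985) * ((th : ℝ) ^ (z - p) * (th : ℝ) ^ p) := by
      have e3 : 2 * ((th : ℝ) ^ (2 * k + 1)) ^ 2 * (2 * ((th : ℝ) ^ (2 * w))⁻¹) =
          (4 * ((th : ℝ) ^ (2 * k + 1)) ^ 2) / (th : ℝ) ^ (2 * w) := by
        field_simp; ring
      rw [e3, div_le_iff₀ (by positivity), ← e2]
      exact mul_le_mul_of_nonneg_right hth4 (by positivity)
    have g11 := le_of_mul_le_mul_left (g9.trans g10) (by positivity)
    exact le_of_mul_le_mul_right g11 (by positivity)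
  have h6 := card_le_card hsub
  set c := (QQ.filter (fun Q' => |lam U th x p P2 Q' Q1 / lam U th x p P1 Q' Q1 -
      lam U th x p P2 Q Q1 / lam U th x p P1 Q Q1| ≤ 2 * ((th : ℝ) ^ (2 * w))⁻¹)).card
  set c' := ((cells B (th ^ p)).filter
    (fun c : ℕ => |(c : ℝ) - (Q : ℝ)| ≤ (th : ℝ) ^ (z - p))).card
  have h7 : 960000 ≤ th ^ 2 := by nlinarith
  refine Nat.le_of_mul_le_mul_right (c := al (2 * k)) ?_ (by omega)
  calc c * th ^ w * al (2 * k) ≤ c' * th ^ w * ((cells B (th ^ p)).card * (2 * al p)) :=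
        Nat.mul_le_mul (Nat.mul_le_mul_right _ h6) (h4.trans h3)
    _ = (c' * al p) * (cells B (th ^ p)).card * (2 * th ^ w) := by ring
    _ ≤ (6 * al z) * (80000 * (th ^ 240) ^ 2 * QQ.card) * (2 * th ^ w) :=
        Nat.mul_le_mul_right _ (Nat.mul_le_mul h1 hc)
    _ = 960000 * (al z * th ^ w) * (th ^ 480 * QQ.card) := by ring
    _ ≤ th ^ 2 * (th ^ 505 * al (2 * k)) * (th ^ 480 * QQ.card) :=
        Nat.mul_le_mul_right _ (Nat.mul_le_mul h7 h2)
    _ = _ := by ring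

end

theorem bridge : ∃ n0 : ℕ, ∀ n ≥ n0, ∃ h0 : ℕ, ∀ h ≥ h0, ∀ {th k X : ℕ} {al : ℕ → ℕ}
    {A B : Finset ℕ} {jA jB : ℕ} {ca cb : ℕ → ℂ} {om : ℝ → ℝ → ℂ}
    {Φ F U ps : ℝ → ℝ → ℝ},
    Setup th k X al A B jA jB ca cb om Φ F U ps → ∀ {x p r : ℕ}, x + r = 2 * k →
    p = r + 4 * h * (n + 1) → x ≤ X → X + 8 * h * (n + 1) ≤ 2 * k →
    p + 8 * h * (n + 1) ≤ 2 * k →
    th ^ (p - r) * (al r * al (2 * k - p)) ≤ th ^ 140 * (al x * al p) →
    al (p - 4 * h) * th ^ h ≤ al p →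
    th ^ (36 * h * n) * al r ^ 10 ≤ (2 * th ^ (4 * h) * al p) ^ 10 := by
  obtain ⟨n0, hn0⟩ := Bar.sum_product
  refine ⟨n0, fun n hn => ?_⟩
  obtain ⟨C, hC⟩ := hn0 n hn
  refine ⟨482 * C + 1000, fun h hh => ?_⟩
  intro th k X al A B jA jB ca cb om Φ F U ps hS x p r hxr hp hx hX hp2 hrev hbr
  have hth : 1000 ≤ th := hS.big.h1000
  have hhn : 4 * h * (n + 1) = 4 * (h * n) + 4 * h := by ring
  have hhn' : 8 * h * (n + 1) = 8 * (h * n) + 8 * h := by ring
  rw [hhn] at hp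
  rw [hhn'] at hX hp2
  have hrp : r ≤ p := by omega
  have hpk : p ≤ 2 * k := by omega
  have hE := hS.cross_energy hxr hrp hx hpk (by omega) (by omega) hrev
  obtain ⟨hAne, hBne⟩ := hS.nonempty
  have hPP : (cells A (th ^ x)).Nonempty := hAne.image _
  have hQQ : (cells B (th ^ p)).Nonempty := hBne.image _
  have har : 1 ≤ al r := hS.uB.pos hBne (by omega)
  have hap : 1 ≤ al p := hS.uB.pos hBne hpk
  -- fix the second cell
  obtain ⟨Q1, hQ1, hQ1E⟩ : ∃ Q1 ∈ cells B (th ^ p),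
      al p ^ 3 * ((cells A (th ^ x)).card * (cells B (th ^ p)).card) ≤
        th ^ 240 * al r ^ 3 * ∑ P ∈ cells A (th ^ x), ∑ Q ∈ cells B (th ^ p),
          enr (zc th r p B Q) (zc th r p B Q1) (lam U th x p P Q Q1) 4 := by
    refine exists_le_of_sum_le hQQ ?_
    rw [sum_const, smul_eq_mul, ← mul_sum]
    have e : ∑ Q' ∈ cells B (th ^ p), ∑ P ∈ cells A (th ^ x), ∑ Q ∈ cells B (th ^ p),
        enr (zc th r p B Q) (zc th r p B Q') (lam U th x p P Q Q') 4 =
        ∑ P ∈ cells A (th ^ x), ∑ Q ∈ cells B (th ^ p), ∑ Q' ∈ cells B (th ^ p),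
        enr (zc th r p B Q) (zc th r p B Q') (lam U th x p P Q Q') 4 := by
      rw [sum_comm]
      exact sum_congr rfl fun P _ => sum_comm
    rw [e]
    refine le_trans (le_of_eq ?_) hE
    ring
  have harR : (0 : ℝ) < al r := by exact_mod_cast har
  have hapR : (0 : ℝ) < al p := by exact_mod_cast hap
  have hZ : ∀ Q ∈ cells B (th ^ p), ((zc th r p B Q).card : ℝ) ≤ 2 * ((al p : ℝ) / al r) := by
    intro Q hQ
    have := (zc_card hS.uB hrp hpk hQ).1
    rw [← mul_div_assoc, le_div_iff₀ harR]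
    exact_mod_cast this
  obtain ⟨P1, hP1, P2, hP2, hfar, QQ, hQQs, hQQc, hQQE⟩ :=
    exists_far_pair (cells A (th ^ x)) (cells B (th ^ p)) (zc th r p B) (zc th r p B Q1)
      (fun P Q => lam U th x p P Q Q1)
      (fun P P' => |(P' : ℝ) - P| ≤ (th : ℝ) ^ (2 * k - 985 - x))
      (D := (al p : ℝ) / al r) (K := (th : ℝ) ^ 240) (by positivity) (by positivity) hPP hQQ hZ
      (hZ Q1 hQ1)
      (fun P hP Q hQ => (hS.lam_bounds (by omega) hpk hP hQ hQ1).1)
      (by
        rw [div_pow, div_mul_eq_mul_div, div_le_iff₀ (by positivity)]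
        have := (Nat.cast_le (α := ℝ)).2 hQ1E
        push_cast at this
        linarith)
      (by
        intro P _
        have := (Nat.cast_le (α := ℝ)).2 (br_nearP hS (x := x) (by omega) (by omega) P)
        push_cast at this
        exact this)
  have hQQc' : (cells B (th ^ p)).card ≤ 80000 * (th ^ 240) ^ 2 * QQ.card := by
    exact_mod_cast hQQc
  have hQQne : QQ.Nonempty := by
    rw [← card_pos]
    have := hQQ.card_pos
    rcases Nat.eq_zero_or_pos QQ.card with h0 | h0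
    · rw [h0] at hQQc'; omega
    · exact h0
  have hz := zc_card hS.uB hrp hpk hQ1
  have hHne : (zc th r p B Q1).Nonempty := by
    rw [← card_pos]
    rcases Nat.eq_zero_or_pos (zc th r p B Q1).card with h0 | h0
    · have := hz.2; rw [h0] at this; omega
    · exact h0
  have hK : 1000 ≤ th ^ 482 := by
    have := Nat.le_self_pow (n := 482) (by decide) th
    exact le_trans hth this
  have key := hC (th ^ 482) (th ^ h) hK
    (by rw [← pow_mul]; exact Nat.pow_le_pow_right (by omega) (by omega))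
    (zc th r p B Q1) QQ (fun Q => lam U th x p P2 Q Q1 / lam U th x p P1 Q Q1) hHne hQQne
    (by
      intro Q hQ
      have hx2 : x ≤ 2 * k := by omega
      exact hS.ker.y_bounds hS.Lpos (hS.memA hx2 hP1) (hS.memA hx2 hP2) (hS.memB hpk (hQQs hQ))
        (hS.memB hpk hQ1))
    (by
      intro Q hQ
      have g1 := hQQE Q hQ
      have g2 := hZ Q1 hQ1
      have g3 : ((zc th r p B Q1).card : ℝ) ^ 3 ≤ (2 * ((al p : ℝ) / al r)) ^ 3 :=
        pow_le_pow_left₀ (by positivity) g2 3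
      have g4 : (2304 : ℝ) ≤ (th : ℝ) ^ 2 := by
        exact_mod_cast (by nlinarith : 2304 ≤ th ^ 2)
      set E : ℝ := (enr (zc th r p B Q1) (zc th r p B Q1)
        (lam U th x p P2 Q Q1 / lam U th x p P1 Q Q1) 16 : ℝ) with hEdef
      have hE0 : 0 ≤ E := by positivity
      have g5 : ((zc th r p B Q1).card : ℝ) ^ 3 ≤ (th : ℝ) ^ 482 * E := by
        calc _ ≤ 8 * ((al p : ℝ) / al r) ^ 3 := by rw [mul_pow] at g3; norm_num at g3 ⊢; exact g3
          _ ≤ 8 * (288 * ((th : ℝ) ^ 240) ^ 2 * E) := by linarith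
          _ = 2304 * ((th : ℝ) ^ 480 * E) := by ring
          _ ≤ (th : ℝ) ^ 2 * ((th : ℝ) ^ 480 * E) :=
              mul_le_mul_of_nonneg_right g4 (by positivity)
          _ = _ := by ring
      rw [hEdef] at g5
      exact_mod_cast g5)
    (by
      intro v hv Q hQ
      rcases Nat.eq_zero_or_pos v with rfl | hv0
      · rw [pow_zero ((th ^ h) ^ 4), mul_one]
        exact le_trans (card_filter_le _ _)
          (Nat.le_mul_of_pos_left _ (pow_pos (by omega : 0 < th) h))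
      · have hv1 : h * (2 * v) ≤ h * n := Nat.mul_le_mul_left _ hv
        have hv2 : h * 1 ≤ h * v := Nat.mul_le_mul_left _ hv0
        have hv3 : h * (2 * v) = 2 * (h * v) := by ring
        have g := br_NY hS (x := x) (p := p) (w := 4 * (h * v)) (by omega) (by omega) (by omega)
          (by omega) hP1 hP2 hfar hQ1 hQQs hQQc' hQ
        have e1 : ((th ^ h) ^ 4) ^ v = th ^ (4 * (h * v)) := by rw [← pow_mul, ← pow_mul]; ring_nf
        have e2 : ((((th ^ h) ^ 4 : ℕ) : ℝ))⁻¹ ^ (2 * v) =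
            ((th : ℝ) ^ (2 * (4 * (h * v))))⁻¹ := by
          push_cast
          rw [inv_pow, ← pow_mul, ← pow_mul]; ring_nf
        rw [e1, e2]
        exact g.trans (Nat.mul_le_mul_right _ (Nat.pow_le_pow_right (by omega) (by omega))))
    (by
      intro z _
      have g := br_NH hS (p := p) (r := r) (w := p - 4 * h) (e := h) (by omega) (by omega) hpk hbr
        hQ1 z
      have e2 : ((((th ^ h) ^ 4 : ℕ) : ℝ)) ^ n = (th : ℝ) ^ (p - 4 * h - r) := by
        push_cast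
        rw [← pow_mul, ← pow_mul]
        congr 1
        have : h * (4 * n) = 4 * (h * n) := by ring
        omega
      rw [e2]
      exact g.trans (Nat.mul_le_mul_right _ (by omega)))
  calc th ^ (36 * h * n) * al r ^ 10 = ((th ^ h) ^ 4) ^ (9 * n) * al r ^ 10 := by
        rw [← pow_mul, ← pow_mul]; ring_nf
    _ ≤ ((th ^ h) ^ 4 * (zc th r p B Q1).card) ^ 10 * al r ^ 10 := Nat.mul_le_mul_right _ key
    _ = (th ^ (4 * h) * ((zc th r p B Q1).card * al r)) ^ 10 := by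
        rw [← mul_pow, ← pow_mul]; ring_nf
    _ ≤ (th ^ (4 * h) * (2 * al p)) ^ 10 :=
        Nat.pow_le_pow_left (Nat.mul_le_mul_left _ hz.1) _
    _ = _ := by ring

/-- The bilinear estimate for an abstract kernel. -/
theorem abilinear : ∃ k X : ℕ, 100 ≤ k ∧ k ≤ X ∧ X + 100 ≤ 2 * k ∧
    ∀ (th : ℕ) (al : ℕ → ℕ) (A B : Finset ℕ) (jA jB : ℕ) (ca cb : ℕ → ℂ) (om : ℝ → ℝ → ℂ)
      (Φ F U ps : ℝ → ℝ → ℝ), ¬ Setup th k X al A B jA jB ca cb om Φ F U ps := by
  obtain ⟨n0, hn⟩ := bridge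
  obtain ⟨i, hi⟩ : ∃ i, i = n0 + 20 := ⟨_, rfl⟩
  obtain ⟨h0, hh0⟩ := hn (4 * i - 1) (by omega)
  obtain ⟨h, hh⟩ : ∃ h, h = h0 + 100 := ⟨_, rfl⟩
  obtain ⟨m, hm⟩ : ∃ m, m = h * i := ⟨_, rfl⟩
  have hm1 : 20 * h ≤ m := by rw [hm]; nlinarith
  have e8 : 8 * h * i = 8 * m := by rw [hm]; ring
  have e16 : 16 * h * i = 16 * m := by rw [hm]; ring
  have e1000 : 1000 * h * i = 1000 * m := by rw [hm]; ring
  have e4n : 4 * h * (4 * i - 1 + 1) = 16 * m := by
    rw [show 4 * i - 1 + 1 = 4 * i by omega, hm]; ring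
  have e8n : 8 * h * (4 * i - 1 + 1) = 32 * m := by
    rw [show 4 * i - 1 + 1 = 4 * i by omega, hm]; ring
  obtain ⟨k, hk⟩ : ∃ k, k = 1000 * m := ⟨_, rfl⟩
  refine ⟨k, k + 8 * h * i, by omega, by omega, by omega, 
    fun th al A B jA jB ca cb om Φ F U ps S => ?_⟩
  have hth := S.big.h1000
  have hB := S.nonempty.2
  have pos : ∀ j, j ≤ 2 * k → 1 ≤ al j := fun j hj => S.uB.pos hB hj
  have tp : ∀ e, 1 ≤ th ^ e := fun e => Nat.one_le_pow _ _ (by omega)
  have mp : ∀ {u v : ℕ}, 1 ≤ u → 1 ≤ v → 1 ≤ u * v := fun hu hv => Nat.mul_pos hu hv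
  have pp : ∀ {u : ℕ} (e : ℕ), 1 ≤ u → 1 ≤ u ^ e := fun e hu => Nat.one_le_pow _ _ hu
  have l2 := bilinear_log_two hth
  refine numeric (fun j => Real.logb th (al j)) (i := i) (h := h) (k := k) (by omega) (by omega)
    (by omega) ?_ (fun u v huv hv => ?_) (fun u v huv hv => ?_) ?_ (fun x y hx hy h1 h2 => ?_) ?_
    (fun x p r h1 h2 h3 h4 h5 h6 => ?_)
  · simp only [S.uB.zero hB, Nat.cast_one, Real.logb_one]
  · have := (bilinear_log_iff hth (pos u (by omega)) (mp (by omega) (pos v hv))).2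
      (S.uB.mono hB huv hv)
    rw [bilinear_log_mul (by omega) (pos v hv)] at this
    linarith
  · have := (bilinear_log_iff hth (pos v hv) (mp (tp _) (mp (by omega) (pos u (by omega))))).2
      (S.uB.slope hB (by omega) huv hv)
    rw [bilinear_log_mul (tp _) (mp (by omega) (pos u (by omega))),
      bilinear_log_mul (by omega) (pos u (by omega)), bilinear_log_self hth,
      Nat.cast_sub huv] at this
    linarith
  · have := (bilinear_log_iff hth (tp _) (mp (tp _) (pp 2 (pos _ le_rfl)))).2 S.top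
    rw [bilinear_log_mul (tp _) (pp 2 (pos _ le_rfl)), bilinear_log_self hth,
      bilinear_log_self hth, bilinear_log_pow] at this
    push_cast at this
    linarith
  · have px := pos x (by omega)
    have py := pos y hy
    have px' := pos (2 * k - x) (by omega)
    have py' := pos (2 * k - y) (by omega)
    have := (bilinear_log_iff hth (mp px py) (mp (tp _) (mp px' py'))).2
      (S.dual (by omega) hy h1 h2 (by omega))
    rw [bilinear_log_mul px py, bilinear_log_mul (tp _) (mp px' py'), bilinear_log_mul px' py',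
      bilinear_log_self hth, Nat.cast_sub (by omega)] at this
    push_cast at this
    linarith
  · have pz := pos (k + 8 * h * i + 21) (by omega)
    have := (bilinear_log_iff hth (mp (pp 2 pz) (tp _)) (mp (tp _) (pp 2 (pos _ le_rfl)))).2
      (S.branch (z := k + 8 * h * i + 21) le_rfl (by omega))
    rw [bilinear_log_mul (pp 2 pz) (tp _), bilinear_log_mul (tp _) (pp 2 (pos _ le_rfl)),
      bilinear_log_self hth, bilinear_log_self hth, bilinear_log_pow, bilinear_log_pow,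
      Nat.cast_sub (by omega)] at this
    push_cast at this
    linarith
  · have pr := pos r (by omega)
    have pq := pos p (by omega)
    have px := pos x (by omega)
    have pq' := pos (2 * k - p) (by omega)
    have pq4 := pos (p - 4 * h) (by omega)
    have key := hh0 h (by omega) S (x := x) (p := p) (r := r) h1 (by omega) h3 (by omega) (by omega)
      (by
        refine (bilinear_log_iff hth (mp (tp _) (mp pr pq')) (mp (tp _) (mp px pq))).1 ?_
        rw [bilinear_log_mul (tp _) (mp pr pq'), bilinear_log_mul (tp _) (mp px pq),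
          bilinear_log_mul pr pq', bilinear_log_mul px pq, bilinear_log_self hth,
          bilinear_log_self hth, show p - r = 16 * h * i by omega]
        push_cast
        linarith)
      (by
        refine (bilinear_log_iff hth (mp pq4 (tp _)) pq).1 ?_
        rw [bilinear_log_mul pq4 (tp _), bilinear_log_self hth]
        exact h6)
    have p3 : 1 ≤ 2 * th ^ (4 * h) := mp (by omega) (tp _)
    have := (bilinear_log_iff hth (mp (tp _) (pp 10 pr)) (pp 10 (mp p3 pq))).2 key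
    rw [bilinear_log_mul (tp _) (pp 10 pr), bilinear_log_self hth, bilinear_log_pow,
      bilinear_log_pow, bilinear_log_mul p3 pq, bilinear_log_mul (by omega) (tp _),
      bilinear_log_self hth, Nat.cast_mul, Nat.cast_sub (by omega)] at this
    push_cast at this l2
    linarith

end Pool.Agent.Lib.MP_ecd12e_nt.ZS
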