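import Pool.Agent.Lib.MP_ecd12e_nt.ZS.Defs

/-!
Calculus for an abstract kernel.
-/

set_option autoImplicit false

namespace Pool.Agent.Lib.MP_ecd12e_nt.ZS

open Finset Real

lemma acalc_log_le {m u v : ℝ} (hm : 0 < m) (hu : m ≤ u) (hv : m ≤ v) :
    |Real.log u - Real.log v| ≤ |u - v| / m := by
  have key : ∀ a b : ℝ, m ≤ a → m ≤ b → Real.log a - Real.log b ≤ |a - b| / m := by
    intro a b ha hb
    have ha0 : 0 < a := hm.trans_le ha
    have hb0 : 0 < b := hm.trans_le hb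
    have h1 := Real.log_le_sub_one_of_pos (div_pos ha0 hb0)
    rw [Real.log_div ha0.ne' hb0.ne'] at h1
    have h2 : a / b - 1 = (a - b) / b := by field_simp
    have h3 : (a - b) / b ≤ |a - b| / b := div_le_div_of_nonneg_right (le_abs_self _) hb0.le
    have h4 : |a - b| / b ≤ |a - b| / m := div_le_div_of_nonneg_left (abs_nonneg _) hm hb
    linarith
  rw [abs_le]
  refine ⟨?_, key u v hu hv⟩
  have := key v u hv hu
  rw [abs_sub_comm] at this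
  linarith

lemma acalc_le_log {M u v : ℝ} (hu0 : 0 < u) (hv0 : 0 < v) (hu : u ≤ M) (hv : v ≤ M) :
    |u - v| ≤ M * |Real.log u - Real.log v| := by
  have key : ∀ a b : ℝ, 0 < a → 0 < b → a ≤ M → a - b ≤ M * |Real.log a - Real.log b| := by
    intro a b ha0 hb0 ha
    have h1 := Real.log_le_sub_one_of_pos (div_pos hb0 ha0)
    rw [Real.log_div hb0.ne' ha0.ne'] at h1
    have h2 : a * (Real.log b - Real.log a) ≤ a * (b / a - 1) :=
      mul_le_mul_of_nonneg_left h1 ha0.le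
    have h3 : a * (b / a - 1) = b - a := by field_simp
    have h4 : a * (Real.log a - Real.log b) ≤ a * |Real.log a - Real.log b| :=
      mul_le_mul_of_nonneg_left (le_abs_self _) ha0.le
    have h5 : a * |Real.log a - Real.log b| ≤ M * |Real.log a - Real.log b| :=
      mul_le_mul_of_nonneg_right ha (abs_nonneg _)
    linarith
  rw [abs_le]
  refine ⟨?_, key u v hu0 hv0 hu⟩
  have := key v u hv0 hu0 hv
  rw [abs_sub_comm] at this
  linarith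

lemma acalc_near_one {y : ℝ} (hy : 0 < y) (h : |Real.log y| ≤ 1 / 10) : 3 / 4 ≤ y ∧ y ≤ 5 / 4 := by
  obtain ⟨h1, h2⟩ := abs_le.1 h
  constructor
  · have := Real.log_le_sub_one_of_pos hy
    linarith
  · have h3 := Real.one_sub_inv_le_log_of_pos hy
    have h4 : 9 / 10 ≤ y⁻¹ := by linarith
    have h5 : 9 / 10 * y ≤ y⁻¹ * y := mul_le_mul_of_nonneg_right h4 hy.le
    rw [inv_mul_cancel₀ hy.ne'] at h5
    linarith

lemma blk_diam {L : ℝ} {j : ℕ} {x y : ℝ} (hx : x ∈ Blk L j) (hy : y ∈ Blk L j) :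
    |x - y| ≤ L := by
  obtain ⟨a1, a2⟩ := hx
  obtain ⟨b1, b2⟩ := hy
  rw [abs_le]
  constructor <;> linarith

/-- The mean value theorem inside a block. -/
lemma blk_mvt {L : ℝ} {j : ℕ} {f f' : ℝ → ℝ} (hf : ∀ x ∈ Blk L j, HasDerivAt f (f' x) x)
    {x y : ℝ} (hx : x ∈ Blk L j) (hy : y ∈ Blk L j) :
    ∃ c ∈ Blk L j, |c - x| ≤ |y - x| ∧ f y - f x = f' c * (y - x) := by
  have key : ∀ u v : ℝ, u ∈ Blk L j → v ∈ Blk L j → u < v →
      ∃ c ∈ Blk L j, u < c ∧ c < v ∧ f v - f u = f' c * (v - u) := by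
    intro u v hu hv huv
    have hsub : Set.Icc u v ⊆ Blk L j := Set.Icc_subset_Icc hu.1 hv.2
    obtain ⟨c, hc, e⟩ := exists_hasDerivAt_eq_slope f f' huv
      (fun z hz => (hf z (hsub hz)).continuousAt.continuousWithinAt)
      (fun z hz => hf z (hsub (Set.Ioo_subset_Icc_self hz)))
    refine ⟨c, hsub (Set.Ioo_subset_Icc_self hc), hc.1, hc.2, ?_⟩
    rw [e, div_mul_cancel₀ _ (sub_pos.2 huv).ne']
  rcases lt_trichotomy x y with h | h | h
  · obtain ⟨c, hc, h1, h2, e⟩ := key x y hx hy h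
    refine ⟨c, hc, ?_, e⟩
    rw [abs_of_pos (by linarith), abs_of_pos (by linarith)]
    linarith
  · subst h
    exact ⟨x, hx, le_rfl, by simp⟩
  · obtain ⟨c, hc, h1, h2, e⟩ := key y x hy hx h
    refine ⟨c, hc, ?_, by linarith⟩
    rw [abs_of_neg (by linarith), abs_of_neg (by linarith)]
    linarith

section
variable {t L : ℝ} {jA jB : ℕ} {Φ F U ps : ℝ → ℝ → ℝ}

lemma Ker.upos (K : Ker t L jA jB Φ F U ps) (hL : 0 < L) {a s : ℝ} (ha : a ∈ Blk L jA)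
    (hs : s ∈ Blk L jB) : 0 < U a s := by
  have := K.lo a ha s hs
  linarith

lemma Ker.inv_le (K : Ker t L jA jB Φ F U ps) (hL : 0 < L) {a s : ℝ} (ha : a ∈ Blk L jA)
    (hs : s ∈ Blk L jB) : (U a s)⁻¹ ≤ (2 * L)⁻¹ :=
  inv_anti₀ (by linarith) (K.lo a ha s hs).le

lemma Ker.inv_lip (K : Ker t L jA jB Φ F U ps) (hL : 0 < L) {a a' s s' : ℝ} (ha : a ∈ Blk L jA)
    (ha' : a' ∈ Blk L jA) (hs : s ∈ Blk L jB) (hs' : s' ∈ Blk L jB) :
    |(U a s)⁻¹ - (U a' s')⁻¹| ≤ (|a - a'| + |s - s'|) / (40 * L ^ 2) := by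
  have h1 := acalc_le_log (inv_pos.2 (K.upos hL ha hs)) (inv_pos.2 (K.upos hL ha' hs'))
    (K.inv_le hL ha hs) (K.inv_le hL ha' hs')
  rw [Real.log_inv, Real.log_inv, neg_sub_neg, abs_sub_comm (Real.log (U a' s'))] at h1
  have h2 := K.lip a ha a' ha' s hs s' hs'
  refine h1.trans ?_
  rw [le_div_iff₀ (by positivity)]
  refine le_trans (le_of_eq ?_) h2
  field_simp
  ring

lemma Ker.F_lip (K : Ker t L jA jB Φ F U ps) (hL : 0 < L) {a s s' : ℝ} (ha : a ∈ Blk L jA)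
    (hs : s ∈ Blk L jB) (hs' : s' ∈ Blk L jB) : |F a s - F a s'| ≤ |s' - s| / (2 * L) := by
  obtain ⟨c, hc, -, e⟩ := blk_mvt (f := fun x => F a x) (f' := fun x => -(U a x)⁻¹)
    (K.dF a ha) hs' hs
  rw [e, abs_mul, abs_neg, abs_of_pos (inv_pos.2 (K.upos hL ha hc)), abs_sub_comm s s',
    div_eq_inv_mul]
  exact mul_le_mul_of_nonneg_right (K.inv_le hL ha hc) (abs_nonneg _)

lemma Ker.F_low (K : Ker t L jA jB Φ F U ps) (hL : 0 < L) {a s s' : ℝ} (ha : a ∈ Blk L jA)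
    (hs : s ∈ Blk L jB) (hs' : s' ∈ Blk L jB) : |s' - s| ≤ t * L * |F a s - F a s'| := by
  obtain ⟨c, hc, -, e⟩ := blk_mvt (f := fun x => F a x) (f' := fun x => -(U a x)⁻¹)
    (K.dF a ha) hs' hs
  have h0 := K.upos hL ha hc
  rw [e, abs_mul, abs_neg, abs_of_pos (inv_pos.2 h0), abs_sub_comm s s']
  have h1 : |s' - s| = U a c * ((U a c)⁻¹ * |s' - s|) := by field_simp
  refine h1.le.trans (mul_le_mul_of_nonneg_right (K.hi a ha c hc).le ?_)
  positivity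

/-- The remainder of the phase. -/
noncomputable def remR (Φ F : ℝ → ℝ → ℝ) (a0 a s : ℝ) : ℝ := Φ a s - Φ a0 s - (a - a0) * F a0 s

lemma Ker.taylor (K : Ker t L jA jB Φ F U ps) (hL : 0 < L) {a0 a s s' : ℝ} (ha0 : a0 ∈ Blk L jA)
    (ha : a ∈ Blk L jA) (hs : s ∈ Blk L jB) (hs' : s' ∈ Blk L jB) :
    |remR Φ F a0 a s - remR Φ F a0 a s'| ≤ ((a - a0) / L) ^ 2 * |s - s'| := by
  obtain ⟨c, hc, hc1, e⟩ := blk_mvt (f := fun x => Φ x s - Φ x s') (f' := fun x => F x s - F x s')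
    (fun x hx => (K.dPhi x hx s hs).sub (K.dPhi x hx s' hs')) ha0 ha
  obtain ⟨d, hd, -, e'⟩ := blk_mvt (f := fun x => F c x - F a0 x)
    (f' := fun x => -(U c x)⁻¹ - -(U a0 x)⁻¹)
    (fun x hx => (K.dF c hc x hx).sub (K.dF a0 ha0 x hx)) hs' hs
  have e1 : remR Φ F a0 a s - remR Φ F a0 a s' =
      (a - a0) * (((U a0 d)⁻¹ - (U c d)⁻¹) * (s - s')) := by
    unfold remR
    have e2 : F c s - F c s' - (F a0 s - F a0 s') = ((U a0 d)⁻¹ - (U c d)⁻¹) * (s - s') := by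
      linarith
    rw [← e2]
    linarith
  have h1 := K.inv_lip hL ha0 hc hd hd
  rw [sub_self, abs_zero, add_zero, abs_sub_comm a0 c] at h1
  have h2 : |(U a0 d)⁻¹ - (U c d)⁻¹| ≤ |a - a0| / L ^ 2 := by
    refine h1.trans (div_le_div₀ (abs_nonneg _) hc1 (by positivity) ?_)
    have : 0 < L ^ 2 := by positivity
    linarith
  rw [e1, abs_mul, abs_mul, ← mul_assoc]
  refine mul_le_mul_of_nonneg_right ?_ (abs_nonneg _)
  calc |a - a0| * |(U a0 d)⁻¹ - (U c d)⁻¹| ≤ |a - a0| * (|a - a0| / L ^ 2) :=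
        mul_le_mul_of_nonneg_left h2 (abs_nonneg _)
    _ = |a - a0| ^ 2 / L ^ 2 := by ring
    _ = ((a - a0) / L) ^ 2 := by rw [sq_abs, div_pow]

lemma Ker.linear (K : Ker t L jA jB Φ F U ps) (hL : 0 < L) {a s v q : ℝ} (ha : a ∈ Blk L jA)
    (hs : s ∈ Blk L jB) (hv : v ∈ Blk L jB) (h0 : 0 ≤ s - v) (h1 : s - v ≤ q) :
    |F a s - F a v + (s - v) / U a v| ≤ q ^ 2 / (2 * L ^ 2) := by
  obtain ⟨c, hc, hc1, e⟩ := blk_mvt (f := fun x => F a x) (f' := fun x => -(U a x)⁻¹)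
    (K.dF a ha) hv hs
  have e1 : F a s - F a v + (s - v) / U a v = ((U a v)⁻¹ - (U a c)⁻¹) * (s - v) := by
    rw [e, div_eq_mul_inv]
    ring
  have h2 := K.inv_lip hL ha ha hv hc
  rw [sub_self, abs_zero, zero_add, abs_sub_comm v c] at h2
  rw [abs_of_nonneg h0] at hc1
  have hq : 0 ≤ q := h0.trans h1
  have h3 : |(U a v)⁻¹ - (U a c)⁻¹| ≤ q / (2 * L ^ 2) := by
    refine h2.trans (div_le_div₀ hq (hc1.trans h1) (by positivity) ?_)
    have : 0 < L ^ 2 := by positivity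
    linarith
  rw [e1, abs_mul, abs_of_nonneg h0]
  calc |(U a v)⁻¹ - (U a c)⁻¹| * (s - v) ≤ q / (2 * L ^ 2) * q :=
        mul_le_mul h3 h1 h0 (by positivity)
    _ = q ^ 2 / (2 * L ^ 2) := by ring

lemma Ker.log_near (K : Ker t L jA jB Φ F U ps) (hL : 0 < L) {a v v' : ℝ} (ha : a ∈ Blk L jA)
    (hv : v ∈ Blk L jB) (hv' : v' ∈ Blk L jB) :
    |Real.log (U a v) - Real.log (U a v')| ≤ 1 / 20 := by
  have h1 := K.lip a ha a ha v hv v' hv'
  rw [sub_self, abs_zero, zero_add] at h1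
  have h2 := h1.trans (blk_diam hv hv')
  have h3 : L * (20 * |Real.log (U a v) - Real.log (U a v')|) ≤ L * 1 := by linarith
  have h4 := le_of_mul_le_mul_left h3 hL
  linarith

lemma Ker.ratio (K : Ker t L jA jB Φ F U ps) (hL : 0 < L) {a v v' : ℝ} (ha : a ∈ Blk L jA)
    (hv : v ∈ Blk L jB) (hv' : v' ∈ Blk L jB) :
    1 / 2 ≤ U a v / U a v' ∧ U a v / U a v' ≤ 3 / 2 := by
  have p1 := K.upos hL ha hv
  have p2 := K.upos hL ha hv'
  have h := acalc_near_one (div_pos p1 p2) (by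
    rw [Real.log_div p1.ne' p2.ne']
    linarith [K.log_near hL ha hv hv'])
  constructor <;> linarith [h.1, h.2]

lemma Ker.log_y (K : Ker t L jA jB Φ F U ps) (hL : 0 < L) {a1 a2 v v1 : ℝ} (h1 : a1 ∈ Blk L jA)
    (h2 : a2 ∈ Blk L jA) (hv : v ∈ Blk L jB) (hv1 : v1 ∈ Blk L jB) :
    Real.log ((U a2 v / U a2 v1) / (U a1 v / U a1 v1)) =
      (Real.log (U a2 v) - Real.log (U a2 v1)) - (Real.log (U a1 v) - Real.log (U a1 v1)) := by
  have p1 := K.upos hL h2 hv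
  have p2 := K.upos hL h2 hv1
  have p3 := K.upos hL h1 hv
  have p4 := K.upos hL h1 hv1
  rw [Real.log_div (div_pos p1 p2).ne' (div_pos p3 p4).ne', Real.log_div p1.ne' p2.ne',
    Real.log_div p3.ne' p4.ne']

lemma Ker.y_bounds (K : Ker t L jA jB Φ F U ps) (hL : 0 < L) {a1 a2 v v1 : ℝ}
    (h1 : a1 ∈ Blk L jA) (h2 : a2 ∈ Blk L jA) (hv : v ∈ Blk L jB) (hv1 : v1 ∈ Blk L jB) :
    3 / 4 ≤ (U a2 v / U a2 v1) / (U a1 v / U a1 v1) ∧
      (U a2 v / U a2 v1) / (U a1 v / U a1 v1) ≤ 5 / 4 := by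
  refine acalc_near_one (div_pos (div_pos (K.upos hL h2 hv) (K.upos hL h2 hv1))
    (div_pos (K.upos hL h1 hv) (K.upos hL h1 hv1))) ?_
  rw [K.log_y hL h1 h2 hv hv1]
  have a := abs_le.1 (K.log_near hL h2 hv hv1)
  have b := abs_le.1 (K.log_near hL h1 hv hv1)
  rw [abs_le]
  constructor <;> linarith [a.1, a.2, b.1, b.2]

lemma Ker.y_diff (K : Ker t L jA jB Φ F U ps) (hL : 0 < L) {a1 a2 v v' v1 : ℝ}
    (h1 : a1 ∈ Blk L jA) (h2 : a2 ∈ Blk L jA) (hv : v ∈ Blk L jB) (hv' : v' ∈ Blk L jB)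
    (hv1 : v1 ∈ Blk L jB) :
    |a2 - a1| * |v' - v| ≤ 2 * (t * L) ^ 2 * |(U a2 v' / U a2 v1) / (U a1 v' / U a1 v1) -
      (U a2 v / U a2 v1) / (U a1 v / U a1 v1)| := by
  have h3 := acalc_log_le (by norm_num : (0 : ℝ) < 3 / 4) (K.y_bounds hL h1 h2 hv' hv1).1
    (K.y_bounds hL h1 h2 hv hv1).1
  rw [K.log_y hL h1 h2 hv' hv1, K.log_y hL h1 h2 hv hv1] at h3
  have h4 := K.curv a1 h1 a2 h2 v hv v' hv'
  have e : (Real.log (U a2 v') - Real.log (U a1 v')) - (Real.log (U a2 v) - Real.log (U a1 v)) =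
      Real.log (U a2 v') - Real.log (U a2 v1) - (Real.log (U a1 v') - Real.log (U a1 v1)) -
        (Real.log (U a2 v) - Real.log (U a2 v1) - (Real.log (U a1 v) - Real.log (U a1 v1))) := by
    ring
  rw [e] at h4
  refine h4.trans ((mul_le_mul_of_nonneg_left h3 (sq_nonneg _)).trans ?_)
  set d := |(U a2 v' / U a2 v1) / (U a1 v' / U a1 v1) - (U a2 v / U a2 v1) / (U a1 v / U a1 v1)|
  have d0 : 0 ≤ (t * L) ^ 2 * d := mul_nonneg (sq_nonneg _) (abs_nonneg _)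
  have e2 : (t * L) ^ 2 * (d / (3 / 4)) = 4 / 3 * ((t * L) ^ 2 * d) := by ring
  rw [e2]
  linarith

end

end Pool.Agent.Lib.MP_ecd12e_nt.ZS
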