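import Pool.Agent.Lib.MP_ecd12e_nt.ZS.ALocal

/-!
Duality and branching for an abstract kernel.
-/

set_option autoImplicit false

namespace Pool.Agent.Lib.MP_ecd12e_nt.ZS

open Finset Real
open scoped Pointwise
open Pool.Agent.Lib.MP_ecd12e_nt.Bar

section
variable {th k X : ℕ} {al : ℕ → ℕ} {A B : Finset ℕ} {jA jB : ℕ} {ca cb : ℕ → ℂ}
  {om : ℝ → ℝ → ℂ} {Φ F U ps : ℝ → ℝ → ℝ}

lemma adual_floor_diff (a b : ℝ) : ((|⌊a⌋ - ⌊b⌋| : ℤ) : ℝ) ≤ |a - b| + 1 := by
  have h1 := Int.floor_le a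
  have h2 := Int.floor_le b
  have h3 := Int.lt_floor_add_one a
  have h4 := Int.lt_floor_add_one b
  have h5 := le_abs_self (a - b)
  have h6 := neg_abs_le (a - b)
  push_cast
  rw [abs_le]
  constructor <;> linarith

lemma dual_norm_bil (hca : ∀ a, ‖ca a‖ ≤ 1) (hcb : ∀ s, ‖cb s‖ ≤ 1) 
    (hom : ∀ a s, ‖om a s‖ ≤ 1) :
    ‖bil Φ A B ca cb om‖ ≤
      (((A ×ˢ B).filter (fun p : ℕ × ℕ => om p.1 p.2 ≠ 0)).card : ℝ) := by
  classical
  unfold bil
  rw [← sum_product' A B (fun a s : ℕ =>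
    ca a * cb s * om a s * ei (Φ a s))]
  refine (norm_sum_le _ _).trans ?_
  rw [card_filter]
  push_cast
  refine sum_le_sum fun p _ => ?_
  by_cases h0 : om p.1 p.2 = 0
  · simp [h0]
  · rw [if_pos h0, norm_mul, norm_mul, norm_mul, norm_ei, mul_one]
    exact mul_le_one₀ (mul_le_one₀ (hca _) (norm_nonneg _) (hcb _)) (norm_nonneg _) (hom _ _)

lemma dual_single {m j : ℕ} {W : Finset ℕ} (h : Unif th m al W)
    (hW : W.Nonempty) (hj : ∀ a ∈ W, a / th ^ m = j) : al m ≤ W.card ∧ W.card ≤ 2 * al m := by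
  obtain ⟨a, ha⟩ := hW
  have h1 := h m le_rfl j (mem_image.2 ⟨a, ha, hj a ha⟩)
  have e : cell W (th ^ m) j = W := filter_true_of_mem hj
  rwa [e] at h1

lemma dual_card_bounds (h : Setup th k X al A B jA jB ca cb om Φ F U ps) :
    al (2 * k) ≤ A.card ∧ A.card ≤ 2 * al (2 * k) ∧
      al (2 * k) ≤ B.card ∧ B.card ≤ 2 * al (2 * k) := by
  obtain ⟨hA, hB⟩ := h.nonempty
  have h1 := dual_single h.uA hA h.blkA
  have h2 := dual_single h.uB hB h.blkB
  exact ⟨h1.1, h1.2, h2.1, h2.2⟩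

theorem Setup.kk_diam (h : Setup th k X al A B jA jB ca cb om Φ F U ps) {x y : ℕ}
    (hx : x ≤ 2 * k) (hy : y ≤ 2 * k) (hxy : 2 * k ≤ x + y) {P Q : ℕ}
    (hP : P ∈ cells A (th ^ x)) {s s' : ℕ} (hs : s ∈ cell B (th ^ y) Q)
    (hs' : s' ∈ cell B (th ^ y) Q) :
    2 * |kk F th x P s - kk F th x P s'| ≤ (th : ℤ) ^ (x + 21 - (2 * k - y)) := by
  have h1000 := h.big.h1000
  have hth : (1000 : ℝ) ≤ th := by exact_mod_cast h1000
  have hth0 : (0 : ℝ) < th := by linarith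
  obtain ⟨hsB, hsq⟩ := mem_filter.1 hs
  obtain ⟨hsB', hsq'⟩ := mem_filter.1 hs'
  have hm : 0 < 2 * (th : ℝ) ^ (2 * k) := by positivity
  have hl := h.ker.F_lip h.Lpos (h.memA hx hP) (h.ptB hsB) (h.ptB hsB')
  have hd : |(s' : ℝ) - s| ≤ (th : ℝ) ^ y := by
    have := local_cell_dist (q := th ^ y) (by positivity) (hsq'.trans hsq.symm)
    simpa using this
  set L := F ((P : ℝ) * (th : ℝ) ^ x) s with hL
  set L' := F ((P : ℝ) * (th : ℝ) ^ x) s' with hL'
  have hl2 : |L - L'| ≤ (th : ℝ) ^ y / (2 * (th : ℝ) ^ (2 * k)) :=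
    hl.trans (div_le_div_of_nonneg_right hd hm.le)
  set E : ℝ := (th : ℝ) ^ (x + 21 - (2 * k - y)) with hE
  have hEe : (th : ℝ) ^ (x + 21) * (th : ℝ) ^ y = E * (th : ℝ) ^ (2 * k) := by
    rw [hE, ← pow_add, ← pow_add]
    congr 1
    omega
  have hE3 : 1000 ≤ E := by
    refine hth.trans ?_
    calc (th : ℝ) = (th : ℝ) ^ 1 := (pow_one _).symm
      _ ≤ E := pow_le_pow_right₀ (by linarith) (by omega)
  have hv : |(th : ℝ) ^ (x + 21) * L / (2 * π) - (th : ℝ) ^ (x + 21) * L' / (2 * π)| ≤ E / 12 := by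
    have hpi := Real.pi_gt_three
    have e2 : (th : ℝ) ^ (x + 21) * L / (2 * π) - (th : ℝ) ^ (x + 21) * L' / (2 * π)
        = (th : ℝ) ^ (x + 21) * (L - L') / (2 * π) := by ring
    rw [e2, abs_div, abs_mul, abs_of_pos (by positivity : 0 < (th : ℝ) ^ (x + 21)),
      abs_of_pos (by positivity : 0 < 2 * π)]
    have h3 : (th : ℝ) ^ (x + 21) * |L - L'| ≤ E / 2 := by
      calc (th : ℝ) ^ (x + 21) * |L - L'|
          ≤ (th : ℝ) ^ (x + 21) * ((th : ℝ) ^ y / (2 * (th : ℝ) ^ (2 * k))) :=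
            mul_le_mul_of_nonneg_left hl2 (by positivity)
        _ = ((th : ℝ) ^ (x + 21) * (th : ℝ) ^ y) / (2 * (th : ℝ) ^ (2 * k)) := by ring
        _ = E / 2 := by rw [hEe]; field_simp
    calc (th : ℝ) ^ (x + 21) * |L - L'| / (2 * π) ≤ (E / 2) / (2 * π) :=
          div_le_div_of_nonneg_right h3 (by positivity)
      _ ≤ (E / 2) / 6 := div_le_div_of_nonneg_left (by linarith) (by norm_num) (by linarith)
      _ = E / 12 := by ring
  have hf := adual_floor_diff ((th : ℝ) ^ (x + 21) * L / (2 * π))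
    ((th : ℝ) ^ (x + 21) * L' / (2 * π))
  have hfin : (2 : ℝ) * ((|kk F th x P s - kk F th x P s'| : ℤ) : ℝ) ≤ E := by
    unfold kk
    linarith
  rw [hE] at hfin
  exact_mod_cast hfin

theorem Setup.kk_coll (h : Setup th k X al A B jA jB ca cb om Φ F U ps) {x : ℕ}
    (hx : x ≤ 2 * k) {P : ℕ} (hP : P ∈ cells A (th ^ x)) {s s' : ℕ} (hs : s ∈ B) (hs' : s' ∈ B)
    (he : kk F th x P s = kk F th x P s') : |(s' : ℝ) - s| ≤ (th : ℝ) ^ (2 * k - x) := by
  have h1000 := h.big.h1000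
  have hth : (1000 : ℝ) ≤ th := by exact_mod_cast h1000
  have hth0 : (0 : ℝ) < th := by linarith
  have hl := h.ker.F_low h.Lpos (h.memA hx hP) (h.ptB hs) (h.ptB hs')
  rw [← pow_succ'] at hl
  unfold kk at he
  set L := F ((P : ℝ) * (th : ℝ) ^ x) s with hL
  set L' := F ((P : ℝ) * (th : ℝ) ^ x) s' with hL'
  have hv := Int.abs_sub_lt_one_of_floor_eq_floor he
  have hpi := Real.pi_lt_four
  have e2 : (th : ℝ) ^ (x + 21) * L / (2 * π) - (th : ℝ) ^ (x + 21) * L' / (2 * π)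
      = (th : ℝ) ^ (x + 21) * (L - L') / (2 * π) := by ring
  rw [e2, abs_div, abs_mul, abs_of_pos (by positivity : 0 < (th : ℝ) ^ (x + 21)),
    abs_of_pos (by positivity : 0 < 2 * π), div_lt_one (by positivity)] at hv
  have h8 : (8 : ℝ) ≤ (th : ℝ) ^ 20 := by
    calc (8 : ℝ) ≤ (th : ℝ) ^ 1 := by rw [pow_one]; linarith
      _ ≤ (th : ℝ) ^ 20 := pow_le_pow_right₀ (by linarith) (by omega)
  have e3 : (th : ℝ) ^ (2 * k + 1) * (th : ℝ) ^ 20
      = (th : ℝ) ^ (2 * k - x) * (th : ℝ) ^ (x + 21) := by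
    rw [← pow_add, ← pow_add]
    congr 1
    omega
  have h9 : (th : ℝ) ^ (2 * k + 1) * |L - L'| * (th : ℝ) ^ 20
      ≤ (th : ℝ) ^ (2 * k - x) * (th : ℝ) ^ 20 := by
    calc (th : ℝ) ^ (2 * k + 1) * |L - L'| * (th : ℝ) ^ 20
        = (th : ℝ) ^ (2 * k + 1) * (th : ℝ) ^ 20 * |L - L'| := by ring
      _ = (th : ℝ) ^ (2 * k - x) * ((th : ℝ) ^ (x + 21) * |L - L'|) := by rw [e3]; ring
      _ ≤ (th : ℝ) ^ (2 * k - x) * (th : ℝ) ^ 20 :=
          mul_le_mul_of_nonneg_left (by linarith) (by positivity)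
  exact hl.trans (le_of_mul_le_mul_right h9 (by positivity))

theorem Setup.dual (h : Setup th k X al A B jA jB ca cb om Φ F U ps) {x y : ℕ} (hx : x ≤ X)
    (hy : y ≤ 2 * k) (hxy : 2 * x + y + 21 ≤ 4 * k) (hxy' : 2 * k ≤ x + y) (hx2 : x ≤ 2 * k) :
    al x * al y ≤ th ^ (61 + x + y - 2 * k) * (al (2 * k - x) * al (2 * k - y)) := by
  have h1000 := h.big.h1000
  have hth : (1000 : ℝ) ≤ th := by exact_mod_cast h1000
  have hth0 : (0 : ℝ) < th := by linarith
  obtain ⟨θ, hθ, hloc⟩ := h.local_model hx hy hxy hx2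
  obtain ⟨hAne, hBne⟩ := h.nonempty
  set x' := 2 * k - y with hx'
  have hcoll : ∀ P ∈ cells A (th ^ x), ∀ Q : ℕ,
      ((((cell B (th ^ y) Q) ×ˢ (cell B (th ^ y) Q)).filter
        (fun p : ℕ × ℕ => kk F th x P p.1 = kk F th x P p.2)).card : ℝ)
        ≤ 6 * al (2 * k - x) * (cell B (th ^ y) Q).card := by
    intro P hP Q
    have := card_le_mul_card_image_of_maps_to
      (s := ((cell B (th ^ y) Q) ×ˢ (cell B (th ^ y) Q)).filter
        (fun p : ℕ × ℕ => kk F th x P p.1 = kk F th x P p.2))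
      (t := cell B (th ^ y) Q) (f := Prod.fst)
      (fun p hp => (mem_product.1 (mem_filter.1 hp).1).1) (6 * al (2 * k - x)) (by
        intro s hs
        refine le_trans ?_ (h.uB.near_pts (by omega) (j := 2 * k - x) (by omega) (s : ℝ))
        refine card_le_card_of_injOn Prod.snd ?_ ?_
        · intro p hp
          obtain ⟨hp1, hp2⟩ := mem_filter.1 (mem_coe.1 hp)
          obtain ⟨hp3, hp4⟩ := mem_filter.1 hp1
          obtain ⟨hp5, hp6⟩ := mem_product.1 hp3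
          refine mem_coe.2 (mem_filter.2 ⟨(mem_filter.1 hp6).1, ?_⟩)
          rw [← hp2]
          exact h.kk_coll hx2 hP (mem_filter.1 hp5).1 (mem_filter.1 hp6).1 hp4
        · intro p hp p' hp' e
          exact Prod.ext ((mem_filter.1 (mem_coe.1 hp)).2.trans
            (mem_filter.1 (mem_coe.1 hp')).2.symm) e)
    exact_mod_cast this
  set K : ℝ := 12 * (th : ℝ) ^ (x + 22 - x') * (al (2 * k - x) * al x') with hK
  have hPQ : ∀ P ∈ cells A (th ^ x), ∀ Q : ℕ,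
      ∑ a ∈ cell A (th ^ x) P, ‖loc F th x y B θ P Q a‖ ^ 2 ≤ K * (cell B (th ^ y) Q).card := by
    intro P hP Q
    have hls := ls_unif (m := 2 * k) (x := x) (x' := x') (P := P) (β := 2 * al x') h.big
      (by omega) hx2 (cell A (th ^ x) P) (fun a ha => (mem_filter.1 ha).2)
      (fun c => le_trans (card_le_card (filter_subset_filter _ (filter_subset _ _)))
        (h.uA.cell_le (j := x') (by omega) c))
      (cell B (th ^ y) Q) (kk F th x P) (θ P) (fun i _ => hθ P i)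
      (fun i hi i' hi' => by
        have h1 := h.kk_diam hx2 hy hxy' hP hi hi'
        have h2 := abs_nonneg (kk F th x P i - kk F th x P i')
        linarith)
    refine le_trans hls ?_
    refine le_trans (mul_le_mul_of_nonneg_left (hcoll P hP Q) (by positivity)) (le_of_eq ?_)
    rw [hK]
    push_cast
    ring
  have hK0 : 0 ≤ K := by rw [hK]; positivity
  have hsq : ∑ a ∈ A, ∑ Q ∈ cells B (th ^ y), ‖loc F th x y B θ (a / th ^ x) Q a‖ ^ 2
      ≤ (cells A (th ^ x)).card * (K * B.card) := by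
    rw [sum_cells A (th ^ x), ← nsmul_eq_mul]
    refine sum_le_card_nsmul _ _ _ fun P hP => ?_
    rw [sum_comm]
    have e1 : (B.card : ℝ) = ∑ Q ∈ cells B (th ^ y), ((cell B (th ^ y) Q).card : ℝ) := by
      have := sum_cells B (th ^ y) (fun _ => (1 : ℝ))
      simpa using this
    rw [e1, mul_sum]
    refine sum_le_sum fun Q _ => le_trans (le_of_eq ?_) (hPQ P hP Q)
    refine sum_congr rfl fun a ha => ?_
    rw [(mem_filter.1 ha).2]
  have hcs : (∑ a ∈ A, ∑ Q ∈ cells B (th ^ y), ‖loc F th x y B θ (a / th ^ x) Q a‖) ^ 2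
      ≤ A.card * (cells B (th ^ y)).card *
        ∑ a ∈ A, ∑ Q ∈ cells B (th ^ y), ‖loc F th x y B θ (a / th ^ x) Q a‖ ^ 2 := by
    have := sq_sum_le_card_mul_sum_sq (s := A ×ˢ cells B (th ^ y))
      (f := fun p : ℕ × ℕ => ‖loc F th x y B θ (p.1 / th ^ x) p.2 p.1‖)
    rw [Finset.sum_product, Finset.sum_product, card_product] at this
    push_cast at this
    exact this
  have hnA : ((cells A (th ^ x)).card : ℝ) * al x ≤ A.card := by
    exact_mod_cast h.uA.cells_mul_le hx2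
  have hnB : ((cells B (th ^ y)).card : ℝ) * al y ≤ B.card := by
    exact_mod_cast h.uB.cells_mul_le hy
  have hA0 : (0 : ℝ) < A.card := by exact_mod_cast hAne.card_pos
  have hB0 : (0 : ℝ) < B.card := by exact_mod_cast hBne.card_pos
  set S := ∑ a ∈ A, ∑ Q ∈ cells B (th ^ y), ‖loc F th x y B θ (a / th ^ x) Q a‖ with hS
  set nx : ℝ := ((cells A (th ^ x)).card : ℝ) with hnx
  set ny : ℝ := ((cells B (th ^ y)).card : ℝ) with hny
  have hnx0 : 0 ≤ nx := by rw [hnx]; positivity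
  have hny0 : 0 ≤ ny := by rw [hny]; positivity
  have h1 : ((A.card : ℝ) * B.card) ^ 2 ≤ (th : ℝ) ^ 38 * (A.card * ny * (nx * (K * B.card))) := by
    calc ((A.card : ℝ) * B.card) ^ 2 ≤ ((th : ℝ) ^ 19 * S) ^ 2 :=
          pow_le_pow_left₀ (by positivity) hloc 2
      _ = (th : ℝ) ^ 38 * S ^ 2 := by ring
      _ ≤ _ := mul_le_mul_of_nonneg_left
          (hcs.trans (mul_le_mul_of_nonneg_left hsq (by positivity))) (by positivity)
  have h2 : ((al x : ℝ) * al y) * ((A.card : ℝ) * B.card) ^ 2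
      ≤ ((th : ℝ) ^ 38 * K) * ((A.card : ℝ) * B.card) ^ 2 := by
    calc ((al x : ℝ) * al y) * ((A.card : ℝ) * B.card) ^ 2
        ≤ ((al x : ℝ) * al y) * ((th : ℝ) ^ 38 * (A.card * ny * (nx * (K * B.card)))) :=
          mul_le_mul_of_nonneg_left h1 (by positivity)
      _ = ((th : ℝ) ^ 38 * K * (A.card * B.card)) * ((nx * al x) * (ny * al y)) := by ring
      _ ≤ ((th : ℝ) ^ 38 * K * (A.card * B.card)) * (A.card * B.card) :=
          mul_le_mul_of_nonneg_left (mul_le_mul hnA hnB (by positivity) hA0.le) (by positivity)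
      _ = _ := by ring
  have h3 := le_of_mul_le_mul_right h2 (by positivity)
  have h4 : (th : ℝ) ^ 38 * K
      ≤ (th : ℝ) ^ (61 + x + y - 2 * k) * (al (2 * k - x) * al x') := by
    have e : 61 + x + y - 2 * k = 1 + 38 + (x + 22 - x') := by omega
    rw [hK, e, pow_add, pow_add, pow_one]
    calc (th : ℝ) ^ 38 * (12 * (th : ℝ) ^ (x + 22 - x') * (al (2 * k - x) * al x'))
        = 12 * ((th : ℝ) ^ 38 * (th : ℝ) ^ (x + 22 - x') * (al (2 * k - x) * al x')) := by ring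
      _ ≤ th * ((th : ℝ) ^ 38 * (th : ℝ) ^ (x + 22 - x') * (al (2 * k - x) * al x')) :=
          mul_le_mul_of_nonneg_right (by linarith) (by positivity)
      _ = _ := by ring
  exact_mod_cast h3.trans h4

theorem Setup.top (h : Setup th k X al A B jA jB ca cb om Φ F U ps) :
    th ^ (2 * k) ≤ th ^ 17 * al (2 * k) ^ 2 := by
  have h1000 := h.big.h1000
  obtain ⟨-, hA, -, hB⟩ := dual_card_bounds h
  have h1 := dual_norm_bil (Φ := Φ) (A := A) (B := B) h.hca h.hcb h.hom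
  have h2 : ((A ×ˢ B).filter (fun p : ℕ × ℕ => om p.1 p.2 ≠ 0)).card
      ≤ th * al (2 * k) ^ 2 := by
    calc _ ≤ (A ×ˢ B).card := card_filter_le _ _
      _ = A.card * B.card := card_product _ _
      _ ≤ (2 * al (2 * k)) * (2 * al (2 * k)) := Nat.mul_le_mul hA hB
      _ = 4 * al (2 * k) ^ 2 := by ring
      _ ≤ th * al (2 * k) ^ 2 := Nat.mul_le_mul_right _ (by omega)
  have h3 : (th : ℝ) ^ (2 * k) ≤ (th : ℝ) ^ 16 * ((th * al (2 * k) ^ 2 : ℕ) : ℝ) :=
    h.nogain.le.trans (mul_le_mul_of_nonneg_left (h1.trans (by exact_mod_cast h2)) (by positivity))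
  have h4 : th ^ (2 * k) ≤ th ^ 16 * (th * al (2 * k) ^ 2) := by exact_mod_cast h3
  calc th ^ (2 * k) ≤ th ^ 16 * (th * al (2 * k) ^ 2) := h4
    _ = th ^ 17 * al (2 * k) ^ 2 := by ring

theorem Setup.card_bounds (h : Setup th k X al A B jA jB ca cb om Φ F U ps) :
    al (2 * k) ≤ A.card ∧ A.card ≤ 2 * al (2 * k) ∧
      al (2 * k) ≤ B.card ∧ B.card ≤ 2 * al (2 * k) := by
  exact dual_card_bounds h

theorem Setup.branch (h : Setup th k X al A B jA jB ca cb om Φ F U ps) {z : ℕ}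
    (hz : X + 21 ≤ z) (hz' : z ≤ 2 * k) :
    al z ^ 2 * th ^ (2 * k - z) ≤ th ^ 21 * al (2 * k) ^ 2 := by
  classical
  have h1000 := h.big.h1000
  obtain ⟨-, hA, -, hB⟩ := dual_card_bounds h
  have h1 := dual_norm_bil (Φ := Φ) (A := A) (B := B) h.hca h.hcb h.hom
  have hq : 0 < th ^ z := by positivity
  have hw : 0 < th ^ (X + 21) := by positivity
  have hqw : th ^ z = th ^ (z - (X + 21)) * th ^ (X + 21) := by
    rw [← pow_add]
    congr 1
    omega
  have hwR : (0 : ℝ) < (th : ℝ) ^ (X + 21) := by positivity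
  have hqwR : (th : ℝ) ^ z = (th : ℝ) ^ (z - (X + 21)) * (th : ℝ) ^ (X + 21) := by
    exact_mod_cast hqw
  obtain ⟨v, hv⟩ : ∃ v : ℕ × ℕ → ℝ, v = fun p : ℕ × ℕ => (ps p.1 p.2 -
      ps (((p.1 / th ^ z : ℕ) : ℝ) * (th : ℝ) ^ z) (((p.2 / th ^ z : ℕ) : ℝ) * (th : ℝ) ^ z) +
        2 * (th : ℝ) ^ z) / (th : ℝ) ^ (X + 21) := ⟨_, rfl⟩
  have hvb : ∀ p : ℕ × ℕ, p.1 ∈ A → p.2 ∈ B →
      0 ≤ v p ∧ v p < ((5 * th ^ (z - (X + 21)) : ℕ) : ℝ) := by
    intro p hp1 hp2
    have g := h.ker.pos _ (h.ptA hp1) _ (h.memA hz' (mem_image_of_mem _ hp1)) _ (h.ptB hp2) _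
      (h.memB hz' (mem_image_of_mem _ hp2))
    obtain ⟨q1, q2⟩ := xenergy_quot p.1 hq
    obtain ⟨q3, q4⟩ := xenergy_quot p.2 hq
    rw [Nat.cast_pow] at q1 q2 q3 q4
    rw [abs_of_nonneg q1, abs_of_nonneg q3, abs_le] at g
    have hq0 : (0 : ℝ) < (th : ℝ) ^ z := by positivity
    rw [hv]
    constructor
    · exact div_nonneg (by linarith [g.1]) hwR.le
    · rw [div_lt_iff₀ hwR, Nat.cast_mul, Nat.cast_pow, mul_assoc, ← hqwR]
      push_cast
      linarith [g.2]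
  have h2 := card_le_mul_card_image_of_maps_to
    (s := (A ×ˢ B).filter (fun p : ℕ × ℕ => om p.1 p.2 ≠ 0))
    (t := (cells A (th ^ z) ×ˢ cells B (th ^ z)) ×ˢ range (5 * th ^ (z - (X + 21))))
    (f := fun p : ℕ × ℕ => ((p.1 / th ^ z, p.2 / th ^ z), ⌊v p⌋₊))
    (by
      intro p hp
      obtain ⟨hp1, hp2⟩ := mem_product.1 (mem_filter.1 hp).1
      refine mem_product.2 ⟨mem_product.2 ⟨mem_image_of_mem _ hp1, mem_image_of_mem _ hp2⟩, ?_⟩
      rw [mem_range]
      exact (Nat.floor_lt (hvb p hp1 hp2).1).2 (hvb p hp1 hp2).2) (th ^ (X + 25))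
    (by
      intro b _
      rcases eq_empty_or_nonempty
        (((A ×ˢ B).filter (fun p : ℕ × ℕ => om p.1 p.2 ≠ 0)).filter
          (fun p : ℕ × ℕ => ((p.1 / th ^ z, p.2 / th ^ z), ⌊v p⌋₊) = b)) with he | ⟨p0, hp0⟩
      · rw [he]
        simp
      · obtain ⟨hp1, hp2⟩ := mem_filter.1 hp0
        obtain ⟨hp3, hp4⟩ := mem_filter.1 hp1
        obtain ⟨hp5, hp6⟩ := mem_product.1 hp3
        refine le_trans (card_le_card ?_) (h.flat p0.1 hp5 p0.2 hp6 hp4)
        intro p hp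
        obtain ⟨hp7, hp8⟩ := mem_filter.1 hp
        refine mem_filter.2 ⟨(mem_filter.1 hp7).1, ?_⟩
        obtain ⟨hp9, hp10⟩ := mem_product.1 (mem_filter.1 hp7).1
        have he := hp8.trans hp2.symm
        simp only [Prod.mk.injEq] at he
        obtain ⟨⟨e1, e2⟩, e3⟩ := he
        have f1 := Nat.floor_le (hvb p hp9 hp10).1
        have f2 := Nat.floor_le (hvb p0 hp5 hp6).1
        have f3 := Nat.lt_floor_add_one (v p)
        have f4 := Nat.lt_floor_add_one (v p0)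
        rw [e3] at f1 f3
        have f5 : |v p - v p0| ≤ 1 := by
          rw [abs_le]
          constructor <;> linarith
        have f6 : ps p.1 p.2 - ps p0.1 p0.2 = (v p - v p0) * (th : ℝ) ^ (X + 21) := by
          rw [hv]
          simp only [e1, e2]
          field_simp
          ring
        rw [f6, abs_mul, abs_of_pos hwR]
        exact mul_le_of_le_one_left hwR.le f5)
  rw [card_product, card_product, card_range] at h2
  have h3 : (th : ℝ) ^ (2 * k) ≤ (th : ℝ) ^ 16 * ((th ^ (X + 25) *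
      ((cells A (th ^ z)).card * (cells B (th ^ z)).card * (5 * th ^ (z - (X + 21)))) : ℕ) : ℝ) :=
    h.nogain.le.trans (mul_le_mul_of_nonneg_left (h1.trans (by exact_mod_cast h2)) (by positivity))
  have h4 : th ^ (2 * k) ≤ th ^ 16 * (th ^ (X + 25) *
      ((cells A (th ^ z)).card * (cells B (th ^ z)).card * (5 * th ^ (z - (X + 21))))) := by
    exact_mod_cast h3
  have hnA := (h.uA.cells_mul_le hz').trans hA
  have hnB := (h.uB.cells_mul_le hz').trans hB
  have e1 : th ^ (2 * k) = th ^ (2 * k - z) * th ^ z := by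
    rw [← pow_add]
    congr 1
    omega
  have e2 : th ^ (X + 25) * th ^ (z - (X + 21)) = th ^ 4 * th ^ z := by
    rw [← pow_add, ← pow_add]
    congr 1
    omega
  refine Nat.le_of_mul_le_mul_right ?_ hq
  calc al z ^ 2 * th ^ (2 * k - z) * th ^ z = al z ^ 2 * th ^ (2 * k) := by rw [e1]; ring
    _ ≤ al z ^ 2 * (th ^ 16 * (th ^ (X + 25) * ((cells A (th ^ z)).card *
          (cells B (th ^ z)).card * (5 * th ^ (z - (X + 21)))))) := Nat.mul_le_mul_left _ h4
    _ = 5 * th ^ 16 * (th ^ (X + 25) * th ^ (z - (X + 21))) *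
          (((cells A (th ^ z)).card * al z) * ((cells B (th ^ z)).card * al z)) := by ring
    _ ≤ 5 * th ^ 16 * (th ^ (X + 25) * th ^ (z - (X + 21))) *
          ((2 * al (2 * k)) * (2 * al (2 * k))) := Nat.mul_le_mul_left _ (Nat.mul_le_mul hnA hnB)
    _ = 20 * (th ^ 20 * al (2 * k) ^ 2 * th ^ z) := by rw [e2]; ring
    _ ≤ th * (th ^ 20 * al (2 * k) ^ 2 * th ^ z) := Nat.mul_le_mul_right _ (by omega)
    _ = th ^ 21 * al (2 * k) ^ 2 * th ^ z := by ring

end

end Pool.Agent.Lib.MP_ecd12e_nt.ZS
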