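import Pool.Agent.Lib.MP_ecd12e_nt.ZS.ACalc

/-!
The local model for an abstract kernel.
-/

set_option autoImplicit false

namespace Pool.Agent.Lib.MP_ecd12e_nt.ZS

open Finset Real
open scoped Pointwise
open Pool.Agent.Lib.MP_ecd12e_nt.Bar

section
variable {th k X : ℕ} {al : ℕ → ℕ} {A B : Finset ℕ} {jA jB : ℕ} {ca cb : ℕ → ℂ}
  {om : ℝ → ℝ → ℂ} {Φ F U ps : ℝ → ℝ → ℝ}

theorem blk_cell {m x j : ℕ} {W : Finset ℕ} (hth : 0 < th) (hW : ∀ a ∈ W, a / th ^ m = j)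
    (hx : x ≤ m) {P : ℕ} (hP : P ∈ cells W (th ^ x)) :
    (P : ℝ) * (th : ℝ) ^ x ∈ Blk ((th : ℝ) ^ m) j := by
  obtain ⟨h1, h2⟩ := local_block hth hW hx hP
  exact ⟨h1, h2.le⟩

theorem blk_mem {m j a : ℕ} (hth : 0 < th) (ha : a / th ^ m = j) :
    (a : ℝ) ∈ Blk ((th : ℝ) ^ m) j := by
  have h := blk_cell (W := {a}) (x := 0) (P := a) hth (by simpa using ha) (Nat.zero_le m)
    (by simp [cells])
  simpa using h

lemma local_pos (h : Setup th k X al A B jA jB ca cb om Φ F U ps) : 0 < th := by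
  have := h.big.h1000
  omega

lemma Setup.memA (h : Setup th k X al A B jA jB ca cb om Φ F U ps) {x P : ℕ} (hx : x ≤ 2 * k)
    (hP : P ∈ cells A (th ^ x)) : (P : ℝ) * (th : ℝ) ^ x ∈ Blk ((th : ℝ) ^ (2 * k)) jA :=
  blk_cell (local_pos h) h.blkA hx hP

lemma Setup.memB (h : Setup th k X al A B jA jB ca cb om Φ F U ps) {x P : ℕ} (hx : x ≤ 2 * k)
    (hP : P ∈ cells B (th ^ x)) : (P : ℝ) * (th : ℝ) ^ x ∈ Blk ((th : ℝ) ^ (2 * k)) jB :=
  blk_cell (local_pos h) h.blkB hx hP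

lemma Setup.ptA (h : Setup th k X al A B jA jB ca cb om Φ F U ps) {a : ℕ} (ha : a ∈ A) :
    (a : ℝ) ∈ Blk ((th : ℝ) ^ (2 * k)) jA := blk_mem (local_pos h) (h.blkA a ha)

lemma Setup.ptB (h : Setup th k X al A B jA jB ca cb om Φ F U ps) {s : ℕ} (hs : s ∈ B) :
    (s : ℝ) ∈ Blk ((th : ℝ) ^ (2 * k)) jB := blk_mem (local_pos h) (h.blkB s hs)

lemma Setup.Lpos (h : Setup th k X al A B jA jB ca cb om Φ F U ps) :
    (0 : ℝ) < (th : ℝ) ^ (2 * k) := pow_pos (by exact_mod_cast local_pos h) _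

theorem Setup.nonempty (h : Setup th k X al A B jA jB ca cb om Φ F U ps) : A.Nonempty ∧ B.Nonempty := by
  have h0 : 0 < ‖bil Φ A B ca cb om‖ := by
    have h1 := h.nogain
    have h2 : (0 : ℝ) < (th : ℝ) ^ (2 * k) := pow_pos (by exact_mod_cast local_pos h) _
    by_contra hc
    have h3 : ‖bil Φ A B ca cb om‖ = 0 := le_antisymm (not_lt.1 hc) (norm_nonneg _)
    rw [h3, mul_zero] at h1
    linarith
  constructor
  · rcases A.eq_empty_or_nonempty with rfl | hA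
    · simp [bil] at h0
    · exact hA
  · rcases B.eq_empty_or_nonempty with rfl | hB
    · simp [bil] at h0
    · exact hB

/-- The coefficients of the local model. -/
noncomputable def localTh (Φ : ℝ → ℝ → ℝ) (th x : ℕ) (cb : ℕ → ℂ) (om : ℝ → ℝ → ℂ) (P s : ℕ) : ℂ :=
  cb s * om ((P : ℝ) * (th : ℝ) ^ x) s * ei (Φ ((P : ℝ) * (th : ℝ) ^ x) s)

lemma local_cell (h : Setup th k X al A B jA jB ca cb om Φ F U ps) {x y : ℕ} (hx : x ≤ X)
    (hxy : 2 * x + y + 21 ≤ 4 * k) (hx2 : x ≤ 2 * k) {a : ℕ} (ha : a ∈ A) {Q : ℕ}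
    (hQ : Q ∈ cells B (th ^ y)) :
    ‖∑ s ∈ cell B (th ^ y) Q,
        cb s * om a s * ei (Φ a s)‖ ≤
      ‖loc F th x y B (localTh Φ th x cb om) (a / th ^ x) Q a‖ +
        (cell B (th ^ y) Q).card * (2 / (th : ℝ) ^ 20) := by
  obtain ⟨s0, hs0, rfl⟩ := Finset.mem_image.1 hQ
  have th0 : 0 < th := local_pos h
  have t1000 : (1000 : ℝ) ≤ th := by exact_mod_cast h.big.h1000
  have t0 : (0 : ℝ) < th := by linarith
  have t1 : (1 : ℝ) ≤ th := by linarith
  have hN : (0 : ℝ) < (th : ℝ) ^ (2 * k) := pow_pos t0 _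
  set P := a / th ^ x with hPdef
  set a0 : ℝ := (P : ℝ) * (th : ℝ) ^ x with ha0
  have hP : P ∈ cells A (th ^ x) := Finset.mem_image_of_mem _ ha
  have hh0 : 0 ≤ (a : ℝ) - a0 := by
    have : P * th ^ x ≤ a := Nat.div_mul_le_self _ _
    have h2 : a0 ≤ a := by rw [ha0]; exact_mod_cast this
    linarith
  have hh1 : (a : ℝ) - a0 ≤ (th : ℝ) ^ x := by
    have : a < P * th ^ x + th ^ x := Nat.lt_div_mul_add (pow_pos th0 x)
    have h2 : (a : ℝ) < a0 + (th : ℝ) ^ x := by rw [ha0]; exact_mod_cast this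
    linarith
  have ma0 : a0 ∈ Blk ((th : ℝ) ^ (2 * k)) jA := h.memA hx2 hP
  have ma := h.ptA ha
  have main : ∀ s ∈ cell B (th ^ y) (s0 / th ^ y),
      ‖cb s * om a s * ei (Φ a s) -
        ei (remR Φ F a0 a s0) * (localTh Φ th x cb om P s *
          ei (2 * π * ((a : ℝ) - a0) * (kk F th x P s) / (th : ℝ) ^ (x + 21)))‖ ≤
        2 / (th : ℝ) ^ 20 := by
    intro s hs
    obtain ⟨hsB, hsQ⟩ := Finset.mem_filter.1 hs
    have e1 : ei (remR Φ F a0 a s0) * (localTh Φ th x cb om P s *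
          ei (2 * π * ((a : ℝ) - a0) * (kk F th x P s) / (th : ℝ) ^ (x + 21))) =
        cb s * om a0 s * ei (remR Φ F a0 a s0 + (Φ a0 s +
          2 * π * ((a : ℝ) - a0) * (kk F th x P s) / (th : ℝ) ^ (x + 21))) := by
      rw [ei_add, ei_add]
      unfold localTh
      ring
    rw [e1]
    have o1 : ‖om a s - om a0 s‖ ≤ 1 / (th : ℝ) ^ 20 := by
      rw [le_div_iff₀ (by positivity)]
      refine h.slow _ ma _ ma0 _ (h.ptB hsB) ?_
      rw [abs_of_nonneg hh0]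
      exact hh1.trans (pow_le_pow_right₀ t1 hx)
    have o2 : |Φ a s - (remR Φ F a0 a s0 + (Φ a0 s +
          2 * π * ((a : ℝ) - a0) * (kk F th x P s) / (th : ℝ) ^ (x + 21)))| ≤
        1 / (th : ℝ) ^ 20 := by
      have e2 : Φ a s - (remR Φ F a0 a s0 + (Φ a0 s +
            2 * π * ((a : ℝ) - a0) * (kk F th x P s) / (th : ℝ) ^ (x + 21))) =
          (remR Φ F a0 a s - remR Φ F a0 a s0) +
            ((a - a0) * F a0 s -
              2 * π * ((a : ℝ) - a0) * (kk F th x P s) / (th : ℝ) ^ (x + 21)) := by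
        unfold remR
        ring
      rw [e2]
      refine (abs_add_le _ _).trans (le_trans (add_le_add
        (h.ker.taylor hN ma0 ma (h.ptB hsB) (h.ptB hs0))
        (local_floor (L := F a0 s) (pow_pos t0 (x + 21)) hh0)) ?_)
      refine local_num t1000 hxy hh0 hh1 (abs_nonneg _) ?_
      have := local_cell_dist (pow_pos th0 y) hsQ
      exact_mod_cast this
    have := local_term (h.hcb s) (h.hom a0 s) o1 o2
    calc _ ≤ 1 / (th : ℝ) ^ 20 + 1 / (th : ℝ) ^ 20 := this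
      _ = _ := by ring
  have e5 : ‖loc F th x y B (localTh Φ th x cb om) P (s0 / th ^ y) a‖ =
      ‖∑ s ∈ cell B (th ^ y) (s0 / th ^ y), ei (remR Φ F a0 a s0) *
        (localTh Φ th x cb om P s *
          ei (2 * π * ((a : ℝ) - a0) * (kk F th x P s) / (th : ℝ) ^ (x + 21)))‖ := by
    rw [← Finset.mul_sum, norm_mul, norm_ei, one_mul]
    rfl
  rw [e5]
  refine (norm_le_norm_add_norm_sub' _ _).trans (add_le_add le_rfl ?_)
  rw [← Finset.sum_sub_distrib]
  refine (norm_sum_le _ _).trans ((Finset.sum_le_card_nsmul _ _ _ main).trans ?_)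
  rw [nsmul_eq_mul]

theorem Setup.local_model (h : Setup th k X al A B jA jB ca cb om Φ F U ps) {x y : ℕ} (hx : x ≤ X)
    (hy : y ≤ 2 * k) (hxy : 2 * x + y + 21 ≤ 4 * k) (hx2 : x ≤ 2 * k) :
    ∃ θ : ℕ → ℕ → ℂ, (∀ P s, ‖θ P s‖ ≤ 1) ∧
      (A.card : ℝ) * B.card ≤ (th : ℝ) ^ 19 *
        ∑ a ∈ A, ∑ Q ∈ cells B (th ^ y), ‖loc F th x y B θ (a / th ^ x) Q a‖ := by
  have _ := hy
  refine ⟨localTh Φ th x cb om, fun P s => ?_, ?_⟩
  · unfold localTh
    rw [norm_mul, norm_ei, mul_one, norm_mul]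
    exact mul_le_one₀ (h.hcb s) (norm_nonneg _) (h.hom _ _)
  have t1000 : (1000 : ℝ) ≤ th := by exact_mod_cast h.big.h1000
  refine local_final t1000 (by positivity)
    (Finset.sum_nonneg fun a _ => Finset.sum_nonneg fun Q _ => norm_nonneg _) ?_ h.nogain ?_
  · have h1 : (A.card : ℝ) ≤ (th : ℝ) ^ (k + 1) := by exact_mod_cast h.cardA
    have h2 : (B.card : ℝ) ≤ (th : ℝ) ^ (k + 1) := by exact_mod_cast h.cardB
    gcongr
  have hcard : ∑ Q ∈ cells B (th ^ y), ((cell B (th ^ y) Q).card : ℝ) = B.card := by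
    have := Finset.card_eq_sum_card_image (fun a => a / th ^ y) B
    rw [this]
    push_cast
    rfl
  have step : ∀ a ∈ A, ‖∑ s ∈ B, ca a * cb s * om a s * ei (Φ a s)‖ ≤
      ∑ Q ∈ cells B (th ^ y), ‖loc F th x y B (localTh Φ th x cb om) (a / th ^ x) Q a‖ +
        B.card * (2 / (th : ℝ) ^ 20) := by
    intro a ha
    have e1 : ∑ s ∈ B, ca a * cb s * om a s * ei (Φ a s) =
        ca a * ∑ Q ∈ cells B (th ^ y), ∑ s ∈ cell B (th ^ y) Q,
          cb s * om a s * ei (Φ a s) := by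
      unfold cells cell
      rw [Finset.sum_fiberwise_of_maps_to (fun s hs => Finset.mem_image_of_mem _ hs),
        Finset.mul_sum]
      exact Finset.sum_congr rfl fun s _ => by ring
    rw [e1, norm_mul, ← hcard, Finset.sum_mul, ← Finset.sum_add_distrib]
    refine (mul_le_of_le_one_left (norm_nonneg _) (h.hca a)).trans ?_
    exact (norm_sum_le _ _).trans
      (Finset.sum_le_sum fun Q hQ => local_cell h hx hxy hx2 ha hQ)
  unfold bil
  refine (norm_sum_le _ _).trans ((Finset.sum_le_sum step).trans ?_)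
  rw [Finset.sum_add_distrib, Finset.sum_const, nsmul_eq_mul, mul_assoc]

end

end Pool.Agent.Lib.MP_ecd12e_nt.ZS
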