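import Pool.Agent.Lib.MP_ecd12e_nt.ZS.ADual

/-!
Cross energy for an abstract kernel.
-/

set_option autoImplicit false

namespace Pool.Agent.Lib.MP_ecd12e_nt.ZS

open Finset Real
open scoped Pointwise
open Pool.Agent.Lib.MP_ecd12e_nt.Bar

section
variable {th k X : ℕ} {al : ℕ → ℕ} {A B : Finset ℕ} {jA jB : ℕ} {ca cb : ℕ → ℂ}
  {om : ℝ → ℝ → ℂ} {Φ F U ps : ℝ → ℝ → ℝ}

theorem Setup.lam_bounds (h : Setup th k X al A B jA jB ca cb om Φ F U ps) {x p : ℕ}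
    (hx : x ≤ 2 * k) (hp : p ≤ 2 * k) {P Q Q' : ℕ} (hP : P ∈ cells A (th ^ x))
    (hQ : Q ∈ cells B (th ^ p)) (hQ' : Q' ∈ cells B (th ^ p)) :
    1 / 2 ≤ lam U th x p P Q Q' ∧ lam U th x p P Q Q' ≤ 3 / 2 :=
  h.ker.ratio h.Lpos (h.memA hx hP) (h.memB hp hQ) (h.memB hp hQ')

theorem Setup.linearise (h : Setup th k X al A B jA jB ca cb om Φ F U ps) {x p r : ℕ}
    (hxr : x + r = 2 * k) (hp : p ≤ 2 * k) (hlin : 2 * p + 2 ≤ 2 * k + r) {P Q Q' : ℕ}
    (hP : P ∈ cells A (th ^ x)) {s1 s2 t1 t2 : ℕ} (hs1 : s1 ∈ cell B (th ^ p) Q)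
    (hs2 : s2 ∈ cell B (th ^ p) Q) (ht1 : t1 ∈ cell B (th ^ p) Q') (ht2 : t2 ∈ cell B (th ^ p) Q')
    (he : kk F th x P s1 + kk F th x P t2 = kk F th x P s2 + kk F th x P t1) :
    |(((s1 / th ^ r : ℕ) : ℝ) - ((s2 / th ^ r : ℕ) : ℝ)) -
      lam U th x p P Q Q' * (((t1 / th ^ r : ℕ) : ℝ) - ((t2 / th ^ r : ℕ) : ℝ))| ≤ 4 := by
  have hth : (1000 : ℝ) ≤ th := by exact_mod_cast h.big.h1000
  have hth0 : 0 < th := by have := h.big.h1000; omega
  have hx : x ≤ 2 * k := by omega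
  have hq : 0 < th ^ p := by positivity
  obtain ⟨hQ, a1, a1'⟩ := xenergy_cell hq hs1
  obtain ⟨-, a2, a2'⟩ := xenergy_cell hq hs2
  obtain ⟨hQ', b1, b1'⟩ := xenergy_cell hq ht1
  obtain ⟨-, b2, b2'⟩ := xenergy_cell hq ht2
  push_cast at a1 a1' a2 a2' b1 b1' b2 b2'
  have mP := h.memA hx hP
  have mQ := h.memB hp hQ
  have mQ' := h.memB hp hQ'
  have g2 := h.ker.hi _ mP _ mQ
  rw [← pow_succ'] at g2
  have hl := h.lam_bounds hx hp hP hQ hQ'
  have hM := h.Lpos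
  have e1 := h.ker.linear hM mP (h.ptB (mem_filter.1 hs1).1) mQ a1 a1'
  have e2 := h.ker.linear hM mP (h.ptB (mem_filter.1 hs2).1) mQ a2 a2'
  have f1 := h.ker.linear hM mP (h.ptB (mem_filter.1 ht1).1) mQ' b1 b1'
  have f2 := h.ker.linear hM mP (h.ptB (mem_filter.1 ht2).1) mQ' b2 b2'
  have hf := xenergy_floor (c := (th : ℝ) ^ (x + 21)) (by positivity) he
  have hc := xenergy_combine (h.ker.upos hM mP mQ) e1 e2 f1 f2 hf
  rw [sub_sub_sub_cancel_right, sub_sub_sub_cancel_right] at hc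
  have hn := xenergy_num hth hxr hlin
  have hc2 : |((s1 : ℝ) - s2) - lam U th x p P Q Q' * ((t1 : ℝ) - t2)| ≤ (th : ℝ) ^ r := by
    refine hc.trans (le_trans ?_ hn)
    apply mul_le_mul_of_nonneg_right g2.le
    positivity
  have hr : 0 < th ^ r := by positivity
  have q1 := xenergy_quot s1 hr
  have q2 := xenergy_quot s2 hr
  have q3 := xenergy_quot t1 hr
  have q4 := xenergy_quot t2 hr
  rw [Nat.cast_pow] at q1 q2 q3 q4
  exact xenergy_pass (by positivity) (by linarith [hl.1]) hl.2 hc2 q1 q2 q3 q4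

theorem xenergy_prod (F : ℝ → ℝ → ℝ) (th x y : ℕ) (B : Finset ℕ) (θ : ℕ → ℕ → ℂ) (P Q Q' a : ℕ) :
    loc F th x y B θ P Q a * loc F th x y B θ P Q' a =
      ∑ i ∈ cell B (th ^ y) Q ×ˢ cell B (th ^ y) Q', (θ P i.1 * θ P i.2) *
        ei (2 * π * ((a : ℝ) - (P : ℝ) * (th : ℝ) ^ x) *
          ((kk F th x P i.1 + kk F th x P i.2 : ℤ) : ℝ) / (th : ℝ) ^ (x + 21)) := by
  unfold loc
  rw [Finset.sum_mul_sum, Finset.sum_product]
  refine Finset.sum_congr rfl fun s _ => Finset.sum_congr rfl fun t _ => ?_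
  have e : 2 * π * ((a : ℝ) - (P : ℝ) * (th : ℝ) ^ x) *
      ((kk F th x P s + kk F th x P t : ℤ) : ℝ) / (th : ℝ) ^ (x + 21)
      = 2 * π * ((a : ℝ) - (P : ℝ) * (th : ℝ) ^ x) * (kk F th x P s) / (th : ℝ) ^ (x + 21)
        + 2 * π * ((a : ℝ) - (P : ℝ) * (th : ℝ) ^ x) * (kk F th x P t) / (th : ℝ) ^ (x + 21) := by
    push_cast
    ring
  rw [e, ei_add]
  ring

theorem xenergy_coll (h : Setup th k X al A B jA jB ca cb om Φ F U ps) {x p r : ℕ}
    (hxr : x + r = 2 * k) (hp : p ≤ 2 * k) (hlin : 2 * p + 2 ≤ 2 * k + r) {P : ℕ}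
    (hP : P ∈ cells A (th ^ x)) (Q Q' : ℕ) :
    (((cell B (th ^ p) Q ×ˢ cell B (th ^ p) Q') ×ˢ (cell B (th ^ p) Q ×ˢ cell B (th ^ p) Q')).filter
      (fun i : (ℕ × ℕ) × (ℕ × ℕ) =>
        kk F th x P i.1.1 + kk F th x P i.1.2 = kk F th x P i.2.1 + kk F th x P i.2.2)).card
      ≤ (2 * al r) ^ 4 * enr (zc th r p B Q) (zc th r p B Q') (lam U th x p P Q Q') 4 := by
  have hr : r ≤ 2 * k := by omega
  unfold enr
  refine Finset.card_le_mul_card_image_of_maps_to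
    (f := fun i : (ℕ × ℕ) × (ℕ × ℕ) =>
      ((((i.1.1 / th ^ r : ℕ) : ℤ), ((i.2.1 / th ^ r : ℕ) : ℤ)),
        (((i.2.2 / th ^ r : ℕ) : ℤ), ((i.1.2 / th ^ r : ℕ) : ℤ)))) ?_ _ ?_
  · intro i hi
    simp only [Finset.mem_filter, Finset.mem_product] at hi ⊢
    obtain ⟨⟨⟨h1, h2⟩, h3, h4⟩, he⟩ := hi
    refine ⟨⟨⟨xenergy_mem_zc h1, xenergy_mem_zc h3⟩, xenergy_mem_zc h4, xenergy_mem_zc h2⟩, ?_⟩
    simp only [Int.cast_natCast]
    exact h.linearise hxr hp hlin hP h1 h3 h4 h2 he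
  · intro b _
    refine le_trans (Finset.card_le_card (t :=
      (cell B (th ^ r) b.1.1.toNat ×ˢ cell B (th ^ r) b.2.2.toNat) ×ˢ
        (cell B (th ^ r) b.1.2.toNat ×ˢ cell B (th ^ r) b.2.1.toNat)) ?_) ?_
    · intro i hi
      simp only [Finset.mem_filter, Finset.mem_product] at hi
      obtain ⟨⟨⟨⟨h1, h2⟩, h3, h4⟩, -⟩, hb⟩ := hi
      have e1 := congrArg (fun b : (ℤ × ℤ) × (ℤ × ℤ) => b.1.1) hb
      have e2 := congrArg (fun b : (ℤ × ℤ) × (ℤ × ℤ) => b.1.2) hb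
      have e3 := congrArg (fun b : (ℤ × ℤ) × (ℤ × ℤ) => b.2.1) hb
      have e4 := congrArg (fun b : (ℤ × ℤ) × (ℤ × ℤ) => b.2.2) hb
      exact Finset.mem_product.2 ⟨Finset.mem_product.2 ⟨xenergy_fib h1 e1, xenergy_fib h2 e4⟩,
        Finset.mem_product.2 ⟨xenergy_fib h3 e2, xenergy_fib h4 e3⟩⟩
    · rw [Finset.card_product, Finset.card_product, Finset.card_product]
      have c := fun z => h.uB.cell_le hr z
      calc _ ≤ ((2 * al r) * (2 * al r)) * ((2 * al r) * (2 * al r)) :=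
            Nat.mul_le_mul (Nat.mul_le_mul (c _) (c _)) (Nat.mul_le_mul (c _) (c _))
        _ = (2 * al r) ^ 4 := by ring

theorem xenergy_block (h : Setup th k X al A B jA jB ca cb om Φ F U ps) {x p r : ℕ}
    (hxr : x + r = 2 * k) (hrp : r ≤ p) (hp : p ≤ 2 * k) (hlin : 2 * p + 2 ≤ 2 * k + r)
    {θ : ℕ → ℕ → ℂ} (hθ : ∀ P s, ‖θ P s‖ ≤ 1) {P : ℕ} (hP : P ∈ cells A (th ^ x)) (Q Q' : ℕ) :
    ∑ a ∈ cell A (th ^ x) P, (‖loc F th x p B θ P Q a‖ * ‖loc F th x p B θ P Q' a‖) ^ 2 ≤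
      ((2 * al (2 * k - p) * th ^ (p - r + 22) * (2 * al r) ^ 4 : ℕ) : ℝ) *
        enr (zc th r p B Q) (zc th r p B Q') (lam U th x p P Q Q') 4 := by
  have hx : x ≤ 2 * k := by omega
  have hls := ls_unif (ι := ℕ × ℕ) (x' := 2 * k - p) (P := P) (β := 2 * al (2 * k - p)) h.big
    (by omega) hx (cell A (th ^ x) P) (fun a ha => (Finset.mem_filter.1 ha).2)
    (fun c => le_trans (Finset.card_le_card
      (Finset.filter_subset_filter _ (Finset.filter_subset _ _))) (h.uA.cell_le (by omega) c))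
    (cell B (th ^ p) Q ×ˢ cell B (th ^ p) Q') (fun i => kk F th x P i.1 + kk F th x P i.2)
    (fun i => θ P i.1 * θ P i.2)
    (fun i _ => by
      rw [norm_mul]
      exact mul_le_one₀ (hθ _ _) (norm_nonneg _) (hθ _ _))
    (fun i hi i' hi' => by
      obtain ⟨h1, h2⟩ := Finset.mem_product.1 hi
      obtain ⟨h3, h4⟩ := Finset.mem_product.1 hi'
      have d1 := h.kk_diam hx hp (by omega) hP h1 h3
      have d2 := h.kk_diam hx hp (by omega) hP h2 h4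
      have e : kk F th x P i.1 + kk F th x P i.2 - (kk F th x P i'.1 + kk F th x P i'.2)
          = (kk F th x P i.1 - kk F th x P i'.1) + (kk F th x P i.2 - kk F th x P i'.2) := by ring
      have d3 := abs_add_le (kk F th x P i.1 - kk F th x P i'.1) (kk F th x P i.2 - kk F th x P i'.2)
      rw [e]
      linarith)
  have hc := xenergy_coll h hxr hp hlin hP Q Q'
  have e : x + 22 - (2 * k - p) = p - r + 22 := by omega
  rw [e] at hls
  simp only [← norm_mul, xenergy_prod]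
  refine hls.trans ?_
  have hc' := (Nat.cast_le (α := ℝ)).2 hc
  refine (mul_le_mul_of_nonneg_left hc' (by positivity)).trans (le_of_eq ?_)
  push_cast
  ring

theorem Setup.cross_energy (h : Setup th k X al A B jA jB ca cb om Φ F U ps) {x p r : ℕ}
    (hxr : x + r = 2 * k) (hrp : r ≤ p) (hx : x ≤ X) (hp : p ≤ 2 * k)
    (htay : 2 * x + p + 21 ≤ 4 * k) (hlin : 2 * p + 2 ≤ 2 * k + r)
    (hrev : th ^ (p - r) * (al r * al (2 * k - p)) ≤ th ^ 140 * (al x * al p)) :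
    al p ^ 3 * ((cells A (th ^ x)).card * (cells B (th ^ p)).card ^ 2) ≤
      th ^ 240 * al r ^ 3 * ∑ P ∈ cells A (th ^ x), ∑ Q ∈ cells B (th ^ p),
        ∑ Q' ∈ cells B (th ^ p), enr (zc th r p B Q) (zc th r p B Q') (lam U th x p P Q Q') 4 := by
  have hx2 : x ≤ 2 * k := by omega
  obtain ⟨hA, hB⟩ := h.nonempty
  obtain ⟨θ, hθ, hloc⟩ := h.local_model hx hp htay hx2
  have hpow := xenergy_power A (cells B (th ^ p))
    (fun a Q => ‖loc F th x p B θ (a / th ^ x) Q a‖)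
  have hsum : ∑ a ∈ A, ∑ Q ∈ cells B (th ^ p), ∑ Q' ∈ cells B (th ^ p),
      (‖loc F th x p B θ (a / th ^ x) Q a‖ * ‖loc F th x p B θ (a / th ^ x) Q' a‖) ^ 2 ≤
      ((2 * al (2 * k - p) * th ^ (p - r + 22) * (2 * al r) ^ 4 *
        ∑ P ∈ cells A (th ^ x), ∑ Q ∈ cells B (th ^ p), ∑ Q' ∈ cells B (th ^ p),
          enr (zc th r p B Q) (zc th r p B Q') (lam U th x p P Q Q') 4 : ℕ) : ℝ) := by
    rw [sum_cells A (th ^ x), Nat.cast_mul, Nat.cast_sum, Finset.mul_sum]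
    refine Finset.sum_le_sum fun P hP => ?_
    rw [Finset.sum_comm, Nat.cast_sum, Finset.mul_sum]
    refine Finset.sum_le_sum fun Q _ => ?_
    rw [Finset.sum_comm, Nat.cast_sum, Finset.mul_sum]
    refine Finset.sum_le_sum fun Q' _ => ?_
    refine le_trans (le_of_eq (Finset.sum_congr rfl fun a ha => ?_))
      (xenergy_block h hxr hrp hp hlin hθ hP Q Q')
    rw [(Finset.mem_filter.1 ha).2]
  have h4 := pow_le_pow_left₀ (by positivity) hloc 4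
  rw [mul_pow ((th : ℝ) ^ 19)] at h4
  have h5 := h4.trans (mul_le_mul_of_nonneg_left
    (hpow.trans (mul_le_mul_of_nonneg_left hsum (by positivity))) (by positivity))
  have hnp : 0 < (cells B (th ^ p)).card := Finset.card_pos.2 (hB.image _)
  refine xenergy_final h.big.h1000 (Finset.card_pos.2 hA) (h.uA.pos hA hx2) (h.uB.pos hB hp) hnp
    (h.uA.cells_mul_le hx2) (h.uB.cells_mul_le hp) hrev ?_
  rw [← pow_add th (p - r) 22]
  exact_mod_cast h5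

end

end Pool.Agent.Lib.MP_ecd12e_nt.ZS
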