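import Pool.Agent.Lib.MP_ecd12e_nt.ZS.Defs

/-! Reindexing of the off-diagonal sum by reduced fractions and dyadic ranges. -/

set_option autoImplicit false

namespace Pool.Agent.Lib.MP_ecd12e_nt.ZS

open Finset Real

theorem arithA_gcd {d h j b : ℕ} (hc : Nat.Coprime b h) :
    Nat.gcd (d * (j * h + b)) (d * h) = d := by
  rw [Nat.gcd_mul_left, add_comm, Nat.gcd_add_mul_right_left, hc, mul_one]

theorem arithA_eq {N x : ℕ} (hx : N ≤ x) (g : ℝ → ℂ) :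
    ∑ i ∈ range (Nat.log 2 (2 * N) + 1), ∑ i' ∈ range (Nat.log 2 (2 * N) + 1),
      ∑ d ∈ Icc 1 (2 * N / (2 ^ i * 2 ^ i')), ∑ h ∈ Ico (2 ^ i') (2 * 2 ^ i'),
        ∑ b ∈ (range h).filter (fun b => Nat.Coprime b h),
          ∑ j ∈ (Ico (2 ^ i) (2 * 2 ^ i)).filter
              (fun j => x ≤ d * (j * h + b) ∧ d * (j * h + b) + d * h ≤ 2 * N),
            g ((j : ℝ) + (b : ℝ) / h) =
      ∑ h ∈ Icc 1 N, ∑ m ∈ Icc x (2 * N - h), g ((m : ℝ) / h) := by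
  simp only [sum_sigma']
  refine sum_bij (fun q _ => ⟨q.2.2.1 * q.2.2.2.1,
    q.2.2.1 * (q.2.2.2.2.2 * q.2.2.2.1 + q.2.2.2.2.1)⟩) ?_ ?_ ?_ ?_
  · rintro ⟨i, i', d, h, b, j⟩ hq
    simp only [mem_sigma, mem_range, mem_Icc, mem_Ico, mem_filter] at hq ⊢
    obtain ⟨-, -, ⟨d1, -⟩, ⟨h1, -⟩, -, -, j1, j2⟩ := hq
    have : 0 < d * h := Nat.mul_pos d1 ((Nat.two_pow_pos i').trans_le h1)
    omega
  · rintro ⟨i, i', d, h, b, j⟩ hq ⟨i₁, i₁', d₁, h₁, b₁, j₁⟩ hq₁ e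
    simp only [mem_sigma, mem_range, mem_Icc, mem_Ico, mem_filter] at hq hq₁
    obtain ⟨-, -, ⟨d1, -⟩, ⟨h1, h2⟩, ⟨b1, b2⟩, ⟨j1, j2⟩, -⟩ := hq
    obtain ⟨-, -, -, ⟨h3, h4⟩, ⟨b3, b4⟩, ⟨j3, j4⟩, -⟩ := hq₁
    have e1 : d * h = d₁ * h₁ := congrArg (·.1) e
    have e2 : d * (j * h + b) = d₁ * (j₁ * h₁ + b₁) := congrArg (fun p : (_ : ℕ) × ℕ => p.2) e
    obtain rfl : d = d₁ := by rw [← arithA_gcd (d := d) (j := j) b2, e1, e2, arithA_gcd b4]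
    obtain rfl : h = h₁ := Nat.eq_of_mul_eq_mul_left d1 e1
    have e3 := Nat.eq_of_mul_eq_mul_left d1 e2
    obtain rfl : b = b₁ := by
      have := congrArg (· % h) e3
      simpa [Nat.mod_eq_of_lt b1, Nat.mod_eq_of_lt b3] using this
    obtain rfl : j = j₁ := Nat.eq_of_mul_eq_mul_right (by omega) (Nat.add_right_cancel e3)
    obtain rfl : i = i₁ := (Nat.log_eq_of_pow_le_of_lt_pow j1 (pow_succ' 2 i ▸ j2)).symm.trans
      (Nat.log_eq_of_pow_le_of_lt_pow j3 (pow_succ' 2 i₁ ▸ j4))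
    obtain rfl : i' = i₁' := (Nat.log_eq_of_pow_le_of_lt_pow h1 (pow_succ' 2 i' ▸ h2)).symm.trans
      (Nat.log_eq_of_pow_le_of_lt_pow h3 (pow_succ' 2 i₁' ▸ h4))
    rfl
  · rintro ⟨h₀, m⟩ hp
    simp only [mem_sigma, mem_Icc] at hp
    obtain ⟨⟨h1, h2⟩, m1, m2⟩ := hp
    obtain ⟨d, m', h, d0, hc, rfl, rfl⟩ : ∃ d m' h, 0 < d ∧ Nat.Coprime m' h ∧ m = d * m' ∧
        h₀ = d * h := ⟨m.gcd h₀, m / m.gcd h₀, h₀ / m.gcd h₀, Nat.gcd_pos_of_pos_right _ h1,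
      Nat.coprime_div_gcd_div_gcd (Nat.gcd_pos_of_pos_right _ h1),
      (Nat.mul_div_cancel' (Nat.gcd_dvd_left _ _)).symm,
      (Nat.mul_div_cancel' (Nat.gcd_dvd_right _ _)).symm⟩
    have h0 : 0 < h := Nat.pos_of_mul_pos_left h1
    have hm : h ≤ m' := Nat.le_of_mul_le_mul_left (by omega) d0
    have j0 : 0 < m' / h := Nat.div_pos hm h0
    have e : m' / h * h + m' % h = m' := Nat.div_add_mod' m' h
    have l1 := Nat.pow_log_le_self 2 j0.ne'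
    have l2 := Nat.pow_log_le_self 2 h0.ne'
    have l3 := Nat.lt_pow_succ_log_self one_lt_two (m' / h)
    have l4 := Nat.lt_pow_succ_log_self one_lt_two h
    have l5 : m' ≤ d * m' := Nat.le_mul_of_pos_left _ d0
    have l6 : m' / h ≤ m' := Nat.div_le_self _ _
    have l7 : d * (2 ^ Nat.log 2 (m' / h) * 2 ^ Nat.log 2 h) ≤ d * m' :=
      Nat.mul_le_mul_left _ ((Nat.mul_le_mul l1 l2).trans (by omega))
    refine ⟨⟨Nat.log 2 (m' / h), Nat.log 2 h, d, h, m' % h, m' / h⟩, ?_, by simp only [e]⟩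
    simp only [mem_sigma, mem_range, mem_Icc, mem_Ico, mem_filter, e]
    rw [pow_succ'] at l3 l4
    refine ⟨Nat.lt_succ_of_le (Nat.log_mono_right (by omega)),
      Nat.lt_succ_of_le (Nat.log_mono_right (by omega)),
      ⟨d0, (Nat.le_div_iff_mul_le (by positivity)).2 (by omega)⟩, ⟨l2, l4⟩,
      ⟨Nat.mod_lt _ h0, ?_⟩, ⟨l1, l3⟩, m1, by omega⟩
    exact (Nat.gcd_rec h m').symm.trans hc.symm
  · rintro ⟨i, i', d, h, b, j⟩ hq
    simp only [mem_sigma, mem_range, mem_Icc, mem_Ico, mem_filter] at hq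
    obtain ⟨-, -, ⟨d1, -⟩, ⟨h1, -⟩, -⟩ := hq
    have d0 : (d : ℝ) ≠ 0 := Nat.cast_ne_zero.2 (by omega)
    have h0 : (h : ℝ) ≠ 0 := Nat.cast_ne_zero.2 ((Nat.two_pow_pos i').trans_le h1).ne'
    refine congrArg g ?_
    push_cast
    field_simp

theorem arith_split {N x : ℕ} (hN : 1 ≤ N) (hx : N ≤ x) (κ : ℝ → ℝ) (f : ℝ → ℂ) :
    ‖offd N x κ f‖ ≤ ∑ i ∈ range (Nat.log 2 (2 * N) + 1), ∑ i' ∈ range (Nat.log 2 (2 * N) + 1),
      ∑ d ∈ Icc 1 (2 * N / (2 ^ i * 2 ^ i')), ∑ h ∈ Ico (2 ^ i') (2 * 2 ^ i'),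
        ∑ b ∈ (range h).filter (fun b => Nat.Coprime b h),
          ‖∑ j ∈ (Ico (2 ^ i) (2 * 2 ^ i)).filter
              (fun j => x ≤ d * (j * h + b) ∧ d * (j * h + b) + d * h ≤ 2 * N),
            (κ ((j : ℝ) + (b : ℝ) / h) : ℂ) * f ((j : ℝ) + (b : ℝ) / h)‖ := by
  have _ := hN
  rw [offd, ← arithA_eq hx fun y => (κ y : ℂ) * f y]
  exact norm_sum_le_of_le _ fun _ _ => norm_sum_le_of_le _ fun _ _ => norm_sum_le_of_le _
    fun _ _ => norm_sum_le_of_le _ fun _ _ => norm_sum_le _ _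

end Pool.Agent.Lib.MP_ecd12e_nt.ZS
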