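import Pool.Agent.Lib.MP_ecd12e_nt.ZS.Defs

/-!
Completion of a weighted sum over a subinterval of `[Y, 2Y)` by finite Fourier inversion.
-/

set_option autoImplicit false

namespace Pool.Agent.Lib.MP_ecd12e_nt.ZS

open Finset Real
open Pool.Agent.Lib.MP_ecd12e_nt.Bar (ei cell cells Unif Big zc enr)

lemma comp_pow (x : ℝ) (n : ℕ) : ei x ^ n = ei (n * x) := by
  induction n with
  | zero => simp [Bar.ei_zero]
  | succ n ih =>
    rw [pow_succ, ih, ← Bar.ei_add]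
    congr 1
    push_cast
    ring

lemma comp_even (x : ℝ) : ‖ei (-x) - 1‖ = ‖ei x - 1‖ := by
  rw [Bar.norm_ei_sub_one, Bar.norm_ei_sub_one, neg_div, Real.sin_neg, abs_neg]

/-- Lower bound for the distance of a nontrivial root of unity from one. -/
lemma comp_low {Y b : ℕ} (hb : 1 ≤ b) (hbY : b < Y) :
    2 ≤ (Y : ℝ) * (1 / ((b : ℝ) + 1) + 1 / ((Y - b : ℕ) : ℝ)) * ‖ei (2 * π * b / Y) - 1‖ := by
  have hY : (0 : ℝ) < Y := by exact_mod_cast (by omega : 0 < Y)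
  have hb1 : (1 : ℝ) ≤ b := by exact_mod_cast hb
  have hc : ((Y - b : ℕ) : ℝ) = Y - b := by rw [Nat.cast_sub hbY.le]
  have hc1 : (0 : ℝ) < (Y : ℝ) - b := by
    have : (b : ℝ) < Y := by exact_mod_cast hbY
    linarith
  have hpi := Real.pi_pos
  rw [hc]
  have p1 : 0 < 1 / ((b : ℝ) + 1) := by positivity
  have p2 : 0 < 1 / ((Y : ℝ) - b) := by positivity
  rcases le_total (2 * (b : ℝ)) Y with h | h
  · have hx : (0 : ℝ) ≤ 2 * π * b / Y := by positivity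
    have h1 : |2 * π * b / Y| ≤ π := by
      rw [abs_of_nonneg hx, div_le_iff₀ hY]
      nlinarith
    have h2 := Bar.le_norm_ei_sub_one h1
    rw [abs_of_nonneg hx] at h2
    have h3 : 2 / π * (2 * π * b / Y) = 4 * b / Y := by field_simp; ring
    rw [h3] at h2
    have h4 : (2 : ℝ) ≤ Y * (1 / ((b : ℝ) + 1)) * (4 * b / Y) := by
      have : (Y : ℝ) * (1 / ((b : ℝ) + 1)) * (4 * b / Y) = 4 * b / (b + 1) := by field_simp
      rw [this, le_div_iff₀ (by linarith)]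
      linarith
    refine h4.trans (mul_le_mul ?_ h2 (by positivity) (by positivity))
    exact mul_le_mul_of_nonneg_left (by linarith) hY.le
  · have hx : (0 : ℝ) ≤ 2 * π * (Y - b) / Y := by positivity
    have h1 : |2 * π * (Y - b) / Y| ≤ π := by
      rw [abs_of_nonneg hx, div_le_iff₀ hY]
      nlinarith
    have h2 := Bar.le_norm_ei_sub_one h1
    rw [abs_of_nonneg hx] at h2
    have h3 : 2 / π * (2 * π * (Y - b) / Y) = 4 * (Y - b) / Y := by field_simp; ring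
    rw [h3, ← comp_even] at h2
    have e : ei (2 * π * b / Y) = ei (-(2 * π * (Y - b) / Y)) := by
      rw [← mul_one (ei (-_)), ← Bar.ei_two_pi_int 1, ← Bar.ei_add]
      congr 1
      push_cast
      field_simp
      ring
    rw [e]
    have h4 : (2 : ℝ) ≤ Y * (1 / ((Y : ℝ) - b)) * (4 * (Y - b) / Y) := by
      have : (Y : ℝ) * (1 / ((Y : ℝ) - b)) * (4 * (Y - b) / Y) = 4 := by field_simp
      rw [this]
      norm_num
    refine h4.trans (mul_le_mul ?_ h2 (by positivity) (by positivity))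
    exact mul_le_mul_of_nonneg_left (by linarith) hY.le

lemma comp_ne {Y b : ℕ} (hb : 1 ≤ b) (hbY : b < Y) : ‖ei (2 * π * b / Y) - 1‖ ≠ 0 := by
  intro h
  have := comp_low hb hbY
  rw [h, mul_zero] at this
  linarith

/-- Orthogonality of the characters modulo `Y`. -/
lemma comp_orth {Y i j : ℕ} (hi : i ∈ Ico Y (2 * Y)) (hj : j ∈ Ico Y (2 * Y)) :
    ∑ b ∈ range Y, ei (-(2 * π * b / Y)) ^ j * ei (2 * π * b * i / Y) =
      if i = j then (Y : ℂ) else 0 := by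
  rw [mem_Ico] at hi hj
  have hY : (0 : ℝ) < Y := by exact_mod_cast (by omega : 0 < Y)
  have e : ∀ b : ℕ, ei (-(2 * π * b / Y)) ^ j * ei (2 * π * b * i / Y) =
      ei (2 * π * ((i : ℝ) - j) / Y) ^ b := by
    intro b
    rw [comp_pow, comp_pow, ← Bar.ei_add]
    congr 1
    ring
  simp only [e]
  split_ifs with h
  · subst h
    simp [Bar.ei_zero]
  · have hne : ‖ei (2 * π * ((i : ℝ) - j) / Y) - 1‖ ≠ 0 := by
      rcases lt_or_gt_of_ne h with h' | h'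
      · have := comp_ne (Y := Y) (b := j - i) (by omega) (by omega)
        rw [← comp_even, Nat.cast_sub h'.le] at this
        have e2 : 2 * π * ((i : ℝ) - j) / Y = -(2 * π * ((j : ℝ) - i) / Y) := by ring
        rw [e2]
        exact this
      · have := comp_ne (Y := Y) (b := i - j) (by omega) (by omega)
        rw [Nat.cast_sub h'.le] at this
        exact this
    have hne' : ei (2 * π * ((i : ℝ) - j) / Y) - 1 ≠ 0 := norm_ne_zero_iff.mp hne
    have hg := geom_sum_mul (ei (2 * π * ((i : ℝ) - j) / Y)) Y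
    have h1 : ei (2 * π * ((i : ℝ) - j) / Y) ^ Y = 1 := by
      rw [comp_pow, ← Bar.ei_two_pi_int ((i : ℤ) - j)]
      congr 1
      push_cast
      field_simp
    rw [h1, sub_self] at hg
    exact (mul_eq_zero.mp hg).resolve_right hne'

/-- Summation by parts against a monotone weight. -/
lemma comp_abel {u : ℂ} (hu : ‖u‖ = 1) (w : ℕ → ℝ) (p n : ℕ) (h0 : 0 ≤ w p)
    (hm : ∀ j, p ≤ j → j < p + n → w j ≤ w (j + 1)) :
    ‖(u - 1) * ∑ j ∈ Icc p (p + n), (w j : ℂ) * u ^ j - (w (p + n) : ℂ) * u ^ (p + n + 1)‖ ≤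
      w (p + n) := by
  induction n with
  | zero =>
    have : (u - 1) * ∑ j ∈ Icc p (p + 0), (w j : ℂ) * u ^ j - (w (p + 0) : ℂ) * u ^ (p + 0 + 1) =
        -((w p : ℂ) * u ^ p) := by
      simp only [add_zero, Icc_self, sum_singleton]
      ring
    rw [this, norm_neg, norm_mul, norm_pow, hu, one_pow, mul_one, Complex.norm_real,
      Real.norm_eq_abs, abs_of_nonneg h0, add_zero]
  | succ n ih =>
    have ih' := ih fun j h1 h2 => hm j h1 (by omega)
    have hs := hm (p + n) (by omega) (by omega)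
    have : (u - 1) * ∑ j ∈ Icc p (p + (n + 1)), (w j : ℂ) * u ^ j -
        (w (p + (n + 1)) : ℂ) * u ^ (p + (n + 1) + 1) =
        ((u - 1) * ∑ j ∈ Icc p (p + n), (w j : ℂ) * u ^ j - (w (p + n) : ℂ) * u ^ (p + n + 1)) -
          ((w (p + n + 1) - w (p + n) : ℝ) : ℂ) * u ^ (p + n + 1) := by
      rw [← add_assoc, sum_Icc_succ_top (by omega)]
      push_cast
      ring
    rw [this]
    refine (norm_sub_le _ _).trans ?_
    rw [norm_mul, norm_pow, hu, one_pow, mul_one, Complex.norm_real, Real.norm_eq_abs,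
      abs_of_nonneg (by linarith), ← add_assoc]
    linarith

lemma comp_geom {u : ℂ} (hu : ‖u‖ = 1) (J : Finset ℕ) (w : ℕ → ℝ) {κ : ℝ}
    (hJ : ∀ j1 ∈ J, ∀ j2 ∈ J, ∀ j, j1 ≤ j → j ≤ j2 → j ∈ J) (hκ : 0 ≤ κ)
    (hw : ∀ j ∈ J, 0 ≤ w j ∧ w j ≤ κ) (hm : ∀ j1 ∈ J, ∀ j2 ∈ J, j1 ≤ j2 → w j1 ≤ w j2) :
    ‖u - 1‖ * ‖∑ j ∈ J, (w j : ℂ) * u ^ j‖ ≤ 2 * κ := by
  rcases J.eq_empty_or_nonempty with rfl | hne
  · simp only [sum_empty, norm_zero, mul_zero]
    linarith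
  obtain ⟨n, hn⟩ := Nat.exists_eq_add_of_le (J.min'_le_max' hne)
  have hp := J.min'_mem hne
  have hq := J.max'_mem hne
  have hJe : J = Icc (J.min' hne) (J.min' hne + n) := by
    ext j
    rw [mem_Icc, ← hn]
    exact ⟨fun h => ⟨J.min'_le j h, J.le_max' j h⟩, fun h => hJ _ hp _ hq j h.1 h.2⟩
  rw [hn] at hq
  generalize J.min' hne = p at hp hq hJe
  have h := comp_abel hu w p n (hw p hp).1 fun j h1 h2 =>
    hm j (hJ _ hp _ hq j h1 (by omega)) (j + 1) (hJ _ hp _ hq (j + 1) (by omega) (by omega))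
      (by omega)
  rw [← hJe] at h
  have h2 : ‖(w (p + n) : ℂ) * u ^ (p + n + 1)‖ = w (p + n) := by
    rw [norm_mul, norm_pow, hu, one_pow, mul_one, Complex.norm_real, Real.norm_eq_abs,
      abs_of_nonneg (hw _ hq).1]
  have h3 := norm_sub_norm_le ((u - 1) * ∑ j ∈ J, (w j : ℂ) * u ^ j)
    ((w (p + n) : ℂ) * u ^ (p + n + 1))
  rw [h2, norm_mul] at h3
  have h4 := (hw _ hq).2
  linarith

lemma comp_harm (Y : ℕ) : ∑ b ∈ range Y, 1 / ((b : ℝ) + 1) ≤ 1 + Real.log Y := by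
  have h := harmonic_le_one_add_log Y
  have e : ((harmonic Y : ℚ) : ℝ) = ∑ b ∈ range Y, 1 / ((b : ℝ) + 1) := by
    simp [harmonic]
  rwa [e] at h

theorem completion {Y : ℕ} (hY : 1 ≤ Y) : ∃ la : ℕ → ℝ, (∀ b, 0 ≤ la b) ∧
    ∑ b ∈ range Y, la b ≤ 3 + 2 * Real.log Y ∧
    ∀ (J : Finset ℕ) (w : ℕ → ℝ) (z : ℕ → ℂ) (κ : ℝ), J ⊆ Ico Y (2 * Y) →
      (∀ j1 ∈ J, ∀ j2 ∈ J, ∀ j, j1 ≤ j → j ≤ j2 → j ∈ J) → 0 ≤ κ →
      (∀ j ∈ J, 0 ≤ w j ∧ w j ≤ κ) → (∀ j1 ∈ J, ∀ j2 ∈ J, j1 ≤ j2 → w j1 ≤ w j2) →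
      ‖∑ j ∈ J, (w j : ℂ) * z j‖ ≤
        κ * ∑ b ∈ range Y, la b * ‖∑ j ∈ Ico Y (2 * Y), ei (2 * π * b * j / Y) * z j‖ := by
  have hY0 : (0 : ℝ) < Y := by exact_mod_cast hY
  refine ⟨fun b => 1 / ((b : ℝ) + 1) + 1 / ((Y - b : ℕ) : ℝ), fun b => by positivity, ?_, ?_⟩
  · rw [sum_add_distrib]
    have e : ∑ b ∈ range Y, 1 / ((Y - b : ℕ) : ℝ) = ∑ b ∈ range Y, 1 / ((b : ℝ) + 1) := by
      rw [← sum_range_reflect (fun b => 1 / ((b : ℝ) + 1)) Y]
      refine sum_congr rfl fun b hb => ?_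
      rw [mem_range] at hb
      have : Y - b = Y - 1 - b + 1 := by omega
      rw [this]
      push_cast
      rfl
    have := comp_harm Y
    rw [e]
    linarith
  intro J w z κ hJ hint hκ hw hm
  have key : (Y : ℂ) * ∑ j ∈ J, (w j : ℂ) * z j = ∑ b ∈ range Y,
      (∑ j ∈ J, (w j : ℂ) * ei (-(2 * π * b / Y)) ^ j) *
        ∑ i ∈ Ico Y (2 * Y), ei (2 * π * b * i / Y) * z i := by
    simp only [sum_mul]
    rw [sum_comm, mul_sum]
    refine sum_congr rfl fun j hj => ?_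
    have e : ∀ b ∈ range Y, (w j : ℂ) * ei (-(2 * π * b / Y)) ^ j *
        ∑ i ∈ Ico Y (2 * Y), ei (2 * π * b * i / Y) * z i =
        ∑ i ∈ Ico Y (2 * Y), (w j : ℂ) * z i *
          (ei (-(2 * π * b / Y)) ^ j * ei (2 * π * b * i / Y)) := by
      intro b _
      rw [mul_sum]
      exact sum_congr rfl fun i _ => by ring
    rw [sum_congr rfl e, sum_comm]
    have e2 : ∀ i ∈ Ico Y (2 * Y), ∑ b ∈ range Y, (w j : ℂ) * z i *
        (ei (-(2 * π * b / Y)) ^ j * ei (2 * π * b * i / Y)) =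
        if i = j then (Y : ℂ) * ((w j : ℂ) * z j) else 0 := by
      intro i hi
      rw [← mul_sum, comp_orth hi (hJ hj)]
      split_ifs with h
      · rw [h]
        ring
      · rw [mul_zero]
    rw [sum_congr rfl e2, sum_ite_eq', if_pos (hJ hj)]
  have hT : ∀ b ∈ range Y, ‖∑ j ∈ J, (w j : ℂ) * ei (-(2 * π * b / Y)) ^ j‖ ≤
      Y * (κ * (1 / ((b : ℝ) + 1) + 1 / ((Y - b : ℕ) : ℝ))) := by
    intro b hb
    rw [mem_range] at hb
    rcases Nat.eq_zero_or_pos b with rfl | hb0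
    · have h1 : ‖∑ j ∈ J, (w j : ℂ) * ei (-(2 * π * (0 : ℕ) / Y)) ^ j‖ ≤ ∑ j ∈ J, κ := by
        refine norm_sum_le_of_le _ fun j hj => ?_
        rw [norm_mul, norm_pow, Bar.norm_ei, one_pow, mul_one, Complex.norm_real,
          Real.norm_eq_abs, abs_of_nonneg (hw j hj).1]
        exact (hw j hj).2
      have h2 : J.card ≤ Y := by
        have := card_le_card hJ
        rw [Nat.card_Ico] at this
        omega
      have h3 : (J.card : ℝ) ≤ Y := by exact_mod_cast h2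
      rw [sum_const, nsmul_eq_mul] at h1
      refine h1.trans (mul_le_mul h3 ?_ hκ hY0.le)
      have h4 : (0 : ℝ) ≤ 1 / ((Y - 0 : ℕ) : ℝ) := by positivity
      have h5 : (1 : ℝ) / (((0 : ℕ) : ℝ) + 1) = 1 := by simp
      rw [h5]
      nlinarith
    · have h1 := comp_geom (Bar.norm_ei (-(2 * π * b / Y))) J w hint hκ hw hm
      have h2 := comp_low hb0 hb
      rw [comp_even] at h1
      have h3 : (0 : ℝ) ≤ Y * (1 / ((b : ℝ) + 1) + 1 / ((Y - b : ℕ) : ℝ)) := by positivity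
      have h4 := mul_le_mul_of_nonneg_left h1 h3
      have h5 := mul_le_mul_of_nonneg_right h2
        (norm_nonneg (∑ j ∈ J, (w j : ℂ) * ei (-(2 * π * b / Y)) ^ j))
      nlinarith [h4, h5]
  refine le_of_mul_le_mul_left ?_ hY0
  have h1 : (Y : ℝ) * ‖∑ j ∈ J, (w j : ℂ) * z j‖ = ‖(Y : ℂ) * ∑ j ∈ J, (w j : ℂ) * z j‖ := by
    rw [norm_mul, Complex.norm_natCast]
  rw [h1, key, mul_sum, mul_sum]
  refine norm_sum_le_of_le _ fun b hb => ?_
  rw [norm_mul]
  refine (mul_le_mul_of_nonneg_right (hT b hb) (norm_nonneg _)).trans (le_of_eq ?_)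
  ring

end Pool.Agent.Lib.MP_ecd12e_nt.ZS
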