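import Pool.Agent.Lib.MP_ecd12e_nt.ZS.ArithA
import Pool.Agent.Lib.MP_ecd12e_nt.ZS.Comp

set_option autoImplicit false

namespace Pool.Agent.Lib.MP_ecd12e_nt.ZS

open Finset Real
open Pool.Agent.Lib.MP_ecd12e_nt.Bar (ei cell cells Unif Big zc enr)

/-- The coprime pairs `(h, b)` with `H ≤ h < 2H` and `b < h`. -/
def arithB_pairs (H : ℕ) : Finset ((_ : ℕ) × ℕ) :=
  (Ico H (2 * H)).sigma (fun h => (range h).filter (fun b => Nat.Coprime b h))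

/-- The reduced fractions `b / h` with `H ≤ h < 2H` and `b < h`. -/
noncomputable def arithB_fr (H : ℕ) : Finset ℝ :=
  (arithB_pairs H).image (fun p => (p.2 : ℝ) / (p.1 : ℝ))

theorem arithB_mem {H : ℕ} {p : (_ : ℕ) × ℕ} (hp : p ∈ arithB_pairs H) :
    H ≤ p.1 ∧ p.1 < 2 * H ∧ p.2 < p.1 ∧ Nat.Coprime p.2 p.1 := by
  simp only [arithB_pairs, mem_sigma, mem_Ico, mem_filter, mem_range] at hp
  exact ⟨hp.1.1, hp.1.2, hp.2.1, hp.2.2⟩

theorem arithB_inj (H : ℕ) :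
    Set.InjOn (fun p : (_ : ℕ) × ℕ => (p.2 : ℝ) / (p.1 : ℝ)) (arithB_pairs H) := by
  rintro ⟨h, b⟩ hp ⟨h', b'⟩ hq he
  obtain ⟨-, -, h1, c1⟩ := arithB_mem (Finset.mem_coe.1 hp)
  obtain ⟨-, -, h2, c2⟩ := arithB_mem (Finset.mem_coe.1 hq)
  dsimp only at h1 c1 h2 c2 he
  have p1 : (0 : ℝ) < h := by exact_mod_cast (by omega : 0 < h)
  have p2 : (0 : ℝ) < h' := by exact_mod_cast (by omega : 0 < h')
  rw [div_eq_div_iff p1.ne' p2.ne'] at he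
  have e : b * h' = b' * h := by exact_mod_cast he
  have d1 : h ∣ h' := c1.symm.dvd_of_dvd_mul_left ⟨b', by rw [e, mul_comm]⟩
  have d2 : h' ∣ h := c2.symm.dvd_of_dvd_mul_left ⟨b, by rw [← e, mul_comm]⟩
  obtain rfl : h = h' := Nat.dvd_antisymm d1 d2
  obtain rfl : b = b' := Nat.eq_of_mul_eq_mul_right (by omega) e
  rfl

theorem arithB_sum (H : ℕ) (g : ℝ → ℝ) :
    ∑ h ∈ Ico H (2 * H), ∑ b ∈ (range h).filter (fun b => Nat.Coprime b h), g ((b : ℝ) / h) =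
      ∑ θ ∈ arithB_fr H, g θ := by
  rw [arithB_fr, sum_image (arithB_inj H), arithB_pairs, sum_sigma]

theorem arithB_range {H : ℕ} {θ : ℝ} (hθ : θ ∈ arithB_fr H) : 0 ≤ θ ∧ θ < 1 := by
  obtain ⟨p, hp, rfl⟩ := mem_image.1 hθ
  obtain ⟨-, -, h1, -⟩ := arithB_mem hp
  have p1 : (0 : ℝ) < p.1 := by exact_mod_cast (by omega : 0 < p.1)
  exact ⟨by positivity, (div_lt_one p1).2 (by exact_mod_cast h1)⟩

theorem arithB_sep (H : ℕ) : Bar.Sep (1 / (4 * (H : ℝ) ^ 2)) (arithB_fr H) := by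
  intro u hu v hv huv
  obtain ⟨p, hp, rfl⟩ := mem_image.1 hu
  obtain ⟨q, hq, rfl⟩ := mem_image.1 hv
  obtain ⟨-, a1, h1, -⟩ := arithB_mem hp
  obtain ⟨-, a2, h2, -⟩ := arithB_mem hq
  have p1 : (0 : ℝ) < p.1 := by exact_mod_cast (by omega : 0 < p.1)
  have p2 : (0 : ℝ) < q.1 := by exact_mod_cast (by omega : 0 < q.1)
  have b1 : (p.1 : ℝ) ≤ 2 * H := by exact_mod_cast a1.le
  have b2 : (q.1 : ℝ) ≤ 2 * H := by exact_mod_cast a2.le
  have hne : ((p.2 : ℤ) * q.1 - (p.1 : ℤ) * q.2) ≠ 0 := by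
    intro h0
    apply huv
    rw [div_eq_div_iff p1.ne' p2.ne']
    have : ((p.2 : ℝ) * q.1 - (p.1 : ℝ) * q.2) = 0 := by exact_mod_cast h0
    linarith
  have h1le : (1 : ℝ) ≤ |(p.2 : ℝ) * q.1 - (p.1 : ℝ) * q.2| := by
    have := Int.one_le_abs hne
    exact_mod_cast this
  rw [div_sub_div _ _ p1.ne' p2.ne', abs_div, abs_of_pos (mul_pos p1 p2)]
  have hle : (p.1 : ℝ) * q.1 ≤ 4 * (H : ℝ) ^ 2 := by
    calc (p.1 : ℝ) * q.1 ≤ (2 * H) * (2 * H) := mul_le_mul b1 b2 p2.le (p1.le.trans b1)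
      _ = 4 * (H : ℝ) ^ 2 := by ring
  calc 1 / (4 * (H : ℝ) ^ 2) ≤ 1 / ((p.1 : ℝ) * q.1) :=
        one_div_le_one_div_of_le (mul_pos p1 p2) hle
    _ ≤ _ := div_le_div_of_nonneg_right h1le (mul_pos p1 p2).le

theorem arithB_block {N x Y H : ℕ} (hY : 1 ≤ Y) (hH : 1 ≤ H) {κ : ℝ → ℝ} (f : ℝ → ℂ) {B : ℝ}
    (hκ0 : ∀ y, 0 ≤ κ y) (hκ : ∀ y y', 0 < y → y ≤ y' → κ y ≤ κ y')
    (hB : ∀ ζ : ℕ → ℂ, (∀ j, ‖ζ j‖ ≤ 1) →
      κ (2 * Y) * (N / (Y * H)) *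
        ∑ θ ∈ arithB_fr H, ‖∑ j ∈ Ico Y (2 * Y), ζ j * f (j + θ)‖ ≤ B) (hB0 : 0 ≤ B) :
    ∑ d ∈ Icc 1 (2 * N / (Y * H)), ∑ h ∈ Ico H (2 * H),
        ∑ b ∈ (range h).filter (fun b => Nat.Coprime b h),
          ‖∑ j ∈ (Ico Y (2 * Y)).filter
              (fun j => x ≤ d * (j * h + b) ∧ d * (j * h + b) + d * h ≤ 2 * N),
            (κ ((j : ℝ) + (b : ℝ) / h) : ℂ) * f ((j : ℝ) + (b : ℝ) / h)‖ ≤
      2 * (3 + 2 * Real.log Y) * B := by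
  obtain ⟨la, hla0, hla, hc⟩ := completion hY
  have y0 : (1 : ℝ) ≤ Y := by exact_mod_cast hY
  have h0 : (1 : ℝ) ≤ H := by exact_mod_cast hH
  set Z : ℕ → ℝ → ℝ := fun c θ =>
    ‖∑ j ∈ Ico Y (2 * Y), ei (2 * π * c * j / Y) * f (j + θ)‖ with hZ
  have step : ∀ d h b : ℕ, b < h →
      ‖∑ j ∈ (Ico Y (2 * Y)).filter
          (fun j => x ≤ d * (j * h + b) ∧ d * (j * h + b) + d * h ≤ 2 * N),
        (κ ((j : ℝ) + (b : ℝ) / h) : ℂ) * f ((j : ℝ) + (b : ℝ) / h)‖ ≤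
      κ (2 * Y) * ∑ c ∈ range Y, la c * Z c ((b : ℝ) / h) := by
    intro d h b hb
    have p1 : (0 : ℝ) < h := by exact_mod_cast (by omega : 0 < h)
    have t0 : (0 : ℝ) ≤ (b : ℝ) / h := by positivity
    have t1 : (b : ℝ) / h < 1 := (div_lt_one p1).2 (by exact_mod_cast hb)
    have pos : ∀ j : ℕ, Y ≤ j → (0 : ℝ) < (j : ℝ) + (b : ℝ) / h := by
      intro j hj
      have : (Y : ℝ) ≤ j := by exact_mod_cast hj
      linarith
    refine hc _ (fun j => κ ((j : ℝ) + (b : ℝ) / h)) (fun j => f ((j : ℝ) + (b : ℝ) / h))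
      (κ (2 * Y)) (filter_subset _ _) ?_ (hκ0 _) ?_ ?_
    · intro j1 h1 j2 h2 j l1 l2
      simp only [mem_filter, mem_Ico] at h1 h2 ⊢
      have m1 : d * (j1 * h + b) ≤ d * (j * h + b) :=
        Nat.mul_le_mul_left _ (Nat.add_le_add_right (Nat.mul_le_mul_right _ l1) _)
      have m2 : d * (j * h + b) ≤ d * (j2 * h + b) :=
        Nat.mul_le_mul_left _ (Nat.add_le_add_right (Nat.mul_le_mul_right _ l2) _)
      omega
    · intro j hj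
      simp only [mem_filter, mem_Ico] at hj
      refine ⟨hκ0 _, hκ _ _ (pos j hj.1.1) ?_⟩
      have : (j : ℝ) + 1 ≤ 2 * Y := by exact_mod_cast (by omega : j + 1 ≤ 2 * Y)
      linarith
    · intro j1 h1 j2 _ l
      simp only [mem_filter, mem_Ico] at h1
      refine hκ _ _ (pos j1 h1.1.1) ?_
      have : (j1 : ℝ) ≤ j2 := by exact_mod_cast l
      linarith
  set S : ℝ := κ (2 * Y) * ∑ c ∈ range Y, la c * ∑ θ ∈ arithB_fr H, Z c θ with hS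
  have S0 : 0 ≤ S := mul_nonneg (hκ0 _) (sum_nonneg fun c _ =>
    mul_nonneg (hla0 c) (sum_nonneg fun θ _ => norm_nonneg _))
  have inner : ∀ d : ℕ, ∑ h ∈ Ico H (2 * H),
        ∑ b ∈ (range h).filter (fun b => Nat.Coprime b h),
          ‖∑ j ∈ (Ico Y (2 * Y)).filter
              (fun j => x ≤ d * (j * h + b) ∧ d * (j * h + b) + d * h ≤ 2 * N),
            (κ ((j : ℝ) + (b : ℝ) / h) : ℂ) * f ((j : ℝ) + (b : ℝ) / h)‖ ≤ S := by
    intro d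
    refine (sum_le_sum fun h _ => sum_le_sum fun b hb =>
      step d h b (mem_range.1 (mem_filter.1 hb).1)).trans (le_of_eq ?_)
    rw [arithB_sum H (fun θ => κ (2 * Y) * ∑ c ∈ range Y, la c * Z c θ), hS, ← mul_sum,
      sum_comm]
    simp only [mul_sum]
  have cnt : ((2 * N / (Y * H) : ℕ) : ℝ) ≤ 2 * ((N : ℝ) / (Y * H)) := by
    refine Nat.cast_div_le.trans (le_of_eq ?_)
    push_cast
    ring
  have main : (N : ℝ) / (Y * H) * S ≤ (3 + 2 * Real.log Y) * B := by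
    calc (N : ℝ) / (Y * H) * S
        = ∑ c ∈ range Y, la c * (κ (2 * Y) * (N / (Y * H)) * ∑ θ ∈ arithB_fr H, Z c θ) := by
          rw [hS, mul_sum, mul_sum]
          exact sum_congr rfl fun c _ => by ring
      _ ≤ ∑ c ∈ range Y, la c * B := sum_le_sum fun c _ =>
          mul_le_mul_of_nonneg_left
            (hB (fun j => ei (2 * π * c * j / Y)) (fun j => (Bar.norm_ei _).le)) (hla0 c)
      _ = (∑ c ∈ range Y, la c) * B := by rw [sum_mul]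
      _ ≤ _ := mul_le_mul_of_nonneg_right hla hB0
  refine (sum_le_card_nsmul _ _ S fun d _ => inner d).trans ?_
  rw [Nat.card_Icc, Nat.add_sub_cancel, nsmul_eq_mul]
  calc ((2 * N / (Y * H) : ℕ) : ℝ) * S ≤ 2 * ((N : ℝ) / (Y * H)) * S :=
        mul_le_mul_of_nonneg_right cnt S0
    _ = 2 * ((N : ℝ) / (Y * H) * S) := by ring
    _ ≤ 2 * ((3 + 2 * Real.log Y) * B) := by linarith
    _ = _ := by ring

theorem arithB_log {N : ℕ} (hN : 1 ≤ N) :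
    ((Nat.log 2 (2 * N) + 1 : ℕ) : ℝ) ≤ 2 * (1 + Real.log N) := by
  have n0 : (1 : ℝ) ≤ N := by exact_mod_cast hN
  have h1 : 2 ^ Nat.log 2 (2 * N) ≤ 2 * N := Nat.pow_log_le_self 2 (by omega)
  have h2 : (2 : ℝ) ^ Nat.log 2 (2 * N) ≤ 2 * N := by exact_mod_cast h1
  have h3 := Real.log_le_log (by positivity) h2
  rw [Real.log_pow, Real.log_mul (by norm_num) (by linarith)] at h3
  have h4 := Real.log_two_gt_d9
  have h5 := Real.log_nonneg n0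
  push_cast
  by_contra hc
  have h6 : 1 + 2 * Real.log N < (Nat.log 2 (2 * N) : ℝ) := by linarith
  nlinarith

theorem arith {N x : ℕ} (hN : 1 ≤ N) (hx : N ≤ x) {κ : ℝ → ℝ} (f : ℝ → ℂ) {B : ℝ}
    (hκ0 : ∀ y, 0 ≤ κ y) (hκ : ∀ y y', 0 < y → y ≤ y' → κ y ≤ κ y')
    (hB : ∀ Y H : ℕ, 1 ≤ Y → 1 ≤ H → Y * H ≤ 2 * N → ∀ (Θ : Finset ℝ) (ζ : ℕ → ℂ),
      Bar.Sep (1 / (4 * (H : ℝ) ^ 2)) Θ → (∀ θ ∈ Θ, 0 ≤ θ ∧ θ < 1) → (∀ j, ‖ζ j‖ ≤ 1) →
      κ (2 * Y) * (N / (Y * H)) * ∑ θ ∈ Θ, ‖∑ j ∈ Ico Y (2 * Y), ζ j * f (j + θ)‖ ≤ B) :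
    ‖offd N x κ f‖ ≤ 100 * (1 + Real.log N) ^ 3 * B := by
  have n0 : (1 : ℝ) ≤ N := by exact_mod_cast hN
  have l0 := Real.log_nonneg n0
  have hB0 : 0 ≤ B := by
    have := hB 1 1 le_rfl le_rfl (by omega) ∅ (fun _ => 0) (fun u hu => absurd hu (notMem_empty u))
      (fun u hu => absurd hu (notMem_empty u)) (fun _ => by simp)
    rwa [sum_empty, mul_zero] at this
  have blk : ∀ i i' : ℕ, ∑ d ∈ Icc 1 (2 * N / (2 ^ i * 2 ^ i')), ∑ h ∈ Ico (2 ^ i') (2 * 2 ^ i'),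
        ∑ b ∈ (range h).filter (fun b => Nat.Coprime b h),
          ‖∑ j ∈ (Ico (2 ^ i) (2 * 2 ^ i)).filter
              (fun j => x ≤ d * (j * h + b) ∧ d * (j * h + b) + d * h ≤ 2 * N),
            (κ ((j : ℝ) + (b : ℝ) / h) : ℂ) * f ((j : ℝ) + (b : ℝ) / h)‖ ≤
      10 * (1 + Real.log N) * B := by
    intro i i'
    have hY : 1 ≤ 2 ^ i := Nat.one_le_two_pow
    have hH : 1 ≤ 2 ^ i' := Nat.one_le_two_pow
    generalize 2 ^ i = Y at hY ⊢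
    generalize 2 ^ i' = H at hH ⊢
    rcases le_or_gt (Y * H) (2 * N) with hle | hlt
    · refine (arithB_block hY hH f hκ0 hκ (fun ζ hζ => hB Y H hY hH hle _ ζ (arithB_sep H)
        (fun θ hθ => arithB_range hθ) hζ) hB0).trans (mul_le_mul_of_nonneg_right ?_ hB0)
      have y0 : (1 : ℝ) ≤ Y := by exact_mod_cast hY
      have y1 : (Y : ℝ) ≤ 2 * N := by
        exact_mod_cast (Nat.le_mul_of_pos_right Y hH).trans hle
      have h3 := Real.log_le_log (by linarith) y1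
      rw [Real.log_mul (by norm_num) (by linarith)] at h3
      have h4 := Real.log_two_lt_d9
      linarith
    · rw [Nat.div_eq_of_lt hlt, Icc_eq_empty (by omega), sum_empty]
      positivity
  refine (arith_split hN hx κ f).trans ?_
  refine (sum_le_card_nsmul _ _ _ fun i _ => sum_le_card_nsmul _ _ _ fun i' _ => blk i i').trans ?_
  rw [card_range, nsmul_eq_mul, nsmul_eq_mul]
  have hL := arithB_log hN
  have L0 : (0 : ℝ) ≤ ((Nat.log 2 (2 * N) + 1 : ℕ) : ℝ) := Nat.cast_nonneg _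
  generalize ((Nat.log 2 (2 * N) + 1 : ℕ) : ℝ) = M at hL L0 ⊢
  have q0 : 0 ≤ 10 * (1 + Real.log N) * B := by positivity
  have q1 : 0 ≤ (1 + Real.log N) ^ 3 * B := by positivity
  calc M * (M * (10 * (1 + Real.log N) * B))
      ≤ (2 * (1 + Real.log N)) * ((2 * (1 + Real.log N)) * (10 * (1 + Real.log N) * B)) :=
        mul_le_mul hL (mul_le_mul_of_nonneg_right hL q0) (mul_nonneg L0 q0) (by positivity)
    _ = 40 * ((1 + Real.log N) ^ 3 * B) := by ring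
    _ ≤ 100 * (1 + Real.log N) ^ 3 * B := by linarith

end Pool.Agent.Lib.MP_ecd12e_nt.ZS
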