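import Pool.Agent.Lib.MP_ecd12e_nt.ZS.Defs

set_option autoImplicit false

namespace Pool.Agent.Lib.MP_ecd12e_nt.ZS

open Finset Real
open Pool.Agent.Lib.MP_ecd12e_nt.Bar (ei cell cells Unif Big zc enr)

theorem cut_sm : ∃ S w : ℝ → ℝ, (∀ v, HasDerivAt S (w v) v) ∧ Continuous w ∧
    (∀ v, 0 ≤ w v ∧ w v ≤ 3 / 2) ∧ (∀ v, v ≤ 0 → S v = 0) ∧ (∀ v, v ≤ 0 → w v = 0) ∧
    (∀ v, 1 ≤ v → S v = 1) ∧ (∀ v, 1 ≤ v → w v = 0) ∧
    ∀ v, 0 ≤ v → v ≤ 1 → 0 ≤ S v ∧ S v ≤ 1 := by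
  set w : ℝ → ℝ := fun t => 6 * max 0 (t * (1 - t)) with hw
  have hc : Continuous w := by fun_prop
  have h0 : ∀ v, 0 ≤ w v := fun v => mul_nonneg (by norm_num) (le_max_left _ _)
  have hl : ∀ v, v ≤ 0 → w v = 0 := fun v hv => by
    simp only [hw]
    rw [max_eq_left (by nlinarith), mul_zero]
  have hr : ∀ v, 1 ≤ v → w v = 0 := fun v hv => by
    simp only [hw]
    rw [max_eq_left (by nlinarith), mul_zero]
  have h1 : ∫ t in (0 : ℝ)..1, w t = 1 := by
    rw [intervalIntegral.integral_congr (g := fun t => 6 * t - 6 * t ^ 2) fun t ht => ?_]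
    · rw [intervalIntegral.integral_sub (Continuous.intervalIntegrable (by fun_prop) _ _)
        (Continuous.intervalIntegrable (by fun_prop) _ _), intervalIntegral.integral_const_mul,
        intervalIntegral.integral_const_mul, integral_id, integral_pow]
      norm_num
    · rw [Set.uIcc_of_le zero_le_one] at ht
      simp only [hw]
      rw [max_eq_right (mul_nonneg ht.1 (sub_nonneg.2 ht.2))]
      ring
  have ha : ∀ a b d : ℝ, (∫ t in a..b, w t) + ∫ t in b..d, w t = ∫ t in a..d, w t := fun a b d =>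
    intervalIntegral.integral_add_adjacent_intervals (hc.intervalIntegrable _ _)
      (hc.intervalIntegrable _ _)
  refine ⟨fun v => ∫ t in (0 : ℝ)..v, w t, w,
    fun v => (hc.integral_hasStrictDerivAt 0 v).hasDerivAt, hc, fun v => ⟨h0 v, ?_⟩,
    fun v hv => ?_, hl, fun v hv => ?_, hr, fun v hv hv' => ⟨?_, ?_⟩⟩
  · have : max 0 (v * (1 - v)) ≤ 1 / 4 := max_le (by norm_num) (by nlinarith [sq_nonneg (2 * v - 1)])
    simp only [hw]
    linarith
  · beta_reduce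
    rw [intervalIntegral.integral_congr (f := w) (g := fun _ => 0) fun t ht => ?_]
    · simp
    · rw [Set.uIcc_of_ge hv] at ht
      exact hl t ht.2
  · beta_reduce
    rw [← ha 0 1 v, h1, intervalIntegral.integral_congr (f := w) (g := fun _ => 0) fun t ht => ?_]
    · simp
    · rw [Set.uIcc_of_le hv] at ht
      exact hr t ht.1
  · exact intervalIntegral.integral_nonneg hv fun t _ => h0 t
  · have h2 := ha 0 v 1
    have h3 : 0 ≤ ∫ t in v..1, w t := intervalIntegral.integral_nonneg hv' fun t _ => h0 t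
    linarith

theorem cut_sum {s : ℝ → ℝ} {c : ℝ} (hl : ∀ v, v ≤ 0 → s v = 0) (hr : ∀ v, 1 ≤ v → s v = c)
    (G : Finset ℤ) (v : ℝ) : ∑ k ∈ G, (s (v - k + 1) - s (v - k)) =
      (if ⌊v⌋ ∈ G then c - s (v - ⌊v⌋) else 0) + if ⌊v⌋ + 1 ∈ G then s (v - ⌊v⌋) else 0 := by
  have f1 := Int.floor_le v
  have f2 := Int.lt_floor_add_one v
  rw [← sum_ite_eq G ⌊v⌋ fun _ => c - s (v - ⌊v⌋), ← sum_ite_eq G (⌊v⌋ + 1) fun _ => s (v - ⌊v⌋),
    ← sum_add_distrib]
  refine sum_congr rfl fun k _ => ?_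
  by_cases h1 : ⌊v⌋ = k
  · rw [if_pos h1, if_neg (by omega), add_zero, ← h1, hr _ (by linarith)]
  by_cases h2 : ⌊v⌋ + 1 = k
  · rw [if_neg h1, if_pos h2, zero_add, ← h2, hl (v - ((⌊v⌋ + 1 : ℤ) : ℝ)) (by push_cast; linarith),
      sub_zero]
    congr 1
    push_cast
    ring
  rw [if_neg h1, if_neg h2, add_zero]
  rcases lt_or_gt_of_ne h1 with h | h
  · have h3 : ((⌊v⌋ + 2 : ℤ) : ℝ) ≤ k := by exact_mod_cast (by omega : ⌊v⌋ + 2 ≤ k)
    push_cast at h3
    rw [hl _ (by linarith), hl _ (by linarith), sub_zero]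
  · have h3 : ((k + 1 : ℤ) : ℝ) ≤ ⌊v⌋ := by exact_mod_cast (by omega : k + 1 ≤ ⌊v⌋)
    push_cast at h3
    rw [hr _ (by linarith), hr _ (by linarith), sub_self]

theorem cut_near {l : ℝ} (hl : 0 < l) (y : ℝ) (P : Finset ℤ) :
    (P.filter (fun k : ℤ => |y - k * l| ≤ 2 * l)).card ≤ 5 := by
  have hsub : P.filter (fun k : ℤ => |y - k * l| ≤ 2 * l) ⊆
      Icc ⌈y / l - 2⌉ (⌈y / l - 2⌉ + 4) := by
    intro k hk
    obtain ⟨h1, h2⟩ := abs_le.1 (mem_filter.1 hk).2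
    have h3 : y / l ≤ k + 2 := by
      rw [div_le_iff₀ hl]
      linarith
    have h4 : (k : ℝ) - 2 ≤ y / l := by
      rw [le_div_iff₀ hl]
      linarith
    refine mem_Icc.2 ⟨Int.ceil_le.2 (by linarith), ?_⟩
    have h5 := Int.le_ceil (y / l - 2)
    have h6 : (k : ℝ) ≤ ((⌈y / l - 2⌉ + 4 : ℤ) : ℝ) := by
      push_cast
      linarith
    exact_mod_cast h6
  refine (card_le_card hsub).trans ?_
  rw [Int.card_Icc]
  omega

theorem exists_cutf {ι : Type} (I : Finset ι) (ξ : ι → ℝ) {l : ℕ} (hl : 1 ≤ l) (n M : ℕ) :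
    ∃ (g g' : ℝ → ℝ) (Bd : Finset ℤ), Cutf I ξ l n M g g' Bd := by
  obtain ⟨S, w, hd, hc, hb, sl, wl, sr, wr, hS⟩ := cut_sm
  have hl0 : (0 : ℝ) < l := by exact_mod_cast hl
  set cnt : ℤ → ℕ := fun k => (I.filter fun i => |ξ i - k * (l : ℝ)| ≤ 2 * l).card with hcnt
  set G : Finset ℤ := (Ioo (0 : ℤ) n).filter fun k => cnt k ≤ M with hG
  set P : Finset ℤ := (Ioo (0 : ℤ) n).filter fun k => M < cnt k with hP
  have mG : ∀ k, k ∈ G ↔ (0 < k ∧ k < n) ∧ cnt k ≤ M := fun k => by simp [hG]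
  have f1 : ∀ x : ℝ, (⌊x / l⌋ : ℝ) * l ≤ x := fun x => (le_div_iff₀ hl0).1 (Int.floor_le _)
  have f2 : ∀ x : ℝ, x < ((⌊x / l⌋ : ℝ) + 1) * l := fun x =>
    (div_lt_iff₀ hl0).1 (Int.lt_floor_add_one _)
  have f3 : ∀ v : ℝ, 0 ≤ S (v - ⌊v⌋) ∧ S (v - ⌊v⌋) ≤ 1 := fun v =>
    hS _ (sub_nonneg.2 (Int.floor_le v)) (by linarith [Int.lt_floor_add_one v])
  refine ⟨fun x => ∑ k ∈ G, (S (x / l - k + 1) - S (x / l - k)),
    fun x => (∑ k ∈ G, (w (x / l - k + 1) - w (x / l - k))) / l, insert 0 (insert (n : ℤ) P),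
    fun x => ?_, by fun_prop, fun x => ?_, fun x => ?_, fun x => ?_, fun x hx => ?_,
    fun x hx => ?_, fun x hx => ?_, ?_, fun x h0 hn hx => ?_⟩
  · rw [sum_div]
    refine HasDerivAt.fun_sum fun k _ => ?_
    have h1 : HasDerivAt (fun x : ℝ => x / l - k) (1 / l) x :=
      ((hasDerivAt_id x).div_const _).sub_const _
    refine (((hd _).comp x (h1.add_const 1)).sub ((hd _).comp x h1)).congr_deriv ?_
    ring
  · rw [cut_sum sl sr]
    have := f3 (x / l)
    split_ifs <;> linarith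
  · rw [cut_sum sl sr]
    have := f3 (x / l)
    split_ifs <;> linarith
  · rw [abs_div, abs_of_pos hl0, div_mul_cancel₀ _ hl0.ne', cut_sum wl wr, abs_le]
    have := hb (x / l - ⌊x / l⌋)
    split_ifs <;> constructor <;> linarith
  · have h1 : x / l ≤ 0 := div_nonpos_of_nonpos_of_nonneg hx hl0.le
    have h2 : ⌊x / l⌋ ≤ 0 := Int.floor_nonpos h1
    rw [cut_sum sl sr, if_neg (fun h => by have := (mG _).1 h; omega), zero_add]
    split_ifs with h
    · have h3 : ⌊x / l⌋ = 0 := by have := (mG _).1 h; omega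
      rw [h3]
      exact sl _ (by simpa using h1)
    · rfl
  · have h2 : (n : ℤ) ≤ ⌊x / l⌋ := Int.le_floor.2 (by rw [le_div_iff₀ hl0]; exact_mod_cast hx)
    rw [cut_sum sl sr, if_neg (fun h => by have := (mG _).1 h; omega),
      if_neg (fun h => by have := (mG _).1 h; omega), zero_add]
  · have key : ∀ k ∈ G, |x - k * (l : ℝ)| ≤ l →
        (I.filter fun i => |ξ i - x| ≤ (l : ℝ)).card ≤ M := fun k hk h => by
      refine le_trans (card_le_card fun i hi => ?_) ((mG k).1 hk).2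
      obtain ⟨h1, h2⟩ := mem_filter.1 hi
      obtain ⟨a1, a2⟩ := abs_le.1 h
      obtain ⟨b1, b2⟩ := abs_le.1 h2
      exact mem_filter.2 ⟨h1, abs_le.2 ⟨by linarith, by linarith⟩⟩
    have g1 := f1 x
    have g2 := f2 x
    rw [cut_sum sl sr] at hx
    by_cases c1 : ⌊x / l⌋ ∈ G
    · exact key _ c1 (abs_le.2 ⟨by linarith, by linarith⟩)
    by_cases c2 : ⌊x / l⌋ + 1 ∈ G
    · refine key _ c2 (abs_le.2 ⟨?_, ?_⟩) <;> push_cast <;> linarith
    simp [c1, c2] at hx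
  · have h1 : P.card * M ≤ ∑ k ∈ P, cnt k := by
      rw [← smul_eq_mul]
      exact card_nsmul_le_sum _ _ _ fun k hk => (mem_filter.1 hk).2.le
    have h2 : ∑ k ∈ P, cnt k ≤ I.card * 5 := by
      refine (sum_card_bipartiteAbove_eq_sum_card_bipartiteBelow (s := I) (t := P)
        (r := fun (i : ι) (k : ℤ) => |ξ i - k * (l : ℝ)| ≤ 2 * l)).symm.le.trans ?_
      rw [← smul_eq_mul]
      exact sum_le_card_nsmul _ _ _ fun i _ => cut_near hl0 _ P
    have h3 : (insert (0 : ℤ) (insert (n : ℤ) P)).card ≤ P.card + 1 + 1 :=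
      (card_insert_le _ _).trans (Nat.succ_le_succ (card_insert_le _ _))
    have h4 := Nat.mul_le_mul_right M h3
    rw [add_mul, add_mul] at h4
    omega
  · have a0 := hx 0 (mem_insert_self _ _)
    have an := hx n (mem_insert_of_mem (mem_insert_self _ _))
    rw [Int.cast_zero, zero_mul, sub_zero, abs_of_nonneg h0] at a0
    rw [Int.cast_natCast, abs_of_neg (sub_neg.2 hn)] at an
    refine ⟨by linarith, fun y hy => ?_⟩
    have key : ∀ k : ℤ, x - l ≤ k * (l : ℝ) → k * (l : ℝ) ≤ x + 2 * l → k ∈ G := fun k h1 h2 => by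
      have k0 : 0 < k := by
        have : (0 : ℝ) < k := lt_of_mul_lt_mul_right (by linarith) hl0.le
        exact_mod_cast this
      have kn : k < n := by
        have : (k : ℝ) < n := lt_of_mul_lt_mul_right (by linarith) hl0.le
        exact_mod_cast this
      refine (mG k).2 ⟨⟨k0, kn⟩, not_lt.1 fun h => ?_⟩
      have := hx k (mem_insert_of_mem (mem_insert_of_mem
        (mem_filter.2 ⟨mem_Ioo.2 ⟨k0, kn⟩, h⟩)))
      exact absurd this (not_lt.2 (abs_le.2 ⟨by linarith, by linarith⟩))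
    have g1 := f1 y
    have g2 := f2 y
    obtain ⟨y1, y2⟩ := hy
    rw [cut_sum sl sr, if_pos (key _ (by linarith) (by linarith)),
      if_pos (key _ (by push_cast; linarith) (by push_cast; linarith)), sub_add_cancel]

end Pool.Agent.Lib.MP_ecd12e_nt.ZS
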