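import Pool.Agent.Lib.MP_ecd12e_nt.Bar.Bilinear

/-!
Definitions for the large value bound for zeta sums beyond the crossing of the fourth and the
twelfth moment.
-/

set_option autoImplicit false

namespace Pool.Agent.Lib.MP_ecd12e_nt.ZS

open Finset Real
open Pool.Agent.Lib.MP_ecd12e_nt.Bar (ei cell cells Unif Big zc enr)

/-- The closed block number `j` of length `L`. -/
def Blk (L : ℝ) (j : ℕ) : Set ℝ := Set.Icc ((j : ℝ) * L) (((j : ℝ) + 1) * L)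

/-- An abstract phase `Φ` on the rectangle `Blk L jA × Blk L jB`: `F` is its derivative in the first
variable, `-1 / U` the mixed derivative, `ps` the position of the stationary point. -/
structure Ker (t L : ℝ) (jA jB : ℕ) (Φ F U ps : ℝ → ℝ → ℝ) : Prop where
  dPhi : ∀ a ∈ Blk L jA, ∀ s ∈ Blk L jB, HasDerivAt (fun x => Φ x s) (F a s) a
  dF : ∀ a ∈ Blk L jA, ∀ s ∈ Blk L jB, HasDerivAt (fun x => F a x) (-(U a s)⁻¹) s
  lo : ∀ a ∈ Blk L jA, ∀ s ∈ Blk L jB, 2 * L < U a s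
  hi : ∀ a ∈ Blk L jA, ∀ s ∈ Blk L jB, U a s < t * L
  lip : ∀ a ∈ Blk L jA, ∀ a' ∈ Blk L jA, ∀ s ∈ Blk L jB, ∀ s' ∈ Blk L jB,
    20 * L * |Real.log (U a s) - Real.log (U a' s')| ≤ |a - a'| + |s - s'|
  curv : ∀ a1 ∈ Blk L jA, ∀ a2 ∈ Blk L jA, ∀ v ∈ Blk L jB, ∀ v' ∈ Blk L jB,
    |a2 - a1| * |v' - v| ≤ (t * L) ^ 2 *
      |(Real.log (U a2 v') - Real.log (U a1 v')) - (Real.log (U a2 v) - Real.log (U a1 v))|
  pos : ∀ a ∈ Blk L jA, ∀ a' ∈ Blk L jA, ∀ s ∈ Blk L jB, ∀ s' ∈ Blk L jB,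
    |ps a s - ps a' s'| ≤ |a - a'| + |s - s'|

/-- The bilinear form with phase `Φ`. -/
noncomputable def bil (Φ : ℝ → ℝ → ℝ) (A B : Finset ℕ) (ca cb : ℕ → ℂ) (om : ℝ → ℝ → ℂ) : ℂ :=
  ∑ a ∈ A, ∑ s ∈ B, ca a * cb s * om a s * ei (Φ a s)

/-- The hypotheses of the bilinear estimate together with its failure (`nogain`). -/
structure Setup (th k X : ℕ) (al : ℕ → ℕ) (A B : Finset ℕ) (jA jB : ℕ) (ca cb : ℕ → ℂ)
    (om : ℝ → ℝ → ℂ) (Φ F U ps : ℝ → ℝ → ℝ) : Prop where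
  big : Big th (2 * k)
  uA : Unif th (2 * k) al A
  uB : Unif th (2 * k) al B
  blkA : ∀ a ∈ A, a / th ^ (2 * k) = jA
  blkB : ∀ s ∈ B, s / th ^ (2 * k) = jB
  cardA : A.card ≤ th ^ (k + 1)
  cardB : B.card ≤ th ^ (k + 1)
  hca : ∀ a, ‖ca a‖ ≤ 1
  hcb : ∀ s, ‖cb s‖ ≤ 1
  hom : ∀ a s, ‖om a s‖ ≤ 1
  ker : Ker th ((th : ℝ) ^ (2 * k)) jA jB Φ F U ps
  slow : ∀ a ∈ Blk ((th : ℝ) ^ (2 * k)) jA, ∀ a' ∈ Blk ((th : ℝ) ^ (2 * k)) jA,
    ∀ s ∈ Blk ((th : ℝ) ^ (2 * k)) jB, |a - a'| ≤ (th : ℝ) ^ X →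
      ‖om a s - om a' s‖ * (th : ℝ) ^ 20 ≤ 1
  flat : ∀ a0 ∈ A, ∀ s0 ∈ B, om a0 s0 ≠ 0 →
    ((A ×ˢ B).filter (fun p : ℕ × ℕ =>
      |ps p.1 p.2 - ps a0 s0| ≤ (th : ℝ) ^ (X + 21))).card ≤ th ^ (X + 25)
  nogain : (th : ℝ) ^ (2 * k) < (th : ℝ) ^ 16 * ‖bil Φ A B ca cb om‖

/-- Discretised frequency seen from the left end `P * th ^ x` of the level `x` cell `P`. -/
noncomputable def kk (F : ℝ → ℝ → ℝ) (th x P s : ℕ) : ℤ :=
  ⌊(th : ℝ) ^ (x + 21) * F ((P : ℝ) * (th : ℝ) ^ x) s / (2 * π)⌋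

/-- The local exponential sum over the points of `B` in the level `y` cell `Q`, evaluated at the
point `a` of the level `x` cell `P`. -/
noncomputable def loc (F : ℝ → ℝ → ℝ) (th x y : ℕ) (B : Finset ℕ) (θ : ℕ → ℕ → ℂ) (P Q a : ℕ) :
    ℂ :=
  ∑ s ∈ cell B (th ^ y) Q,
    θ P s * ei (2 * π * ((a : ℝ) - (P : ℝ) * (th : ℝ) ^ x) * (kk F th x P s) /
      (th : ℝ) ^ (x + 21))

/-- The ratio of the inverse mixed derivatives at the cells `Q`, `Q'` (level `p`) seen from the cell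
`P` (level `x`). -/
noncomputable def lam (U : ℝ → ℝ → ℝ) (th x p P Q Q' : ℕ) : ℝ :=
  U ((P : ℝ) * (th : ℝ) ^ x) ((Q : ℝ) * (th : ℝ) ^ p) /
    U ((P : ℝ) * (th : ℝ) ^ x) ((Q' : ℝ) * (th : ℝ) ^ p)

/-- `lg y = log (1 + 1 / y)`. -/
noncomputable def lg (y : ℝ) : ℝ := Real.log (1 + 1 / y)

/-- The second derivative of `lg`. -/
noncomputable def lg2 (y : ℝ) : ℝ := (2 * y + 1) / (y * (y + 1)) ^ 2

/-- The ratio `a / s` for which `y` is the stationary point. -/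
noncomputable def rho (m y : ℝ) : ℝ := (y + m) * (y + m + 1) / (y * (y + 1))

/-- The inverse function of `rho m`. -/
noncomputable def yr (m r : ℝ) : ℝ :=
  ((2 * m + 1 - r) + Real.sqrt ((2 * m + 1 - r) ^ 2 + 4 * (r - 1) * m * (m + 1))) / (2 * (r - 1))

/-- A quadratic polynomial. -/
noncomputable def Dq (m y : ℝ) : ℝ := 2 * y ^ 2 + 2 * (m + 1) * y + (m + 1)

/-- Minus the logarithmic derivative of `rho m`. -/
noncomputable def Lm (m y : ℝ) : ℝ := m * Dq m y / (y * (y + 1) * ((y + m) * (y + m + 1)))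

/-- The phase at the stationary point. -/
noncomputable def ph (G m a s : ℝ) : ℝ :=
  G * a * lg (yr m (a / s) + m) - G * s * lg (yr m (a / s))

/-- Its derivative in `a`. -/
noncomputable def fq (G m a s : ℝ) : ℝ := G * lg (yr m (a / s) + m)

/-- Minus the inverse of its mixed derivative. -/
noncomputable def uu (G m a s : ℝ) : ℝ :=
  s * m * Dq m (yr m (a / s)) / (G * (yr m (a / s) * (yr m (a / s) + 1)))

/-- The stationary point, rescaled. -/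
noncomputable def psn (L m j a s : ℝ) : ℝ := L * (yr m (a / s) - j)

/-- The second derivative of the phase of the integral at the stationary point. -/
noncomputable def bet (G m a s : ℝ) : ℝ :=
  G * a * lg2 (yr m (a / s) + m) - G * s * lg2 (yr m (a / s))

/-- The truncated Fresnel integral. -/
noncomputable def fres (r b : ℝ) : ℂ := ∫ x in (-r)..r, ei (b * x ^ 2 / 2)

/-- The stationary point lies in `(j - 1, j + 2)`. -/
def Stat (m j a s : ℝ) : Prop := rho m (j + 2) < a / s ∧ a / s < rho m (j - 1)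

/-- On the whole rectangle the stationary point exists and lies in `[j - 2, j + 3]`. -/
def Rng (L : ℝ) (jA jB : ℕ) (m j : ℝ) : Prop :=
  ∀ a ∈ Blk L jA, ∀ s ∈ Blk L jB, 1 < a / s ∧ j - 2 ≤ yr m (a / s) ∧ yr m (a / s) ≤ j + 3

/-- The position of the pair of shifts `j`, `j + m` inside `[Y, 2Y)`, with `10 ≤ Y ≤ G ^ 2`. -/
structure Sh (G Y m j : ℕ) : Prop where
  hG : 1000 ≤ G
  hY : 10 ≤ Y
  hYG : Y ≤ G ^ 2
  hm : 1 ≤ m
  hj : Y ≤ j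
  hjm : j + m < 2 * Y

/-- A weight on the line, vanishing outside `(0, 1)`, with derivative at most `Λ` on `[-3, 4]`. -/
structure Wt (Λ : ℝ) (γ γ' : ℝ → ℝ) : Prop where
  der : ∀ x ∈ Set.Icc (-3 : ℝ) 4, HasDerivAt γ (γ' x) x
  cont : ContinuousOn γ' (Set.Icc (-3 : ℝ) 4)
  le_one : ∀ x, |γ x| ≤ 1
  bd : ∀ x ∈ Set.Icc (-3 : ℝ) 4, |γ' x| ≤ Λ
  left : ∀ x, x ≤ 0 → γ x = 0
  right : ∀ x, 1 ≤ x → γ x = 0

/-- The weight of the bilinear form. -/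
noncomputable def omg (γ : ℝ → ℝ) (r G m j a s : ℝ) : ℂ :=
  (γ (yr m (a / s) - j) : ℂ) * fres r (bet G m a s) / ((2 * r : ℝ) : ℂ)

/-- The parameters: `th = G ^ 20`, and the bilinear estimate holds for `th`, `k`, `X`. -/
structure Par (G th k X : ℕ) : Prop where
  hG : 1000 ≤ G
  hth : th = G ^ 20
  big : Big th (2 * k)
  hk : 100 ≤ k
  hkX : k ≤ X
  hX : X + 100 ≤ 2 * k
  nog : ∀ (al : ℕ → ℕ) (A B : Finset ℕ) (jA jB : ℕ) (ca cb : ℕ → ℂ) (om : ℝ → ℝ → ℂ)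
    (Φ F U ps : ℝ → ℝ → ℝ), ¬ Setup th k X al A B jA jB ca cb om Φ F U ps

/-- A uniform set of windows in `[G ^ 6 L, 4 G ^ 6 L)`, `L = th ^ (2 k)`, that is not too large. -/
structure Win (G th k : ℕ) (al : ℕ → ℕ) (W : Finset ℕ) : Prop where
  unif : Unif th (2 * k) al W
  lo : ∀ a ∈ W, G ^ 6 * th ^ (2 * k) ≤ a
  hi : ∀ a ∈ W, a < 4 * (G ^ 6 * th ^ (2 * k))
  card : W.card ≤ th ^ (k + 1)

/-- The dual sum `∑ c a (1 + 1 / y) ^ (i G a)`. -/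
noncomputable def dual (G : ℝ) (W : Finset ℕ) (c : ℕ → ℂ) (y : ℝ) : ℂ :=
  ∑ a ∈ W, c a * ei (G * a * lg y)

/-- The weight `(Y ^ 2 / (y (y + 1))) ^ e`. -/
noncomputable def kap (e Y : ℕ) (y : ℝ) : ℝ := ((Y : ℝ) ^ 2 / (y * (y + 1))) ^ e

/-- The periodised dual sum. -/
noncomputable def per (G : ℝ) (W : Finset ℕ) (c ζ : ℕ → ℂ) (e Y : ℕ) (θ : ℝ) : ℂ :=
  ∑ j ∈ Ico Y (2 * Y), ζ j * (kap e Y (j + θ) : ℂ) * dual G W c (j + θ)

/-- A smooth cutoff on `[0, n l]` that vanishes near the places where the points `ξ i` are dense;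
`Bd` is the set of bad grid points. -/
structure Cutf {ι : Type} (I : Finset ι) (ξ : ι → ℝ) (l n M : ℕ) (g g' : ℝ → ℝ) (Bd : Finset ℤ) :
    Prop where
  der : ∀ x, HasDerivAt g (g' x) x
  cont : Continuous g'
  nonneg : ∀ x, 0 ≤ g x
  le_one : ∀ x, g x ≤ 1
  bd : ∀ x, |g' x| * l ≤ 3 / 2
  left : ∀ x, x ≤ 0 → g x = 0
  right : ∀ x, (n : ℝ) * l ≤ x → g x = 0
  flat : ∀ x, g x ≠ 0 → (I.filter (fun i => |ξ i - x| ≤ (l : ℝ))).card ≤ M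
  few : Bd.card * M ≤ 4 * M + 5 * I.card
  one : ∀ x, 0 ≤ x → x < (n : ℝ) * l → (∀ b ∈ Bd, 3 * (l : ℝ) < |x - b * l|) →
    x + l ≤ (n : ℝ) * l ∧ ∀ x' ∈ Set.Icc x (x + l), g x' = 1

/-- The tail `∑_{x ≤ n ≤ 2N} n ^ (i t)` of the zeta sum. -/
noncomputable def tail (N x : ℕ) (t : ℝ) : ℂ := ∑ n ∈ Icc x (2 * N), ei (t * Real.log n)

/-- The off-diagonal sum over `h ≥ 1` and `x ≤ m`, `m + h ≤ 2N`. -/
noncomputable def offd (N x : ℕ) (κ : ℝ → ℝ) (f : ℝ → ℂ) : ℂ :=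
  ∑ h ∈ Icc 1 N, ∑ m ∈ Icc x (2 * N - h), (κ ((m : ℝ) / h) : ℂ) * f ((m : ℝ) / h)

/-- The Gaussian mean square of a tail around the point `c`. -/
noncomputable def gm (G : ℝ) (N x : ℕ) (c : ℝ) : ℝ :=
  ∫ u : ℝ, Real.exp (-(1 / G ^ 2) * u ^ 2) * ‖tail N x (c + u)‖ ^ 2

end Pool.Agent.Lib.MP_ecd12e_nt.ZS
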