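import Pool.Agent.Lib.MP_ecd12e_nt.ZS.Defs

/-! Non-stationary and stationary phase. -/

set_option autoImplicit false

namespace Pool.Agent.Lib.MP_ecd12e_nt.ZS

open Finset Real
open Pool.Agent.Lib.MP_ecd12e_nt.Bar (ei cell cells Unif Big zc enr)

theorem statph_cont : Continuous ei := by
  unfold ei
  fun_prop

theorem statph_on {f f' : ℝ → ℝ} {s : Set ℝ} (h : ∀ x ∈ s, HasDerivAt f (f' x) x) :
    ContinuousOn f s := fun x hx => (h x hx).continuousAt.continuousWithinAt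

theorem nonstat {φ φ' φ'' γ γ' : ℝ → ℝ} {a b : ℝ} (hab : a ≤ b)
    (h1 : ∀ x ∈ Set.Icc a b, HasDerivAt φ (φ' x) x)
    (h2 : ∀ x ∈ Set.Icc a b, HasDerivAt φ' (φ'' x) x) (c2 : ContinuousOn φ'' (Set.Icc a b))
    (h3 : ∀ x ∈ Set.Icc a b, HasDerivAt γ (γ' x) x) (c3 : ContinuousOn γ' (Set.Icc a b))
    (hne : ∀ x ∈ Set.Icc a b, φ' x ≠ 0) :
    ‖∫ x in a..b, (γ x : ℂ) * ei (φ x)‖ ≤ |γ a| / |φ' a| + |γ b| / |φ' b| +
      ∫ x in a..b, (|γ' x| / |φ' x| + |γ x| * |φ'' x| / φ' x ^ 2) := by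
  have c0 := statph_on h1
  have c1 := statph_on h2
  have c4 := statph_on h3
  have ce : ContinuousOn (fun x => ei (φ x)) (Set.Icc a b) := statph_cont.comp_continuousOn c0
  have cu : ContinuousOn (fun x => (γ' x * φ' x - γ x * φ'' x) / φ' x ^ 2) (Set.Icc a b) :=
    ((c3.mul c1).sub (c4.mul c2)).div (c1.pow 2) fun x hx => pow_ne_zero 2 (hne x hx)
  have i1 : IntervalIntegrable (fun x => (((γ' x * φ' x - γ x * φ'' x) / φ' x ^ 2 : ℝ) : ℂ) *
      ei (φ x)) MeasureTheory.volume a b :=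
    ((Complex.continuous_ofReal.comp_continuousOn cu).mul ce).intervalIntegrable_of_Icc hab
  have i2 : IntervalIntegrable (fun x => Complex.I * ((γ x : ℂ) * ei (φ x)))
      MeasureTheory.volume a b := (continuousOn_const.mul
    ((Complex.continuous_ofReal.comp_continuousOn c4).mul ce)).intervalIntegrable_of_Icc hab
  have e := intervalIntegral.integral_eq_sub_of_hasDerivAt
    (f := fun x => ((γ x / φ' x : ℝ) : ℂ) * ei (φ x)) (fun x hx => by
      rw [Set.uIcc_of_le hab] at hx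
      have g := ((h3 x hx).div (h2 x hx) (hne x hx)).ofReal_comp.mul
        ((h1 x hx).ofReal_comp.mul_const Complex.I).cexp
      refine g.congr_deriv ?_
      have : (φ' x : ℂ) ≠ 0 := Complex.ofReal_ne_zero.2 (hne x hx)
      simp only [ei, Pi.div_apply]
      push_cast
      field_simp) (i1.add i2)
  rw [intervalIntegral.integral_add i1 i2, intervalIntegral.integral_const_mul,
    ← eq_sub_iff_add_eq'] at e
  have n : ∀ x, ‖((γ x / φ' x : ℝ) : ℂ) * ei (φ x)‖ = |γ x| / |φ' x| := fun x => by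
    rw [norm_mul, Bar.norm_ei, mul_one, Complex.norm_real, Real.norm_eq_abs, abs_div]
  have k := intervalIntegral.norm_integral_le_of_norm_le (μ := MeasureTheory.volume) hab
    (f := fun x => (((γ' x * φ' x - γ x * φ'' x) / φ' x ^ 2 : ℝ) : ℂ) * ei (φ x))
    (g := fun x => |γ' x| / |φ' x| + |γ x| * |φ'' x| / φ' x ^ 2)
    (Filter.Eventually.of_forall fun x hx => by
      have h0 := hne x (Set.Ioc_subset_Icc_self hx)
      have : (γ' x * φ' x - γ x * φ'' x) / φ' x ^ 2 = γ' x / φ' x - γ x * φ'' x / φ' x ^ 2 := by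
        field_simp
      rw [norm_mul, Bar.norm_ei, mul_one, Complex.norm_real, Real.norm_eq_abs, this]
      refine (abs_sub _ _).trans_eq ?_
      rw [abs_div, abs_div, abs_mul, abs_of_nonneg (sq_nonneg (φ' x))])
    (((c3.abs.div c1.abs fun x hx => abs_ne_zero.2 (hne x hx)).add ((c4.abs.mul c2.abs).div
      (c1.pow 2) fun x hx => pow_ne_zero 2 (hne x hx))).intervalIntegrable_of_Icc hab)
  have k2 := congrArg norm e
  rw [norm_mul, Complex.norm_I, one_mul] at k2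
  rw [k2]
  refine (norm_sub_le _ _).trans (add_le_add ((norm_sub_le _ _).trans_eq ?_) k)
  rw [n, n, add_comm]

theorem statph_int {r c A B : ℝ} (hr : 0 < r) (hc : r ≤ c) (hc' : c ≤ 7) (hA : 0 ≤ A)
    (hB : 0 ≤ B) : ∫ u in r..c, (A / |u| + B / u ^ 2) ≤ A * Real.log (7 / r) + B / r := by
  have p : ∀ u ∈ Set.Icc r c, 0 < u := fun u hu => hr.trans_le hu.1
  have c0 := hr.trans_le hc
  rw [intervalIntegral.integral_eq_sub_of_hasDerivAt (f := fun u => A * Real.log u - B * u⁻¹)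
    (f' := fun u => A / |u| + B / u ^ 2) (fun u hu => by
      rw [Set.uIcc_of_le hc] at hu
      have := p u hu
      refine (((Real.hasDerivAt_log this.ne').const_mul A).sub
        ((hasDerivAt_inv this.ne').const_mul B)).congr_deriv ?_
      rw [abs_of_pos this]
      ring)
    (((continuousOn_const.div continuousOn_id.abs fun u hu => abs_ne_zero.2 (p u hu).ne').add
      (continuousOn_const.div (continuousOn_id.pow 2) fun u hu =>
        pow_ne_zero 2 (p u hu).ne')).intervalIntegrable_of_Icc hc),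
    Real.log_div (by norm_num) hr.ne', div_eq_mul_inv B]
  have := mul_le_mul_of_nonneg_left (Real.log_le_log c0 hc') hA
  have := mul_nonneg hB (inv_nonneg.2 c0.le)
  linarith

theorem statph_out {φ φ' φ'' γ γ' : ℝ → ℝ} {x0 r κ M Λ a b : ℝ} (hr : 0 < r) (hκ : 0 < κ)
    (hγ : Wt Λ γ γ') (h1 : ∀ x ∈ Set.Icc (-3 : ℝ) 4, HasDerivAt φ (φ' x) x)
    (h2 : ∀ x ∈ Set.Icc (-3 : ℝ) 4, HasDerivAt φ' (φ'' x) x)
    (hlow : ∀ x ∈ Set.Icc (-3 : ℝ) 4, κ * |x - x0| ≤ |φ' x|)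
    (hM : ∀ x ∈ Set.Icc (-3 : ℝ) 4, |φ'' x| ≤ M) (c2 : ContinuousOn φ'' (Set.Icc (-3 : ℝ) 4))
    (ha : -3 ≤ a) (hab : a ≤ b) (hb : b ≤ 4) (hf : ∀ x ∈ Set.Icc a b, r ≤ |x - x0|) :
    ‖∫ x in a..b, (γ x : ℂ) * ei (φ x)‖ ≤ 2 / (κ * r) +
      ∫ x in a..b, (Λ / κ / |x - x0| + M / κ ^ 2 / (x - x0) ^ 2) := by
  have s := Set.Icc_subset_Icc ha hb
  have p : ∀ x ∈ Set.Icc a b, 0 < |x - x0| := fun x hx => hr.trans_le (hf x hx)
  have q : ∀ x ∈ Set.Icc a b, φ' x ≠ 0 := fun x hx =>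
    abs_pos.1 ((mul_pos hκ (p x hx)).trans_le (hlow x (s hx)))
  have c1 := (statph_on h2).mono s
  have cs : ContinuousOn (fun x => x - x0) (Set.Icc a b) := by fun_prop
  have e : ∀ x ∈ Set.Icc a b, |γ x| / |φ' x| ≤ 1 / (κ * r) := fun x hx =>
    div_le_div₀ zero_le_one (hγ.le_one x) (mul_pos hκ hr)
      ((mul_le_mul_of_nonneg_left (hf x hx) hκ.le).trans (hlow x (s hx)))
  refine (nonstat hab (fun x hx => h1 x (s hx)) (fun x hx => h2 x (s hx)) (c2.mono s)
    (fun x hx => hγ.der x (s hx)) (hγ.cont.mono s) q).trans (add_le_add ?_ ?_)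
  · refine (add_le_add (e a ⟨le_rfl, hab⟩) (e b ⟨hab, le_rfl⟩)).trans_eq (by ring)
  · refine intervalIntegral.integral_mono_on hab
      ((((hγ.cont.mono s).abs.div c1.abs fun x hx => abs_ne_zero.2 (q x hx)).add
        ((((statph_on hγ.der).mono s).abs.mul (c2.mono s).abs).div (c1.pow 2) fun x hx =>
          pow_ne_zero 2 (q x hx))).intervalIntegrable_of_Icc hab)
      (((continuousOn_const.div cs.abs fun x hx => (p x hx).ne').add (continuousOn_const.div
        (cs.pow 2) fun x hx => pow_ne_zero 2 (abs_pos.1 (p x hx)))).intervalIntegrable_of_Icc hab)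
      fun x hx => ?_
    have k := mul_pos hκ (p x hx)
    rw [div_div, div_div, ← sq_abs (x - x0), ← mul_pow, ← sq_abs (φ' x)]
    exact add_le_add
      (div_le_div₀ ((abs_nonneg _).trans (hγ.bd x (s hx))) (hγ.bd x (s hx)) k (hlow x (s hx)))
      (div_le_div₀ ((abs_nonneg _).trans (hM x (s hx)))
        ((mul_le_of_le_one_left (abs_nonneg _) (hγ.le_one x)).trans (hM x (s hx))) (pow_pos k 2)
        (pow_le_pow_left₀ k.le (hlow x (s hx)) 2))

theorem statph_mv {f f' : ℝ → ℝ} {x0 r C : ℝ} (hr : 0 < r)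
    (h : ∀ x ∈ Set.Icc (x0 - r) (x0 + r), HasDerivAt f (f' x) x)
    (hC : ∀ x ∈ Set.Icc (x0 - r) (x0 + r), |f' x| ≤ C) {x : ℝ}
    (hx : x ∈ Set.Icc (x0 - r) (x0 + r)) : |f x - f x0| ≤ C * r := by
  have m : x0 ∈ Set.Icc (x0 - r) (x0 + r) := ⟨by linarith, by linarith⟩
  refine ((convex_Icc _ _).norm_image_sub_le_of_norm_hasDerivWithin_le
    (fun y hy => (h y hy).hasDerivWithinAt) hC m hx).trans
    (mul_le_mul_of_nonneg_left ?_ ((abs_nonneg _).trans (hC _ m)))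
  exact abs_le.2 ⟨by linarith [hx.1], by linarith [hx.2]⟩

theorem statph {φ φ' φ'' γ γ' : ℝ → ℝ} {x0 r κ M Λ : ℝ} (hx0 : -2 ≤ x0) (hx0' : x0 ≤ 3)
    (hr : 0 < r) (hr' : r ≤ 1) (hκ : 0 < κ) (hγ : Wt Λ γ γ')
    (h1 : ∀ x ∈ Set.Icc (-3 : ℝ) 4, HasDerivAt φ (φ' x) x)
    (h2 : ∀ x ∈ Set.Icc (-3 : ℝ) 4, HasDerivAt φ' (φ'' x) x)
    (h0 : φ' x0 = 0) (hlow : ∀ x ∈ Set.Icc (-3 : ℝ) 4, κ * |x - x0| ≤ |φ' x|)
    (hM : ∀ x ∈ Set.Icc (-3 : ℝ) 4, |φ'' x| ≤ M)
    (hlip : ∀ x ∈ Set.Icc (-3 : ℝ) 4, ∀ x' ∈ Set.Icc (-3 : ℝ) 4, |φ'' x - φ'' x'| ≤ M * |x - x'|) :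
    ‖(∫ x in (0 : ℝ)..1, (γ x : ℂ) * ei (φ x)) - (γ x0 : ℂ) * ei (φ x0) * fres r (φ'' x0)‖ ≤
      4 / (κ * r) + 2 * M / (κ ^ 2 * r) + 2 * Λ * Real.log (7 / r) / κ +
        2 * r * (Λ * r + M * r ^ 3) := by
  have c2 : ContinuousOn φ'' (Set.Icc (-3 : ℝ) 4) :=
    (LipschitzOnWith.of_dist_le' (K := M) hlip).continuousOn
  have cf : ContinuousOn (fun x => (γ x : ℂ) * ei (φ x)) (Set.Icc (-3 : ℝ) 4) :=
    (Complex.continuous_ofReal.comp_continuousOn (statph_on hγ.der)).mul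
      (statph_cont.comp_continuousOn (statph_on h1))
  have it : ∀ a b : ℝ, -3 ≤ a → a ≤ b → b ≤ 4 → IntervalIntegrable
      (fun x => (γ x : ℂ) * ei (φ x)) MeasureTheory.volume a b := fun a b ha hab hb =>
    (cf.mono (Set.Icc_subset_Icc ha hb)).intervalIntegrable_of_Icc hab
  have m0 : x0 ∈ Set.Icc (-3 : ℝ) 4 := ⟨by linarith, by linarith⟩
  have M0 := (abs_nonneg _).trans (hM _ m0)
  have L0 := (abs_nonneg _).trans (hγ.bd _ m0)
  have z1 : ∫ x in (-3 : ℝ)..0, (γ x : ℂ) * ei (φ x) = 0 :=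
    (intervalIntegral.integral_congr (g := fun _ => 0) fun x hx => by
      rw [Set.uIcc_of_le (by norm_num)] at hx
      simp [hγ.left x hx.2]).trans (by simp)
  have z2 : ∫ x in (1 : ℝ)..4, (γ x : ℂ) * ei (φ x) = 0 :=
    (intervalIntegral.integral_congr (g := fun _ => 0) fun x hx => by
      rw [Set.uIcc_of_le (by norm_num)] at hx
      simp [hγ.right x hx.1]).trans (by simp)
  have a1 : -3 ≤ x0 - r := by linarith
  have a2 : x0 - r ≤ x0 + r := by linarith
  have a3 : x0 + r ≤ 4 := by linarith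
  have s := Set.Icc_subset_Icc a1 a3
  have e1 := intervalIntegral.integral_add_adjacent_intervals
    (it (-3) 0 le_rfl (by norm_num) (by norm_num)) (it 0 1 (by norm_num) (by norm_num) (by norm_num))
  have e2 := intervalIntegral.integral_add_adjacent_intervals
    (it (-3) 1 le_rfl (by norm_num) (by norm_num)) (it 1 4 (by norm_num) (by norm_num) le_rfl)
  have e3 := intervalIntegral.integral_add_adjacent_intervals
    (it _ _ le_rfl a1 (a2.trans a3)) (it _ _ a1 a2 a3)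
  have e4 := intervalIntegral.integral_add_adjacent_intervals
    (it _ _ le_rfl (a1.trans a2) a3) (it _ _ (a1.trans a2) a3 le_rfl)
  rw [z1, zero_add] at e1
  rw [z2, add_zero, ← e1, ← e4, ← e3] at e2
  have o1 := statph_out (x0 := x0) hr hκ hγ h1 h2 hlow hM c2 le_rfl a1 (a2.trans a3)
    fun x hx => le_abs.2 (.inr (by linarith [hx.2]))
  have o2 := statph_out (x0 := x0) hr hκ hγ h1 h2 hlow hM c2 (a1.trans a2) a3 le_rfl
    fun x hx => le_abs.2 (.inl (by linarith [hx.1]))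
  simp only [abs_sub_comm _ x0, sub_sq_comm _ x0] at o1
  rw [intervalIntegral.integral_comp_sub_left (fun u => Λ / κ / |u| + M / κ ^ 2 / u ^ 2),
    sub_sub_cancel] at o1
  rw [intervalIntegral.integral_comp_sub_right (fun u => Λ / κ / |u| + M / κ ^ 2 / u ^ 2),
    add_sub_cancel_left] at o2
  have b1 := statph_int (c := x0 - -3) hr (by linarith) (by linarith) (div_nonneg L0 hκ.le)
    (div_nonneg M0 (sq_nonneg κ))
  have b2 := statph_int (c := 4 - x0) hr (by linarith) (by linarith) (div_nonneg L0 hκ.le)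
    (div_nonneg M0 (sq_nonneg κ))
  have d : ∀ x ∈ Set.Icc (x0 - r) (x0 + r), |x - x0| ≤ r := fun x hx =>
    abs_le.2 ⟨by linarith [hx.1], by linarith [hx.2]⟩
  have t1 : ∀ x ∈ Set.Icc (x0 - r) (x0 + r), |φ' x - φ'' x0 * (x - x0)| ≤ M * r * r :=
    fun x hx => by
      simpa [h0] using statph_mv (f := fun x => φ' x - φ'' x0 * (x - x0))
        (f' := fun x => φ'' x - φ'' x0) hr (fun y hy => ((h2 y (s hy)).sub
          (((hasDerivAt_id y).sub_const x0).const_mul _)).congr_deriv (by simp))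
        (fun y hy => (hlip y (s hy) x0 m0).trans (mul_le_mul_of_nonneg_left (d y hy) M0)) hx
  have t2 : ∀ x ∈ Set.Icc (x0 - r) (x0 + r),
      |φ x - φ'' x0 * (x - x0) ^ 2 / 2 - φ x0| ≤ M * r * r * r := fun x hx => by
    have := statph_mv (f := fun x => φ x - φ'' x0 * (x - x0) ^ 2 / 2) hr
      (fun y hy => ((h1 y (s hy)).sub (((((hasDerivAt_id y).sub_const x0).pow 2).const_mul
        _).div_const 2)).congr_deriv (by simp; ring)) t1 hx
    rwa [sub_self, zero_pow two_ne_zero, mul_zero, zero_div, sub_zero] at this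
  have f1 : (γ x0 : ℂ) * ei (φ x0) * fres r (φ'' x0) = ∫ x in (x0 - r)..(x0 + r),
      (γ x0 : ℂ) * ei (φ x0 + φ'' x0 * (x - x0) ^ 2 / 2) := by
    rw [intervalIntegral.integral_comp_sub_right
      (fun u => (γ x0 : ℂ) * ei (φ x0 + φ'' x0 * u ^ 2 / 2)), sub_sub_cancel_left,
      add_sub_cancel_left, fres, ← intervalIntegral.integral_const_mul]
    simp only [Bar.ei_add, mul_assoc]
  have f2 := intervalIntegral.norm_integral_le_of_norm_le_const (a := x0 - r) (b := x0 + r)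
    (C := Λ * r + M * r ^ 3) (f := fun x => (γ x : ℂ) * ei (φ x) -
      (γ x0 : ℂ) * ei (φ x0 + φ'' x0 * (x - x0) ^ 2 / 2)) fun x hx => by
      rw [Set.uIoc_of_le a2] at hx
      have hx' := Set.Ioc_subset_Icc_self hx
      have k1 := statph_mv hr (fun y hy => hγ.der y (s hy)) (fun y hy => hγ.bd y (s hy)) hx'
      have k2 := (Bar.norm_ei_sub_ei_le (φ x) (φ x0 + φ'' x0 * (x - x0) ^ 2 / 2)).trans
        ((congrArg _ (by ring)).trans_le (t2 x hx'))
      have : (γ x : ℂ) * ei (φ x) - (γ x0 : ℂ) * ei (φ x0 + φ'' x0 * (x - x0) ^ 2 / 2) =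
          ((γ x - γ x0 : ℝ) : ℂ) * ei (φ x) +
            (γ x0 : ℂ) * (ei (φ x) - ei (φ x0 + φ'' x0 * (x - x0) ^ 2 / 2)) := by
        push_cast
        ring
      rw [this]
      refine (norm_add_le _ _).trans (add_le_add ?_ ?_)
      · rwa [norm_mul, Bar.norm_ei, mul_one, Complex.norm_real]
      · rw [norm_mul, Complex.norm_real]
        exact (mul_le_of_le_one_left (norm_nonneg _) (hγ.le_one x0)).trans (k2.trans_eq (by ring))
  rw [intervalIntegral.integral_sub (it _ _ a1 a2 a3) (Continuous.intervalIntegrable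
    (by have := statph_cont; fun_prop) _ _), ← f1,
    abs_of_nonneg (sub_nonneg.2 a2)] at f2
  rw [e2, add_sub_right_comm, add_sub_assoc]
  refine (norm_add₃_le.trans (add_le_add (add_le_add (o1.trans (add_le_add le_rfl b1)) f2)
    (o2.trans (add_le_add le_rfl b2)))).trans_eq ?_
  field_simp
  ring

end Pool.Agent.Lib.MP_ecd12e_nt.ZS
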