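import Pool.Agent.Lib.MP_ecd12e_nt.ZS.Root2
import Pool.Agent.Lib.MP_ecd12e_nt.ZS.StatPh

/-! The oscillatory integral attached to one pair of shifts. -/

set_option autoImplicit false

namespace Pool.Agent.Lib.MP_ecd12e_nt.ZS

open Real
open Pool.Agent.Lib.MP_ecd12e_nt.Bar (ei)

/-- The first derivative of the phase. -/
noncomputable def oscP (G m j a s x : ℝ) : ℝ :=
  G * a * -((j + m + x) * (j + m + x + 1))⁻¹ - G * s * -((j + x) * (j + x + 1))⁻¹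

/-- The second derivative of the phase. -/
noncomputable def oscQ (G m j a s x : ℝ) : ℝ := G * a * lg2 (j + m + x) - G * s * lg2 (j + x)

theorem osc_rho {m y z : ℝ} (hm : 1 ≤ m) (hy : 0 < y) (hz : 0 < z) :
    |y - z| ≤ y * z * |rho m y - rho m z| := by
  have e : y * z * (rho m y - rho m z) = -(y - z) *
      (m * (2 * y * z + (m + 1) * (y + z + 1)) / ((y + 1) * (z + 1))) := by
    unfold rho
    field_simp
    ring
  have h : 1 ≤ m * (2 * y * z + (m + 1) * (y + z + 1)) / ((y + 1) * (z + 1)) := by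
    refine (one_le_div (by positivity)).2 (le_trans ?_ (le_mul_of_one_le_left (by positivity) hm))
    nlinarith [mul_pos hy hz, mul_nonneg (sub_nonneg.2 hm) (show 0 ≤ y + z + 1 by positivity)]
  rw [← abs_of_pos (mul_pos hy hz), ← abs_mul, e, abs_mul, abs_neg]
  exact le_mul_of_one_le_right (abs_nonneg _) (h.trans (le_abs_self _))

theorem osc_sq {u v : ℝ} (hu : 4 ≤ u) (hv : 4 ≤ v) : |(u ^ 2)⁻¹ - (v ^ 2)⁻¹| ≤ |u - v| / 16 := by
  have u0 : 0 < u := by linarith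
  have v0 : 0 < v := by linarith
  have e : (u ^ 2)⁻¹ - (v ^ 2)⁻¹ = -(u - v) * (u⁻¹ * v⁻¹ * (u⁻¹ + v⁻¹)) := by
    field_simp
    ring
  have p := inv_anti₀ four_pos hu
  have q := inv_anti₀ four_pos hv
  have h : u⁻¹ * v⁻¹ * (u⁻¹ + v⁻¹) ≤ 4⁻¹ * 4⁻¹ * (4⁻¹ + 4⁻¹) := by gcongr
  rw [e, abs_mul, abs_neg, abs_of_pos (show 0 < u⁻¹ * v⁻¹ * (u⁻¹ + v⁻¹) by positivity),
    div_eq_mul_inv]
  exact mul_le_mul_of_nonneg_left (h.trans (by norm_num)) (abs_nonneg _)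

theorem osc_lg2 {y : ℝ} (hy : 0 < y) : lg2 y = (y ^ 2)⁻¹ - ((y + 1) ^ 2)⁻¹ := by
  unfold lg2
  field_simp
  ring

theorem osc_lg2_le {y : ℝ} (hy : 4 ≤ y) : |lg2 y| ≤ 1 / 8 := by
  rw [osc_lg2 (by linarith)]
  refine (osc_sq hy (by linarith)).trans ?_
  rw [show y - (y + 1) = -1 by ring]
  norm_num

theorem osc_lg2_lip {u v : ℝ} (hu : 4 ≤ u) (hv : 4 ≤ v) : |lg2 u - lg2 v| ≤ 1 / 8 * |u - v| := by
  have h1 := osc_sq hu hv
  have h2 := osc_sq (show 4 ≤ u + 1 by linarith) (show 4 ≤ v + 1 by linarith)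
  rw [add_sub_add_right_eq_sub] at h2
  rw [osc_lg2 (by linarith), osc_lg2 (by linarith), sub_sub_sub_comm]
  exact (abs_sub _ _).trans (by linarith)

theorem osc_comb {M p q u v c : ℝ} (p0 : 0 ≤ p) (q0 : 0 ≤ q) (hp : p ≤ 4 * M) (hq : q ≤ 4 * M)
    (hu : |u| ≤ 1 / 8 * c) (hv : |v| ≤ 1 / 8 * c) : |p * u - q * v| ≤ M * c := by
  have h1 := mul_le_mul hp hu (abs_nonneg _) (p0.trans hp)
  have h2 := mul_le_mul hq hv (abs_nonneg _) (p0.trans hp)
  refine (abs_sub _ _).trans ?_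
  rw [abs_mul, abs_mul, abs_of_nonneg p0, abs_of_nonneg q0]
  linarith

/-- Everything the two estimates need about the phase. -/
theorem osc_phase {G m j a s L : ℝ} (hG : 1000 ≤ G) (hm : 1 ≤ m) (hj : 10 ≤ j)
    (hjm : j + m + 5 ≤ 12 / 5 * G ^ 2) (hL : 0 < L) (ha : G ^ 6 * L ≤ a)
    (ha' : a ≤ 4 * (G ^ 6 * L)) (hs : G ^ 6 * L ≤ s) (hs' : s ≤ 4 * (G ^ 6 * L)) {x : ℝ}
    (hx : x ∈ Set.Icc (-3 : ℝ) 4) :
    HasDerivAt (fun x => G * a * lg (j + m + x) - G * s * lg (j + x)) (oscP G m j a s x) x ∧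
      HasDerivAt (oscP G m j a s) (oscQ G m j a s x) x ∧ |oscQ G m j a s x| ≤ G ^ 7 * L ∧
      (∀ x' ∈ Set.Icc (-3 : ℝ) 4, |oscQ G m j a s x - oscQ G m j a s x'| ≤ G ^ 7 * L * |x - x'|) ∧
      (rho m (j + x) = a / s → oscP G m j a s x = 0) ∧
      ∀ x' ∈ Set.Icc (-3 : ℝ) 4, |rho m (j + x) - rho m (j + x')| ≤ |rho m (j + x) - a / s| →
        L / (100 * G) * |x - x'| ≤ |oscP G m j a s x| := by
  obtain ⟨x1, x2⟩ := hx
  have G0 : 0 < G := by linarith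
  have y0 : 0 < j + x := by linarith
  have z0 : 0 < j + m + x := by linarith
  have M0 : 0 < G ^ 6 * L := by positivity
  have a0 := M0.trans_le ha
  have s0 := M0.trans_le hs
  have ga : G * a ≤ 4 * (G ^ 7 * L) := (mul_le_mul_of_nonneg_left ha' G0.le).trans_eq (by ring)
  have gs : G * s ≤ 4 * (G ^ 7 * L) := (mul_le_mul_of_nonneg_left hs' G0.le).trans_eq (by ring)
  have e : oscP G m j a s x =
      G * s * (rho m (j + x) - a / s) / ((j + m + x) * (j + m + x + 1)) := by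
    have : 0 < j + x + m := by linarith
    unfold oscP rho
    field_simp
    ring
  refine ⟨?_, ?_, ?_, fun x' hx' => ?_, fun h => by rw [e, h, sub_self, mul_zero, zero_div],
    fun x' hx' h => ?_⟩
  · exact (((hasDerivAt_lg z0).comp_const_add _ _).const_mul _).sub
      (((hasDerivAt_lg y0).comp_const_add _ _).const_mul _)
  · exact (((lg_deriv2 z0).comp_const_add _ _).const_mul _).sub
      (((lg_deriv2 y0).comp_const_add _ _).const_mul _)
  · rw [← mul_one (G ^ 7 * L)]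
    exact osc_comb (by positivity) (by positivity) ga gs
      ((osc_lg2_le (by linarith)).trans_eq (mul_one _).symm)
      ((osc_lg2_le (by linarith)).trans_eq (mul_one _).symm)
  · have h1 := osc_lg2_lip (u := j + m + x) (v := j + m + x') (by linarith) (by linarith [hx'.1])
    have h2 := osc_lg2_lip (u := j + x) (v := j + x') (by linarith) (by linarith [hx'.1])
    rw [add_sub_add_left_eq_sub] at h1 h2
    refine (Eq.le ?_).trans (osc_comb (by positivity) (by positivity) ga gs h1 h2)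
    unfold oscQ
    congr 1
    ring
  · have y1 : 0 < j + x' := by linarith [hx'.1]
    have h1 := (osc_rho hm y0 y1).trans (mul_le_mul_of_nonneg_left h (mul_pos y0 y1).le)
    rw [add_sub_add_left_eq_sub] at h1
    have b1 : (j + x) * (j + x') ≤ (12 / 5 * G ^ 2) * (12 / 5 * G ^ 2) :=
      mul_le_mul (by linarith) (by linarith [hx'.2]) y1.le (by positivity)
    have b2 : (j + m + x) * (j + m + x + 1) ≤ (12 / 5 * G ^ 2) * (12 / 5 * G ^ 2) :=
      mul_le_mul (by linarith) (by linarith) (by positivity) (by positivity)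
    have d0 : 0 < (j + m + x) * (j + m + x + 1) := by positivity
    rw [e, abs_div, abs_mul, abs_of_pos d0, abs_of_pos (mul_pos G0 s0), div_mul_eq_mul_div,
      div_le_div_iff₀ (by positivity) d0]
    generalize |rho m (j + x) - a / s| = w at *
    have w0 : 0 ≤ w := (abs_nonneg _).trans h
    have b3 := mul_le_mul (h1.trans (mul_le_mul_of_nonneg_right b1 w0)) b2 d0.le (by positivity)
    have b4 := mul_le_mul_of_nonneg_left b3 hL.le
    have b5 := mul_le_mul_of_nonneg_right hs (show 0 ≤ G ^ 2 * w by positivity)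
    have b6 : 0 ≤ G ^ 6 * L * (G ^ 2 * w) := by positivity
    linarith

theorem osc_pow {G t u : ℝ} (hG : 1000 ≤ G) (ht : t = G ^ 20) (hu : t ^ 100 ≤ u) :
    0 < t ∧ 0 < u ∧ G ≤ G ^ 9 ∧ G ^ 7 ≤ G ^ 9 ∧ 1 ≤ G ^ 9 ∧ 100000 * (G ^ 9 / t) ≤ 1 ∧
      (∀ n : ℕ, n ≠ 0 → (t ^ n)⁻¹ ≤ t⁻¹) ∧ ∀ n ≤ 99, t ^ n / u ≤ t⁻¹ := by
  have G1 : 1 ≤ G := by linarith
  have t1 : 1 ≤ t := ht ▸ one_le_pow₀ G1
  have t0 : 0 < t := by linarith
  have u0 : 0 < u := (pow_pos t0 _).trans_le hu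
  refine ⟨t0, u0, le_self_pow₀ G1 (by omega), pow_le_pow_right₀ G1 (by omega), one_le_pow₀ G1,
    ?_, fun n hn => inv_anti₀ t0 (le_self_pow₀ t1 hn), fun n hn => ?_⟩
  · rw [← mul_div_assoc, div_le_one t0, ht, show G ^ 20 = G ^ 11 * G ^ 9 by ring]
    refine mul_le_mul_of_nonneg_right (le_trans ?_ (pow_le_pow_right₀ G1 (show 2 ≤ 11 by omega)))
      (by positivity)
    nlinarith
  · rw [div_le_iff₀ u0, le_inv_mul_iff₀ t0, ← pow_succ']
    exact (pow_le_pow_right₀ t1 (by omega)).trans hu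

theorem osc_num1 {G t u w : ℝ} (hG : 1000 ≤ G) (ht : t = G ^ 20) (hu : t ^ 100 ≤ u) (hw : u ≤ w) :
    (2 * u ^ 2 / (w * t ^ 21) / (u ^ 2 / (100 * G)) + G ^ 7 * u ^ 2 / (u ^ 2 / (100 * G)) ^ 2) *
      (u * t ^ 2) ≤ 1 := by
  obtain ⟨t0, u0, g1, -, -, k, p, q⟩ := osc_pow hG ht hu
  have G0 : 0 < G := by linarith
  have w0 := u0.trans_le hw
  have e : (2 * u ^ 2 / (w * t ^ 21) / (u ^ 2 / (100 * G)) +
      G ^ 7 * u ^ 2 / (u ^ 2 / (100 * G)) ^ 2) * (u * t ^ 2) =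
      200 * (G * (t ^ 19)⁻¹ * (u / w)) + 10000 * (G ^ 9 * (t ^ 2 / u)) := by
    field_simp
    ring
  have h1 : G * (t ^ 19)⁻¹ * (u / w) ≤ G ^ 9 * t⁻¹ * 1 :=
    mul_le_mul (mul_le_mul g1 (p 19 (by omega)) (by positivity) (by positivity))
      ((div_le_one w0).2 hw) (by positivity) (by positivity)
  have h2 := mul_le_mul_of_nonneg_left (q 2 (by omega)) (pow_pos G0 9).le
  have h3 : 0 ≤ G ^ 9 * t⁻¹ := by positivity
  rw [div_eq_mul_inv] at k
  rw [e]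
  linarith

theorem osc_num2 {G t u w l : ℝ} (hG : 1000 ≤ G) (ht : t = G ^ 20) (hu : t ^ 100 ≤ u)
    (hw : u ≤ w) (hl : l ≤ t) :
    (4 / (u ^ 2 / (100 * G) * (t ^ 4 / u)) +
      2 * (G ^ 7 * u ^ 2) / ((u ^ 2 / (100 * G)) ^ 2 * (t ^ 4 / u)) +
      2 * (2 * u ^ 2 / (w * t ^ 21)) * l / (u ^ 2 / (100 * G)) + 2 * (t ^ 4 / u) *
        (2 * u ^ 2 / (w * t ^ 21) * (t ^ 4 / u) + G ^ 7 * u ^ 2 * (t ^ 4 / u) ^ 3)) *
      (u * t ^ 2) ≤ 1 := by
  obtain ⟨t0, u0, g1, g7, g0, k, p, q⟩ := osc_pow hG ht hu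
  have G0 : 0 < G := by linarith
  have w0 := u0.trans_le hw
  have e : (4 / (u ^ 2 / (100 * G) * (t ^ 4 / u)) +
      2 * (G ^ 7 * u ^ 2) / ((u ^ 2 / (100 * G)) ^ 2 * (t ^ 4 / u)) +
      2 * (2 * u ^ 2 / (w * t ^ 21)) * l / (u ^ 2 / (100 * G)) + 2 * (t ^ 4 / u) *
        (2 * u ^ 2 / (w * t ^ 21) * (t ^ 4 / u) + G ^ 7 * u ^ 2 * (t ^ 4 / u) ^ 3)) *
      (u * t ^ 2) = 400 * (G * (t ^ 2)⁻¹) + 20000 * (G ^ 9 * (t ^ 2)⁻¹) +
        400 * (G * (t ^ 18)⁻¹ * (u / w) * (l / t)) + 4 * (1 * (t ^ 11)⁻¹ * (u / w)) +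
        2 * (G ^ 7 * (t ^ 18 / u)) := by
    field_simp
    ring
  have c := (div_le_one w0).2 hw
  have h1 := mul_le_mul g1 (p 2 (by omega)) (by positivity) (by positivity)
  have h2 := mul_le_mul_of_nonneg_left (p 2 (by omega)) (pow_pos G0 9).le
  have h3 : G * (t ^ 18)⁻¹ * (u / w) * (l / t) ≤ G ^ 9 * t⁻¹ * 1 :=
    (mul_le_of_le_one_right (by positivity) ((div_le_one t0).2 hl)).trans
      (mul_le_mul (mul_le_mul g1 (p 18 (by omega)) (by positivity) (by positivity)) c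
        (by positivity) (by positivity))
  have h4 : 1 * (t ^ 11)⁻¹ * (u / w) ≤ G ^ 9 * t⁻¹ * 1 :=
    mul_le_mul (mul_le_mul g0 (p 11 (by omega)) (by positivity) (by positivity)) c
      (by positivity) (by positivity)
  have h5 := mul_le_mul g7 (q 18 (by omega)) (by positivity) (by positivity)
  have h6 : 0 ≤ G ^ 9 * t⁻¹ := by positivity
  rw [div_eq_mul_inv] at k
  rw [e]
  linarith

section Osc
variable {G th k X Y m j : ℕ} {γ γ' : ℝ → ℝ} {a s : ℝ}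

theorem osc_par (hp : Par G th k X) : (th : ℝ) = (G : ℝ) ^ 20 ∧ (1 : ℝ) ≤ th ∧
    (th : ℝ) ^ 100 ≤ (th : ℝ) ^ k ∧ (th : ℝ) ^ k ≤ (th : ℝ) ^ X := by
  have t1 : (1 : ℝ) ≤ th := by exact_mod_cast le_trans (by omega) hp.big.h1000
  exact ⟨by exact_mod_cast hp.hth, t1, pow_le_pow_right₀ t1 hp.hk, pow_le_pow_right₀ t1 hp.hkX⟩

theorem osc_far (hp : Par G th k X) (h : Sh G Y m j)
    (hγ : Wt (2 * (th : ℝ) ^ (2 * k) / (th : ℝ) ^ (X + 21)) γ γ')
    (ha : (G : ℝ) ^ 6 * (th : ℝ) ^ (2 * k) ≤ a) (ha' : a ≤ 4 * ((G : ℝ) ^ 6 * (th : ℝ) ^ (2 * k)))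
    (hs : (G : ℝ) ^ 6 * (th : ℝ) ^ (2 * k) ≤ s) (hs' : s ≤ 4 * ((G : ℝ) ^ 6 * (th : ℝ) ^ (2 * k)))
    (hst : ¬ Stat m j a s) :
    ‖∫ x in (0 : ℝ)..1, (γ x : ℂ) * ei (G * a * lg (j + m + x) - G * s * lg (j + x))‖ *
      (th : ℝ) ^ (k + 2) ≤ 1 := by
  obtain ⟨g1, m1, j1, j2⟩ := h.re
  obtain ⟨t1, t2, t3, t4⟩ := osc_par hp
  have L0 : (0 : ℝ) < (th : ℝ) ^ (2 * k) := by positivity
  have k0 : (0 : ℝ) < (th : ℝ) ^ (2 * k) / (100 * G) := by positivity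
  have sub : Set.Icc (0 : ℝ) 1 ⊆ Set.Icc (-3) 4 := Set.Icc_subset_Icc (by norm_num) (by norm_num)
  have P := fun x (hx : x ∈ Set.Icc (0 : ℝ) 1) =>
    osc_phase g1 m1 j1 j2 L0 ha ha' hs hs' (sub hx)
  have low : ∀ x ∈ Set.Icc (0 : ℝ) 1, (th : ℝ) ^ (2 * k) / (100 * G) ≤ |oscP G m j a s x| := by
    intro x hx
    have y0 : (0 : ℝ) < j + x := by linarith [hx.1]
    rcases not_and_or.1 hst with c | c
    · have r := rho_anti m1 y0 (show j + x < j + 2 by linarith [hx.2])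
      refine le_trans (le_mul_of_one_le_right k0.le ?_) ((P x hx).2.2.2.2.2 2 (by norm_num) ?_)
      · exact le_abs.2 (Or.inr (by linarith [hx.2]))
      · rw [abs_of_pos (sub_pos.2 r)]
        exact le_abs.2 (Or.inl (by linarith [not_lt.1 c]))
    · have r := rho_anti m1 (show (0 : ℝ) < j - 1 by linarith)
        (show (j : ℝ) - 1 < j + x by linarith [hx.1])
      refine le_trans (le_mul_of_one_le_right k0.le ?_) ((P x hx).2.2.2.2.2 (-1) (by norm_num) ?_)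
      · exact le_abs.2 (Or.inl (by linarith [hx.1]))
      · rw [← sub_eq_add_neg, abs_of_neg (sub_neg.2 r)]
        exact le_abs.2 (Or.inr (by linarith [not_lt.1 c]))
  have n := nonstat zero_le_one (fun x hx => (P x hx).1) (fun x hx => (P x hx).2.1)
    (LipschitzOnWith.of_dist_le' fun x hx y hy => (P x hx).2.2.2.1 y (sub hy)).continuousOn
    (fun x hx => hγ.der x (sub hx)) (hγ.cont.mono sub)
    (fun x hx => abs_pos.1 (k0.trans_le (low x hx)))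
  rw [hγ.left 0 le_rfl, hγ.right 1 le_rfl, abs_zero, zero_div, zero_div, zero_add, zero_add] at n
  have i := intervalIntegral.norm_integral_le_of_norm_le_const (a := 0) (b := 1)
    (f := fun x => |γ' x| / |oscP G m j a s x| + |γ x| * |oscQ G m j a s x| / oscP G m j a s x ^ 2)
    (C := 2 * (th : ℝ) ^ (2 * k) / (th : ℝ) ^ (X + 21) / ((th : ℝ) ^ (2 * k) / (100 * G)) +
      G ^ 7 * (th : ℝ) ^ (2 * k) / ((th : ℝ) ^ (2 * k) / (100 * G)) ^ 2) fun x hx => by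
      rw [Set.uIoc_of_le zero_le_one] at hx
      have hx' := Set.Ioc_subset_Icc_self hx
      rw [Real.norm_of_nonneg (by positivity), ← sq_abs (oscP G m j a s x)]
      exact add_le_add (div_le_div₀ (by positivity) (hγ.bd x (sub hx')) k0 (low x hx'))
        (div_le_div₀ (by positivity) ((mul_le_of_le_one_left (abs_nonneg _) (hγ.le_one x)).trans
          (P x hx').2.2.1) (by positivity) (pow_le_pow_left₀ k0.le (low x hx') 2))
  rw [sub_zero, abs_one, mul_one] at i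
  refine (mul_le_mul_of_nonneg_right (n.trans ((Real.le_norm_self _).trans i))
    (by positivity)).trans ?_
  rw [pow_mul', pow_add, pow_add]
  exact osc_num1 g1 t1 t3 t4

theorem osc_near (hp : Par G th k X) (h : Sh G Y m j)
    (hγ : Wt (2 * (th : ℝ) ^ (2 * k) / (th : ℝ) ^ (X + 21)) γ γ')
    (ha : (G : ℝ) ^ 6 * (th : ℝ) ^ (2 * k) ≤ a) (ha' : a ≤ 4 * ((G : ℝ) ^ 6 * (th : ℝ) ^ (2 * k)))
    (hs : (G : ℝ) ^ 6 * (th : ℝ) ^ (2 * k) ≤ s) (hs' : s ≤ 4 * ((G : ℝ) ^ 6 * (th : ℝ) ^ (2 * k)))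
    (hr : 1 < a / s) (hy : (j : ℝ) - 2 ≤ yr m (a / s)) (hy' : yr m (a / s) ≤ j + 3) :
    ‖(∫ x in (0 : ℝ)..1, (γ x : ℂ) * ei (G * a * lg (j + m + x) - G * s * lg (j + x))) -
        ((2 * ((th : ℝ) ^ 4 / (th : ℝ) ^ k) : ℝ) : ℂ) *
          (omg γ ((th : ℝ) ^ 4 / (th : ℝ) ^ k) G m j a s * ei (ph G m a s))‖ *
      (th : ℝ) ^ (k + 2) ≤ 1 := by
  obtain ⟨g1, m1, j1, j2⟩ := h.re
  obtain ⟨t1, t2, t3, t4⟩ := osc_par hp
  have L0 : (0 : ℝ) < (th : ℝ) ^ (2 * k) := by positivity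
  have r0 : (0 : ℝ) < (th : ℝ) ^ 4 / (th : ℝ) ^ k := by positivity
  have P := fun x (hx : x ∈ Set.Icc (-3 : ℝ) 4) => osc_phase g1 m1 j1 j2 L0 ha ha' hs hs' hx
  have x0 : yr m (a / s) - j ∈ Set.Icc (-3 : ℝ) 4 := ⟨by linarith, by linarith⟩
  have e1 : (j : ℝ) + (yr m (a / s) - j) = yr m (a / s) := by ring
  have e2 : (j : ℝ) + m + (yr m (a / s) - j) = yr m (a / s) + m := by ring
  have e : rho m (j + (yr m (a / s) - j)) = a / s := by rw [e1, rho_yr (by linarith) hr]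
  have n := statph (x0 := yr m (a / s) - j) (by linarith) (by linarith) r0
    ((div_le_one (by positivity)).2 ((pow_le_pow_right₀ t2 (by omega)).trans t3))
    (show (0 : ℝ) < (th : ℝ) ^ (2 * k) / (100 * G) by positivity) hγ (fun x hx => (P x hx).1)
    (fun x hx => (P x hx).2.1) ((P _ x0).2.2.2.2.1 e)
    (fun x hx => (P x hx).2.2.2.2.2 _ x0 (by rw [e])) (fun x hx => (P x hx).2.2.1)
    fun x hx => (P x hx).2.2.2.1
  have e3 : ((2 * ((th : ℝ) ^ 4 / (th : ℝ) ^ k) : ℝ) : ℂ) *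
      (omg γ ((th : ℝ) ^ 4 / (th : ℝ) ^ k) G m j a s * ei (ph G m a s)) =
      (γ (yr m (a / s) - j) : ℂ) * ei (ph G m a s) *
        fres ((th : ℝ) ^ 4 / (th : ℝ) ^ k) (bet G m a s) := by
    rw [omg, ← mul_assoc, mul_div_cancel₀ _ (Complex.ofReal_ne_zero.2 (by positivity)),
      mul_right_comm]
  have l : Real.log (7 / ((th : ℝ) ^ 4 / (th : ℝ) ^ k)) ≤ th := by
    have t7 : (1000 : ℝ) ≤ th := by exact_mod_cast hp.big.h1000
    have l1 : 7 / ((th : ℝ) ^ 4 / (th : ℝ) ^ k) ≤ (th : ℝ) ^ k := by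
      rw [div_le_iff₀ r0, mul_div_cancel₀ _ (by positivity)]
      exact le_trans (by linarith) (le_self_pow₀ t2 (by omega))
    have l2 := hp.big.hlog
    have l3 := mul_nonneg (Nat.cast_nonneg (α := ℝ) k) (Real.log_nonneg t2)
    refine (Real.log_le_log (by positivity) l1).trans ?_
    rw [Real.log_pow]
    push_cast at l2
    linarith
  simp only [oscQ, e1, e2] at n
  rw [e3]
  refine (mul_le_mul_of_nonneg_right n (by positivity)).trans ?_
  rw [pow_mul', pow_add, pow_add]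
  exact osc_num2 g1 t1 t3 t4 l

end Osc

end Pool.Agent.Lib.MP_ecd12e_nt.ZS
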