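import Pool.Agent.Lib.MP_ecd12e_nt.ZS.Root

set_option autoImplicit false

namespace Pool.Agent.Lib.MP_ecd12e_nt.ZS

open Finset Real
open Pool.Agent.Lib.MP_ecd12e_nt.Bar (ei cell cells Unif Big zc enr)

theorem slow_fres_le {r : ℝ} (hr : 0 < r) (b : ℝ) : ‖fres r b‖ ≤ 2 * r := by
  have h := intervalIntegral.norm_integral_le_of_norm_le_const (a := -r) (b := r) (C := 1)
    (f := fun x : ℝ => ei (b * x ^ 2 / 2)) (fun x _ => (Bar.norm_ei _).le)
  rw [abs_of_pos (by linarith)] at h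
  unfold fres
  linarith

theorem slow_fres_lip {r : ℝ} (hr : 0 < r) (b b' : ℝ) :
    ‖fres r b - fres r b'‖ ≤ |b - b'| * r ^ 2 / 2 * (2 * r) := by
  have hc : ∀ c : ℝ, IntervalIntegrable (fun x : ℝ => ei (c * x ^ 2 / 2))
      MeasureTheory.volume (-r) r := by
    intro c
    refine Continuous.intervalIntegrable ?_ _ _
    unfold ei
    fun_prop
  unfold fres
  rw [← intervalIntegral.integral_sub (hc b) (hc b')]
  have h := intervalIntegral.norm_integral_le_of_norm_le_const (a := -r) (b := r)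
    (C := |b - b'| * r ^ 2 / 2)
    (f := fun x : ℝ => ei (b * x ^ 2 / 2) - ei (b' * x ^ 2 / 2)) (fun x hx => by
      rw [Set.uIoc_of_le (by linarith)] at hx
      refine (Bar.norm_ei_sub_ei_le _ _).trans ?_
      have e : b * x ^ 2 / 2 - b' * x ^ 2 / 2 = (b - b') * (x ^ 2 / 2) := by ring
      have h1 : x ^ 2 ≤ r ^ 2 := sq_le_sq' hx.1.le hx.2
      rw [e, abs_mul, abs_of_nonneg (show 0 ≤ x ^ 2 / 2 by positivity), mul_div_assoc]
      exact mul_le_mul_of_nonneg_left (by linarith) (abs_nonneg _))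
  rw [abs_of_pos (show 0 < r - -r by linarith)] at h
  exact h.trans_eq (by ring)

theorem slow_inv_sq {u v : ℝ} (hu : 2 ≤ u) (hv : 2 ≤ v) : |1 / u ^ 2 - 1 / v ^ 2| ≤ |u - v| / 2 := by
  have u0 : 0 < u := by linarith
  have v0 : 0 < v := by linarith
  have e : 1 / u ^ 2 - 1 / v ^ 2 = (v - u) * ((u + v) / (u ^ 2 * v ^ 2)) := by
    field_simp
    ring
  have h1 : (u + v) / (u ^ 2 * v ^ 2) ≤ 1 / 2 := by
    rw [div_le_div_iff₀ (by positivity) (by norm_num)]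
    have a1 : 4 ≤ u * v := by nlinarith
    have a2 : u + v ≤ u * v := by nlinarith
    nlinarith
  rw [e, abs_mul, abs_sub_comm v u, abs_of_pos (show 0 < (u + v) / (u ^ 2 * v ^ 2) by positivity)]
  have := mul_le_mul_of_nonneg_left h1 (abs_nonneg (u - v))
  linarith

theorem slow_lg2_eq {u : ℝ} (hu : 0 < u) : lg2 u = 1 / u ^ 2 - 1 / (u + 1) ^ 2 := by
  unfold lg2
  field_simp
  ring

theorem slow_lg2_lip {u v : ℝ} (hu : 2 ≤ u) (hv : 2 ≤ v) : |lg2 u - lg2 v| ≤ |u - v| := by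
  rw [slow_lg2_eq (by linarith : 0 < u), slow_lg2_eq (by linarith : 0 < v)]
  have h1 := slow_inv_sq hu hv
  have h2 := slow_inv_sq (u := u + 1) (v := v + 1) (by linarith) (by linarith)
  rw [add_sub_add_right_eq_sub] at h2
  have e : 1 / u ^ 2 - 1 / (u + 1) ^ 2 - (1 / v ^ 2 - 1 / (v + 1) ^ 2) =
      (1 / u ^ 2 - 1 / v ^ 2) - (1 / (u + 1) ^ 2 - 1 / (v + 1) ^ 2) := by ring
  rw [e]
  exact (abs_sub _ _).trans (by linarith)

theorem slow_lg2_le {u : ℝ} (hu : 2 ≤ u) : |lg2 u| ≤ 1 := by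
  have u0 : 0 < u := by linarith
  unfold lg2
  rw [abs_of_pos (by positivity), div_le_one (by positivity)]
  have a1 : 2 * u + 1 ≤ u * (u + 1) := by nlinarith
  nlinarith

theorem slow_bet {G m a a' s y y' M d : ℝ} (hG : 0 ≤ G) (hm : 0 ≤ m) (hy : 2 ≤ y) (hy' : 2 ≤ y')
    (ha' : 0 ≤ a') (hs : 0 ≤ s) (h1 : a' * |y - y'| ≤ M) (h2 : s * |y - y'| ≤ M)
    (hd : |a - a'| ≤ d) :
    |(G * a * lg2 (y + m) - G * s * lg2 y) - (G * a' * lg2 (y' + m) - G * s * lg2 y')| ≤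
      G * (d + 2 * M) := by
  have e : (G * a * lg2 (y + m) - G * s * lg2 y) - (G * a' * lg2 (y' + m) - G * s * lg2 y') =
      G * ((a - a') * lg2 (y + m) + a' * (lg2 (y + m) - lg2 (y' + m)) - s * (lg2 y - lg2 y')) := by
    ring
  rw [e, abs_mul, abs_of_nonneg hG]
  refine mul_le_mul_of_nonneg_left ?_ hG
  have b1 : |(a - a') * lg2 (y + m)| ≤ d := by
    rw [abs_mul]
    exact (mul_le_of_le_one_right (abs_nonneg _) (slow_lg2_le (by linarith))).trans hd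
  have b2 : |a' * (lg2 (y + m) - lg2 (y' + m))| ≤ M := by
    have c := slow_lg2_lip (u := y + m) (v := y' + m) (by linarith) (by linarith)
    rw [add_sub_add_right_eq_sub] at c
    rw [abs_mul, abs_of_nonneg ha']
    exact (mul_le_mul_of_nonneg_left c ha').trans h1
  have b3 : |s * (lg2 y - lg2 y')| ≤ M := by
    rw [abs_mul, abs_of_nonneg hs]
    exact (mul_le_mul_of_nonneg_left (slow_lg2_lip hy hy') hs).trans h2
  have b4 := abs_add_le ((a - a') * lg2 (y + m)) (a' * (lg2 (y + m) - lg2 (y' + m)))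
  exact (abs_sub _ _).trans (by linarith)

theorem slow_num {g t : ℝ} {k X : ℕ} (hg : 1000 ≤ g) (ht : t = g ^ 20) (hX : X + 100 ≤ 2 * k) :
    (2 * t ^ X / t ^ (X + 21) + g * (t ^ X + 2 * (4 * g ^ 6 * t ^ X)) * (t ^ 4 / t ^ k) ^ 2 / 2) *
      t ^ 20 ≤ 1 := by
  have g0 : 0 < g := by linarith
  have g1 : 1 ≤ g := by linarith
  have tg : g ≤ t := by
    rw [ht]
    exact le_self_pow₀ g1 (by norm_num)
  have t0 : 0 < t := by linarith
  have t1 : 1 ≤ t := by linarith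
  have h1 : 2 * t ^ X / t ^ (X + 21) * t ^ 20 ≤ 1 / 2 := by
    have e : 2 * t ^ X / t ^ (X + 21) * t ^ 20 = 2 / t := by
      field_simp
      ring
    rw [e, div_le_div_iff₀ t0 (by norm_num)]
    linarith
  have h2 : g * (t ^ X + 2 * (4 * g ^ 6 * t ^ X)) * (t ^ 4 / t ^ k) ^ 2 / 2 * t ^ 20 ≤ 1 / 2 := by
    have a1 : g * (1 + 8 * g ^ 6) ≤ t := by
      have b1 : (1 : ℝ) ≤ g ^ 6 := one_le_pow₀ g1
      have b2 : g ^ 8 ≤ g ^ 20 := pow_le_pow_right₀ g1 (by norm_num)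
      calc g * (1 + 8 * g ^ 6) ≤ g * (g * g ^ 6) :=
            mul_le_mul_of_nonneg_left (by nlinarith) g0.le
        _ = g ^ 8 := by ring
        _ ≤ t := by rw [ht]; exact b2
    have a2 : t ^ (X + 29) ≤ t ^ (2 * k) := pow_le_pow_right₀ t1 (by omega)
    have a3 : g * (1 + 8 * g ^ 6) * t ^ (X + 28) ≤ t ^ (2 * k) :=
      (mul_le_mul_of_nonneg_right a1 (by positivity)).trans (le_of_eq_of_le (by ring) a2)
    have e : g * (t ^ X + 2 * (4 * g ^ 6 * t ^ X)) * (t ^ 4 / t ^ k) ^ 2 / 2 * t ^ 20 =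
        g * (1 + 8 * g ^ 6) * t ^ (X + 28) / t ^ (2 * k) / 2 := by
      field_simp
      ring
    have a4 := (div_le_one (show 0 < t ^ (2 * k) by positivity)).2 a3
    rw [e]
    linarith
  rw [add_mul]
  linarith

section Slow
variable {G th k X Y m j : ℕ} {γ γ' : ℝ → ℝ} {a s : ℝ}

theorem omg_le {r G' m' j' : ℝ} (hr : 0 < r) (hγ : ∀ x, |γ x| ≤ 1) :
    ‖omg γ r G' m' j' a s‖ ≤ 1 := by
  unfold omg
  rw [norm_div, norm_mul, Complex.norm_real, Complex.norm_real, Real.norm_eq_abs,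
    Real.norm_of_nonneg (by positivity), div_le_one (by positivity)]
  exact (mul_le_of_le_one_left (norm_nonneg _) (hγ _)).trans (slow_fres_le hr _)

theorem slow_split {r G' m' j' a' d e : ℝ} (hr : 0 < r) (hγ : ∀ x, |γ x| ≤ 1)
    (h1 : |γ (yr m' (a / s) - j') - γ (yr m' (a' / s) - j')| ≤ d)
    (h2 : |bet G' m' a s - bet G' m' a' s| ≤ e) :
    ‖omg γ r G' m' j' a s - omg γ r G' m' j' a' s‖ ≤ d + e * r ^ 2 / 2 := by
  have e1 : omg γ r G' m' j' a s - omg γ r G' m' j' a' s =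
      (((γ (yr m' (a / s) - j') - γ (yr m' (a' / s) - j') : ℝ) : ℂ) * fres r (bet G' m' a s) +
        (γ (yr m' (a' / s) - j') : ℂ) * (fres r (bet G' m' a s) - fres r (bet G' m' a' s))) /
          ((2 * r : ℝ) : ℂ) := by
    unfold omg
    push_cast
    ring
  rw [e1, norm_div, Complex.norm_real (2 * r), Real.norm_of_nonneg (by positivity),
    div_le_iff₀ (by positivity)]
  refine (norm_add_le _ _).trans ?_
  rw [norm_mul, norm_mul, Complex.norm_real, Complex.norm_real, Real.norm_eq_abs, Real.norm_eq_abs,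
    add_mul]
  refine add_le_add (mul_le_mul h1 (slow_fres_le hr _) (norm_nonneg _)
    ((abs_nonneg _).trans h1)) ?_
  refine (mul_le_of_le_one_left (norm_nonneg _) (hγ _)).trans ((slow_fres_lip hr _ _).trans ?_)
  gcongr

theorem omg_slow {jA jB : ℕ} {a' : ℝ} (hp : Par G th k X) (h : Sh G Y m j)
    (hγ : Wt (2 * (th : ℝ) ^ (2 * k) / (th : ℝ) ^ (X + 21)) γ γ')
    (hA : G ^ 6 ≤ jA) (hA' : jA < 4 * G ^ 6) (hB : G ^ 6 ≤ jB) (hB' : jB < 4 * G ^ 6)
    (hr : Rng ((th : ℝ) ^ (2 * k)) jA jB m j) (ha : a ∈ Blk ((th : ℝ) ^ (2 * k)) jA)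
    (ha' : a' ∈ Blk ((th : ℝ) ^ (2 * k)) jA) (hs : s ∈ Blk ((th : ℝ) ^ (2 * k)) jB)
    (haa : |a - a'| ≤ (th : ℝ) ^ X) :
    ‖omg γ ((th : ℝ) ^ 4 / (th : ℝ) ^ k) G m j a s -
      omg γ ((th : ℝ) ^ 4 / (th : ℝ) ^ k) G m j a' s‖ * (th : ℝ) ^ 20 ≤ 1 := by
  have hth : 0 < th := lt_of_lt_of_le (by norm_num) hp.big.h1000
  have t0 : (0 : ℝ) < th := by exact_mod_cast hth
  have L0 : (0 : ℝ) < (th : ℝ) ^ (2 * k) := pow_pos t0 _
  have G1 : (1000 : ℝ) ≤ G := by exact_mod_cast hp.hG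
  have G0 : (0 : ℝ) < G := by linarith
  obtain ⟨-, c2, c3⟩ := hr a ha s hs
  obtain ⟨-, c2', c3'⟩ := hr a' ha' s hs
  have y8 := (h.rt c2 c3).2.2.2.1
  have y8' := (h.rt c2' c3').2.2.2.1
  have hpos := (ker_explicit h L0 hA hA' hB hB' hr).pos a ha a' ha' s hs s hs
  have hy : (th : ℝ) ^ (2 * k) * |yr m (a / s) - yr m (a' / s)| ≤ (th : ℝ) ^ X := by
    have e : psn ((th : ℝ) ^ (2 * k)) m j a s - psn ((th : ℝ) ^ (2 * k)) m j a' s =
        (th : ℝ) ^ (2 * k) * (yr m (a / s) - yr m (a' / s)) := by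
      unfold psn
      ring
    rw [e, abs_mul, abs_of_pos L0, sub_self, abs_zero, add_zero] at hpos
    exact hpos.trans haa
  have hM : ∀ z : ℝ, z ≤ 4 * ((G : ℝ) ^ 6 * (th : ℝ) ^ (2 * k)) →
      z * |yr m (a / s) - yr m (a' / s)| ≤ 4 * (G : ℝ) ^ 6 * (th : ℝ) ^ X := fun z hz =>
    (mul_le_mul_of_nonneg_right hz (abs_nonneg _)).trans (le_of_eq_of_le (by ring)
      (mul_le_mul_of_nonneg_left hy (show 0 ≤ 4 * (G : ℝ) ^ 6 by positivity)))
  obtain ⟨p1, p2⟩ := rt_blk (G := (G : ℝ)) (by push_cast; rfl) L0 hA hA' ha'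
  obtain ⟨q1, q2⟩ := rt_blk (G := (G : ℝ)) (by push_cast; rfl) L0 hB hB' hs
  have M0 : 0 ≤ (G : ℝ) ^ 6 * (th : ℝ) ^ (2 * k) := by positivity
  have h2 := slow_bet (a := a) G0.le (Nat.cast_nonneg m) (by linarith) (by linarith)
    (M0.trans p1) (M0.trans q1) (hM _ p2) (hM _ q2) haa
  have h1 : |γ (yr m (a / s) - j) - γ (yr m (a' / s) - j)| ≤
      2 * (th : ℝ) ^ X / (th : ℝ) ^ (X + 21) := by
    have b := rt_lip (x := yr m (a / s) - j) (y := yr m (a' / s) - j) hγ.der hγ.bd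
      ⟨by linarith, by linarith⟩ ⟨by linarith, by linarith⟩
    rw [sub_sub_sub_cancel_right] at b
    refine b.trans ?_
    calc 2 * (th : ℝ) ^ (2 * k) / (th : ℝ) ^ (X + 21) * |yr m (a / s) - yr m (a' / s)|
        = 2 * ((th : ℝ) ^ (2 * k) * |yr m (a / s) - yr m (a' / s)|) / (th : ℝ) ^ (X + 21) := by ring
      _ ≤ _ := by gcongr
  refine le_trans (mul_le_mul_of_nonneg_right
    (slow_split (by positivity) hγ.le_one h1 h2) (by positivity)) ?_
  exact slow_num G1 (by exact_mod_cast hp.hth) hp.hX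

end Slow

end Pool.Agent.Lib.MP_ecd12e_nt.ZS
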