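import Pool.Agent.Lib.MP_ecd12e_nt.ZS.Root2
import Pool.Agent.Lib.MP_ecd12e_nt.ZS.Osc
import Pool.Agent.Lib.MP_ecd12e_nt.ZS.Slow
import Pool.Agent.Lib.MP_ecd12e_nt.Bar.Unif

set_option autoImplicit false

namespace Pool.Agent.Lib.MP_ecd12e_nt.ZS

open Finset Real
open Pool.Agent.Lib.MP_ecd12e_nt.Bar (ei cell cells Unif Big zc enr)

theorem fp2_blk {th m j a : ℕ} (hth : 0 < th) (ha : a / th ^ m = j) :
    (a : ℝ) ∈ Blk ((th : ℝ) ^ m) j := by
  have hq : 0 < th ^ m := pow_pos hth m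
  have h1 : j * th ^ m ≤ a := ha ▸ Nat.div_mul_le_self a (th ^ m)
  have h2 : a ≤ (j + 1) * th ^ m := by
    have := Nat.lt_mul_div_succ a hq
    rw [ha, mul_comm] at this
    exact this.le
  exact ⟨by exact_mod_cast h1, by exact_mod_cast h2⟩

theorem fp2_ei_cont : Continuous ei := by
  unfold ei
  fun_prop

theorem fp2_lg_cont {u : ℝ} (hu : 0 < u) :
    ContinuousOn (fun x : ℝ => lg (u + x)) (Set.Icc 0 1) := by
  intro x hx
  have h1 : 0 < u + x := by linarith [hx.1]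
  have h2 : ContinuousAt (fun x : ℝ => u + x) x := by fun_prop
  exact (ContinuousAt.comp (f := fun x : ℝ => u + x)
    (hasDerivAt_lg h1).continuousAt h2).continuousWithinAt

theorem fp2_int {Λ : ℝ} {γ γ' : ℝ → ℝ} (hγ : Wt Λ γ γ') {u v : ℝ} (hu : 0 < u) (hv : 0 < v)
    (p q : ℝ) : IntervalIntegrable
      (fun x : ℝ => (γ x : ℂ) * ei (p * lg (u + x) - q * lg (v + x))) MeasureTheory.volume 0 1 := by
  refine ContinuousOn.intervalIntegrable ?_
  rw [Set.uIcc_of_le zero_le_one]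
  have h1 : ContinuousOn γ (Set.Icc 0 1) := fun x hx =>
    (hγ.der x ⟨by linarith [hx.1], by linarith [hx.2]⟩).continuousAt.continuousWithinAt
  refine (Complex.continuous_ofReal.comp_continuousOn h1).mul ?_
  exact fp2_ei_cont.comp_continuousOn
    (((fp2_lg_cont hu).const_smul p).sub ((fp2_lg_cont hv).const_smul q))

/-- Expansion of the weighted product of two dual sums. -/
theorem fp2_expand {Λ : ℝ} {γ γ' : ℝ → ℝ} (hγ : Wt Λ γ γ') {u v : ℝ} (hu : 0 < u) (hv : 0 < v)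
    (G : ℝ) (W : Finset ℕ) (c : ℕ → ℂ) :
    ∫ x in (0 : ℝ)..1, (γ x : ℂ) * (dual G W c (u + x) * (starRingEnd ℂ) (dual G W c (v + x))) =
      ∑ a ∈ W, ∑ s ∈ W, c a * (starRingEnd ℂ) (c s) *
        ∫ x in (0 : ℝ)..1, (γ x : ℂ) * ei (G * a * lg (u + x) - G * s * lg (v + x)) := by
  have h1 : ∀ x : ℝ, (γ x : ℂ) * (dual G W c (u + x) * (starRingEnd ℂ) (dual G W c (v + x))) =
      ∑ a ∈ W, ∑ s ∈ W, c a * (starRingEnd ℂ) (c s) *
        ((γ x : ℂ) * ei (G * a * lg (u + x) - G * s * lg (v + x))) := by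
    intro x
    unfold dual
    rw [map_sum, Finset.sum_mul_sum, Finset.mul_sum]
    refine Finset.sum_congr rfl fun a _ => ?_
    rw [Finset.mul_sum]
    refine Finset.sum_congr rfl fun s _ => ?_
    rw [map_mul, Bar.conj_ei, sub_eq_add_neg, Bar.ei_add]
    ring
  have h2 : ∀ a s : ℕ, IntervalIntegrable (fun x : ℝ => c a * (starRingEnd ℂ) (c s) *
      ((γ x : ℂ) * ei (G * a * lg (u + x) - G * s * lg (v + x)))) MeasureTheory.volume 0 1 :=
    fun a s => (fp2_int hγ hu hv _ _).const_mul _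
  simp_rw [h1]
  rw [intervalIntegral.integral_finsetSum]
  · refine Finset.sum_congr rfl fun a _ => ?_
    rw [intervalIntegral.integral_finsetSum fun s _ => h2 a s]
    exact Finset.sum_congr rfl fun s _ => intervalIntegral.integral_const_mul _ _
  · intro a _
    have h3 := IntervalIntegrable.sum W (fun s _ => h2 a s)
    refine h3.congr ?_
    intro x _
    simp only [Finset.sum_apply]

theorem fp2_triv (Φ : ℝ → ℝ → ℝ) (A B : Finset ℕ) {ca cb : ℕ → ℂ} {om : ℝ → ℝ → ℂ}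
    (hca : ∀ a, ‖ca a‖ ≤ 1) (hcb : ∀ s, ‖cb s‖ ≤ 1) (hom : ∀ a s, ‖om a s‖ ≤ 1) :
    ‖bil Φ A B ca cb om‖ ≤ (A.card : ℝ) * B.card := by
  unfold bil
  calc _ ≤ ∑ a ∈ A, ∑ s ∈ B, (1 : ℝ) := by
        refine (_root_.norm_sum_le _ _).trans (Finset.sum_le_sum fun a _ => ?_)
        refine (_root_.norm_sum_le _ _).trans (Finset.sum_le_sum fun s _ => ?_)
        rw [norm_mul, norm_mul, norm_mul, Bar.norm_ei, mul_one]
        exact mul_le_one₀ (mul_le_one₀ (hca a) (norm_nonneg _) (hcb s)) (norm_nonneg _) (hom _ _)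
    _ = _ := by simp

theorem fp2_sqrt {x w t : ℝ} {k : ℕ} (hx : 0 ≤ x) (hw : 0 ≤ w) (ht : 0 < t)
    (h1 : x ≤ w * w) (h2 : t ^ 16 * x ≤ t ^ (2 * k)) : 2 * (t ^ 4 / t ^ k) * x * t ^ 4 ≤ 2 * w := by
  have hk : 0 < t ^ k := pow_pos ht k
  have h3 : (t ^ 8 * x) * (t ^ 8 * x) ≤ (w * t ^ k) * (w * t ^ k) := by
    calc (t ^ 8 * x) * (t ^ 8 * x) = x * (t ^ 16 * x) := by ring
      _ ≤ (w * w) * t ^ (2 * k) := mul_le_mul h1 h2 (by positivity) (by positivity)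
      _ = _ := by ring
  have h4 : t ^ 8 * x ≤ w * t ^ k := (mul_self_le_mul_self_iff (by positivity) (by positivity)).2 h3
  calc 2 * (t ^ 4 / t ^ k) * x * t ^ 4 = 2 * ((t ^ 8 * x) / t ^ k) := by ring
    _ ≤ 2 * w := by
      have := (div_le_iff₀ hk).2 h4
      linarith

/-- A double sum compared term by term with a model. -/
theorem fp2_cmp (A B : Finset ℕ) {ca cb : ℕ → ℂ} {I J : ℕ → ℕ → ℂ} {e : ℝ}
    (hca : ∀ a, ‖ca a‖ ≤ 1) (hcb : ∀ s, ‖cb s‖ ≤ 1)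
    (h : ∀ a ∈ A, ∀ s ∈ B, ‖I a s - J a s‖ ≤ e) :
    ‖∑ a ∈ A, ∑ s ∈ B, ca a * cb s * I a s‖ ≤
      ‖∑ a ∈ A, ∑ s ∈ B, ca a * cb s * J a s‖ + (A.card : ℝ) * B.card * e := by
  have h1 : ∑ a ∈ A, ∑ s ∈ B, ca a * cb s * I a s = ∑ a ∈ A, ∑ s ∈ B, ca a * cb s * J a s +
      ∑ a ∈ A, ∑ s ∈ B, ca a * cb s * (I a s - J a s) := by
    rw [← Finset.sum_add_distrib]
    refine Finset.sum_congr rfl fun a _ => ?_
    rw [← Finset.sum_add_distrib]
    exact Finset.sum_congr rfl fun s _ => by ring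
  rw [h1]
  refine (norm_add_le _ _).trans (add_le_add le_rfl ?_)
  calc _ ≤ ∑ a ∈ A, ∑ s ∈ B, e := by
        refine (_root_.norm_sum_le _ _).trans (Finset.sum_le_sum fun a ha => ?_)
        refine (_root_.norm_sum_le _ _).trans (Finset.sum_le_sum fun s hs => ?_)
        rw [norm_mul, norm_mul]
        exact (mul_le_of_le_one_left (norm_nonneg _)
          (mul_le_one₀ (hca a) (norm_nonneg _) (hcb s))).trans (h a ha s hs)
    _ = _ := by simp [mul_assoc]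

section Far
variable {G th k X Y m j : ℕ} {γ γ' : ℝ → ℝ} {al : ℕ → ℕ} {W : Finset ℕ}

theorem fp2_range (hp : Par G th k X) (hW : Win G th k al W) {jA : ℕ}
    (hA : jA ∈ cells W (th ^ (2 * k))) : G ^ 6 ≤ jA ∧ jA < 4 * G ^ 6 := by
  have hth : 0 < th := lt_of_lt_of_le (by norm_num) hp.big.h1000
  have hq : 0 < th ^ (2 * k) := pow_pos hth _
  obtain ⟨a, ha, rfl⟩ := Bar.unif_mem_cells.1 hA
  refine ⟨(Nat.le_div_iff_mul_le hq).2 (hW.lo a ha), (Nat.div_lt_iff_lt_mul hq).2 ?_⟩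
  rw [mul_assoc]
  exact hW.hi a ha

/-- One pair of blocks. -/
theorem fp2_pair {ca cb : ℕ → ℂ} (hp : Par G th k X) (h : Sh G Y m j)
    (hW : Win G th k al W) (hca : ∀ a, ‖ca a‖ ≤ 1) (hcb : ∀ a, ‖cb a‖ ≤ 1)
    (hγ : Wt (2 * (th : ℝ) ^ (2 * k) / (th : ℝ) ^ (X + 21)) γ γ')
    (hflat : ∀ a0 ∈ W, ∀ s0 ∈ W, γ (yr m ((a0 : ℝ) / s0) - j) ≠ 0 →
      ((W ×ˢ W).filter (fun p : ℕ × ℕ => |psn ((th : ℝ) ^ (2 * k)) m j p.1 p.2 -
        psn ((th : ℝ) ^ (2 * k)) m j a0 s0| ≤ (th : ℝ) ^ (X + 21))).card ≤ th ^ (X + 25))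
    {jA jB : ℕ} (hA : jA ∈ cells W (th ^ (2 * k))) (hB : jB ∈ cells W (th ^ (2 * k))) :
    ‖∑ a ∈ cell W (th ^ (2 * k)) jA, ∑ s ∈ cell W (th ^ (2 * k)) jB, ca a * cb s *
        ∫ x in (0 : ℝ)..1, (γ x : ℂ) * ei (G * a * lg (j + m + x) - G * s * lg (j + x))‖ ≤
      2 * W.card / (th : ℝ) ^ 4 + ((cell W (th ^ (2 * k)) jA).card : ℝ) *
        (cell W (th ^ (2 * k)) jB).card * (1 / (th : ℝ) ^ (k + 2)) := by
  have hth : 0 < th := lt_of_lt_of_le (by norm_num) hp.big.h1000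
  have t0 : (0 : ℝ) < th := by exact_mod_cast hth
  have L0 : (0 : ℝ) < (th : ℝ) ^ (2 * k) := pow_pos t0 _
  have e0 : (0 : ℝ) < (th : ℝ) ^ (k + 2) := pow_pos t0 _
  have r0 : (0 : ℝ) < (th : ℝ) ^ 4 / (th : ℝ) ^ k := by positivity
  obtain ⟨a1, a2⟩ := fp2_range hp hW hA
  obtain ⟨b1, b2⟩ := fp2_range hp hW hB
  have hsub : ∀ c : ℕ, cell W (th ^ (2 * k)) c ⊆ W := fun c => Finset.filter_subset _ _
  have hblk : ∀ c : ℕ, ∀ a ∈ cell W (th ^ (2 * k)) c, a / th ^ (2 * k) = c :=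
    fun c a ha => (Bar.unif_mem_cell.1 ha).2
  have hlo : ∀ a ∈ W, (G : ℝ) ^ 6 * (th : ℝ) ^ (2 * k) ≤ a := fun a ha => by
    exact_mod_cast hW.lo a ha
  have hhi : ∀ a ∈ W, (a : ℝ) ≤ 4 * ((G : ℝ) ^ 6 * (th : ℝ) ^ (2 * k)) := fun a ha => by
    exact_mod_cast (hW.hi a ha).le
  by_cases hst : ∃ a0 ∈ cell W (th ^ (2 * k)) jA, ∃ s0 ∈ cell W (th ^ (2 * k)) jB,
      Stat m j a0 s0
  · obtain ⟨a0, ha0, s0, hs0, hst⟩ := hst
    have hR : Rng ((th : ℝ) ^ (2 * k)) jA jB m j :=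
      rng_of_stat h L0 a1 b1 (fp2_blk hth (hblk _ _ ha0)) (fp2_blk hth (hblk _ _ hs0)) hst
    have hom : ∀ a s : ℝ, ‖omg γ ((th : ℝ) ^ 4 / (th : ℝ) ^ k) G m j a s‖ ≤ 1 :=
      fun a s => omg_le r0 hγ.le_one
    have hng : (th : ℝ) ^ 16 * ‖bil (ph G m) (cell W (th ^ (2 * k)) jA) (cell W (th ^ (2 * k)) jB)
        ca cb (omg γ ((th : ℝ) ^ 4 / (th : ℝ) ^ k) G m j)‖ ≤ (th : ℝ) ^ (2 * k) := by
      by_contra hc
      refine hp.nog al _ _ jA jB ca cb _ (ph G m) (fq G m) (uu G m)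
        (psn ((th : ℝ) ^ (2 * k)) m j) ⟨hp.big, hW.unif.restrict le_rfl jA,
          hW.unif.restrict le_rfl jB, hblk jA, hblk jB,
          (card_le_card (hsub jA)).trans hW.card, (card_le_card (hsub jB)).trans hW.card, hca, hcb,
          hom, ?_, ?_, ?_, not_le.1 hc⟩
      · have e : (th : ℝ) = (G : ℝ) ^ 20 := by exact_mod_cast hp.hth
        have hk := ker_explicit h L0 a1 a2 b1 b2 hR
        rwa [← e] at hk
      · intro a ha a' ha' s hs haa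
        exact omg_slow hp h hγ a1 a2 b1 b2 hR ha ha' hs haa
      · intro a ha s hs hne
        refine le_trans (card_le_card (filter_subset_filter _
          (product_subset_product (hsub jA) (hsub jB)))) (hflat a (hsub _ ha) s (hsub _ hs) ?_)
        intro h0
        apply hne
        unfold omg
        rw [h0]
        simp
    have htr := fp2_triv (ph G m) (cell W (th ^ (2 * k)) jA) (cell W (th ^ (2 * k)) jB) hca hcb hom
    have hcA : ((cell W (th ^ (2 * k)) jA).card : ℝ) ≤ W.card := by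
      exact_mod_cast card_le_card (hsub jA)
    have hcB : ((cell W (th ^ (2 * k)) jB).card : ℝ) ≤ W.card := by
      exact_mod_cast card_le_card (hsub jB)
    have hsq := fp2_sqrt (norm_nonneg _) (Nat.cast_nonneg W.card) t0
      (htr.trans (mul_le_mul hcA hcB (Nat.cast_nonneg _) (Nat.cast_nonneg _))) hng
    refine (fp2_cmp _ _ (J := fun a s => ((2 * ((th : ℝ) ^ 4 / (th : ℝ) ^ k) : ℝ) : ℂ) *
      (omg γ ((th : ℝ) ^ 4 / (th : ℝ) ^ k) G m j a s * ei (ph G m a s))) hca hcb ?_).trans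
      (add_le_add ?_ le_rfl)
    · intro a ha s hs
      obtain ⟨c1, c2, c3⟩ := hR a (fp2_blk hth (hblk _ _ ha)) s (fp2_blk hth (hblk _ _ hs))
      rw [le_div_iff₀ e0]
      exact osc_near hp h hγ (hlo a (hsub _ ha)) (hhi a (hsub _ ha)) (hlo s (hsub _ hs))
        (hhi s (hsub _ hs)) c1 c2 c3
    · have e : ∑ a ∈ cell W (th ^ (2 * k)) jA, ∑ s ∈ cell W (th ^ (2 * k)) jB, ca a * cb s *
          (((2 * ((th : ℝ) ^ 4 / (th : ℝ) ^ k) : ℝ) : ℂ) *
            (omg γ ((th : ℝ) ^ 4 / (th : ℝ) ^ k) G m j a s * ei (ph G m a s))) =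
          ((2 * ((th : ℝ) ^ 4 / (th : ℝ) ^ k) : ℝ) : ℂ) * bil (ph G m) (cell W (th ^ (2 * k)) jA)
            (cell W (th ^ (2 * k)) jB) ca cb (omg γ ((th : ℝ) ^ 4 / (th : ℝ) ^ k) G m j) := by
        unfold bil
        rw [Finset.mul_sum]
        refine Finset.sum_congr rfl fun a _ => ?_
        rw [Finset.mul_sum]
        exact Finset.sum_congr rfl fun s _ => by ring
      rw [e, norm_mul, Complex.norm_real, Real.norm_of_nonneg (by positivity),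
        le_div_iff₀ (by positivity)]
      exact hsq
  · refine (fp2_cmp _ _ (J := fun _ _ => 0) hca hcb ?_).trans (add_le_add ?_ le_rfl)
    · intro a ha s hs
      rw [sub_zero, le_div_iff₀ e0]
      exact osc_far hp h hγ (hlo a (hsub _ ha)) (hhi a (hsub _ ha)) (hlo s (hsub _ hs))
        (hhi s (hsub _ hs)) fun hc => hst ⟨a, ha, s, hs, hc⟩
    · simp only [mul_zero, Finset.sum_const_zero, norm_zero]
      positivity

theorem fp2_num {g w n t : ℝ} {k : ℕ} (hg : 1000 ≤ g) (ht : t = g ^ 20) (hw : 0 ≤ w)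
    (hn0 : 0 ≤ n) (hn : n ≤ 4 * g ^ 6) (hwk : w ≤ t ^ (k + 1)) :
    (n * (n * (2 * w / t ^ 4)) + w * w * (1 / t ^ (k + 2))) * g ^ 4 ≤ w := by
  have g0 : 0 < g := by linarith
  have g1 : 1 ≤ g := by linarith
  have t0 : 0 < t := by rw [ht]; positivity
  have h1 : n * (n * (2 * w / t ^ 4)) * g ^ 4 ≤ w / 2 := by
    have a1 : n * n ≤ (4 * g ^ 6) * (4 * g ^ 6) := mul_le_mul hn hn hn0 (by positivity)
    have a2 : 64 * g ^ 16 ≤ t ^ 4 := by
      have b1 : g ^ 17 ≤ g ^ 80 := pow_le_pow_right₀ g1 (by norm_num)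
      have b2 : 64 * g ^ 16 ≤ g * g ^ 16 := mul_le_mul_of_nonneg_right (by linarith) (by positivity)
      calc 64 * g ^ 16 ≤ g * g ^ 16 := b2
        _ = g ^ 17 := by ring
        _ ≤ g ^ 80 := b1
        _ = t ^ 4 := by rw [ht]; ring
    calc n * (n * (2 * w / t ^ 4)) * g ^ 4 = (n * n) * g ^ 4 * 2 * w / t ^ 4 := by ring
      _ ≤ ((4 * g ^ 6) * (4 * g ^ 6)) * g ^ 4 * 2 * w / t ^ 4 := by gcongr
      _ = (64 * g ^ 16) / t ^ 4 * (w / 2) := by ring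
      _ ≤ w / 2 := mul_le_of_le_one_left (by positivity) ((div_le_one (by positivity)).2 a2)
  have h2 : w * w * (1 / t ^ (k + 2)) * g ^ 4 ≤ w / 2 := by
    have a2 : 2 * g ^ 4 ≤ t := by
      have b1 : g ^ 5 ≤ g ^ 20 := pow_le_pow_right₀ g1 (by norm_num)
      have b2 : 2 * g ^ 4 ≤ g * g ^ 4 := mul_le_mul_of_nonneg_right (by linarith) (by positivity)
      calc 2 * g ^ 4 ≤ g * g ^ 4 := b2
        _ = g ^ 5 := by ring
        _ ≤ t := by rw [ht]; exact b1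
    calc w * w * (1 / t ^ (k + 2)) * g ^ 4 ≤ w * t ^ (k + 1) * (1 / t ^ (k + 2)) * g ^ 4 := by
          gcongr
      _ = (2 * g ^ 4) / t * (w / 2) := by field_simp; ring
      _ ≤ w / 2 := mul_le_of_le_one_left (by positivity) ((div_le_one t0).2 a2)
  rw [add_mul]
  linarith

theorem far_pair {c : ℕ → ℂ} (hp : Par G th k X) (h : Sh G Y m j)
    (hW : Win G th k al W) (hc : ∀ a ∈ W, ‖c a‖ ≤ 1)
    (hγ : Wt (2 * (th : ℝ) ^ (2 * k) / (th : ℝ) ^ (X + 21)) γ γ')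
    (hflat : ∀ a0 ∈ W, ∀ s0 ∈ W, γ (yr m ((a0 : ℝ) / s0) - j) ≠ 0 →
      ((W ×ˢ W).filter (fun p : ℕ × ℕ => |psn ((th : ℝ) ^ (2 * k)) m j p.1 p.2 -
        psn ((th : ℝ) ^ (2 * k)) m j a0 s0| ≤ (th : ℝ) ^ (X + 21))).card ≤ th ^ (X + 25)) :
    ‖∫ x in (0 : ℝ)..1, (γ x : ℂ) *
        (dual G W c (j + m + x) * (starRingEnd ℂ) (dual G W c (j + x)))‖ * (G : ℝ) ^ 4
      ≤ W.card := by
  have j0 : (0 : ℝ) < j := by exact_mod_cast lt_of_lt_of_le (by norm_num) (h.hY.trans h.hj)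
  have jm0 : (0 : ℝ) < (j : ℝ) + m := by positivity
  obtain ⟨ca, hca⟩ : ∃ ca : ℕ → ℂ, ca = fun a => if a ∈ W then c a else 0 := ⟨_, rfl⟩
  have h1 : ∀ a, ‖ca a‖ ≤ 1 := by
    intro a
    rw [hca]
    by_cases ha : a ∈ W
    · simpa [ha] using hc a ha
    · simp [ha]
  have h2 : ∀ a, ‖(starRingEnd ℂ) (ca a)‖ ≤ 1 := fun a => by
    rw [Complex.norm_conj]; exact h1 a
  have h3 : ∀ y, dual G W c y = dual G W ca y := fun y =>
    Finset.sum_congr rfl fun a ha => by simp [hca, ha]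
  have hn : ((cells W (th ^ (2 * k))).card : ℝ) ≤ 4 * (G : ℝ) ^ 6 := by
    have a1 : cells W (th ^ (2 * k)) ⊆ range (4 * G ^ 6) :=
      fun jA hA => mem_range.2 (fp2_range hp hW hA).2
    have a2 := card_le_card a1
    rw [card_range] at a2
    exact_mod_cast a2
  have hw : ∑ jA ∈ cells W (th ^ (2 * k)), ((cell W (th ^ (2 * k)) jA).card : ℝ) = W.card := by
    exact_mod_cast (Bar.unif_card_eq W (th ^ (2 * k))).symm
  simp_rw [h3]
  rw [fp2_expand hγ jm0 j0, Bar.sum_cells W (th ^ (2 * k))]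
  refine le_trans (mul_le_mul_of_nonneg_right ?_ (by positivity))
    (fp2_num (k := k) (by exact_mod_cast hp.hG) (by exact_mod_cast hp.hth : (th : ℝ) = _)
      (Nat.cast_nonneg _) (Nat.cast_nonneg _) hn (by exact_mod_cast hW.card))
  calc _ ≤ ∑ jA ∈ cells W (th ^ (2 * k)), ∑ jB ∈ cells W (th ^ (2 * k)),
        (2 * W.card / (th : ℝ) ^ 4 + ((cell W (th ^ (2 * k)) jA).card : ℝ) *
          (cell W (th ^ (2 * k)) jB).card * (1 / (th : ℝ) ^ (k + 2))) := by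
        refine (_root_.norm_sum_le _ _).trans (Finset.sum_le_sum fun jA hA => ?_)
        simp_rw [Bar.sum_cells W (th ^ (2 * k))]
        rw [Finset.sum_comm]
        exact (_root_.norm_sum_le _ _).trans (Finset.sum_le_sum fun jB hB =>
          fp2_pair hp h hW h1 h2 hγ hflat hA hB)
    _ = _ := by
        simp only [Finset.sum_add_distrib, Finset.sum_const, nsmul_eq_mul, ← Finset.sum_mul,
          ← Finset.mul_sum, hw]

end Far

end Pool.Agent.Lib.MP_ecd12e_nt.ZS
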