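import Pool.Agent.Lib.MP_ecd12e_nt.ZS.Gal

/-!
From separated points to local Gaussian means of the tails of the zeta sum.
-/

set_option autoImplicit false

namespace Pool.Agent.Lib.MP_ecd12e_nt.ZS

open Finset Real
open Pool.Agent.Lib.MP_ecd12e_nt.Bar (ei cell cells Unif Big zc enr)

/-- The differences of a sequence that starts at `N`. -/
noncomputable def pts_d (N : ℕ) (β : ℕ → ℂ) (x : ℕ) : ℂ :=
  if x ≤ N then β N else β x - β (x - 1)

lemma pts_d_succ {N n : ℕ} (β : ℕ → ℂ) (h : N ≤ n) : pts_d N β (n + 1) = β (n + 1) - β n := by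
  unfold pts_d
  rw [if_neg (by omega)]
  simp

lemma pts_tel (N : ℕ) (β : ℕ → ℂ) {n : ℕ} (h : N ≤ n) : ∑ x ∈ Icc N n, pts_d N β x = β n := by
  induction n, h using Nat.le_induction with
  | base => simp [pts_d]
  | succ n h ih =>
    rw [Finset.sum_Icc_succ_top (by omega), ih, pts_d_succ β h]
    ring

lemma pts_var (N : ℕ) (β : ℕ → ℂ) {M : ℕ} (h : N ≤ M) :
    ∑ x ∈ Icc N M, ‖pts_d N β x‖ = ‖β N‖ + ∑ n ∈ Ico N M, ‖β (n + 1) - β n‖ := by
  induction M, h using Nat.le_induction with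
  | base => simp [pts_d]
  | succ n h ih =>
    rw [Finset.sum_Icc_succ_top (by omega), ih, pts_d_succ β h, Finset.sum_Ico_succ_top h]
    ring

lemma pts_abel (N M : ℕ) (β e : ℕ → ℂ) :
    ∑ n ∈ Icc N M, β n * e n = ∑ x ∈ Icc N M, pts_d N β x * ∑ n ∈ Icc x M, e n := by
  have h1 : ∑ n ∈ Icc N M, β n * e n = ∑ n ∈ Icc N M, ∑ x ∈ Icc N n, pts_d N β x * e n := by
    refine Finset.sum_congr rfl fun n hn => ?_
    rw [← Finset.sum_mul, pts_tel N β (Finset.mem_Icc.1 hn).1]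
  rw [h1]
  simp only [Finset.mul_sum]
  refine Finset.sum_comm' fun n x => ?_
  simp only [Finset.mem_Icc]
  omega

lemma pts_norm_le (N : ℕ) (β : ℕ → ℂ) {n M : ℕ} (h : N ≤ n) (h' : n ≤ M) :
    ‖β n‖ ≤ ‖β N‖ + ∑ n ∈ Ico N M, ‖β (n + 1) - β n‖ := by
  rw [← pts_var N β (h.trans h'), ← pts_tel N β h]
  refine (norm_sum_le _ _).trans ?_
  exact Finset.sum_le_sum_of_subset_of_nonneg (Finset.Icc_subset_Icc_right h')
    fun _ _ _ => norm_nonneg _

lemma pts_log_tel {N : ℕ} {M : ℕ} (h : N ≤ M) :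
    ∑ n ∈ Ico N M, (Real.log ((n + 1 : ℕ) : ℝ) - Real.log n) = Real.log M - Real.log N := by
  induction M, h using Nat.le_induction with
  | base => simp
  | succ n h ih =>
    rw [Finset.sum_Ico_succ_top h, ih]
    ring

lemma pts_var_log {N : ℕ} (hN : 1 ≤ N) (b : ℕ → ℂ)
    (hb : ‖b N‖ + ∑ n ∈ Ico N (2 * N), ‖b (n + 1) - b n‖ ≤ 2) :
    ∑ x ∈ Icc N (2 * N), ‖pts_d N (fun n => b n * ((Real.log n - Real.log N : ℝ) : ℂ)) x‖ ≤ 3 := by
  rw [pts_var N _ (by omega)]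
  have hN0 : (0 : ℝ) < N := by exact_mod_cast hN
  have hl : Real.log ((2 * N : ℕ) : ℝ) - Real.log N ≤ 3 / 4 := by
    push_cast
    rw [Real.log_mul (by norm_num) hN0.ne']
    have := Real.log_two_lt_d9
    linarith
  have h1 : ∑ n ∈ Ico N (2 * N), ‖b (n + 1) * ((Real.log ((n + 1 : ℕ) : ℝ) - Real.log N : ℝ) : ℂ) -
      b n * ((Real.log n - Real.log N : ℝ) : ℂ)‖ ≤ ∑ n ∈ Ico N (2 * N),
        (‖b (n + 1) - b n‖ * (3 / 4) + 2 * (Real.log ((n + 1 : ℕ) : ℝ) - Real.log n)) := by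
    refine Finset.sum_le_sum fun n hn => ?_
    obtain ⟨h1, h2⟩ := Finset.mem_Ico.1 hn
    have hn0 : (0 : ℝ) < n := by exact_mod_cast (by omega : 0 < n)
    have e1 : b (n + 1) * ((Real.log ((n + 1 : ℕ) : ℝ) - Real.log N : ℝ) : ℂ) -
        b n * ((Real.log n - Real.log N : ℝ) : ℂ) =
        (b (n + 1) - b n) * ((Real.log ((n + 1 : ℕ) : ℝ) - Real.log N : ℝ) : ℂ) +
          b n * ((Real.log ((n + 1 : ℕ) : ℝ) - Real.log n : ℝ) : ℂ) := by
      simp only [Complex.ofReal_sub]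
      ring
    have a1 : Real.log N ≤ Real.log ((n + 1 : ℕ) : ℝ) :=
      Real.log_le_log hN0 (by exact_mod_cast (by omega : N ≤ n + 1))
    have a2 : Real.log ((n + 1 : ℕ) : ℝ) ≤ Real.log ((2 * N : ℕ) : ℝ) :=
      Real.log_le_log (by positivity) (by exact_mod_cast (by omega : n + 1 ≤ 2 * N))
    have a3 : Real.log n ≤ Real.log ((n + 1 : ℕ) : ℝ) :=
      Real.log_le_log hn0 (by exact_mod_cast (by omega : n ≤ n + 1))
    have a4 : ‖b n‖ ≤ 2 := (pts_norm_le N b h1 h2.le).trans hb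
    rw [e1]
    refine (norm_add_le _ _).trans ?_
    rw [norm_mul, norm_mul, Complex.norm_real, Complex.norm_real, Real.norm_eq_abs,
      Real.norm_eq_abs, abs_of_nonneg (by linarith), abs_of_nonneg (by linarith)]
    refine add_le_add (mul_le_mul_of_nonneg_left (by linarith) (norm_nonneg _)) ?_
    exact mul_le_mul_of_nonneg_right a4 (by linarith)
  rw [Finset.sum_add_distrib, ← Finset.sum_mul, ← Finset.mul_sum,
    pts_log_tel (by omega : N ≤ 2 * N)] at h1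
  have h0 : ‖b N * ((Real.log N - Real.log N : ℝ) : ℂ)‖ = 0 := by simp
  have h2 := norm_nonneg (b N)
  linarith

lemma pts_ei_cont (a : ℝ) : Continuous fun t : ℝ => ei (t * a) := by
  unfold ei
  fun_prop

lemma pts_tail_cont (N x : ℕ) : Continuous (tail N x) := by
  unfold tail
  exact continuous_finsetSum _ fun n _ => pts_ei_cont _

lemma pts_tail_le (N x : ℕ) (t : ℝ) : ‖tail N x t‖ ≤ (Icc x (2 * N)).card := by
  unfold tail
  refine (norm_sum_le _ _).trans ?_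
  simp [Bar.norm_ei]

lemma pts_gm_int {G : ℝ} (hG : 0 < G) (N x : ℕ) (c : ℝ) : MeasureTheory.Integrable
    (fun u : ℝ => Real.exp (-(1 / G ^ 2) * u ^ 2) * ‖tail N x (c + u)‖ ^ 2) := by
  have h1 := integrable_exp_neg_mul_sq (b := 1 / G ^ 2) (by positivity)
  have h2 : Continuous fun u : ℝ => ‖tail N x (c + u)‖ ^ 2 :=
    (((pts_tail_cont N x).comp (continuous_const.add continuous_id)).norm).pow 2
  refine h1.mul_bdd (c := ((Icc x (2 * N)).card : ℝ) ^ 2) h2.aestronglyMeasurable ?_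
  refine Filter.Eventually.of_forall fun u => ?_
  rw [Real.norm_eq_abs, abs_of_nonneg (by positivity)]
  exact pow_le_pow_left₀ (norm_nonneg _) (pts_tail_le N x _) 2

lemma pts_exp_four : Real.exp 4 ≤ 55 := by
  have h : Real.exp 4 = Real.exp 1 ^ 4 := by
    rw [← Real.exp_nat_mul]
    norm_num
  have h1 := Real.exp_one_lt_d9
  have h2 : Real.exp 1 ^ 4 ≤ (2.72 : ℝ) ^ 4 :=
    pow_le_pow_left₀ (Real.exp_pos 1).le (by linarith) 4
  rw [h]
  refine h2.trans ?_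
  norm_num

lemma pts_int {G : ℝ} (hG : 1 ≤ G) (N x : ℕ) (c : ℝ) :
    ∫ t in c..(c + (G + 1)), ‖tail N x t‖ ^ 2 ≤ 55 * gm G N x c := by
  have hG0 : 0 < G := by linarith
  have hI := pts_gm_int hG0 N x c
  have e1 : ∫ t in c..(c + (G + 1)), ‖tail N x t‖ ^ 2 =
      ∫ u in (0 : ℝ)..(G + 1), ‖tail N x (c + u)‖ ^ 2 := by
    rw [intervalIntegral.integral_comp_add_left (fun t => ‖tail N x t‖ ^ 2) c, add_zero]
  have h2 : Continuous fun u : ℝ => ‖tail N x (c + u)‖ ^ 2 :=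
    (((pts_tail_cont N x).comp (continuous_const.add continuous_id)).norm).pow 2
  have h3 : ∫ u in (0 : ℝ)..(G + 1), ‖tail N x (c + u)‖ ^ 2 ≤ ∫ u in (0 : ℝ)..(G + 1),
      55 * (Real.exp (-(1 / G ^ 2) * u ^ 2) * ‖tail N x (c + u)‖ ^ 2) := by
    refine intervalIntegral.integral_mono_on (by linarith) (h2.intervalIntegrable _ _)
      ((hI.const_mul 55).intervalIntegrable) fun u hu => ?_
    have a1 : u ^ 2 ≤ 4 * G ^ 2 := by nlinarith [hu.1, hu.2]
    have a2 : -4 ≤ -(1 / G ^ 2) * u ^ 2 := by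
      have : 1 / G ^ 2 * u ^ 2 ≤ 4 := by
        rw [one_div, inv_mul_eq_div, div_le_iff₀ (by positivity)]
        exact a1
      linarith
    have a3 : 1 ≤ 55 * Real.exp (-(1 / G ^ 2) * u ^ 2) := by
      have b1 : Real.exp (-4) ≤ Real.exp (-(1 / G ^ 2) * u ^ 2) := Real.exp_le_exp.2 a2
      have b2 : Real.exp 4 * Real.exp (-4) = 1 := by
        rw [← Real.exp_add]
        simp
      have b3 := pts_exp_four
      have b4 := Real.exp_pos (-4)
      nlinarith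
    have a4 : 0 ≤ ‖tail N x (c + u)‖ ^ 2 := by positivity
    nlinarith
  rw [e1]
  refine h3.trans ?_
  rw [intervalIntegral.integral_const_mul, intervalIntegral.integral_of_le (by linarith)]
  refine mul_le_mul_of_nonneg_left ?_ (by norm_num)
  exact MeasureTheory.setIntegral_le_integral hI
    (Filter.Eventually.of_forall fun u => by positivity)

lemma pts_sq (N : ℕ) (β : ℕ → ℂ) {V : ℝ} (hV : ∑ x ∈ Icc N (2 * N), ‖pts_d N β x‖ ≤ V) (t : ℝ) :
    ‖∑ n ∈ Icc N (2 * N), β n * ei (t * Real.log n)‖ ^ 2 ≤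
      V * ∑ x ∈ Icc N (2 * N), ‖pts_d N β x‖ * ‖tail N x t‖ ^ 2 := by
  rw [pts_abel]
  have h1 : ‖∑ x ∈ Icc N (2 * N), pts_d N β x * ∑ n ∈ Icc x (2 * N), ei (t * Real.log n)‖ ≤
      ∑ x ∈ Icc N (2 * N), ‖pts_d N β x‖ * ‖tail N x t‖ := by
    refine (norm_sum_le _ _).trans (le_of_eq ?_)
    refine Finset.sum_congr rfl fun x _ => ?_
    rw [norm_mul]
    rfl
  have h2 : (∑ x ∈ Icc N (2 * N), ‖pts_d N β x‖ * ‖tail N x t‖) ^ 2 ≤
      (∑ x ∈ Icc N (2 * N), ‖pts_d N β x‖) *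
        ∑ x ∈ Icc N (2 * N), ‖pts_d N β x‖ * ‖tail N x t‖ ^ 2 :=
    Finset.sum_sq_le_sum_mul_sum_of_sq_le_mul _ (fun _ _ => norm_nonneg _)
      (fun _ _ => by positivity) fun _ _ => le_of_eq (by ring)
  refine (pow_le_pow_left₀ (norm_nonneg _) h1 2).trans (h2.trans ?_)
  exact mul_le_mul_of_nonneg_right hV (Finset.sum_nonneg fun _ _ => by positivity)

lemma pts_mean {G : ℝ} (hG : 1 ≤ G) (N : ℕ) (β : ℕ → ℂ) {V : ℝ}
    (hV : ∑ x ∈ Icc N (2 * N), ‖pts_d N β x‖ ≤ V) (c : ℝ) :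
    ∫ t in c..(c + (G + 1)), ‖∑ n ∈ Icc N (2 * N), β n * ei (t * Real.log n)‖ ^ 2 ≤
      V * (55 * ∑ x ∈ Icc N (2 * N), ‖pts_d N β x‖ * gm G N x c) := by
  have hV0 : 0 ≤ V := (Finset.sum_nonneg fun _ _ => norm_nonneg _).trans hV
  have c1 : Continuous fun t : ℝ => ‖∑ n ∈ Icc N (2 * N), β n * ei (t * Real.log n)‖ ^ 2 :=
    ((continuous_finsetSum _ fun n _ => continuous_const.mul (pts_ei_cont _)).norm).pow 2
  have c2 : ∀ x, Continuous fun t : ℝ => ‖pts_d N β x‖ * ‖tail N x t‖ ^ 2 :=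
    fun x => continuous_const.mul ((pts_tail_cont N x).norm.pow 2)
  have c3 : Continuous fun t : ℝ => V * ∑ x ∈ Icc N (2 * N), ‖pts_d N β x‖ * ‖tail N x t‖ ^ 2 :=
    continuous_const.mul (continuous_finsetSum _ fun x _ => c2 x)
  refine (intervalIntegral.integral_mono_on (by linarith) (c1.intervalIntegrable _ _)
    (c3.intervalIntegrable _ _) fun t _ => pts_sq N β hV t).trans ?_
  rw [intervalIntegral.integral_const_mul,
    intervalIntegral.integral_finsetSum fun x _ => (c2 x).intervalIntegrable _ _]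
  refine mul_le_mul_of_nonneg_left ?_ hV0
  rw [Finset.mul_sum]
  refine Finset.sum_le_sum fun x _ => ?_
  rw [intervalIntegral.integral_const_mul, mul_left_comm]
  exact mul_le_mul_of_nonneg_left (pts_int hG N x c) (norm_nonneg _)

lemma pts_ei_deriv (a t : ℝ) :
    HasDerivAt (fun s : ℝ => ei (s * a)) (ei (t * a) * ((a : ℂ) * Complex.I)) t := by
  unfold ei
  have h1 : HasDerivAt (fun s : ℝ => ((s * a : ℝ) : ℂ)) ((1 * a : ℝ) : ℂ) t :=
    ((hasDerivAt_id t).mul_const a).ofReal_comp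
  have h2 := (h1.mul_const Complex.I).cexp
  rw [one_mul] at h2
  exact h2

lemma pts_shift (N : ℕ) (β : ℕ → ℂ) (z : ℂ) (hz : ‖z‖ = 1) (t : ℝ) :
    ‖∑ n ∈ Icc N (2 * N), β n * (ei (t * (Real.log n - Real.log N)) * z)‖ =
      ‖∑ n ∈ Icc N (2 * N), β n * ei (t * Real.log n)‖ := by
  have h : ∑ n ∈ Icc N (2 * N), β n * (ei (t * (Real.log n - Real.log N)) * z) =
      (∑ n ∈ Icc N (2 * N), β n * ei (t * Real.log n)) * (ei (-(t * Real.log N)) * z) := by
    rw [Finset.sum_mul]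
    refine Finset.sum_congr rfl fun n _ => ?_
    rw [mul_sub, sub_eq_add_neg, Bar.ei_add]
    ring
  rw [h, norm_mul, norm_mul, Bar.norm_ei, hz, mul_one, mul_one]

theorem points {G : ℝ} (hG : 1 ≤ G) {N : ℕ} (hN : 1 ≤ N) (b : ℕ → ℂ)
    (hb : ‖b N‖ + ∑ n ∈ Ico N (2 * N), ‖b (n + 1) - b n‖ ≤ 2) :
    ∃ w : ℕ → ℝ, (∀ x, 0 ≤ w x) ∧ ∑ x ∈ Icc N (2 * N), w x ≤ 1 ∧
      ∀ (c : ℝ) (P : Finset ℝ), Bar.Sep 1 P → (∀ t ∈ P, c ≤ t ∧ t ≤ c + G) →
        ∑ t ∈ P, ‖∑ n ∈ Icc N (2 * N), b n * ei (t * Real.log n)‖ ^ 2 ≤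
          1000 * ∑ x ∈ Icc N (2 * N), w x * gm G N x c := by
  obtain ⟨β, hβ⟩ : ∃ β : ℕ → ℂ, β = fun n => b n * ((Real.log n - Real.log N : ℝ) : ℂ) := ⟨_, rfl⟩
  have v1 : ∑ x ∈ Icc N (2 * N), ‖pts_d N b x‖ ≤ 2 := by
    rw [pts_var N b (by omega)]
    exact hb
  have v2 : ∑ x ∈ Icc N (2 * N), ‖pts_d N β x‖ ≤ 3 := by
    rw [hβ]
    exact pts_var_log hN b hb
  refine ⟨fun x => (4 * ‖pts_d N b x‖ + 3 * ‖pts_d N β x‖) / 17, fun x => by positivity, ?_, ?_⟩
  · rw [← Finset.sum_div, Finset.sum_add_distrib, ← Finset.mul_sum, ← Finset.mul_sum]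
    linarith
  intro c P hP hc
  have hder : ∀ t : ℝ, HasDerivAt
      (fun s : ℝ => ∑ n ∈ Icc N (2 * N), b n * (ei (s * (Real.log n - Real.log N)) * 1))
      (∑ n ∈ Icc N (2 * N), β n * (ei (t * (Real.log n - Real.log N)) * Complex.I)) t := by
    intro t
    refine HasDerivAt.fun_sum fun n _ => ?_
    have h := ((pts_ei_deriv (Real.log n - Real.log N) t).mul_const 1).const_mul (b n)
    have e : β n * (ei (t * (Real.log n - Real.log N)) * Complex.I) =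
        b n * (ei (t * (Real.log n - Real.log N)) *
          (((Real.log n - Real.log N : ℝ) : ℂ) * Complex.I) * 1) := by
      rw [hβ]
      ring
    rw [e]
    exact h
  have hcont : Continuous fun t : ℝ =>
      ∑ n ∈ Icc N (2 * N), β n * (ei (t * (Real.log n - Real.log N)) * Complex.I) :=
    continuous_finsetSum _ fun n _ => continuous_const.mul ((pts_ei_cont _).mul continuous_const)
  have hg := gallagher (w := fun _ => 1) (a := c) (b := c + (G + 1)) (η := 1) (K := 1)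
    (by linarith) one_pos one_pos (fun t _ => hder t) hcont.continuousOn continuousOn_const
    (fun _ _ => zero_le_one) P hP
    (fun t ht => ⟨(hc t ht).1, by linarith [(hc t ht).2], fun _ _ => le_rfl⟩)
  simp only [pts_shift N b 1 norm_one, pts_shift N β Complex.I Complex.norm_I, one_mul] at hg
  have m1 := pts_mean hG N b v1 c
  have m2 := pts_mean hG N β v2 c
  have hgm : ∀ x, 0 ≤ gm G N x c := fun x =>
    MeasureTheory.integral_nonneg fun u => by positivity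
  have s1 : 0 ≤ ∑ x ∈ Icc N (2 * N), ‖pts_d N b x‖ * gm G N x c :=
    Finset.sum_nonneg fun x _ => mul_nonneg (norm_nonneg _) (hgm x)
  have s2 : 0 ≤ ∑ x ∈ Icc N (2 * N), ‖pts_d N β x‖ * gm G N x c :=
    Finset.sum_nonneg fun x _ => mul_nonneg (norm_nonneg _) (hgm x)
  have e : ∑ x ∈ Icc N (2 * N), (4 * ‖pts_d N b x‖ + 3 * ‖pts_d N β x‖) / 17 * gm G N x c =
      4 / 17 * ∑ x ∈ Icc N (2 * N), ‖pts_d N b x‖ * gm G N x c +
        3 / 17 * ∑ x ∈ Icc N (2 * N), ‖pts_d N β x‖ * gm G N x c := by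
    rw [Finset.mul_sum, Finset.mul_sum, ← Finset.sum_add_distrib]
    refine Finset.sum_congr rfl fun x _ => ?_
    ring
  rw [e]
  norm_num at hg
  linarith

end Pool.Agent.Lib.MP_ecd12e_nt.ZS
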