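import Pool.Agent.Lib.MP_ecd12e_nt.ZS.Mean
import Pool.Agent.Lib.MP_ecd12e_nt.ZS.Pts

set_option autoImplicit false

namespace Pool.Agent.Lib.MP_ecd12e_nt.ZS

open Finset Real
open Pool.Agent.Lib.MP_ecd12e_nt.Bar (ei cell cells Unif Big zc enr)

theorem FinalA_num {r V R g n A E : ℝ} (hr : 1 ≤ r) (hR : 0 < R) (hE : 0 ≤ E)
    (hV : 8000 * g * n ≤ V ^ 2)
    (h : r * V ^ 2 * R ≤ 1000 * (4 * g * n * R + 10 ^ 8 * A * Real.sqrt (E * R))) :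
    r ^ 2 * V ^ 4 * R ≤ 4 * 10 ^ 22 * A ^ 2 * E := by
  have h1 : V ^ 2 * R ≤ r * V ^ 2 * R := by
    have : 0 ≤ (r - 1) * (V ^ 2 * R) := mul_nonneg (by linarith) (by positivity)
    linarith
  have h2 : 8000 * g * n * R ≤ V ^ 2 * R := mul_le_mul_of_nonneg_right hV hR.le
  have h3 : r * V ^ 2 * R ≤ 2 * 10 ^ 11 * A * Real.sqrt (E * R) := by linarith
  have h4 : (r * V ^ 2 * R) ^ 2 ≤ (2 * 10 ^ 11 * A * Real.sqrt (E * R)) ^ 2 :=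
    pow_le_pow_left₀ (by positivity) h3 2
  rw [mul_pow (2 * 10 ^ 11 * A), Real.sq_sqrt (by positivity)] at h4
  refine le_of_mul_le_mul_right ?_ hR
  calc r ^ 2 * V ^ 4 * R * R = (r * V ^ 2 * R) ^ 2 := by ring
    _ ≤ (2 * 10 ^ 11 * A) ^ 2 * (E * R) := h4
    _ = 4 * 10 ^ 22 * A ^ 2 * E * R := by ring

theorem lv_windows {G th k X N r : ℕ} {V : ℝ} (hp : Par G th k X) (hN : 1 ≤ N)
    (hNS : (N : ℝ) ^ 2 ≤ 4 * (G : ℝ) ^ 7 * (th : ℝ) ^ (2 * k)) (b : ℕ → ℂ)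
    (hb : ‖b N‖ + ∑ n ∈ Ico N (2 * N), ‖b (n + 1) - b n‖ ≤ 2) (hV0 : 0 ≤ V)
    (hV : 8000 * G * N ≤ V ^ 2) (hr : 1 ≤ r) (W : Finset ℕ)
    (hlo : ∀ a ∈ W, G ^ 6 * th ^ (2 * k) ≤ a) (hhi : ∀ a ∈ W, a < 4 * (G ^ 6 * th ^ (2 * k)))
    (hW : W.card ≤ th ^ (k + 1)) (P : ℕ → Finset ℝ)
    (hP : ∀ a ∈ W, Bar.Sep 1 (P a) ∧ r ≤ (P a).card ∧ ∀ t ∈ P a, (G : ℝ) * a ≤ t ∧
      t ≤ (G : ℝ) * a + G ∧ V ≤ ‖∑ n ∈ Icc N (2 * N), b n * ei (t * Real.log n)‖) :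
    (r : ℝ) ^ 2 * V ^ 4 * W.card ≤ 10 ^ 24 * ((Nat.log 2 (th ^ (k + 1)) : ℝ) + 1) ^ (2 * k + 1) *
      (1 + Real.log N) ^ 6 * (N : ℝ) ^ 2 * (G : ℝ) ^ 6 * (th : ℝ) ^ (2 * k) := by
  obtain ⟨W', hsub, al, hu, hc⟩ := Bar.exists_unif th (2 * k) W
  have hG : (1 : ℝ) ≤ G := by exact_mod_cast le_trans (by norm_num) hp.hG
  have hl : 0 ≤ Real.log N := Real.log_natCast_nonneg N
  rcases W'.eq_empty_or_nonempty with rfl | hne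
  · have h0 : W.card = 0 := by simpa using hc
    rw [h0, Nat.cast_zero, mul_zero]
    positivity
  have hR : (0 : ℝ) < W'.card := by exact_mod_cast hne.card_pos
  have hWin : Win G th k al W' := ⟨hu, fun a ha => hlo a (hsub ha), fun a ha => hhi a (hsub ha),
    (card_le_card hsub).trans hW⟩
  obtain ⟨w, hw0, hw1, hw⟩ := points hG hN b hb
  set Bd : ℝ := 4 * G * N * W'.card + 10 ^ 8 * G * (1 + Real.log N) ^ 3 * N *
    Real.sqrt (4 * (G : ℝ) ^ 4 * (th : ℝ) ^ (2 * k) * W'.card) with hBd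
  have hB0 : 0 ≤ Bd := by positivity
  have h1 : ∀ a ∈ W', (r : ℝ) * V ^ 2 ≤ 1000 * ∑ x ∈ Icc N (2 * N), w x * gm G N x (G * a) := by
    intro a ha
    obtain ⟨s1, s2, s3⟩ := hP a (hsub ha)
    refine le_trans ?_ (hw (G * a) (P a) s1 fun t ht => ⟨(s3 t ht).1, (s3 t ht).2.1⟩)
    have s4 : (r : ℝ) ≤ (P a).card := by exact_mod_cast s2
    calc (r : ℝ) * V ^ 2 ≤ (P a).card * V ^ 2 := mul_le_mul_of_nonneg_right s4 (by positivity)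
      _ = ∑ _t ∈ P a, V ^ 2 := by rw [sum_const, nsmul_eq_mul]
      _ ≤ _ := sum_le_sum fun t ht => pow_le_pow_left₀ hV0 (s3 t ht).2.2 2
  have h2 : (r : ℝ) * V ^ 2 * W'.card ≤ 1000 * Bd := by
    calc (r : ℝ) * V ^ 2 * W'.card = ∑ _a ∈ W', (r : ℝ) * V ^ 2 := by
          rw [sum_const, nsmul_eq_mul, mul_comm]
      _ ≤ ∑ a ∈ W', 1000 * ∑ x ∈ Icc N (2 * N), w x * gm G N x (G * a) := sum_le_sum h1
      _ = 1000 * ∑ x ∈ Icc N (2 * N), w x * ∑ a ∈ W', gm G N x (G * a) := by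
          rw [← mul_sum, sum_comm]
          simp only [mul_sum]
      _ ≤ 1000 * ∑ x ∈ Icc N (2 * N), w x * Bd := by
          refine mul_le_mul_of_nonneg_left (sum_le_sum fun x hx => ?_) (by norm_num)
          exact mul_le_mul_of_nonneg_left (mean_bound hp hWin hN (mem_Icc.1 hx).1 hNS) (hw0 x)
      _ ≤ 1000 * Bd := by
          rw [← sum_mul]
          exact mul_le_mul_of_nonneg_left (mul_le_of_le_one_left hB0 hw1) (by norm_num)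
  have h3 := FinalA_num (A := G * (1 + Real.log N) ^ 3 * N)
    (E := 4 * (G : ℝ) ^ 4 * (th : ℝ) ^ (2 * k)) (by exact_mod_cast hr) hR (by positivity) hV
    (h2.trans (le_of_eq (by rw [hBd]; ring)))
  have h4 : (W.card : ℝ) ≤ ((Nat.log 2 (th ^ (k + 1)) : ℝ) + 1) ^ (2 * k + 1) * W'.card := by
    have := hc.trans (Nat.mul_le_mul_right _ (Nat.pow_le_pow_left
      (Nat.succ_le_succ (Nat.log_mono_right (b := 2) hW)) (2 * k + 1)))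
    exact_mod_cast this
  set l : ℝ := ((Nat.log 2 (th ^ (k + 1)) : ℝ) + 1) ^ (2 * k + 1)
  have hl0 : 0 ≤ l := by positivity
  have h5 : 0 ≤ l * ((1 + Real.log N) ^ 6 * (N : ℝ) ^ 2 * (G : ℝ) ^ 6 * (th : ℝ) ^ (2 * k)) := by
    positivity
  calc (r : ℝ) ^ 2 * V ^ 4 * W.card ≤ (r : ℝ) ^ 2 * V ^ 4 * (l * W'.card) :=
        mul_le_mul_of_nonneg_left h4 (by positivity)
    _ = l * ((r : ℝ) ^ 2 * V ^ 4 * W'.card) := by ring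
    _ ≤ l * (4 * 10 ^ 22 * (G * (1 + Real.log N) ^ 3 * N) ^ 2 *
        (4 * (G : ℝ) ^ 4 * (th : ℝ) ^ (2 * k))) := mul_le_mul_of_nonneg_left h3 hl0
    _ = 16 * 10 ^ 22 *
        (l * ((1 + Real.log N) ^ 6 * (N : ℝ) ^ 2 * (G : ℝ) ^ 6 * (th : ℝ) ^ (2 * k))) := by ring
    _ ≤ 10 ^ 24 *
        (l * ((1 + Real.log N) ^ 6 * (N : ℝ) ^ 2 * (G : ℝ) ^ 6 * (th : ℝ) ^ (2 * k))) :=
        mul_le_mul_of_nonneg_right (by norm_num) h5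
    _ = _ := by ring

end Pool.Agent.Lib.MP_ecd12e_nt.ZS
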