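import Pool.Agent.Lib.MP_ecd12e_nt.ZS.Root

/-! Sums over separated points and the periodised dual sum. -/

set_option autoImplicit false

namespace Pool.Agent.Lib.MP_ecd12e_nt.ZS

open Finset Real
open Pool.Agent.Lib.MP_ecd12e_nt.Bar (ei cell cells Unif Big zc enr)

theorem gal_sum {g : ℝ → ℝ} {a b η : ℝ} (hab : a ≤ b) (hη : 0 < η)
    (hg : ContinuousOn g (Set.Icc a b)) (h0 : ∀ x ∈ Set.Icc a b, 0 ≤ g x) (Θ : Finset ℝ)
    (hsep : Bar.Sep η Θ) (hΘ : ∀ θ ∈ Θ, a ≤ θ ∧ θ + η ≤ b) :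
    ∑ θ ∈ Θ, ∫ x in θ..θ + η, g x ≤ ∫ x in a..b, g x := by
  have hi : MeasureTheory.IntegrableOn g (Set.Ioc a b) :=
    hg.integrableOn_Icc.mono_set Set.Ioc_subset_Icc_self
  have hs : ∀ θ ∈ Θ, Set.Ioc θ (θ + η) ⊆ Set.Ioc a b := fun θ h =>
    Set.Ioc_subset_Ioc (hΘ θ h).1 (hΘ θ h).2
  rw [sum_congr rfl fun θ _ => intervalIntegral.integral_of_le (le_add_of_nonneg_right hη.le),
    intervalIntegral.integral_of_le hab, ← MeasureTheory.integral_biUnion_finset Θ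
      (fun _ _ => measurableSet_Ioc) (fun x hx y hy hxy => Set.disjoint_left.2 fun z h1 h2 => by
        have h3 := hsep x hx y hy hxy
        rw [le_abs] at h3
        rcases h3 with h3 | h3 <;> linarith [h1.1, h1.2, h2.1, h2.2])
      fun θ h => hi.mono_set (hs θ h)]
  exact MeasureTheory.setIntegral_mono_set hi ((MeasureTheory.ae_restrict_iff'
    measurableSet_Ioc).2 (.of_forall fun x hx => h0 x (Set.Ioc_subset_Icc_self hx)))
    (Set.iUnion₂_subset hs).eventuallyLE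

theorem gallagher {f f' : ℝ → ℂ} {w : ℝ → ℝ} {a b η K : ℝ} (hab : a ≤ b) (hη : 0 < η)
    (hK : 0 < K) (hf : ∀ x ∈ Set.Icc a b, HasDerivAt f (f' x) x)
    (hf' : ContinuousOn f' (Set.Icc a b)) (hw : ContinuousOn w (Set.Icc a b))
    (hw0 : ∀ x ∈ Set.Icc a b, 0 ≤ w x) (Θ : Finset ℝ) (hsep : Bar.Sep η Θ)
    (hΘ : ∀ θ ∈ Θ, a ≤ θ ∧ θ + η ≤ b ∧ ∀ x ∈ Set.Icc θ (θ + η), 1 ≤ w x) :
    ∑ θ ∈ Θ, ‖f θ‖ ^ 2 ≤ (1 / η + K) * (∫ x in a..b, w x * ‖f x‖ ^ 2) +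
      1 / K * ∫ x in a..b, w x * ‖f' x‖ ^ 2 := by
  have hc : ContinuousOn f (Set.Icc a b) := fun x hx => (hf x hx).continuousAt.continuousWithinAt
  have c1 : ContinuousOn (fun x => (1 / η + K) * (w x * ‖f x‖ ^ 2)) (Set.Icc a b) :=
    continuousOn_const.mul (hw.mul (hc.norm.pow 2))
  have c2 : ContinuousOn (fun x => 1 / K * (w x * ‖f' x‖ ^ 2)) (Set.Icc a b) :=
    continuousOn_const.mul (hw.mul (hf'.norm.pow 2))
  rw [← intervalIntegral.integral_const_mul, ← intervalIntegral.integral_const_mul,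
    ← intervalIntegral.integral_add (c1.intervalIntegrable_of_Icc hab)
      (c2.intervalIntegrable_of_Icc hab)]
  refine le_trans (sum_le_sum fun θ hθ => ?_) (gal_sum hab hη (c1.add c2) (fun x hx => by
    have := hw0 x hx
    exact add_nonneg (by positivity) (by positivity)) Θ hsep fun θ hθ => ⟨(hΘ θ hθ).1, (hΘ θ hθ).2.1⟩)
  obtain ⟨h1, h2, h3⟩ := hΘ θ hθ
  have hs : Set.Icc θ (θ + η) ⊆ Set.Icc a b := Set.Icc_subset_Icc h1 h2
  have hd : ∀ x ∈ Set.Icc θ (θ + η), HasDerivAt (fun x => (x - (θ + η)) / η * ‖f x‖ ^ 2)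
      (1 / η * ‖f x‖ ^ 2 + (x - (θ + η)) / η * (2 * inner ℝ (f x) (f' x))) x := fun x hx =>
    (((hasDerivAt_id' x).sub_const _).div_const η).mul (hf x (hs hx)).norm_sq
  refine le_trans (le_of_eq ?_) (intervalIntegral.sub_le_integral_of_hasDeriv_right_of_le
    (le_add_of_nonneg_right hη.le) (fun x hx => (hd x hx).continuousAt.continuousWithinAt)
    (fun x hx => (hd x (Set.Ioo_subset_Icc_self hx)).hasDerivWithinAt)
    ((c1.add c2).mono hs).integrableOn_Icc fun x hx => ?_)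
  · field_simp
    ring
  have h4 := h3 x (Set.Ioo_subset_Icc_self hx)
  have h5 : |(x - (θ + η)) / η| ≤ 1 := by
    rw [abs_div, abs_of_pos hη, div_le_one hη, abs_le]
    constructor <;> linarith [hx.1, hx.2]
  have h6 : (x - (θ + η)) / η * (2 * inner ℝ (f x) (f' x)) ≤ 1 * (2 * (‖f x‖ * ‖f' x‖)) := by
    refine (le_abs_self _).trans ?_
    rw [abs_mul, abs_mul, abs_two]
    exact mul_le_mul h5 (mul_le_mul_of_nonneg_left (abs_real_inner_le_norm _ _) zero_le_two)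
      (by positivity) zero_le_one
  have h7 : 2 * (‖f x‖ * ‖f' x‖) ≤ K * ‖f x‖ ^ 2 + 1 / K * ‖f' x‖ ^ 2 := by
    have h8 : K * ‖f x‖ ^ 2 + 1 / K * ‖f' x‖ ^ 2 - 2 * (‖f x‖ * ‖f' x‖) =
        (K * ‖f x‖ - ‖f' x‖) ^ 2 / K := by
      field_simp
      ring
    exact sub_nonneg.1 (h8 ▸ by positivity)
  have h8 := mul_le_mul_of_nonneg_left (le_mul_of_one_le_left (sq_nonneg ‖f x‖) h4)
    (show 0 ≤ 1 / η + K by positivity)
  have h9 := mul_le_mul_of_nonneg_left (le_mul_of_one_le_left (sq_nonneg ‖f' x‖) h4)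
    (show 0 ≤ 1 / K by positivity)
  change _ ≤ (1 / η + K) * (w x * ‖f x‖ ^ 2) + 1 / K * (w x * ‖f' x‖ ^ 2)
  linarith

theorem sep_card {δ a b : ℝ} (hδ : 0 < δ) (hab : a ≤ b) (Θ : Finset ℝ) (hsep : Bar.Sep δ Θ)
    (hΘ : ∀ θ ∈ Θ, a ≤ θ ∧ θ ≤ b) : (Θ.card : ℝ) ≤ (b - a) / δ + 1 := by
  have h := gal_sum (g := fun _ => 1) (hab.trans (le_add_of_nonneg_right hδ.le)) hδ
    continuousOn_const (fun _ _ => zero_le_one) Θ hsep fun θ h =>
      ⟨(hΘ θ h).1, add_le_add_left (hΘ θ h).2 δ⟩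
  simp only [intervalIntegral.integral_const, add_sub_cancel_left, smul_eq_mul, mul_one, sum_const,
    nsmul_eq_mul] at h
  rw [div_add_one hδ.ne', le_div_iff₀ hδ]
  linarith

theorem gal_dual (G : ℝ) (W : Finset ℕ) (c : ℕ → ℂ) {y : ℝ} (hy : 0 < y) :
    HasDerivAt (dual G W c) (∑ a ∈ W, c a * (ei (G * a * lg y) *
      (((G * a * -(y * (y + 1))⁻¹ : ℝ) : ℂ) * Complex.I))) y :=
  HasDerivAt.fun_sum fun a _ => ((((hasDerivAt_lg hy).const_mul (G * a)).ofReal_comp.mul_const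
    Complex.I).cexp).const_mul (c a)

theorem gal_pos {Y j : ℕ} (hY : 1 ≤ Y) (hj : j ∈ Ico Y (2 * Y)) {θ : ℝ} (hθ : 0 ≤ θ) :
    0 < (j : ℝ) + θ :=
  add_pos_of_pos_of_nonneg (Nat.cast_pos.2 (hY.trans (mem_Ico.1 hj).1)) hθ

theorem per_cont (G : ℝ) (W : Finset ℕ) (c ζ : ℕ → ℂ) (e : ℕ) {Y : ℕ} (hY : 1 ≤ Y) :
    ContinuousOn (per G W c ζ e Y) (Set.Ici 0) := by
  refine continuousOn_finsetSum _ fun j hj θ hθ => ContinuousAt.continuousWithinAt ?_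
  have h0 := gal_pos hY hj hθ
  have h1 : ContinuousAt (fun θ : ℝ => kap e Y (j + θ)) θ := by
    unfold kap
    exact (continuousAt_const.div (by fun_prop) (by positivity)).pow e
  exact (continuousAt_const.mul (Complex.continuous_ofReal.continuousAt.comp h1)).mul
    ((gal_dual G W c h0).continuousAt.comp (f := fun θ : ℝ => (j : ℝ) + θ) (by fun_prop))

theorem per_deriv (G : ℝ) (W : Finset ℕ) (ζ : ℕ → ℂ) {Y : ℕ} (hY : 1 ≤ Y) {S θ : ℝ} (hS : 0 < S)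
    (hθ : 0 ≤ θ) : HasDerivAt (per G W (fun _ => 1) ζ 0 Y)
      (((S / (Y : ℝ) ^ 2 : ℝ) : ℂ) *
        per G W (fun a => -Complex.I * ((G * a / S : ℝ) : ℂ)) ζ 1 Y θ) θ := by
  have h1 : per G W (fun _ => 1) ζ 0 Y =
      fun θ => ∑ j ∈ Ico Y (2 * Y), ζ j * dual G W (fun _ => 1) (j + θ) := by
    funext θ
    simp only [per, kap, pow_zero, Complex.ofReal_one, mul_one]
  rw [h1]
  refine (HasDerivAt.fun_sum fun j hj => ((gal_dual G W (fun _ => 1)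
    (gal_pos hY hj hθ)).comp_const_add (j : ℝ) θ).const_mul (ζ j)).congr_deriv ?_
  rw [per, mul_sum]
  refine sum_congr rfl fun j hj => ?_
  rw [dual, mul_sum, mul_sum, mul_sum]
  refine sum_congr rfl fun a _ => ?_
  have h2 : G * a * -((j + θ) * (j + θ + 1))⁻¹ =
      -(S / (Y : ℝ) ^ 2 * kap 1 Y (j + θ) * (G * a / S)) := by
    have h3 := gal_pos hY hj hθ
    have h4 : (0 : ℝ) < Y := Nat.cast_pos.2 hY
    rw [kap]
    field_simp
  rw [h2, Complex.ofReal_neg, Complex.ofReal_mul, Complex.ofReal_mul]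
  ring

end Pool.Agent.Lib.MP_ecd12e_nt.ZS
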