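import Pool.Agent.Lib.MP_ecd12e_nt.ZS.FinalA
import Pool.Agent.Lib.MP_ecd12e_nt.ZS.Gal

set_option autoImplicit false

namespace Pool.Agent.Lib.MP_ecd12e_nt.ZS

open Finset Real
open Pool.Agent.Lib.MP_ecd12e_nt.Bar (ei cell cells Unif Big zc enr)

theorem FinalB_count {A : Finset ℕ} (f : ℕ → ℕ) {M : ℕ} {v B : ℝ} (hv : 0 ≤ v)
    (hM : ∀ a ∈ A, f a ≤ M)
    (h : ∀ i, ((2 ^ i : ℕ) : ℝ) ^ 2 * v * (A.filter fun a => Nat.log 2 (f a) = i).card ≤ B) :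
    ((∑ a ∈ A, f a : ℕ) : ℝ) * v ≤ 2 * ((Nat.log 2 M : ℝ) + 1) * B := by
  have h1 : ∑ a ∈ A, f a =
      ∑ i ∈ range (Nat.log 2 M + 1), ∑ a ∈ A.filter (fun a => Nat.log 2 (f a) = i), f a :=
    (sum_fiberwise_of_maps_to (fun a ha =>
      mem_range.2 (Nat.lt_succ_of_le (Nat.log_mono_right (hM a ha)))) _).symm
  have h2 : ∀ i, ∑ a ∈ A.filter (fun a => Nat.log 2 (f a) = i), f a ≤
      2 * ((2 ^ i) ^ 2 * (A.filter fun a => Nat.log 2 (f a) = i).card) := fun i => by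
    have e1 := sum_le_card_nsmul (A.filter fun a => Nat.log 2 (f a) = i) f (2 * (2 ^ i) ^ 2)
      fun a ha => by
        have e2 := Nat.lt_pow_succ_log_self one_lt_two (f a)
        rw [(mem_filter.1 ha).2, pow_succ] at e2
        have e3 : 2 ^ i ≤ (2 ^ i) ^ 2 := Nat.le_self_pow two_ne_zero _
        omega
    rw [smul_eq_mul] at e1
    exact e1.trans (le_of_eq (by ring))
  have h3 : ∀ i ∈ range (Nat.log 2 M + 1),
      ((∑ a ∈ A.filter (fun a => Nat.log 2 (f a) = i), f a : ℕ) : ℝ) * v ≤ 2 * B := fun i _ => by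
    have e1 : ((∑ a ∈ A.filter (fun a => Nat.log 2 (f a) = i), f a : ℕ) : ℝ) ≤
        2 * (((2 ^ i : ℕ) : ℝ) ^ 2 * (A.filter fun a => Nat.log 2 (f a) = i).card) := by
      exact_mod_cast h2 i
    refine (mul_le_mul_of_nonneg_right e1 hv).trans ?_
    linarith [h i]
  rw [h1, Nat.cast_sum, sum_mul]
  refine (sum_le_card_nsmul _ _ _ h3).trans (le_of_eq ?_)
  rw [card_range, nsmul_eq_mul]
  push_cast
  ring

theorem lv_grid {G th k X N : ℕ} {T V Λ : ℝ} (hp : Par G th k X) (hN : 1 ≤ N)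
    (hT : (G : ℝ) ^ 7 * (th : ℝ) ^ (2 * k) ≤ T) (hT' : T < 2 * ((G : ℝ) ^ 7 * (th : ℝ) ^ (2 * k)))
    (hNT : (N : ℝ) ^ 2 ≤ T) (b : ℕ → ℂ)
    (hb : ‖b N‖ + ∑ n ∈ Ico N (2 * N), ‖b (n + 1) - b n‖ ≤ 2) (hV0 : 0 ≤ V)
    (hV : 8000 * G * N ≤ V ^ 2)
    (hΛ : 10 ^ 24 * ((Nat.log 2 (th ^ (k + 1)) : ℝ) + 1) ^ (2 * k + 1) * (1 + Real.log N) ^ 6 ≤ Λ)
    (hV2 : Λ * (N : ℝ) ^ 2 * (G : ℝ) ^ 6 * (th : ℝ) ^ (2 * k) < V ^ 4 * (th : ℝ) ^ (k + 1))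
    (W : Finset ℝ) (hsep : Bar.Sep 1 W) (hW : ∀ t ∈ W, T ≤ t ∧ t ≤ 2 * T ∧
      V ≤ ‖∑ n ∈ Icc N (2 * N), b n * ei (t * Real.log n)‖) :
    (W.card : ℝ) * V ^ 4 ≤ 2 * ((Nat.log 2 (G + 1) : ℝ) + 1) * Λ *
      ((N : ℝ) ^ 2 * (G : ℝ) ^ 6 * (th : ℝ) ^ (2 * k)) := by
  classical
  have hG : (0 : ℝ) < G := by exact_mod_cast lt_of_lt_of_le (by norm_num) hp.hG
  have hS : 0 ≤ (G : ℝ) ^ 7 * (th : ℝ) ^ (2 * k) := by positivity
  have hNS : (N : ℝ) ^ 2 ≤ 4 * (G : ℝ) ^ 7 * (th : ℝ) ^ (2 * k) := by linarith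
  set φ : ℝ → ℕ := fun t => ⌊t / G⌋₊ with hφ
  set P : ℕ → Finset ℝ := fun a => W.filter fun t => φ t = a with hPd
  have ht0 : ∀ t ∈ W, 0 ≤ t / G := fun t ht => div_nonneg (by linarith [(hW t ht).1]) hG.le
  have hlo : ∀ a ∈ W.image φ, G ^ 6 * th ^ (2 * k) ≤ a := fun a ha => by
    obtain ⟨t, ht, rfl⟩ := mem_image.1 ha
    refine Nat.le_floor ?_
    rw [le_div_iff₀ hG]
    push_cast
    linarith [(hW t ht).1]
  have hhi : ∀ a ∈ W.image φ, a < 4 * (G ^ 6 * th ^ (2 * k)) := fun a ha => by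
    obtain ⟨t, ht, rfl⟩ := mem_image.1 ha
    refine (Nat.floor_lt (ht0 t ht)).2 ?_
    rw [div_lt_iff₀ hG]
    push_cast
    linarith [(hW t ht).2.1]
  have hsp : ∀ a, Bar.Sep 1 (P a) := fun a x hx y hy =>
    hsep x (mem_filter.1 hx).1 y (mem_filter.1 hy).1
  have hin : ∀ a, ∀ t ∈ P a, (G : ℝ) * a ≤ t ∧ t ≤ (G : ℝ) * a + G := fun a t ht => by
    obtain ⟨h1, rfl⟩ := mem_filter.1 ht
    have e1 := Nat.floor_le (ht0 t h1)
    have e2 := Nat.lt_floor_add_one (t / G)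
    rw [le_div_iff₀ hG] at e1
    rw [div_lt_iff₀ hG] at e2
    constructor <;> simp only [hφ] <;> linarith
  have hM : ∀ a ∈ W.image φ, (P a).card ≤ G + 1 := fun a _ => by
    have e1 := sep_card one_pos (by linarith) (P a) (hsp a) (hin a)
    rw [div_one, add_sub_cancel_left] at e1
    exact_mod_cast e1
  have hq : 0 ≤ (N : ℝ) ^ 2 * (G : ℝ) ^ 6 * (th : ℝ) ^ (2 * k) := by positivity
  have key : ∀ i, ∀ C ⊆ (W.image φ).filter (fun a => Nat.log 2 (P a).card = i),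
      C.card ≤ th ^ (k + 1) → ((2 ^ i : ℕ) : ℝ) ^ 2 * V ^ 4 * C.card ≤
        Λ * ((N : ℝ) ^ 2 * (G : ℝ) ^ 6 * (th : ℝ) ^ (2 * k)) := fun i C hC hc => by
    have e1 := lv_windows hp hN hNS b hb hV0 hV (Nat.one_le_two_pow (n := i)) C
      (fun a ha => hlo a (mem_filter.1 (hC ha)).1) (fun a ha => hhi a (mem_filter.1 (hC ha)).1)
      hc P fun a ha => by
        obtain ⟨m1, m2⟩ := mem_filter.1 (hC ha)
        obtain ⟨t, ht, e⟩ := mem_image.1 m1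
        have m3 : (P a).card ≠ 0 := (card_pos.2 ⟨t, mem_filter.2 ⟨ht, e⟩⟩).ne'
        refine ⟨hsp a, m2 ▸ Nat.pow_log_le_self 2 m3, fun s hs => ?_⟩
        exact ⟨(hin a s hs).1, (hin a s hs).2, (hW s (mem_filter.1 hs).1).2.2⟩
    refine e1.trans (le_trans (le_of_eq ?_) (mul_le_mul_of_nonneg_right hΛ hq))
    ring
  have h1 := FinalB_count (A := W.image φ) (fun a => (P a).card) (v := V ^ 4)
    (B := Λ * ((N : ℝ) ^ 2 * (G : ℝ) ^ 6 * (th : ℝ) ^ (2 * k))) (by positivity) hM fun i => by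
      by_cases hc : ((W.image φ).filter fun a => Nat.log 2 (P a).card = i).card ≤ th ^ (k + 1)
      · exact key i _ Subset.rfl hc
      · obtain ⟨C, hC, e⟩ := exists_subset_card_eq (not_le.1 hc).le
        have e1 := key i C hC e.le
        rw [e] at e1
        have e2 : (1 : ℝ) ≤ ((2 ^ i : ℕ) : ℝ) ^ 2 :=
          one_le_pow₀ (by exact_mod_cast Nat.one_le_two_pow)
        have e3 : 0 ≤ (((2 ^ i : ℕ) : ℝ) ^ 2 - 1) * (V ^ 4 * (th : ℝ) ^ (k + 1)) :=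
          mul_nonneg (by linarith) (by positivity)
        rw [Nat.cast_pow th] at e1
        exfalso
        linarith
  rw [← card_eq_sum_card_image φ W] at h1
  refine h1.trans (le_of_eq ?_)
  ring

end Pool.Agent.Lib.MP_ecd12e_nt.ZS
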