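import Pool.Agent.Lib.MP_ecd12e_nt.ZS.FinalB
import Pool.Agent.Lib.MP_ecd12e_nt.ZS.ABridge
import Pool.Agent.Lib.MP_ecd12e_nt.Bar.Final

set_option autoImplicit false

namespace Pool.Agent.Lib.MP_ecd12e_nt.ZS

open Finset Real
open Pool.Agent.Lib.MP_ecd12e_nt.Bar (ei cell cells Unif Big zc enr)

theorem finalC_b {N : ℕ} {b : ℕ → ℂ} {A : ℝ}
    (hb : ‖b N‖ + ∑ n ∈ Ico N (2 * N), ‖b (n + 1) - b n‖ ≤ A) {n : ℕ} (h1 : N ≤ n)
    (h2 : n ≤ 2 * N) : ‖b n‖ ≤ A := by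
  have e : b n = b N + ∑ i ∈ Ico N n, (b (i + 1) - b i) := by
    rw [Finset.sum_Ico_sub _ h1]
    ring
  rw [e]
  refine (norm_add_le _ _).trans (le_trans ?_ hb)
  gcongr
  refine (norm_sum_le _ _).trans ?_
  exact Finset.sum_le_sum_of_subset_of_nonneg (Finset.Ico_subset_Ico le_rfl h2)
    fun _ _ _ => norm_nonneg _

theorem finalC_log2 {n : ℕ} (hn : 1 ≤ n) : (Nat.log 2 n : ℝ) ≤ 2 * Real.log n := by
  have h1 : ((2 ^ Nat.log 2 n : ℕ) : ℝ) ≤ n := by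
    exact_mod_cast Nat.pow_log_le_self 2 (by omega)
  have h2 := Real.log_le_log (by positivity) h1
  push_cast at h2
  rw [Real.log_pow] at h2
  have h3 := Real.log_two_gt_d9
  have h4 : (0 : ℝ) ≤ Nat.log 2 n := Nat.cast_nonneg _
  nlinarith

theorem finalC_grid (k : ℕ) : ∃ T0 : ℝ, 1 ≤ T0 ∧ ∀ T : ℝ, T0 ≤ T → ∃ G : ℕ, 16000 ≤ G ∧
    Big (G ^ 20) (2 * k) ∧ (G : ℝ) ^ (40 * k + 7) ≤ T ∧ T < 2 * (G : ℝ) ^ (40 * k + 7) ∧
    1 ≤ Real.log G ∧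
    10 * (10 ^ 24 * (40 * (k : ℝ) + 41) ^ (2 * k + 7)) * Real.log G ^ (2 * k + 8) <
      Real.sqrt G := by
  have e1 := Bar.final_ev (10 + 400 * (k : ℝ)) 1 (s := 1) one_pos
  have e3 := Bar.final_ev (10 * (10 ^ 24 * (40 * (k : ℝ) + 41) ^ (2 * k + 7))) (2 * k + 8)
    (s := 1 / 2) (by norm_num)
  obtain ⟨x0, hx0⟩ := Filter.eventually_atTop.1
    (e1.and (e3.and ((Filter.eventually_ge_atTop (16000 : ℝ)).and
      (Filter.eventually_ge_atTop (2 * ((40 * k + 7 : ℕ) : ℝ))))))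
  refine ⟨((⌈x0⌉₊ ^ (40 * k + 7) + 1 : ℕ) : ℝ), by exact_mod_cast Nat.le_add_left 1 _,
    fun T hT => ?_⟩
  have hT0 : 0 ≤ T := le_trans (Nat.cast_nonneg _) hT
  have hN : ⌈x0⌉₊ ^ (40 * k + 7) ≤ ⌊T⌋₊ := le_trans (Nat.le_succ _) (Nat.le_floor hT)
  have hk0 : 40 * k + 7 ≠ 0 := by omega
  set G := Nat.nthRoot (40 * k + 7) ⌊T⌋₊ with hG
  have hlo : G ^ (40 * k + 7) ≤ ⌊T⌋₊ := Nat.pow_nthRoot_le (Or.inl hk0)
  have hhi : ⌊T⌋₊ < (G + 1) ^ (40 * k + 7) := Nat.lt_pow_nthRoot_add_one hk0 _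
  have hx : x0 ≤ G := by
    have h1 : ⌈x0⌉₊ < G + 1 :=
      lt_of_pow_lt_pow_left₀ (40 * k + 7) (Nat.zero_le _) (hN.trans_lt hhi)
    exact (Nat.le_ceil x0).trans (by exact_mod_cast Nat.lt_succ_iff.1 h1)
  obtain ⟨h1, h3, h4, h5⟩ := hx0 G hx
  have hG0 : (0 : ℝ) < G := by linarith
  have hlog : 1 ≤ Real.log G := by
    rw [Real.le_log_iff_exp_le hG0]
    linarith [Real.exp_one_lt_d9]
  rw [pow_one, Real.rpow_one] at h1
  have hG' : 16000 ≤ G := by exact_mod_cast h4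
  have hpow : G ≤ G ^ 20 := Nat.le_self_pow (by norm_num) G
  have hpowR : (G : ℝ) ≤ (G : ℝ) ^ 20 := by exact_mod_cast hpow
  refine ⟨G, hG', ⟨by omega, ?_⟩, ?_, ?_, hlog, ?_⟩
  · push_cast
    rw [Real.log_pow]
    push_cast
    have hk : (0 : ℝ) ≤ k := Nat.cast_nonneg _
    nlinarith
  · exact le_trans (by exact_mod_cast hlo) (Nat.floor_le hT0)
  · have h6 : T < ((G : ℝ) + 1) ^ (40 * k + 7) := by
      have h7 : ((⌊T⌋₊ + 1 : ℕ) : ℝ) ≤ (((G + 1) ^ (40 * k + 7) : ℕ) : ℝ) := by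
        exact_mod_cast hhi
      have h8 := Nat.lt_floor_add_one T
      push_cast at h7
      linarith
    exact h6.trans_le (Bar.final_succ_pow hG0 h5)
  · rw [Real.sqrt_eq_rpow]
    exact h3

theorem finalC_lam {k G N : ℕ} {T : ℝ} (hN : 1 ≤ N) (hG : 1 ≤ G) (hlog : 1 ≤ Real.log G)
    (hNT : (N : ℝ) ^ 2 ≤ T) (hT : T < 2 * (G : ℝ) ^ (40 * k + 7)) :
    10 ^ 24 * ((Nat.log 2 ((G ^ 20) ^ (k + 1)) : ℝ) + 1) ^ (2 * k + 1) * (1 + Real.log N) ^ 6 ≤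
      10 ^ 24 * (40 * (k : ℝ) + 41) ^ (2 * k + 7) * Real.log G ^ (2 * k + 7) := by
  have hN' : (1 : ℝ) ≤ N := by exact_mod_cast hN
  have hG' : (1 : ℝ) ≤ G := by exact_mod_cast hG
  have hk : (0 : ℝ) ≤ k := Nat.cast_nonneg _
  have h1 : (Nat.log 2 ((G ^ 20) ^ (k + 1)) : ℝ) + 1 ≤ (40 * (k : ℝ) + 41) * Real.log G := by
    have h2 := finalC_log2 (n := (G ^ 20) ^ (k + 1)) (Nat.one_le_pow _ _ (Nat.pow_pos hG))
    push_cast at h2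
    rw [Real.log_pow, Real.log_pow] at h2
    push_cast at h2
    nlinarith
  have h2 : 1 + Real.log N ≤ (40 * (k : ℝ) + 41) * Real.log G := by
    have h3 : (N : ℝ) ≤ 2 * (G : ℝ) ^ (40 * k + 7) := by nlinarith
    have h4 := Real.log_le_log (by linarith) h3
    rw [Real.log_mul (by norm_num) (by positivity), Real.log_pow] at h4
    push_cast at h4
    have h5 := Real.log_two_lt_d9
    nlinarith
  have h3 : 0 ≤ Real.log N := Real.log_nonneg hN'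
  calc _ ≤ 10 ^ 24 * ((40 * (k : ℝ) + 41) * Real.log G) ^ (2 * k + 1) *
        ((40 * (k : ℝ) + 41) * Real.log G) ^ 6 := by gcongr
    _ = _ := by rw [mul_assoc, ← pow_add, mul_pow, mul_assoc]

theorem finalC_big {G k X N : ℕ} {T V q τ : ℝ} (hp : Par G (G ^ 20) k X) (hG : 16000 ≤ G)
    (hT : (G : ℝ) ^ (40 * k + 7) ≤ T) (hT' : T < 2 * (G : ℝ) ^ (40 * k + 7))
    (hlog : 1 ≤ Real.log G)
    (hs : 10 * (10 ^ 24 * (40 * (k : ℝ) + 41) ^ (2 * k + 7)) * Real.log G ^ (2 * k + 8) <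
      Real.sqrt G) (hN : 1 ≤ N) (hNT : (N : ℝ) ^ 2 ≤ T) (hV : 0 < V) (hq : 0 < q)
    (hq4 : q ^ 4 = T) (hτ : 1 ≤ τ) (hτe : τ ^ (4 * (40 * k + 7)) = T)
    (hVq : N * q ≤ V ^ 2 * τ) (b : ℕ → ℂ)
    (hb : ‖b N‖ + ∑ n ∈ Ico N (2 * N), ‖b (n + 1) - b n‖ ≤ 2)
    (W : Finset ℝ) (hsep : Bar.Sep 1 W) (hW : ∀ t ∈ W, T ≤ t ∧ t ≤ 2 * T ∧
      V ≤ ‖∑ n ∈ Icc N (2 * N), b n * ei (t * Real.log n)‖) :
    (W.card : ℝ) * V ^ 4 * τ ≤ 2 * T * (N : ℝ) ^ 2 := by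
  have hg : (16000 : ℝ) ≤ G := by exact_mod_cast hG
  have hg0 : (0 : ℝ) < G := by linarith
  have hg1 : (1 : ℝ) ≤ G := by linarith
  have hN' : (1 : ℝ) ≤ N := by exact_mod_cast hN
  set s := Real.sqrt G with hsdef
  have hss : s * s = G := Real.mul_self_sqrt hg0.le
  have hs1 : 1 ≤ s := Real.one_le_sqrt.2 hg1
  have hsg : s ≤ G := by nlinarith
  have eL : (G : ℝ) ^ (40 * k + 7) = (G : ℝ) ^ 7 * ((G ^ 20 : ℕ) : ℝ) ^ (2 * k) := by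
    push_cast
    rw [← pow_mul, ← pow_add]
    congr 1
    ring
  have hτ2 : τ ^ 2 ≤ 2 * s := by
    refine le_of_pow_le_pow_left₀ (n := 2 * (40 * k + 7)) (by omega) (by positivity) ?_
    have e1 : (τ ^ 2) ^ (2 * (40 * k + 7)) = T := by
      rw [← pow_mul, ← hτe]
      congr 1
      ring
    have e2 : (2 * s) ^ (2 * (40 * k + 7)) = 4 ^ (40 * k + 7) * (G : ℝ) ^ (40 * k + 7) := by
      rw [pow_mul, ← mul_pow]
      congr 1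
      nlinarith
    have e3 : (2 : ℝ) ≤ 4 ^ (40 * k + 7) :=
      le_trans (by norm_num) (le_self_pow₀ (by norm_num : (1 : ℝ) ≤ 4) (by omega))
    rw [e1, e2]
    exact hT'.le.trans (mul_le_mul_of_nonneg_right e3 (by positivity))
  have hτs : τ ≤ 2 * s := by nlinarith
  set u : ℝ := ((G ^ 20 : ℕ) : ℝ) with hu
  have hu' : u = (G : ℝ) ^ 20 := by rw [hu]; push_cast; rfl
  have hu1 : 1 ≤ u := by rw [hu']; exact one_le_pow₀ hg1
  have hq2 : (G : ℝ) ^ 3 * u ^ k ≤ q ^ 2 := by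
    refine le_of_pow_le_pow_left₀ (n := 2) (by omega) (by positivity) ?_
    calc ((G : ℝ) ^ 3 * u ^ k) ^ 2 = (G : ℝ) ^ 6 * u ^ (2 * k) := by ring
      _ ≤ (G : ℝ) ^ 7 * u ^ (2 * k) := by
          gcongr
          norm_num
      _ ≤ T := eL ▸ hT
      _ = (q ^ 2) ^ 2 := by rw [← hq4]; ring
  have hq3 : (G : ℝ) ^ 3 ≤ q := by
    refine le_of_pow_le_pow_left₀ (n := 4) (by omega) hq.le ?_
    rw [hq4, ← pow_mul]
    have := hp.hk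
    exact le_trans (pow_le_pow_right₀ hg1 (by omega)) hT
  have hV1 : 8000 * G * N ≤ V ^ 2 := by
    refine le_of_mul_le_mul_right (le_trans ?_ hVq) (by linarith : 0 < τ)
    have h1 : 8000 * G * τ ≤ q := by
      calc 8000 * G * τ ≤ 8000 * G * (2 * G) := by gcongr; linarith
        _ = 16000 * (G : ℝ) ^ 2 := by ring
        _ ≤ G * (G : ℝ) ^ 2 := by gcongr
        _ = (G : ℝ) ^ 3 := by ring
        _ ≤ q := hq3
    calc 8000 * (G : ℝ) * N * τ = N * (8000 * G * τ) := by ring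
      _ ≤ N * q := by gcongr
  set Λ : ℝ := 10 ^ 24 * (40 * (k : ℝ) + 41) ^ (2 * k + 7) * Real.log G ^ (2 * k + 7) with hΛ
  have hΛ0 : 0 ≤ Λ := by rw [hΛ]; positivity
  have hΛs : 10 * Real.log G * Λ ≤ s := by
    refine le_trans (le_of_eq ?_) hs.le
    rw [hΛ]
    ring
  have hΛg : Λ ≤ G := by nlinarith
  have hV2 : Λ * (N : ℝ) ^ 2 * (G : ℝ) ^ 6 * u ^ (2 * k) < V ^ 4 * u ^ (k + 1) := by
    have h1 : (N * q) ^ 2 ≤ (V ^ 2 * τ) ^ 2 := pow_le_pow_left₀ (by positivity) hVq 2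
    have h2 : (N : ℝ) ^ 2 * ((G : ℝ) ^ 3 * u ^ k) ≤ V ^ 4 * (2 * G) := by
      calc (N : ℝ) ^ 2 * ((G : ℝ) ^ 3 * u ^ k) ≤ (N : ℝ) ^ 2 * q ^ 2 := by gcongr
        _ = (N * q) ^ 2 := by ring
        _ ≤ (V ^ 2 * τ) ^ 2 := h1
        _ = V ^ 4 * τ ^ 2 := by ring
        _ ≤ V ^ 4 * (2 * G) := by gcongr; linarith
    have h3 : 2 * (G : ℝ) ^ 5 < u := by
      rw [hu']
      calc 2 * (G : ℝ) ^ 5 < G * (G : ℝ) ^ 5 := by gcongr; linarith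
        _ = (G : ℝ) ^ 6 := by ring
        _ ≤ _ := pow_le_pow_right₀ hg1 (by norm_num)
    refine lt_of_mul_lt_mul_right (a := 2 * (G : ℝ)) ?_ (by positivity)
    calc Λ * (N : ℝ) ^ 2 * (G : ℝ) ^ 6 * u ^ (2 * k) * (2 * G)
        ≤ G * (N : ℝ) ^ 2 * (G : ℝ) ^ 6 * u ^ (2 * k) * (2 * G) := by gcongr
      _ = (2 * (G : ℝ) ^ 5) * ((N : ℝ) ^ 2 * ((G : ℝ) ^ 3 * u ^ k) * u ^ k) := by ring
      _ < u * ((N : ℝ) ^ 2 * ((G : ℝ) ^ 3 * u ^ k) * u ^ k) := by gcongr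
      _ ≤ u * (V ^ 4 * (2 * G) * u ^ k) := by gcongr
      _ = _ := by ring
  have key := lv_grid (Λ := Λ) hp hN (eL ▸ hT) (eL ▸ hT') hNT b hb hV.le hV1
    (finalC_lam hN (by omega) hlog hNT hT') hV2 W hsep hW
  have hl2 : 2 * ((Nat.log 2 (G + 1) : ℝ) + 1) ≤ 10 * Real.log G := by
    have h1 := finalC_log2 (n := G + 1) (by omega)
    have h2 : Real.log ((G + 1 : ℕ) : ℝ) ≤ Real.log (2 * G) :=
      Real.log_le_log (by positivity) (by push_cast; linarith)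
    rw [Real.log_mul (by norm_num) hg0.ne'] at h2
    have h5 := Real.log_two_lt_d9
    linarith
  have h4 : (W.card : ℝ) * V ^ 4 ≤ s * ((N : ℝ) ^ 2 * (G : ℝ) ^ 6 * u ^ (2 * k)) := by
    refine key.trans (mul_le_mul_of_nonneg_right (le_trans ?_ hΛs) (by positivity))
    exact mul_le_mul_of_nonneg_right hl2 hΛ0
  calc (W.card : ℝ) * V ^ 4 * τ ≤ s * ((N : ℝ) ^ 2 * (G : ℝ) ^ 6 * u ^ (2 * k)) * (2 * s) := by
        gcongr
    _ = 2 * (s * s * (G : ℝ) ^ 6 * u ^ (2 * k)) * (N : ℝ) ^ 2 := by ring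
    _ = 2 * ((G : ℝ) ^ 7 * u ^ (2 * k)) * (N : ℝ) ^ 2 := by rw [hss]; ring
    _ ≤ 2 * T * (N : ℝ) ^ 2 := by
        gcongr
        exact eL ▸ hT

theorem zeta_sums : ∃ δ : ℝ, 0 < δ ∧ ∃ C : ℝ, ∀ N : ℕ, 1 ≤ N → ∀ T V : ℝ, (N : ℝ) ^ 2 ≤ T →
    0 < V → (N : ℝ) * T ^ (1 / 4 - δ) ≤ V ^ 2 → ∀ b : ℕ → ℂ,
    ‖b N‖ + ∑ n ∈ Ico N (2 * N), ‖b (n + 1) - b n‖ ≤ 2 →
    ∀ W : Finset ℝ, (∀ t ∈ W, ∀ s ∈ W, t ≠ s → 1 ≤ |t - s|) →
      (∀ t ∈ W, T ≤ t ∧ t ≤ 2 * T ∧ V ≤ ‖∑ n ∈ Icc N (2 * N),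
        b n * Complex.exp (((t * Real.log n : ℝ) : ℂ) * Complex.I)‖) →
      (W.card : ℝ) ≤ C * T ^ (1 - δ) * (N : ℝ) ^ 2 / V ^ 4 := by
  obtain ⟨k, X, hk, hkX, hX, hnog⟩ := abilinear
  obtain ⟨T0, hT01, hT0⟩ := finalC_grid k
  have he : (0 : ℝ) < ((4 * (40 * k + 7) : ℕ) : ℝ) := by positivity
  have he1 : (1 : ℝ) ≤ ((4 * (40 * k + 7) : ℕ) : ℝ) := by exact_mod_cast (by omega)
  refine ⟨((4 * (40 * k + 7) : ℕ) : ℝ)⁻¹, by positivity, 2 + 512 * T0 ^ 2,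
    fun N hN T V hNT hV hVT b hb W hsep hW => ?_⟩
  set δ : ℝ := ((4 * (40 * k + 7) : ℕ) : ℝ)⁻¹ with hδ
  have hδ0 : 0 < δ := by rw [hδ]; positivity
  have hδ1 : δ ≤ 1 := inv_le_one_of_one_le₀ he1
  have hN' : (1 : ℝ) ≤ N := by exact_mod_cast hN
  have hT1 : 1 ≤ T := le_trans (one_le_pow₀ hN') hNT
  have hTp : 0 < T := by linarith
  have hP : 1 ≤ T ^ (1 - δ) := Real.one_le_rpow hT1 (by linarith)
  rw [le_div_iff₀ (by positivity)]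
  rcases le_or_gt T0 T with hle | hlt
  · obtain ⟨G, hG, hbig, h1, h2, h3, h4⟩ := hT0 T hle
    have hτ : 1 ≤ T ^ δ := Real.one_le_rpow hT1 hδ0.le
    have key := finalC_big (X := X) (q := T ^ (1 / 4 : ℝ)) (τ := T ^ δ)
      ⟨by omega, rfl, hbig, hk, hkX, hX, hnog _⟩ hG h1 h2 h3 h4 hN hNT hV (by positivity)
      (by rw [← Real.rpow_natCast, ← Real.rpow_mul hTp.le]; norm_num) hτ
      (Real.rpow_inv_natCast_pow hTp.le (by omega))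
      (by
        rw [Real.rpow_sub hTp, ← mul_div_assoc, div_le_iff₀ (by positivity)] at hVT
        exact hVT) b hb W hsep hW
    have e : T ^ (1 - δ) * T ^ δ = T := by
      rw [← Real.rpow_add hTp]
      simp
    refine le_of_mul_le_mul_right (key.trans ?_) (by linarith : 0 < T ^ δ)
    calc 2 * T * (N : ℝ) ^ 2 = 2 * (T ^ (1 - δ) * T ^ δ) * (N : ℝ) ^ 2 := by rw [e]
      _ = 2 * T ^ (1 - δ) * (N : ℝ) ^ 2 * T ^ δ := by ring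
      _ ≤ _ := by
          gcongr
          exact le_add_of_nonneg_right (by positivity)
  · rcases W.eq_empty_or_nonempty with rfl | ⟨t, ht⟩
    · simp only [Finset.card_empty, Nat.cast_zero, zero_mul]
      positivity
    have hc := sep_card (a := T) (b := 2 * T) one_pos (by linarith) W hsep
      (fun s hs => ⟨(hW s hs).1, (hW s hs).2.1⟩)
    have hc2 : (W.card : ℝ) ≤ 2 * T0 := by
      rw [div_one] at hc
      linarith
    have hV4 : V ≤ 4 * N := by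
      refine (hW t ht).2.2.trans ((norm_sum_le _ _).trans ?_)
      refine (Finset.sum_le_card_nsmul _ _ 2 fun n hn => ?_).trans ?_
      · rw [norm_mul, Complex.norm_exp_ofReal_mul_I, mul_one]
        exact finalC_b hb (Finset.mem_Icc.1 hn).1 (Finset.mem_Icc.1 hn).2
      · rw [Nat.card_Icc, nsmul_eq_mul]
        have : 2 * N + 1 - N ≤ 2 * N := by omega
        have h2 : ((2 * N + 1 - N : ℕ) : ℝ) ≤ 2 * N := by exact_mod_cast this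
        linarith
    calc (W.card : ℝ) * V ^ 4 ≤ 2 * T0 * (4 * N) ^ 4 := by gcongr
      _ = 512 * T0 * (N : ℝ) ^ 2 * 1 * (N : ℝ) ^ 2 := by ring
      _ ≤ 512 * T0 * T0 * T ^ (1 - δ) * (N : ℝ) ^ 2 := by
          gcongr
          linarith
      _ = 512 * T0 ^ 2 * T ^ (1 - δ) * (N : ℝ) ^ 2 := by ring
      _ ≤ _ := by
          gcongr
          linarith

end Pool.Agent.Lib.MP_ecd12e_nt.ZS
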