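import Pool.Agent.Lib.MP_ecd12e_nt.ZS.Root

/-! The Gaussian expansion of an exponential sum and the mean value of the dual sum. -/

set_option autoImplicit false

namespace Pool.Agent.Lib.MP_ecd12e_nt.ZS

open Finset Real
open Pool.Agent.Lib.MP_ecd12e_nt.Bar (ei cell cells Unif Big zc enr)

theorem gauss_point {ι : Type} (S : Finset ι) (c : ι → ℂ) (w : ι → ℝ) (b u : ℝ) :
    ((Real.exp (-b * u ^ 2) * ‖∑ i ∈ S, c i * ei (u * w i)‖ ^ 2 : ℝ) : ℂ) =
      ∑ i ∈ S, ∑ i' ∈ S, c i * (starRingEnd ℂ) (c i') *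
        Complex.exp (-(b : ℂ) * (u : ℂ) ^ 2 + (Complex.I * ((w i - w i' : ℝ) : ℂ)) * u + 0) := by
  rw [Complex.ofReal_mul, Complex.ofReal_pow, ← Complex.mul_conj', map_sum, Finset.sum_mul_sum,
    Finset.mul_sum]
  refine Finset.sum_congr rfl fun i _ => ?_
  rw [Finset.mul_sum]
  refine Finset.sum_congr rfl fun i' _ => ?_
  rw [map_mul, Bar.conj_ei, Complex.ofReal_exp]
  have e : Complex.exp (-(b : ℂ) * (u : ℂ) ^ 2 + (Complex.I * ((w i - w i' : ℝ) : ℂ)) * u + 0) =
      Complex.exp (((-b * u ^ 2 : ℝ) : ℂ)) * (ei (u * w i) * ei (-(u * w i'))) := by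
    unfold ei
    rw [← Complex.exp_add, ← Complex.exp_add]
    refine congrArg Complex.exp ?_
    push_cast
    ring
  rw [e]
  ring

theorem gauss_expand {ι : Type} (S : Finset ι) (c : ι → ℂ) (w : ι → ℝ) {b : ℝ} (hb : 0 < b) :
    MeasureTheory.Integrable
      (fun u : ℝ => Real.exp (-b * u ^ 2) * ‖∑ i ∈ S, c i * ei (u * w i)‖ ^ 2) ∧
    ((∫ u : ℝ, Real.exp (-b * u ^ 2) * ‖∑ i ∈ S, c i * ei (u * w i)‖ ^ 2 : ℝ) : ℂ) =
      (Real.sqrt (π / b) : ℂ) * ∑ i ∈ S, ∑ i' ∈ S, c i * (starRingEnd ℂ) (c i') *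
        (Real.exp (-((w i - w i') ^ 2 / (4 * b))) : ℂ) := by
  have hb' : 0 < ((b : ℂ)).re := by simpa using hb
  have hI : ∀ i i' : ι, MeasureTheory.Integrable (fun u : ℝ => c i * (starRingEnd ℂ) (c i') *
      Complex.exp (-(b : ℂ) * (u : ℂ) ^ 2 + (Complex.I * ((w i - w i' : ℝ) : ℂ)) * u + 0)) :=
    fun i i' => (integrable_cexp_quadratic hb' _ _).const_mul _
  have hS : MeasureTheory.Integrable (fun u : ℝ =>
      ((Real.exp (-b * u ^ 2) * ‖∑ i ∈ S, c i * ei (u * w i)‖ ^ 2 : ℝ) : ℂ)) := by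
    simp only [gauss_point]
    exact MeasureTheory.integrable_finsetSum _ fun i _ =>
      MeasureTheory.integrable_finsetSum _ fun i' _ => hI i i'
  refine ⟨?_, ?_⟩
  · exact hS.re.congr (Filter.Eventually.of_forall fun u => Complex.ofReal_re _)
  · rw [← integral_complex_ofReal]
    simp only [gauss_point]
    rw [MeasureTheory.integral_finsetSum _ fun i _ =>
      MeasureTheory.integrable_finsetSum _ fun i' _ => hI i i', Finset.mul_sum]
    refine Finset.sum_congr rfl fun i _ => ?_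
    rw [MeasureTheory.integral_finsetSum _ fun i' _ => hI i i', Finset.mul_sum]
    refine Finset.sum_congr rfl fun i' _ => ?_
    rw [MeasureTheory.integral_const_mul, integral_cexp_quadratic (by simpa using hb)]
    have e1 : ((π : ℂ) / - -(b : ℂ)) ^ (1 / 2 : ℂ) = (Real.sqrt (π / b) : ℂ) := by
      rw [neg_neg, Real.sqrt_eq_rpow, Complex.ofReal_cpow (by positivity)]
      push_cast
      rfl
    have e2 : Complex.exp (0 - (Complex.I * ((w i - w i' : ℝ) : ℂ)) ^ 2 / (4 * -(b : ℂ))) =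
        (Real.exp (-((w i - w i') ^ 2 / (4 * b))) : ℂ) := by
      rw [Complex.ofReal_exp]
      refine congrArg Complex.exp ?_
      have : (b : ℂ) ≠ 0 := Complex.ofReal_ne_zero.2 hb.ne'
      rw [mul_pow, Complex.I_sq]
      push_cast
      field_simp
      ring
    rw [e1, e2]
    ring

theorem gauss_ei_cont : Continuous ei := by
  unfold ei
  fun_prop

theorem gauss_lg_cont : ContinuousOn lg (Set.Ioi 0) :=
  fun _ hy => (hasDerivAt_lg hy).continuousAt.continuousWithinAt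

theorem dual_cont (G : ℝ) (W : Finset ℕ) (c : ℕ → ℂ) :
    ContinuousOn (dual G W c) (Set.Ioi 0) := by
  unfold dual
  exact continuousOn_finsetSum _ fun a _ =>
    continuousOn_const.mul (gauss_ei_cont.comp_continuousOn (continuousOn_const.mul gauss_lg_cont))

theorem gauss_geom {r : ℝ} (h0 : 0 ≤ r) (h1 : r < 1) (T : Finset ℕ) (f : ℕ → ℕ)
    (hf : Set.InjOn f T) : ∑ x ∈ T, r ^ f x ≤ (1 - r)⁻¹ := by
  rw [← Finset.sum_image (f := fun n => r ^ n) hf, ← tsum_geometric_of_lt_one h0 h1]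
  exact (summable_geometric_of_lt_one h0 h1).sum_le_tsum _ fun n _ => pow_nonneg h0 n

theorem gauss_row {k : ℝ} (hk : 0 < k) (W : Finset ℕ) (a : ℕ) :
    ∑ a' ∈ W, Real.exp (-(k * ((a : ℝ) - a')) ^ 2) ≤ 6 * (1 + 1 / k) := by
  have h0 : 0 ≤ Real.exp (-k) := (Real.exp_pos _).le
  have h1 : Real.exp (-k) < 1 := Real.exp_lt_one_iff.2 (by linarith)
  have e3 : Real.exp 1 ≤ 3 := Real.exp_one_lt_d9.le.trans (by norm_num)
  have key : ∀ (x : ℝ) (n : ℕ), x ^ 2 = (k * n) ^ 2 →
      Real.exp (-x ^ 2) ≤ 3 * Real.exp (-k) ^ n := by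
    intro x n h
    rw [← Real.exp_nat_mul, h]
    refine le_trans ?_ (mul_le_mul_of_nonneg_right e3 (Real.exp_pos _).le)
    rw [← Real.exp_add]
    exact Real.exp_le_exp.2 (by nlinarith [sq_nonneg (k * n - 1), sq_nonneg (k * n)])
  have hg : (1 - Real.exp (-k))⁻¹ ≤ 1 + 1 / k := by
    have h2 : Real.exp (-k) * (k + 1) ≤ 1 := by
      have := mul_le_mul_of_nonneg_left (Real.add_one_le_exp k) h0
      rwa [← Real.exp_add, neg_add_cancel, Real.exp_zero] at this
    rw [inv_le_comm₀ (by linarith) (by positivity)]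
    have e : (1 + 1 / k)⁻¹ = 1 - 1 / (k + 1) := by
      field_simp
      ring
    rw [e]
    have : Real.exp (-k) ≤ 1 / (k + 1) := by
      rw [le_div_iff₀ (by linarith)]
      exact h2
    linarith
  rw [← Finset.sum_filter_add_sum_filter_not W (fun a' => a' ≤ a)]
  have s1 : ∑ a' ∈ W.filter (fun a' => a' ≤ a), Real.exp (-(k * ((a : ℝ) - a')) ^ 2) ≤
      3 * (1 - Real.exp (-k))⁻¹ := by
    refine le_trans (Finset.sum_le_sum fun a' h => key _ (a - a') ?_) ?_
    · rw [Nat.cast_sub (Finset.mem_filter.1 h).2]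
    · rw [← Finset.mul_sum]
      refine mul_le_mul_of_nonneg_left (gauss_geom h0 h1 _ _ fun x hx y hy h => ?_) (by norm_num)
      have := (Finset.mem_filter.1 hx).2
      have := (Finset.mem_filter.1 hy).2
      omega
  have s2 : ∑ a' ∈ W.filter (fun a' => ¬ a' ≤ a), Real.exp (-(k * ((a : ℝ) - a')) ^ 2) ≤
      3 * (1 - Real.exp (-k))⁻¹ := by
    refine le_trans (Finset.sum_le_sum fun a' h => key _ (a' - a) ?_) ?_
    · rw [Nat.cast_sub (not_le.1 (Finset.mem_filter.1 h).2).le]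
      ring
    · rw [← Finset.mul_sum]
      refine mul_le_mul_of_nonneg_left (gauss_geom h0 h1 _ _ fun x hx y hy h => ?_) (by norm_num)
      have := (Finset.mem_filter.1 hx).2
      have := (Finset.mem_filter.1 hy).2
      omega
  linarith

theorem gauss_total {G : ℝ} (hG : 1 ≤ G) {Y : ℝ} (hY : 1 ≤ Y) (W : Finset ℕ) {c : ℕ → ℂ}
    (hc : ∀ a ∈ W, ‖c a‖ ≤ 1) :
    ∫ u : ℝ, Real.exp (-Y ^ 2 * u ^ 2) * ‖∑ a ∈ W, c a * ei (u * (G * a))‖ ^ 2 ≤
      2 / Y * (12 * (1 + Y / G) * W.card) := by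
  have Y0 : 0 < Y := by linarith
  have G0 : 0 < G := by linarith
  have h := (gauss_expand W c (fun a => G * a) (show 0 < Y ^ 2 by positivity)).2
  refine (le_abs_self _).trans ?_
  rw [← Real.norm_eq_abs, ← Complex.norm_real, h, norm_mul, Complex.norm_real,
    Real.norm_of_nonneg (Real.sqrt_nonneg _)]
  refine mul_le_mul ?_ ?_ (norm_nonneg _) (by positivity)
  · refine Real.sqrt_le_iff.2 ⟨by positivity, ?_⟩
    rw [div_pow]
    exact div_le_div_of_nonneg_right (by linarith [Real.pi_lt_four]) (by positivity)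
  · refine (norm_sum_le _ _).trans ?_
    rw [mul_comm _ (W.card : ℝ), ← nsmul_eq_mul]
    refine Finset.sum_le_card_nsmul _ _ _ fun a ha => (norm_sum_le _ _).trans ?_
    have hk : 0 < G / (2 * Y) := by positivity
    refine le_trans (Finset.sum_le_sum fun a' ha' => ?_) ((gauss_row hk W a).trans ?_)
    · rw [norm_mul, norm_mul, Complex.norm_conj, Complex.norm_real,
        Real.norm_of_nonneg (Real.exp_pos _).le]
      have e : (G * (a : ℝ) - G * a') ^ 2 / (4 * Y ^ 2) = (G / (2 * Y) * ((a : ℝ) - a')) ^ 2 := by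
        field_simp
        ring
      rw [e]
      exact mul_le_of_le_one_left (Real.exp_pos _).le
        (mul_le_one₀ (hc a ha) (norm_nonneg _) (hc a' ha'))
    · have e : 1 / (G / (2 * Y)) = 2 * (Y / G) := by field_simp
      rw [e]
      linarith

theorem mean_val {G : ℝ} (hG : 1 ≤ G) {Y : ℕ} (hY : 1 ≤ Y) (W : Finset ℕ) {c : ℕ → ℂ}
    (hc : ∀ a ∈ W, ‖c a‖ ≤ 1) :
    ∫ y in (Y : ℝ)..(2 * Y + 1), ‖dual G W c y‖ ^ 2 ≤ 1000 * (Y * (1 + Y / G) * W.card) := by
  have hY' : (1 : ℝ) ≤ Y := by exact_mod_cast hY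
  generalize (Y : ℝ) = Z at hY' ⊢
  have Z0 : 0 < Z := by linarith
  have G0 : 0 < G := by linarith
  have hab : Z ≤ 2 * Z + 1 := by linarith
  obtain ⟨H, hH⟩ : ∃ H : ℝ → ℝ, H = fun u : ℝ =>
      Real.exp (-Z ^ 2 * u ^ 2) * ‖∑ a ∈ W, c a * ei (u * (G * a))‖ ^ 2 := ⟨_, rfl⟩
  have Hc : Continuous H := by
    rw [hH]
    have := gauss_ei_cont
    fun_prop
  have H0 : ∀ u, 0 ≤ H u := fun u => by
    rw [hH]
    positivity
  have Hi : MeasureTheory.Integrable H := by
    rw [hH]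
    exact (gauss_expand W c (fun a => G * a) (show 0 < Z ^ 2 by positivity)).1
  have Ht : ∫ u, H u ≤ 2 / Z * (12 * (1 + Z / G) * W.card) := by
    rw [hH]
    exact gauss_total hG hY' W hc
  have sub : Set.uIcc Z (2 * Z + 1) ⊆ Set.Ioi 0 := by
    rw [Set.uIcc_of_le hab]
    exact fun y hy => Z0.trans_le hy.1
  have dc : ContinuousOn (fun y : ℝ => -(y * (y + 1))⁻¹) (Set.uIcc Z (2 * Z + 1)) := by
    refine ContinuousOn.neg (ContinuousOn.inv₀ (by fun_prop) fun y hy => ?_)
    have : 0 < y := sub hy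
    positivity
  have cv := intervalIntegral.integral_comp_mul_deriv (f := lg) (g := H)
    (fun y hy => hasDerivAt_lg (sub hy)) dc Hc
  have b1 : -∫ u in lg Z..lg (2 * Z + 1), H u ≤ ∫ u, H u := by
    refine (neg_le_abs _).trans ?_
    rw [← Real.norm_eq_abs, intervalIntegral.norm_integral_eq_norm_integral_uIoc,
      Real.norm_of_nonneg (MeasureTheory.integral_nonneg H0)]
    exact MeasureTheory.setIntegral_le_integral Hi (Filter.Eventually.of_forall H0)
  have b2 : ∫ y in Z..(2 * Z + 1), ‖dual G W c y‖ ^ 2 ≤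
      ∫ y in Z..(2 * Z + 1), -(36 * Z ^ 2) * ((H ∘ lg) y * -(y * (y + 1))⁻¹) := by
    refine intervalIntegral.integral_mono_on hab
      (((dual_cont G W c).mono sub).norm.pow 2).intervalIntegrable
      (continuousOn_const.mul
        ((Hc.comp_continuousOn (gauss_lg_cont.mono sub)).mul dc)).intervalIntegrable
      fun y hy => ?_
    have y0 : 0 < y := Z0.trans_le hy.1
    have l0 : 0 ≤ lg y := Real.log_nonneg (by linarith [one_div_pos.2 y0])
    have l1 : Z * lg y ≤ 1 := by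
      have h1 : lg y ≤ 1 / y := by
        have := Real.log_le_sub_one_of_pos (show 0 < 1 + 1 / y by positivity)
        unfold lg
        linarith
      have h2 : Z * (1 / y) ≤ 1 := by
        rw [mul_one_div, div_le_one y0]
        exact hy.1
      exact (mul_le_mul_of_nonneg_left h1 Z0.le).trans h2
    have e3 : Real.exp 1 ≤ 3 := Real.exp_one_lt_d9.le.trans (by norm_num)
    have x1 : 1 ≤ 3 * Real.exp (-Z ^ 2 * lg y ^ 2) := by
      refine le_trans ?_ (mul_le_mul_of_nonneg_right e3 (Real.exp_pos _).le)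
      rw [← Real.exp_add]
      refine Real.one_le_exp ?_
      have := mul_nonneg Z0.le l0
      nlinarith
    have x2 : 1 ≤ 12 * Z ^ 2 * (y * (y + 1))⁻¹ := by
      rw [← div_eq_mul_inv, one_le_div (by positivity)]
      have := hy.2
      nlinarith
    have e : dual G W c y = ∑ a ∈ W, c a * ei (lg y * (G * a)) := by
      unfold dual
      exact Finset.sum_congr rfl fun a _ => by rw [mul_comm (lg y)]
    rw [e, hH]
    simp only [Function.comp]
    have x3 := mul_le_mul_of_nonneg_right (one_le_mul_of_one_le_of_one_le x1 x2)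
      (sq_nonneg ‖∑ a ∈ W, c a * ei (lg y * (G * a))‖)
    linarith
  rw [intervalIntegral.integral_const_mul, cv] at b2
  have b3 := mul_le_mul_of_nonneg_left (b1.trans Ht) (show 0 ≤ 36 * Z ^ 2 by positivity)
  have e : 36 * Z ^ 2 * (2 / Z * (12 * (1 + Z / G) * W.card)) =
      864 * (Z * (1 + Z / G) * W.card) := by
    field_simp
    ring
  have p : 0 ≤ Z * (1 + Z / G) * W.card := by positivity
  linarith

end Pool.Agent.Lib.MP_ecd12e_nt.ZS
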