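import Pool.Agent.Lib.MP_ecd12e_nt.ZS.L2
import Pool.Agent.Lib.MP_ecd12e_nt.ZS.Gal

set_option autoImplicit false

namespace Pool.Agent.Lib.MP_ecd12e_nt.ZS

open Finset Real
open Pool.Agent.Lib.MP_ecd12e_nt.Bar (ei cell cells Unif Big zc enr)

/-- Gallagher's inequality for the periodised sum, from a weighted mean square bound. -/
theorem l1_gal {G S η b B : ℝ} (hG : 1 ≤ G) {Y : ℕ} (hY : 1 ≤ Y) (W : Finset ℕ) (hS : 0 < S)
    (hW : ∀ a ∈ W, G * a ≤ S) (ζ : ℕ → ℂ) (hη : 0 < η) (hb : 0 ≤ b) {w : ℝ → ℝ}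
    (hw : Continuous w) (hw0 : ∀ x, 0 ≤ w x)
    (hB : ∀ (c : ℕ → ℂ) (e : ℕ), e ≤ 1 → (∀ a ∈ W, ‖c a‖ ≤ 1) →
      ∫ x in (0 : ℝ)..b, w x * ‖per G W c ζ e Y x‖ ^ 2 ≤ B)
    (Θ : Finset ℝ) (hsep : Bar.Sep η Θ)
    (hΘ : ∀ θ ∈ Θ, 0 ≤ θ ∧ θ + η ≤ b ∧ ∀ x ∈ Set.Icc θ (θ + η), 1 ≤ w x) :
    ∑ θ ∈ Θ, ‖per G W (fun _ => 1) ζ 0 Y θ‖ ^ 2 ≤ 2 * (1 / η + S / (Y : ℝ) ^ 2) * B := by
  have pY : (0 : ℝ) < Y := Nat.cast_pos.2 hY
  have hK : 0 < S / (Y : ℝ) ^ 2 := by positivity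
  have sub : Set.Icc (0 : ℝ) b ⊆ Set.Ici 0 := fun x hx => hx.1
  have h1 := gallagher (f := per G W (fun _ => 1) ζ 0 Y)
    (f' := fun θ => ((S / (Y : ℝ) ^ 2 : ℝ) : ℂ) *
      per G W (fun a => -Complex.I * ((G * a / S : ℝ) : ℂ)) ζ 1 Y θ) (w := w) hb hη hK
    (fun x hx => per_deriv G W ζ hY hS hx.1)
    (continuousOn_const.mul ((per_cont G W _ ζ 1 hY).mono sub)) hw.continuousOn
    (fun x _ => hw0 x) Θ hsep hΘ
  have h2 := hB (fun _ => 1) 0 (by omega) (fun a _ => by simp)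
  have h3 := hB (fun a => -Complex.I * ((G * a / S : ℝ) : ℂ)) 1 le_rfl (fun a ha => by
    rw [norm_mul, norm_neg, Complex.norm_I, one_mul, Complex.norm_real, Real.norm_eq_abs,
      abs_of_nonneg (by positivity)]
    exact (div_le_one hS).2 (hW a ha))
  have h0 : 0 ≤ B := le_trans
    (intervalIntegral.integral_nonneg hb fun x _ => mul_nonneg (hw0 x) (sq_nonneg _)) h2
  have h4 : (∫ x in (0 : ℝ)..b, w x * ‖((S / (Y : ℝ) ^ 2 : ℝ) : ℂ) *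
      per G W (fun a => -Complex.I * ((G * a / S : ℝ) : ℂ)) ζ 1 Y x‖ ^ 2) =
      (S / (Y : ℝ) ^ 2) ^ 2 * ∫ x in (0 : ℝ)..b,
        w x * ‖per G W (fun a => -Complex.I * ((G * a / S : ℝ) : ℂ)) ζ 1 Y x‖ ^ 2 := by
    rw [← intervalIntegral.integral_const_mul]
    refine intervalIntegral.integral_congr fun x _ => ?_
    simp only [norm_mul, Complex.norm_real, Real.norm_eq_abs, mul_pow, sq_abs]
    ring
  rw [h4] at h1
  generalize S / (Y : ℝ) ^ 2 = K at *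
  have pη : 0 < 1 / η := by positivity
  have h5 := mul_le_mul_of_nonneg_left h2 (add_pos pη hK).le
  have h6 := mul_le_mul_of_nonneg_left h3 hK.le
  have h7 : ∀ I : ℝ, 1 / K * (K ^ 2 * I) = K * I := fun I => by field_simp
  rw [h7] at h1
  have h8 := mul_nonneg pη.le h0
  linarith

theorem l1_triv {G S δ : ℝ} (hG : 1 ≤ G) {Y : ℕ} (hY : 1 ≤ Y) (W : Finset ℕ) (hS : 0 < S)
    (hW : ∀ a ∈ W, G * a ≤ S) {ζ : ℕ → ℂ} (hζ : ∀ j, ‖ζ j‖ ≤ 1) (hδ : 0 < δ) (hδ1 : δ ≤ 1)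
    (Θ : Finset ℝ) (hsep : Bar.Sep δ Θ) (hΘ : ∀ θ ∈ Θ, 0 ≤ θ ∧ θ < 1) :
    ∑ θ ∈ Θ, ‖per G W (fun _ => 1) ζ 0 Y θ‖ ^ 2 ≤
      4000 * Y * (1 / δ + S / (Y : ℝ) ^ 2) * (Y * (1 + Y / G) * W.card) := by
  have h := l1_gal (b := 2) (B := 2000 * Y * (Y * (1 + Y / G) * W.card)) hG hY W hS hW ζ hδ
    (by norm_num) (w := fun _ => 1) continuous_const (fun _ => zero_le_one)
    (fun c e _ hc => by
      simp only [one_mul]
      exact l2_triv hG hY W hc hζ e) Θ hsep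
    (fun θ hθ => ⟨(hΘ θ hθ).1, by linarith [(hΘ θ hθ).2], fun _ _ => le_rfl⟩)
  exact h.trans_eq (by ring)

/-- The trivial bound for the periodised sum. -/
theorem l1_norm (G : ℝ) (W : Finset ℕ) {ζ : ℕ → ℂ} (hζ : ∀ j, ‖ζ j‖ ≤ 1) (Y : ℕ) (θ : ℝ) :
    ‖per G W (fun _ => 1) ζ 0 Y θ‖ ≤ Y * W.card := by
  have hd : ∀ y, ‖dual G W (fun _ => 1) y‖ ≤ W.card := fun y => by
    refine (norm_sum_le _ _).trans_eq ?_
    simp [Bar.norm_ei]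
  refine (norm_sum_le _ _).trans ((sum_le_card_nsmul _ _ (W.card : ℝ) fun j _ => ?_).trans_eq ?_)
  · rw [norm_mul, norm_mul]
    have : ‖(kap 0 Y (j + θ) : ℂ)‖ = 1 := by simp [kap]
    rw [this, mul_one]
    exact (mul_le_mul (hζ j) (hd _) (norm_nonneg _) zero_le_one).trans_eq (one_mul _)
  · rw [Nat.card_Ico, nsmul_eq_mul, show 2 * Y - Y = Y by omega]

/-- Separated points near a finite set of grid points. -/
theorem l1_bad {δ q : ℝ} (hδ : 0 < δ) (hq : 0 < q) (Θ : Finset ℝ) (hsep : Bar.Sep δ Θ)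
    (Bd : Finset ℤ) (h : ∀ θ ∈ Θ, ∃ b ∈ Bd, |θ - b * q| ≤ 3 * q) :
    (Θ.card : ℝ) ≤ Bd.card * (6 * q * (1 / δ) + 1) := by
  classical
  have h1 : Θ ⊆ Bd.biUnion fun b => Θ.filter fun θ => |θ - b * q| ≤ 3 * q := fun θ hθ => by
    obtain ⟨b, hb, hb'⟩ := h θ hθ
    exact mem_biUnion.2 ⟨b, hb, mem_filter.2 ⟨hθ, hb'⟩⟩
  have h2 : (Θ.card : ℝ) ≤ ∑ b ∈ Bd, ((Θ.filter fun θ => |θ - b * q| ≤ 3 * q).card : ℝ) := by
    exact_mod_cast (card_le_card h1).trans card_biUnion_le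
  refine h2.trans ((sum_le_card_nsmul _ _ (6 * q * (1 / δ) + 1) fun b _ => ?_).trans_eq
    (nsmul_eq_mul _ _))
  refine (sep_card (a := b * q - 3 * q) (b := b * q + 3 * q) hδ (by linarith) _
    (fun x hx y hy => hsep x (mem_filter.1 hx).1 y (mem_filter.1 hy).1) fun θ hθ => ?_).trans_eq
    (by ring)
  have := abs_le.1 (mem_filter.1 hθ).2
  constructor <;> linarith [this.1, this.2]

theorem l1_num {g t q D nb n Y : ℝ} (hg : 1 ≤ g) (ht : 35 * g ^ 4 ≤ t) (hq : 0 < q)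
    (h1 : q * t ≤ 1) (h2 : 1 ≤ q * D) (hnb : 0 ≤ nb)
    (h3 : nb * (q * t ^ 2) ≤ 4 * (q * t ^ 2) + 5 * g ^ 4) (hY0 : 0 ≤ Y) (hY : Y ≤ g ^ 2)
    (hn : n ≤ nb * (6 * q * D + 1)) : n * Y ≤ D := by
  have g2 : 1 ≤ g ^ 2 := one_le_pow₀ hg
  have g4 : g ^ 2 ≤ g ^ 4 := pow_le_pow_right₀ hg (by norm_num)
  have pt : 0 < t := by linarith
  have pD : 0 < D := by
    by_contra c
    nlinarith
  have a1 : q * t ^ 2 ≤ t := by nlinarith
  have a2 : nb * q * t ≤ 5 := by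
    refine le_of_mul_le_mul_right ?_ pt
    nlinarith
  have a3 : n ≤ 7 * (nb * q) * D := by nlinarith
  have a4 : n * t ≤ 35 * D := by nlinarith
  refine le_of_mul_le_mul_right ?_ pt
  have a5 : n * t * Y ≤ 35 * D * g ^ 2 :=
    (mul_le_mul_of_nonneg_right a4 hY0).trans (mul_le_mul_of_nonneg_left hY (by positivity))
  nlinarith

theorem l1_all {G th k X Y : ℕ} {al : ℕ → ℕ} {W : Finset ℕ} (hp : Par G th k X)
    (hW : Win G th k al W) (hY : 1 ≤ Y) {ζ : ℕ → ℂ} (hζ : ∀ j, ‖ζ j‖ ≤ 1) {δ : ℝ} (hδ : 0 < δ)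
    (hδ1 : δ ≤ 1) (Θ : Finset ℝ) (hsep : Bar.Sep δ Θ) (hΘ : ∀ θ ∈ Θ, 0 ≤ θ ∧ θ < 1) :
    (∑ θ ∈ Θ, ‖per G W (fun _ => 1) ζ 0 Y θ‖) ^ 2 ≤
      100000 * (if Y ≤ G ^ 2 then 1 else (Y : ℝ)) * (1 / δ) *
        (1 / δ + 4 * (G : ℝ) ^ 7 * (th : ℝ) ^ (2 * k) / (Y : ℝ) ^ 2) *
          (Y * (1 + Y / G) * W.card) := by
  classical
  have hG : (1000 : ℝ) ≤ G := by exact_mod_cast hp.hG
  have hG1 : (1 : ℝ) ≤ G := by linarith
  have hth : (th : ℝ) = (G : ℝ) ^ 20 := by exact_mod_cast hp.hth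
  have ht1 : (1 : ℝ) ≤ th := by
    rw [hth]
    exact one_le_pow₀ hG1
  have pY : (1 : ℝ) ≤ Y := by exact_mod_cast hY
  have pL : (0 : ℝ) < (th : ℝ) ^ (2 * k) := by positivity
  have pS : (0 : ℝ) < 4 * (G : ℝ) ^ 7 * (th : ℝ) ^ (2 * k) := by positivity
  have hWS : ∀ a ∈ W, (G : ℝ) * a ≤ 4 * (G : ℝ) ^ 7 * (th : ℝ) ^ (2 * k) := fun a ha => by
    have h1 : (a : ℝ) ≤ 4 * ((G : ℝ) ^ 6 * (th : ℝ) ^ (2 * k)) := by
      exact_mod_cast (hW.hi a ha).le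
    exact (mul_le_mul_of_nonneg_left h1 (by positivity)).trans_eq (by ring)
  have hD : 1 ≤ 1 / δ := one_le_one_div hδ hδ1
  have hsub : ∀ Θ' ⊆ Θ, Bar.Sep δ Θ' := fun Θ' h x hx y hy => hsep x (h hx) y (h hy)
  have hcard : ∀ Θ' ⊆ Θ, (Θ'.card : ℝ) ≤ 2 * (1 / δ) := fun Θ' h => by
    have := sep_card hδ zero_le_one Θ' (hsub Θ' h)
      fun θ hθ => ⟨(hΘ θ (h hθ)).1, (hΘ θ (h hθ)).2.le⟩
    rw [sub_zero] at this
    linarith
  have htriv := fun Θ' (h : Θ' ⊆ Θ) =>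
    l1_triv hG1 hY W pS hWS hζ hδ hδ1 Θ' (hsub Θ' h) fun θ hθ => hΘ θ (h hθ)
  have hcs : ∀ Θ' : Finset ℝ, (∑ θ ∈ Θ', ‖per G W (fun _ => 1) ζ 0 Y θ‖) ^ 2 ≤
      Θ'.card * ∑ θ ∈ Θ', ‖per G W (fun _ => 1) ζ 0 Y θ‖ ^ 2 := fun Θ' =>
    sq_sum_le_card_mul_sum_sq
  have hgal := fun (η : ℝ) (hη : 0 < η) (w : ℝ → ℝ) (hw : Continuous w) (hw0 : ∀ x, 0 ≤ w x) =>
    l1_gal (b := 1) (B := 2000 * (Y * (1 + Y / G) * W.card)) hG1 hY W pS hWS ζ hη zero_le_one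
      hw hw0
  have hKL : Y ≤ G ^ 2 → (G : ℝ) ^ 2 * (th : ℝ) ^ (2 * k) ≤
      4 * (G : ℝ) ^ 7 * (th : ℝ) ^ (2 * k) / (Y : ℝ) ^ 2 := fun h => by
    have h1 : (Y : ℝ) ≤ (G : ℝ) ^ 2 := by exact_mod_cast h
    have h2 : (Y : ℝ) ^ 2 ≤ ((G : ℝ) ^ 2) ^ 2 := pow_le_pow_left₀ (by positivity) h1 2
    have h3 : (G : ℝ) ^ 6 ≤ (G : ℝ) ^ 7 := pow_le_pow_right₀ hG1 (by norm_num)
    have h4 : (0 : ℝ) < (G : ℝ) ^ 7 := by positivity
    rw [le_div_iff₀ (by positivity)]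
    calc _ ≤ (G : ℝ) ^ 2 * (th : ℝ) ^ (2 * k) * ((G : ℝ) ^ 2) ^ 2 :=
          mul_le_mul_of_nonneg_left h2 (by positivity)
      _ = (G : ℝ) ^ 6 * (th : ℝ) ^ (2 * k) := by ring
      _ ≤ _ := mul_le_mul_of_nonneg_right (by linarith) pL.le
  have pK : (0 : ℝ) < 4 * (G : ℝ) ^ 7 * (th : ℝ) ^ (2 * k) / (Y : ℝ) ^ 2 := by positivity
  have hBq : (Y : ℝ) * W.card ≤ Y * (1 + Y / G) * W.card := by
    have : (0 : ℝ) ≤ Y * (Y / G) * W.card := by positivity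
    linarith
  have pB : (0 : ℝ) ≤ Y * (1 + Y / G) * W.card := by positivity
  generalize 4 * (G : ℝ) ^ 7 * (th : ℝ) ^ (2 * k) / (Y : ℝ) ^ 2 = K at *
  generalize hB : (Y : ℝ) * (1 + Y / G) * W.card = Bq at *
  have pM : 0 ≤ 1 / δ * (1 / δ + K) * Bq := by positivity
  have hall : (∑ θ ∈ Θ, ‖per G W (fun _ => 1) ζ 0 Y θ‖) ^ 2 ≤
      8000 * Y * (1 / δ * (1 / δ + K) * Bq) :=
    (hcs Θ).trans ((mul_le_mul (hcard Θ Subset.rfl) (htriv Θ Subset.rfl)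
      (sum_nonneg fun _ _ => sq_nonneg _) (by positivity)).trans_eq (by ring))
  by_cases c1 : Y ≤ G ^ 2
  swap
  · rw [if_neg c1]
    have := mul_nonneg (by positivity : (0 : ℝ) ≤ Y) pM
    linarith
  rw [if_pos c1]
  by_cases c2 : 10 ≤ Y
  swap
  · have h1 : (Y : ℝ) ≤ 10 := by exact_mod_cast (by omega : Y ≤ 10)
    have := mul_le_mul_of_nonneg_right h1 pM
    linarith
  have hYG : (Y : ℝ) ≤ (G : ℝ) ^ 2 := by exact_mod_cast c1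
  have hK := hKL c1
  have hk := hp.hk
  have hkX := hp.hkX
  have hX := hp.hX
  by_cases c3 : 1 / δ ≤ (th : ℝ) ^ (k - 1)
  · have h1 : ∑ θ ∈ Θ, ‖per G W (fun _ => 1) ζ 0 Y θ‖ ≤ 2 * (1 / δ) * (Y * W.card) :=
      ((sum_le_card_nsmul _ _ _ fun θ _ => l1_norm G W hζ Y θ).trans_eq
        (nsmul_eq_mul _ _)).trans
        (mul_le_mul_of_nonneg_right (hcard Θ Subset.rfl) (by positivity))
    have h2 : (W.card : ℝ) ≤ (th : ℝ) ^ (k + 1) := by exact_mod_cast hW.card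
    have h3 : 1 / δ * W.card ≤ (th : ℝ) ^ (2 * k) := by
      refine (mul_le_mul c3 h2 (by positivity) (by positivity)).trans_eq ?_
      rw [← pow_add, show k - 1 + (k + 1) = 2 * k by omega]
    have h4 : Y * (1 / δ * W.card) ≤ 1 / δ + K := by
      have := mul_le_mul hYG h3 (by positivity) (by positivity)
      linarith
    have h5 := mul_le_mul h4 hBq (by positivity) (by positivity)
    have h6 := mul_le_mul_of_nonneg_left h5 (by positivity : 0 ≤ 1 / δ)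
    have h7 := pow_le_pow_left₀ (sum_nonneg fun _ _ => norm_nonneg _) h1 2
    have h8 : (2 * (1 / δ) * (Y * W.card)) ^ 2 =
        4 * (1 / δ * (Y * (1 / δ * W.card) * (Y * W.card))) := by ring
    have h9 : 1 / δ * ((1 / δ + K) * Bq) = 1 / δ * (1 / δ + K) * Bq := by ring
    linarith
  obtain ⟨g, Bd, hg, hg0, hBd, hgood, hint⟩ := l2_bar hp hW c2 c1
  rw [hB] at hint
  have pl : (1 : ℝ) ≤ (th : ℝ) ^ (X + 21) := one_le_pow₀ ht1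
  obtain ⟨q, hq⟩ : ∃ q : ℝ, q = (th : ℝ) ^ (X + 21) / (th : ℝ) ^ (2 * k) := ⟨_, rfl⟩
  rw [← hq] at hgood
  have pq : 0 < q := by
    rw [hq]
    positivity
  have hql : q * (th : ℝ) ^ (2 * k) = (th : ℝ) ^ (X + 21) := by
    rw [hq]
    exact div_mul_cancel₀ _ pL.ne'
  have q1 : q * th ≤ 1 := by
    refine le_of_mul_le_mul_right ?_ pL
    rw [mul_right_comm, hql, one_mul, ← pow_succ]
    exact pow_le_pow_right₀ ht1 (by omega)
  have q2 : 1 ≤ q * (1 / δ) := by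
    refine le_of_mul_le_mul_right ?_ pL
    rw [mul_right_comm, hql, one_mul]
    refine le_trans ?_ (mul_le_mul_of_nonneg_left (not_le.1 c3).le (by positivity))
    rw [← pow_add]
    exact pow_le_pow_right₀ ht1 (by omega)
  have q3 : 1 / q ≤ K := by
    have h1 : (1 : ℝ) ≤ (G : ℝ) ^ 2 := one_le_pow₀ hG1
    have h2 := mul_le_mul_of_nonneg_right h1 pL.le
    rw [div_le_iff₀ pq]
    have h3 := mul_le_mul_of_nonneg_right (h2.trans hK) pq.le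
    rw [one_mul, mul_comm, hql] at h3
    linarith
  have q4 : (Bd.card : ℝ) * (q * (th : ℝ) ^ 2) ≤ 4 * (q * (th : ℝ) ^ 2) + 5 * (G : ℝ) ^ 4 := by
    have h1 : (Bd.card : ℝ) * (th : ℝ) ^ (X + 23) ≤
        4 * (th : ℝ) ^ (X + 23) + 5 * (G : ℝ) ^ 4 * (th : ℝ) ^ (2 * k) := by exact_mod_cast hBd
    have h2 : (th : ℝ) ^ (X + 23) = q * (th : ℝ) ^ 2 * (th : ℝ) ^ (2 * k) := by
      rw [mul_right_comm, hql, ← pow_add]
    rw [h2] at h1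
    refine le_of_mul_le_mul_right ?_ pL
    linarith
  have q5 : 35 * (G : ℝ) ^ 4 ≤ th := by
    have h1 : (G : ℝ) ^ 5 ≤ (G : ℝ) ^ 20 := pow_le_pow_right₀ hG1 (by norm_num)
    have h2 := mul_le_mul_of_nonneg_right (by linarith : (35 : ℝ) ≤ G)
      (by positivity : (0 : ℝ) ≤ (G : ℝ) ^ 4)
    rw [← pow_succ'] at h2
    rw [hth]
    exact h2.trans h1
  obtain ⟨P, hP⟩ : ∃ P : ℝ → Prop, P = fun θ => ∃ b ∈ Bd, |θ - b * q| ≤ 3 * q := ⟨_, rfl⟩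
  have hbad : ((Θ.filter P).card : ℝ) * Y ≤ 1 / δ :=
    l1_num hG1 q5 pq q1 q2 (Nat.cast_nonneg _) q4 (by positivity) hYG
      (l1_bad hδ pq _ (hsub _ (filter_subset _ _)) Bd fun θ hθ => by
        have := (mem_filter.1 hθ).2
        rwa [hP] at this)
  have pη : 0 < min δ q := lt_min hδ pq
  have hη : 1 / min δ q ≤ 1 / δ + K := by
    rcases min_cases δ q with h | h <;> rw [h.1] <;> linarith
  have h1 := hgal _ pη g hg hg0 (fun c e he hc => hint c ζ e he hc hζ)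
    (Θ.filter fun θ => ¬ P θ)
    (fun x hx y hy hxy => (min_le_left _ _).trans (hsub _ (filter_subset _ _) x hx y hy hxy))
    (fun θ hθ => by
      obtain ⟨t1, t2⟩ := mem_filter.1 hθ
      obtain ⟨u1, u2⟩ := hgood θ (hΘ θ t1).1 (hΘ θ t1).2 fun b hb => by
        have h : 3 * q < |θ - b * q| := not_le.1 fun h => t2 (by
          rw [hP]
          exact ⟨b, hb, h⟩)
        have e : (th : ℝ) ^ (2 * k) * θ - b * (th : ℝ) ^ (X + 21) =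
            (θ - b * q) * (th : ℝ) ^ (2 * k) := by
          rw [← hql]
          ring
        rw [e, abs_mul, abs_of_pos pL, ← hql, ← mul_assoc]
        exact mul_lt_mul_of_pos_right h pL
      have m := min_le_right δ q
      exact ⟨(hΘ θ t1).1, by linarith, fun x hx => (u2 x ⟨hx.1, by linarith [hx.2]⟩).ge⟩)
  have pB' : 0 ≤ (1 / δ + K) * Bq := by positivity
  have h2 : (∑ θ ∈ Θ.filter fun θ => ¬ P θ, ‖per G W (fun _ => 1) ζ 0 Y θ‖) ^ 2 ≤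
      16000 * (1 / δ * (1 / δ + K) * Bq) := by
    have h3 : 2 * (1 / min δ q + K) * (2000 * Bq) ≤ 8000 * ((1 / δ + K) * Bq) := by
      have := mul_le_mul_of_nonneg_right
        (by linarith : 1 / min δ q + K ≤ 2 * (1 / δ + K)) pB
      linarith
    exact (hcs _).trans ((mul_le_mul (hcard _ (filter_subset _ _)) (h1.trans h3)
      (sum_nonneg fun _ _ => sq_nonneg _) (by positivity)).trans_eq (by ring))
  have h3 : (∑ θ ∈ Θ.filter P, ‖per G W (fun _ => 1) ζ 0 Y θ‖) ^ 2 ≤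
      4000 * (1 / δ * (1 / δ + K) * Bq) := by
    have h4 := mul_le_mul_of_nonneg_left (htriv _ (filter_subset P Θ))
      (Nat.cast_nonneg (α := ℝ) (Θ.filter P).card)
    have h5 := mul_le_mul_of_nonneg_right hbad pB'
    have h6 := hcs (Θ.filter P)
    linarith
  rw [← sum_filter_add_sum_filter_not Θ P]
  have h4 := add_sq_le (a := ∑ θ ∈ Θ.filter P, ‖per G W (fun _ => 1) ζ 0 Y θ‖)
    (b := ∑ θ ∈ Θ.filter fun θ => ¬ P θ, ‖per G W (fun _ => 1) ζ 0 Y θ‖)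
  linarith

end Pool.Agent.Lib.MP_ecd12e_nt.ZS
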