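import Pool.Agent.Lib.MP_ecd12e_nt.ZS.Gauss
import Pool.Agent.Lib.MP_ecd12e_nt.ZS.Gal
import Pool.Agent.Lib.MP_ecd12e_nt.ZS.Cut
import Pool.Agent.Lib.MP_ecd12e_nt.ZS.FarPair2

/-! Mean square bounds for the periodised dual sum. -/

set_option autoImplicit false

namespace Pool.Agent.Lib.MP_ecd12e_nt.ZS

open Finset Real
open Pool.Agent.Lib.MP_ecd12e_nt.Bar (ei cell cells Unif Big zc enr)

theorem l2_kap_nonneg (e Y : ℕ) {y : ℝ} (hy : 0 ≤ y) : 0 ≤ kap e Y y := by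
  unfold kap
  positivity

theorem l2_kap_le (e : ℕ) {Y : ℕ} (hY : 1 ≤ Y) {y : ℝ} (hy : (Y : ℝ) ≤ y) : kap e Y y ≤ 1 := by
  have h1 : (1 : ℝ) ≤ Y := by exact_mod_cast hY
  have h0 : 0 < y := by linarith
  unfold kap
  refine pow_le_one₀ (by positivity) ?_
  rw [div_le_one (by positivity)]
  nlinarith

theorem l2_kap_abs (e : ℕ) {Y : ℕ} (hY : 1 ≤ Y) {y : ℝ} (hy : (Y : ℝ) ≤ y) : |kap e Y y| ≤ 1 := by
  rw [abs_of_nonneg (l2_kap_nonneg e Y ((Nat.cast_nonneg Y).trans hy))]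
  exact l2_kap_le e hY hy

theorem l2_kap_cont (e Y : ℕ) : ContinuousOn (kap e Y) (Set.Ioi 0) := by
  unfold kap
  refine ContinuousOn.pow (ContinuousOn.div continuousOn_const (by fun_prop) fun y hy => ?_) e
  have : 0 < y := hy
  positivity

theorem l2_kap_der {e : ℕ} (he : e ≤ 1) (Y : ℕ) : ∃ κ' : ℝ → ℝ,
    (∀ y, 0 < y → HasDerivAt (kap e Y) (κ' y) y) ∧ ContinuousOn κ' (Set.Ioi 0) ∧
      ∀ y, 0 < y → (Y : ℝ) ≤ y → |κ' y| ≤ 1 := by
  obtain rfl | rfl : e = 0 ∨ e = 1 := by omega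
  · refine ⟨fun _ => 0, fun y _ => ?_, continuousOn_const, fun y _ _ => by simp⟩
    have : kap 0 Y = fun _ => 1 := by funext y; simp [kap]
    rw [this]
    exact hasDerivAt_const _ _
  · refine ⟨fun y => -((Y : ℝ) ^ 2 * (2 * y + 1) / (y * (y + 1)) ^ 2), fun y hy => ?_, ?_,
      fun y hy hY => ?_⟩
    · have e1 : kap 1 Y = fun y => (Y : ℝ) ^ 2 / (y * (y + 1)) := by funext y; simp [kap]
      rw [e1]
      have h1 : HasDerivAt (fun y : ℝ => y * (y + 1)) (2 * y + 1) y :=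
        ((hasDerivAt_id y).mul ((hasDerivAt_id y).add_const 1)).congr_deriv (by simp; ring)
      exact ((hasDerivAt_const y ((Y : ℝ) ^ 2)).div h1 (by positivity)).congr_deriv (by ring)
    · refine ContinuousOn.neg (ContinuousOn.div (by fun_prop) (by fun_prop) fun y hy => ?_)
      have : 0 < y := hy
      positivity
    · rw [abs_neg, abs_of_nonneg (by positivity), div_le_one (by positivity), mul_pow]
      have h0 : (0 : ℝ) ≤ Y := Nat.cast_nonneg Y
      exact mul_le_mul (by gcongr) (by nlinarith) (by positivity) (by positivity)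

theorem l2_shift_cont {E : Type} [TopologicalSpace E] {f : ℝ → E} (hf : ContinuousOn f (Set.Ioi 0))
    {d a b : ℝ} (h : 0 < d + a) : ContinuousOn (fun x => f (d + x)) (Set.Icc a b) :=
  hf.comp (by fun_prop) fun x hx => by
    have := hx.1
    change 0 < d + x
    linarith

theorem l2_diag {G : ℝ} (hG : 1 ≤ G) {Y : ℕ} (hY : 1 ≤ Y) (W : Finset ℕ) {c : ℕ → ℂ}
    (hc : ∀ a ∈ W, ‖c a‖ ≤ 1) {s : ℝ} (hs : 0 ≤ s) (hs' : s ≤ 1) :
    ∑ j ∈ Ico Y (2 * Y), ∫ x in s..(s + 1), ‖dual G W c (j + x)‖ ^ 2 ≤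
      1000 * (Y * (1 + Y / G) * W.card) := by
  have h1 : (1 : ℝ) ≤ Y := by exact_mod_cast hY
  have hf : ContinuousOn (fun y => ‖dual G W c y‖ ^ 2) (Set.Ioi 0) := (dual_cont G W c).norm.pow 2
  have hint : ∀ a b : ℝ, 0 < a → a ≤ b →
      IntervalIntegrable (fun y => ‖dual G W c y‖ ^ 2) MeasureTheory.volume a b :=
    fun a b ha hab => (hf.mono fun x hx => ha.trans_le hx.1).intervalIntegrable_of_Icc hab
  have e1 : ∀ j ∈ Ico Y (2 * Y), ∫ x in s..(s + 1), ‖dual G W c (j + x)‖ ^ 2 =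
      ∫ y in ((j : ℝ) + s)..(((j + 1 : ℕ) : ℝ) + s), ‖dual G W c y‖ ^ 2 := by
    intro j _
    rw [intervalIntegral.integral_comp_add_left (fun y => ‖dual G W c y‖ ^ 2)]
    congr 1
    push_cast
    ring
  rw [sum_congr rfl e1, intervalIntegral.sum_integral_adjacent_intervals_Ico
    (a := fun j : ℕ => (j : ℝ) + s) (by omega)]
  · refine le_trans (intervalIntegral.integral_mono_interval (by linarith) ?_ ?_
      (Filter.Eventually.of_forall fun x => by positivity) (hint _ _ (by linarith) (by linarith)))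
      (mean_val hG hY W hc)
    · push_cast; linarith
    · push_cast; linarith
  · intro j hj
    have : (Y : ℝ) ≤ j := by exact_mod_cast hj.1
    exact hint _ _ (by linarith) (by push_cast; linarith)

theorem l2_half {G : ℝ} (hG : 1 ≤ G) {Y : ℕ} (hY : 1 ≤ Y) (W : Finset ℕ) {c ζ : ℕ → ℂ}
    (hc : ∀ a ∈ W, ‖c a‖ ≤ 1) (hζ : ∀ j, ‖ζ j‖ ≤ 1) (e : ℕ) {s : ℝ} (hs : 0 ≤ s) (hs' : s ≤ 1) :
    ∫ x in s..(s + 1), ‖per G W c ζ e Y x‖ ^ 2 ≤ 1000 * Y * (Y * (1 + Y / G) * W.card) := by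
  have h1 : (1 : ℝ) ≤ Y := by exact_mod_cast hY
  have hf : ContinuousOn (fun y => ‖dual G W c y‖ ^ 2) (Set.Ioi 0) := (dual_cont G W c).norm.pow 2
  have hint : ∀ j ∈ Ico Y (2 * Y), IntervalIntegrable (fun x => ‖dual G W c (j + x)‖ ^ 2)
      MeasureTheory.volume s (s + 1) := by
    intro j hj
    have : (Y : ℝ) ≤ j := by exact_mod_cast (mem_Ico.1 hj).1
    exact (l2_shift_cont hf (by linarith)).intervalIntegrable_of_Icc (by linarith)
  have hp : IntervalIntegrable (fun x => ‖per G W c ζ e Y x‖ ^ 2) MeasureTheory.volume s (s + 1) :=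
    (((per_cont G W c ζ e hY).norm.pow 2).mono fun x hx =>
      hs.trans hx.1).intervalIntegrable_of_Icc (by linarith)
  have hsum : IntervalIntegrable (fun x => ∑ j ∈ Ico Y (2 * Y), ‖dual G W c (j + x)‖ ^ 2)
      MeasureTheory.volume s (s + 1) := by
    have := IntervalIntegrable.sum _ hint
    rwa [Finset.sum_fn] at this
  calc _ ≤ ∫ x in s..(s + 1), (Y : ℝ) * ∑ j ∈ Ico Y (2 * Y), ‖dual G W c (j + x)‖ ^ 2 := by
        refine intervalIntegral.integral_mono_on (by linarith) hp (hsum.const_mul _)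
          fun x hx => ?_
        have h2 : ‖per G W c ζ e Y x‖ ≤ ∑ j ∈ Ico Y (2 * Y), ‖dual G W c (j + x)‖ := by
          refine (norm_sum_le _ _).trans (sum_le_sum fun j hj => ?_)
          have h3 : (Y : ℝ) ≤ j := by exact_mod_cast (mem_Ico.1 hj).1
          have h4 := l2_kap_abs e hY (y := j + x) (by linarith [hx.1])
          rw [norm_mul, norm_mul, Complex.norm_real, Real.norm_eq_abs]
          exact mul_le_of_le_one_left (norm_nonneg _) (mul_le_one₀ (hζ j) (abs_nonneg _) h4)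
        refine (pow_le_pow_left₀ (norm_nonneg _) h2 2).trans
          (sq_sum_le_card_mul_sum_sq.trans (le_of_eq ?_))
        rw [Nat.card_Ico, show 2 * Y - Y = Y by omega]
    _ = Y * ∑ j ∈ Ico Y (2 * Y), ∫ x in s..(s + 1), ‖dual G W c (j + x)‖ ^ 2 := by
        rw [intervalIntegral.integral_const_mul, intervalIntegral.integral_finsetSum hint]
    _ ≤ Y * (1000 * (Y * (1 + Y / G) * W.card)) :=
        mul_le_mul_of_nonneg_left (l2_diag hG hY W hc hs hs') (by positivity)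
    _ = _ := by ring

theorem l2_triv {G : ℝ} (hG : 1 ≤ G) {Y : ℕ} (hY : 1 ≤ Y) (W : Finset ℕ) {c ζ : ℕ → ℂ}
    (hc : ∀ a ∈ W, ‖c a‖ ≤ 1) (hζ : ∀ j, ‖ζ j‖ ≤ 1) (e : ℕ) :
    ∫ x in (0 : ℝ)..2, ‖per G W c ζ e Y x‖ ^ 2 ≤ 2000 * Y * (Y * (1 + Y / G) * W.card) := by
  have hp : ∀ a b : ℝ, 0 ≤ a → a ≤ b →
      IntervalIntegrable (fun x => ‖per G W c ζ e Y x‖ ^ 2) MeasureTheory.volume a b :=
    fun a b ha hab => (((per_cont G W c ζ e hY).norm.pow 2).mono fun x hx =>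
      ha.trans hx.1).intervalIntegrable_of_Icc hab
  have h0 := l2_half hG hY W hc hζ e le_rfl zero_le_one
  have h1 := l2_half hG hY W hc hζ e zero_le_one le_rfl
  rw [zero_add] at h0
  rw [one_add_one_eq_two] at h1
  rw [← intervalIntegral.integral_add_adjacent_intervals (hp 0 1 le_rfl zero_le_one)
    (hp 1 2 zero_le_one one_le_two)]
  linarith

/-- The weight of a pair of shifts. -/
theorem l2_wt {ι : Type} {I : Finset ι} {ξ : ι → ℝ} {l n M : ℕ} {g g' : ℝ → ℝ} {Bd : Finset ℤ}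
    (h : Cutf I ξ l n M g g' Bd) (hl : 1 ≤ l) (hn : 4 ≤ n) {e Y : ℕ} (he : e ≤ 1) (hY : 10 ≤ Y)
    {p q : ℝ} (hp : (Y : ℝ) ≤ p) (hq : (Y : ℝ) ≤ q) : ∃ γ' : ℝ → ℝ,
    Wt (2 * n) (fun x => g (n * l * x) * (kap e Y (p + x) * kap e Y (q + x))) γ' := by
  obtain ⟨κ', d1, d2, d3⟩ := l2_kap_der he Y
  have hY' : (10 : ℝ) ≤ Y := by exact_mod_cast hY
  have hn' : (4 : ℝ) ≤ n := by exact_mod_cast hn
  have hl' : (1 : ℝ) ≤ l := by exact_mod_cast hl
  have hL : (0 : ℝ) < n * l := by positivity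
  have hgc : Continuous g := continuous_iff_continuousAt.2 fun x => (h.der x).continuousAt
  have hg1 : ∀ x, |g x| ≤ 1 := fun x => by rw [abs_of_nonneg (h.nonneg x)]; exact h.le_one x
  have hz : ∀ x, x ≤ 0 → g (n * l * x) = 0 := fun x hx =>
    h.left _ (mul_nonpos_of_nonneg_of_nonpos hL.le hx)
  refine ⟨fun x => g' (n * l * x) * (n * l) * (kap e Y (p + x) * kap e Y (q + x)) +
    g (n * l * x) * (κ' (p + x) * kap e Y (q + x) + kap e Y (p + x) * κ' (q + x)),
    fun x hx => ?_, ?_, fun x => ?_, fun x hx => ?_, fun x hx => by rw [hz x hx, zero_mul],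
    fun x hx => ?_⟩
  · have a1 : HasDerivAt (fun x => g (n * l * x)) (g' (n * l * x) * (n * l)) x :=
      ((h.der _).comp x ((hasDerivAt_id x).const_mul ((n : ℝ) * l))).congr_deriv (by simp)
    exact a1.mul (((d1 _ (by linarith [hx.1])).comp_const_add p x).mul
      ((d1 _ (by linarith [hx.1])).comp_const_add q x))
  · have c1 := l2_shift_cont (l2_kap_cont e Y) (d := p) (a := -3) (b := 4) (by linarith)
    have c2 := l2_shift_cont (l2_kap_cont e Y) (d := q) (a := -3) (b := 4) (by linarith)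
    have c3 := l2_shift_cont d2 (d := p) (a := -3) (b := 4) (by linarith)
    have c4 := l2_shift_cont d2 (d := q) (a := -3) (b := 4) (by linarith)
    have c5 : Continuous fun x : ℝ => g' (n * l * x) * (n * l) :=
      (h.cont.comp (by fun_prop)).mul continuous_const
    have c6 : Continuous fun x : ℝ => g (n * l * x) := hgc.comp (by fun_prop)
    exact (c5.continuousOn.mul (c1.mul c2)).add (c6.continuousOn.mul ((c3.mul c2).add (c1.mul c4)))
  · rcases le_total x 0 with hx | hx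
    · rw [hz x hx]; simp
    · rw [abs_mul, abs_mul]
      exact mul_le_one₀ (hg1 _) (by positivity) (mul_le_one₀
        (l2_kap_abs e (by omega) (by linarith)) (abs_nonneg _)
        (l2_kap_abs e (by omega) (by linarith)))
  · rcases le_total x 0 with hx0 | hx0
    · have hm : IsLocalMin g (n * l * x) :=
        Filter.Eventually.of_forall fun y => by rw [hz x hx0]; exact h.nonneg y
      rw [hz x hx0, hm.hasDerivAt_eq_zero (h.der _)]
      simp
    · have k1 := l2_kap_abs e (Y := Y) (y := p + x) (by omega) (by linarith)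
      have k2 := l2_kap_abs e (Y := Y) (y := q + x) (by omega) (by linarith)
      have k3 := d3 (p + x) (by linarith) (by linarith)
      have k4 := d3 (q + x) (by linarith) (by linarith)
      have k5 : |g' (n * l * x) * (n * l)| ≤ 3 / 2 * n := by
        rw [abs_mul, abs_of_pos hL]
        have := h.bd (n * l * x)
        nlinarith
      have k6 : |kap e Y (p + x) * kap e Y (q + x)| ≤ 1 := by
        rw [abs_mul]; exact mul_le_one₀ k1 (abs_nonneg _) k2
      have k7 : |κ' (p + x) * kap e Y (q + x)| ≤ 1 := by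
        rw [abs_mul]; exact mul_le_one₀ k3 (abs_nonneg _) k2
      have k8 : |kap e Y (p + x) * κ' (q + x)| ≤ 1 := by
        rw [abs_mul]; exact mul_le_one₀ k1 (abs_nonneg _) k4
      have k9 : |κ' (p + x) * kap e Y (q + x) + kap e Y (p + x) * κ' (q + x)| ≤ 2 :=
        (abs_add_le _ _).trans (by linarith)
      refine (abs_add_le _ _).trans ?_
      rw [abs_mul (g' _ * _), abs_mul (g _)]
      have m1 := mul_le_mul k5 k6 (abs_nonneg _) (by positivity)
      have m2 := mul_le_mul (hg1 (n * l * x)) k9 (abs_nonneg _) zero_le_one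
      linarith
  · rw [h.right _ (le_mul_of_one_le_right hL.le hx), zero_mul]

/-- Expansion of the weighted mean square. -/
theorem l2_expand (G : ℝ) (W : Finset ℕ) (c : ℕ → ℂ) {ζ : ℕ → ℂ} (hζ : ∀ j, ‖ζ j‖ ≤ 1) (e : ℕ)
    {Y : ℕ} (hY : 1 ≤ Y) {g : ℝ → ℝ} (hg : Continuous g) :
    ∫ x in (0 : ℝ)..1, g x * ‖per G W c ζ e Y x‖ ^ 2 ≤
      ∑ j ∈ Ico Y (2 * Y), ∑ j' ∈ Ico Y (2 * Y),
        ‖∫ x in (0 : ℝ)..1, ((g x * (kap e Y (j + x) * kap e Y (j' + x)) : ℝ) : ℂ) *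
          (dual G W c (j + x) * (starRingEnd ℂ) (dual G W c (j' + x)))‖ := by
  have h1 : (1 : ℝ) ≤ Y := by exact_mod_cast hY
  have hint : ∀ j ∈ Ico Y (2 * Y), ∀ j' ∈ Ico Y (2 * Y), IntervalIntegrable (fun x : ℝ =>
      ζ j * (starRingEnd ℂ) (ζ j') * (((g x * (kap e Y (j + x) * kap e Y (j' + x)) : ℝ) : ℂ) *
        (dual G W c (j + x) * (starRingEnd ℂ) (dual G W c (j' + x)))))
      MeasureTheory.volume 0 1 := by
    intro j hj j' hj'
    have a1 : (Y : ℝ) ≤ j := by exact_mod_cast (mem_Ico.1 hj).1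
    have a2 : (Y : ℝ) ≤ j' := by exact_mod_cast (mem_Ico.1 hj').1
    have c1 := l2_shift_cont (l2_kap_cont e Y) (d := j) (a := 0) (b := 1) (by linarith)
    have c2 := l2_shift_cont (l2_kap_cont e Y) (d := j') (a := 0) (b := 1) (by linarith)
    have c3 := l2_shift_cont (dual_cont G W c) (d := j) (a := 0) (b := 1) (by linarith)
    have c4 := l2_shift_cont (dual_cont G W c) (d := j') (a := 0) (b := 1) (by linarith)
    exact (continuousOn_const.mul ((Complex.continuous_ofReal.comp_continuousOn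
      (hg.continuousOn.mul (c1.mul c2))).mul (c3.mul
        (Complex.continuous_conj.comp_continuousOn c4)))).intervalIntegrable_of_Icc zero_le_one
  have e1 : ∀ x : ℝ, ((g x * ‖per G W c ζ e Y x‖ ^ 2 : ℝ) : ℂ) =
      ∑ j ∈ Ico Y (2 * Y), ∑ j' ∈ Ico Y (2 * Y), ζ j * (starRingEnd ℂ) (ζ j') *
        (((g x * (kap e Y (j + x) * kap e Y (j' + x)) : ℝ) : ℂ) *
          (dual G W c (j + x) * (starRingEnd ℂ) (dual G W c (j' + x)))) := by
    intro x
    rw [Complex.ofReal_mul, Complex.ofReal_pow, ← Complex.mul_conj']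
    unfold per
    rw [map_sum, sum_mul_sum, mul_sum]
    refine sum_congr rfl fun j _ => ?_
    rw [mul_sum]
    refine sum_congr rfl fun j' _ => ?_
    rw [map_mul, map_mul, Complex.conj_ofReal]
    push_cast
    ring
  refine (le_abs_self _).trans ?_
  rw [← Real.norm_eq_abs, ← Complex.norm_real, ← intervalIntegral.integral_ofReal]
  simp only [e1]
  rw [intervalIntegral.integral_finsetSum fun j hj => by
    have := IntervalIntegrable.sum _ (hint j hj)
    rwa [Finset.sum_fn] at this]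
  refine (norm_sum_le _ _).trans (sum_le_sum fun j hj => ?_)
  rw [intervalIntegral.integral_finsetSum (hint j hj)]
  refine (norm_sum_le _ _).trans (sum_le_sum fun j' _ => ?_)
  rw [intervalIntegral.integral_const_mul, norm_mul, norm_mul, Complex.norm_conj]
  exact mul_le_of_le_one_left (norm_nonneg _) (mul_le_one₀ (hζ j) (norm_nonneg _) (hζ j'))

theorem l2_swap (u v : ℝ → ℂ) (g p q : ℝ → ℝ) :
    ‖∫ x in (0 : ℝ)..1, ((g x * (p x * q x) : ℝ) : ℂ) * (u x * (starRingEnd ℂ) (v x))‖ =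
      ‖∫ x in (0 : ℝ)..1, ((g x * (q x * p x) : ℝ) : ℂ) * (v x * (starRingEnd ℂ) (u x))‖ := by
  rw [← Complex.norm_conj, ← intervalIntegral.intervalIntegral_conj]
  congr 2
  funext x
  rw [map_mul, map_mul, Complex.conj_ofReal, Complex.conj_conj, mul_comm (p x), mul_comm (v x)]

theorem l2_bar {G th k X Y : ℕ} {al : ℕ → ℕ} {W : Finset ℕ} (hp : Par G th k X)
    (hW : Win G th k al W) (hY : 10 ≤ Y) (hYG : Y ≤ G ^ 2) :
    ∃ (g : ℝ → ℝ) (Bd : Finset ℤ), Continuous g ∧ (∀ x, 0 ≤ g x) ∧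
      Bd.card * th ^ (X + 23) ≤ 4 * th ^ (X + 23) + 5 * G ^ 4 * th ^ (2 * k) ∧
      (∀ θ : ℝ, 0 ≤ θ → θ < 1 → (∀ b ∈ Bd, 3 * (th : ℝ) ^ (X + 21) <
          |(th : ℝ) ^ (2 * k) * θ - b * (th : ℝ) ^ (X + 21)|) →
        θ + (th : ℝ) ^ (X + 21) / (th : ℝ) ^ (2 * k) ≤ 1 ∧
          ∀ x ∈ Set.Icc θ (θ + (th : ℝ) ^ (X + 21) / (th : ℝ) ^ (2 * k)), g x = 1) ∧
      ∀ (c ζ : ℕ → ℂ) (e : ℕ), e ≤ 1 → (∀ a ∈ W, ‖c a‖ ≤ 1) → (∀ j, ‖ζ j‖ ≤ 1) →
        ∫ x in (0 : ℝ)..1, g x * ‖per G W c ζ e Y x‖ ^ 2 ≤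
          2000 * (Y * (1 + Y / G) * W.card) := by
  have hth : 1000 ≤ th := hp.big.h1000
  have hth0 : 0 < th := by omega
  have hthR : (0 : ℝ) < th := by exact_mod_cast hth0
  have hX := hp.hX
  have hl : 1 ≤ th ^ (X + 21) := Nat.one_le_pow _ _ hth0
  obtain ⟨g, g', Bd, h⟩ := exists_cutf ((Ico Y (2 * Y) ×ˢ Ico 1 Y) ×ˢ (W ×ˢ W))
    (fun i => psn ((th : ℝ) ^ (2 * k)) i.1.2 i.1.1 i.2.1 i.2.2) hl (th ^ (2 * k - (X + 21)))
    (th ^ (X + 25))
  have hn : 4 ≤ th ^ (2 * k - (X + 21)) :=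
    le_trans (by omega) (Nat.le_self_pow (by omega) th)
  have hL : ((th ^ (2 * k - (X + 21)) : ℕ) : ℝ) * ((th ^ (X + 21) : ℕ) : ℝ) =
      (th : ℝ) ^ (2 * k) := by
    push_cast
    rw [← pow_add, Nat.sub_add_cancel (by omega)]
  have hlR : ((th ^ (X + 21) : ℕ) : ℝ) = (th : ℝ) ^ (X + 21) := Nat.cast_pow _ _
  have hL0 : (0 : ℝ) < (th : ℝ) ^ (2 * k) := by positivity
  have hgc : Continuous g := continuous_iff_continuousAt.2 fun x => (h.der x).continuousAt
  have hgc' : Continuous fun x : ℝ => g ((th : ℝ) ^ (2 * k) * x) := hgc.comp (by fun_prop)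
  refine ⟨fun x => g ((th : ℝ) ^ (2 * k) * x), Bd, hgc', fun x => h.nonneg _, ?_, ?_, ?_⟩
  · have h1 := h.few
    have h2 : ((Ico Y (2 * Y) ×ˢ Ico 1 Y) ×ˢ (W ×ˢ W)).card ≤ G ^ 4 * th ^ (2 * k) * th ^ 2 := by
      rw [card_product, card_product, card_product, Nat.card_Ico, Nat.card_Ico]
      calc _ ≤ G ^ 2 * G ^ 2 * (th ^ (k + 1) * th ^ (k + 1)) :=
            Nat.mul_le_mul (Nat.mul_le_mul (by omega) (by omega)) (Nat.mul_le_mul hW.card hW.card)
        _ = _ := by ring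
    refine Nat.le_of_mul_le_mul_right ?_ (pow_pos hth0 2)
    calc _ = Bd.card * th ^ (X + 25) := by ring
      _ ≤ 4 * th ^ (X + 25) + 5 * (G ^ 4 * th ^ (2 * k) * th ^ 2) := by omega
      _ = _ := by ring
  · intro θ h0 h1 hb
    obtain ⟨a1, a2⟩ := h.one ((th : ℝ) ^ (2 * k) * θ) (by positivity)
      (by rw [hL]; exact mul_lt_of_lt_one_right hL0 h1) (by rw [hlR]; exact hb)
    rw [hL, hlR] at a1
    rw [hlR] at a2
    have e1 : (th : ℝ) ^ (2 * k) * (θ + (th : ℝ) ^ (X + 21) / (th : ℝ) ^ (2 * k)) =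
        (th : ℝ) ^ (2 * k) * θ + (th : ℝ) ^ (X + 21) := by field_simp
    refine ⟨le_of_mul_le_mul_left (by rw [e1, mul_one]; exact a1) hL0, fun x hx => a2 _
      ⟨mul_le_mul_of_nonneg_left hx.1 hL0.le, ?_⟩⟩
    rw [← e1]
    exact mul_le_mul_of_nonneg_left hx.2 hL0.le
  · intro c ζ e he hc hζ
    have hG : 1000 ≤ G := hp.hG
    have hGR : (1 : ℝ) ≤ G := by exact_mod_cast (by omega : 1 ≤ G)
    have hYR : (10 : ℝ) ≤ Y := by exact_mod_cast hY
    have hfar : ∀ j ∈ Ico Y (2 * Y), ∀ j' ∈ Ico Y (2 * Y), j' < j →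
        ‖∫ x in (0 : ℝ)..1, ((g ((th : ℝ) ^ (2 * k) * x) *
          (kap e Y (j + x) * kap e Y (j' + x)) : ℝ) : ℂ) *
          (dual G W c (j + x) * (starRingEnd ℂ) (dual G W c (j' + x)))‖ ≤ W.card / (G : ℝ) ^ 4 := by
      intro j hj j' hj' hlt
      obtain ⟨m, rfl⟩ := Nat.exists_eq_add_of_le hlt.le
      rw [mem_Ico] at hj hj'
      have a2 : (Y : ℝ) ≤ j' := by exact_mod_cast hj'.1
      have a3 : (0 : ℝ) ≤ m := Nat.cast_nonneg m
      obtain ⟨γ', hγ⟩ := l2_wt h hl hn he hY (p := j' + m) (q := j') (by linarith) a2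
      have e2 : 2 * ((th ^ (2 * k - (X + 21)) : ℕ) : ℝ) =
          2 * (th : ℝ) ^ (2 * k) / (th : ℝ) ^ (X + 21) := by
        rw [← hL, hlR]; field_simp
      rw [hL, e2] at hγ
      rw [le_div_iff₀ (by positivity), Nat.cast_add]
      refine far_pair hp ⟨hG, hY, hYG, by omega, hj'.1, hj.2⟩ hW hc hγ fun a0 _ s0 _ hne => ?_
      have h3 := h.flat _ (left_ne_zero_of_mul hne)
      refine le_trans (card_le_card_of_injOn (fun p => ((j', m), p)) (fun p hp' => ?_)
        fun p _ p' _ hpp => (Prod.mk.inj hpp).2) h3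
      rw [mem_coe, mem_filter] at hp' ⊢
      refine ⟨mem_product.2 ⟨mem_product.2 ⟨mem_Ico.2 hj', mem_Ico.2 ⟨?_, ?_⟩⟩, hp'.1⟩, ?_⟩
      · dsimp only; omega
      · dsimp only; omega
      · rw [hlR]; exact hp'.2
    have hall : ∀ j ∈ Ico Y (2 * Y), ∀ j' ∈ Ico Y (2 * Y),
        ‖∫ x in (0 : ℝ)..1, ((g ((th : ℝ) ^ (2 * k) * x) *
          (kap e Y (j + x) * kap e Y (j' + x)) : ℝ) : ℂ) *
          (dual G W c (j + x) * (starRingEnd ℂ) (dual G W c (j' + x)))‖ ≤
          (if j = j' then ∫ x in (0 : ℝ)..(0 + 1), ‖dual G W c (j + x)‖ ^ 2 else 0) +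
            W.card / (G : ℝ) ^ 4 := by
      intro j hj j' hj'
      rcases lt_trichotomy j j' with hlt | rfl | hlt
      · rw [if_neg hlt.ne, zero_add, l2_swap]
        exact hfar j' hj' j hj hlt
      · rw [if_pos rfl, zero_add]
        refine le_trans ?_ (le_add_of_nonneg_right (by positivity))
        have a1 : (Y : ℝ) ≤ j := by exact_mod_cast (mem_Ico.1 hj).1
        refine intervalIntegral.norm_integral_le_of_norm_le zero_le_one
          (Filter.Eventually.of_forall fun x hx => ?_)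
          ((l2_shift_cont ((dual_cont G W c).norm.pow 2) (d := j)
            (by linarith)).intervalIntegrable_of_Icc zero_le_one)
        have k1 := l2_kap_abs e (Y := Y) (y := j + x) (by omega) (by linarith [hx.1])
        rw [norm_mul, norm_mul, Complex.norm_conj, Complex.norm_real, Real.norm_eq_abs,
          abs_mul, abs_mul, abs_of_nonneg (h.nonneg _), ← sq (‖dual G W c (j + x)‖)]
        exact mul_le_of_le_one_left (by positivity) (mul_le_one₀ (h.le_one _) (by positivity)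
          (mul_le_one₀ k1 (abs_nonneg _) k1))
      · rw [if_neg hlt.ne', zero_add]
        exact hfar j hj j' hj' hlt
    refine (l2_expand G W c hζ e (by omega) hgc').trans
      ((sum_le_sum fun j hj => sum_le_sum (hall j hj)).trans ?_)
    have e3 : ∀ j ∈ Ico Y (2 * Y), ∑ j' ∈ Ico Y (2 * Y),
        ((if j = j' then ∫ x in (0 : ℝ)..(0 + 1), ‖dual G W c (j + x)‖ ^ 2 else 0) +
          W.card / (G : ℝ) ^ 4) = (∫ x in (0 : ℝ)..(0 + 1), ‖dual G W c (j + x)‖ ^ 2) +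
          Y * (W.card / (G : ℝ) ^ 4) := by
      intro j hj
      rw [sum_add_distrib, sum_ite_eq, if_pos hj, sum_const, nsmul_eq_mul, Nat.card_Ico,
        show 2 * Y - Y = Y by omega]
    rw [sum_congr rfl e3, sum_add_distrib, sum_const, nsmul_eq_mul, Nat.card_Ico,
      show 2 * Y - Y = Y by omega]
    have h1 := l2_diag hGR (by omega : 1 ≤ Y) W hc le_rfl zero_le_one
    have hw : (0 : ℝ) ≤ W.card := Nat.cast_nonneg _
    have h2 : (Y : ℝ) * (Y * (W.card / (G : ℝ) ^ 4)) ≤ W.card := by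
      have h3 : (Y : ℝ) ≤ (G : ℝ) ^ 2 := by exact_mod_cast hYG
      calc _ ≤ (G : ℝ) ^ 2 * ((G : ℝ) ^ 2 * (W.card / (G : ℝ) ^ 4)) := by gcongr
        _ = _ := by field_simp
    have h4 : (W.card : ℝ) ≤ Y * (1 + Y / G) * W.card := by
      refine le_mul_of_one_le_left hw ?_
      have : (0 : ℝ) ≤ Y / G := by positivity
      nlinarith
    linarith

end Pool.Agent.Lib.MP_ecd12e_nt.ZS
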