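import Pool.Agent.Lib.MP_ecd12e_nt.ZS.Gauss
import Pool.Agent.Lib.MP_ecd12e_nt.ZS.ArithB
import Pool.Agent.Lib.MP_ecd12e_nt.ZS.L1

/-! The Gaussian mean square of a tail, summed over the windows. -/

set_option autoImplicit false

namespace Pool.Agent.Lib.MP_ecd12e_nt.ZS

open Finset Real
open Pool.Agent.Lib.MP_ecd12e_nt.Bar (ei cell cells Unif Big zc enr)

theorem mean_tail (N x : ℕ) (c u : ℝ) :
    tail N x (c + u) = ∑ n ∈ Icc x (2 * N), ei (c * Real.log n) * ei (u * Real.log n) := by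
  unfold tail
  refine Finset.sum_congr rfl fun n _ => ?_
  rw [← Bar.ei_add, add_mul]

theorem gm_integrable {G : ℝ} (hG : 0 < G) (N x : ℕ) (c : ℝ) : MeasureTheory.Integrable
    (fun u : ℝ => Real.exp (-(1 / G ^ 2) * u ^ 2) * ‖tail N x (c + u)‖ ^ 2) := by
  simp only [mean_tail]
  exact (gauss_expand (Icc x (2 * N)) (fun n : ℕ => ei (c * Real.log n))
    (fun n : ℕ => Real.log n) (b := 1 / G ^ 2) (by positivity)).1

theorem mean_gm {G : ℝ} (hG : 0 < G) (N x : ℕ) (c : ℝ) :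
    (gm G N x c : ℂ) = ((G * Real.sqrt π : ℝ) : ℂ) * ∑ n ∈ Icc x (2 * N), ∑ n' ∈ Icc x (2 * N),
      (Real.exp (-(G ^ 2 * (Real.log n - Real.log n') ^ 2 / 4)) : ℂ) *
        ei (c * (Real.log n - Real.log n')) := by
  have h := (gauss_expand (Icc x (2 * N)) (fun n : ℕ => ei (c * Real.log n))
    (fun n : ℕ => Real.log n) (b := 1 / G ^ 2) (by positivity)).2
  have h1 : Real.sqrt (π / (1 / G ^ 2)) = G * Real.sqrt π := by
    rw [show π / (1 / G ^ 2) = G ^ 2 * π by field_simp, Real.sqrt_mul (by positivity),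
      Real.sqrt_sq hG.le]
  unfold gm
  simp only [mean_tail]
  rw [h, h1]
  refine congrArg _ (Finset.sum_congr rfl fun n _ => Finset.sum_congr rfl fun n' _ => ?_)
  have h2 : (Real.log n - Real.log n') ^ 2 / (4 * (1 / G ^ 2)) =
      G ^ 2 * (Real.log n - Real.log n') ^ 2 / 4 := by field_simp
  rw [h2, Bar.conj_ei, ← Bar.ei_add, mul_comm, mul_sub, sub_eq_add_neg (c * _)]

theorem mean_lower {N x : ℕ} (hx : N ≤ x) (F : ℕ → ℕ → ℂ) :
    ∑ n ∈ Icc x (2 * N), ∑ n' ∈ (Icc x (2 * N)).filter (fun n' => n' < n), F n n' =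
      ∑ h ∈ Icc 1 N, ∑ m ∈ Icc x (2 * N - h), F (m + h) m := by
  rw [Finset.sum_sigma', Finset.sum_sigma']
  refine Finset.sum_nbij' (fun p => ⟨p.1 - p.2, p.2⟩) (fun p => ⟨p.2 + p.1, p.2⟩) ?_ ?_ ?_ ?_ ?_
  · rintro ⟨n, n'⟩ hp
    simp only [Finset.mem_sigma, Finset.mem_filter, Finset.mem_Icc] at hp ⊢
    omega
  · rintro ⟨h, m⟩ hp
    simp only [Finset.mem_sigma, Finset.mem_filter, Finset.mem_Icc] at hp ⊢
    omega
  · rintro ⟨n, n'⟩ hp
    simp only [Finset.mem_sigma, Finset.mem_filter, Finset.mem_Icc] at hp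
    have : n' + (n - n') = n := by omega
    simp only [this]
  · rintro ⟨h, m⟩ _
    simp only [Nat.add_sub_cancel_left]
  · rintro ⟨n, n'⟩ hp
    simp only [Finset.mem_sigma, Finset.mem_filter, Finset.mem_Icc] at hp
    have : n' + (n - n') = n := by omega
    simp only [this]

theorem mean_split (I : Finset ℕ) (F : ℕ → ℕ → ℂ) :
    ∑ n ∈ I, ∑ n' ∈ I, F n n' = ∑ n ∈ I, F n n +
      ∑ n ∈ I, ∑ n' ∈ I.filter (fun n' => n' < n), F n n' +
      ∑ n ∈ I, ∑ n' ∈ I.filter (fun n' => n' < n), F n' n := by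
  have h1 : ∑ n ∈ I, ∑ n' ∈ I.filter (fun n' => n' < n), F n' n =
      ∑ n ∈ I, ∑ n' ∈ I, if n < n' then F n n' else 0 := by
    rw [Finset.sum_comm]
    exact Finset.sum_congr rfl fun n _ => Finset.sum_filter _ _
  rw [h1, ← Finset.sum_add_distrib, ← Finset.sum_add_distrib]
  refine Finset.sum_congr rfl fun n hn => ?_
  have h2 : F n n = ∑ n' ∈ I, if n = n' then F n n' else 0 := by
    rw [Finset.sum_ite_eq, if_pos hn]
  rw [h2, Finset.sum_filter, ← Finset.sum_add_distrib, ← Finset.sum_add_distrib]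
  refine Finset.sum_congr rfl fun n' _ => ?_
  rcases lt_trichotomy n n' with h | h | h
  · rw [if_neg h.ne, if_neg h.not_gt, if_pos h, zero_add, zero_add]
  · subst h
    rw [if_pos rfl, if_neg (lt_irrefl n), add_zero, add_zero]
  · rw [if_neg h.ne', if_pos h, if_neg h.not_gt, zero_add, add_zero]

theorem mean_log {m h : ℕ} (hm : 1 ≤ m) (hh : 1 ≤ h) :
    Real.log ((m + h : ℕ) : ℝ) - Real.log m = lg ((m : ℝ) / h) := by
  have hm' : (0 : ℝ) < m := by exact_mod_cast hm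
  have hh' : (0 : ℝ) < h := by exact_mod_cast hh
  unfold lg
  rw [← Real.log_div (by positivity) hm'.ne']
  refine congrArg _ ?_
  push_cast
  field_simp

theorem mean_expand {G : ℝ} (hG : 0 < G) {N x : ℕ} (hN : 1 ≤ N) (hx : N ≤ x) (W : Finset ℕ) :
    ∑ a ∈ W, gm G N x (G * a) ≤ 2 * G * (2 * N * W.card +
      2 * ‖offd N x (fun y => Real.exp (-(G ^ 2 * lg y ^ 2 / 4))) (dual G W (fun _ => 1))‖) := by
  set O := offd N x (fun y => Real.exp (-(G ^ 2 * lg y ^ 2 / 4))) (dual G W (fun _ => 1))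
    with hO
  let F : ℕ → ℕ → ℂ := fun n n' =>
    (Real.exp (-(G ^ 2 * (Real.log n - Real.log n') ^ 2 / 4)) : ℂ) *
      ∑ a ∈ W, ei (G * a * (Real.log n - Real.log n'))
  have h1 : ((∑ a ∈ W, gm G N x (G * a) : ℝ) : ℂ) =
      ((G * Real.sqrt π : ℝ) : ℂ) * ∑ n ∈ Icc x (2 * N), ∑ n' ∈ Icc x (2 * N), F n n' := by
    rw [Complex.ofReal_sum]
    simp only [mean_gm hG]
    rw [← Finset.mul_sum, Finset.sum_comm]
    refine congrArg _ (Finset.sum_congr rfl fun n _ => ?_)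
    rw [Finset.sum_comm]
    exact Finset.sum_congr rfl fun n' _ => (Finset.mul_sum _ _ _).symm
  have h2 : ∑ n ∈ Icc x (2 * N), ∑ n' ∈ (Icc x (2 * N)).filter (fun n' => n' < n), F n n' =
      O := by
    rw [mean_lower hx, hO, offd]
    refine Finset.sum_congr rfl fun h hh => Finset.sum_congr rfl fun m hm => ?_
    have hm1 : 1 ≤ m := hN.trans (hx.trans (Finset.mem_Icc.1 hm).1)
    simp only [F, mean_log hm1 (Finset.mem_Icc.1 hh).1, dual, one_mul]
  have h3 : ∀ n n', F n' n = (starRingEnd ℂ) (F n n') := fun n n' => by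
    simp only [F, map_mul, map_sum, Complex.conj_ofReal, Bar.conj_ei]
    rw [show (Real.log n' - Real.log n) ^ 2 = (Real.log n - Real.log n') ^ 2 by ring]
    refine congrArg _ (Finset.sum_congr rfl fun a _ => congrArg _ ?_)
    ring
  have h4 : ∑ n ∈ Icc x (2 * N), ∑ n' ∈ (Icc x (2 * N)).filter (fun n' => n' < n), F n' n =
      (starRingEnd ℂ) O := by
    rw [← h2, map_sum]
    refine Finset.sum_congr rfl fun n _ => ?_
    rw [map_sum]
    exact Finset.sum_congr rfl fun n' _ => h3 n n'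
  have h5 : ‖∑ n ∈ Icc x (2 * N), F n n‖ ≤ 2 * N * W.card := by
    have h6 : ∀ n, F n n = W.card := fun n => by simp [F, Bar.ei_zero]
    simp only [h6, Finset.sum_const, nsmul_eq_mul, norm_mul, Complex.norm_natCast, Nat.card_Icc]
    refine mul_le_mul_of_nonneg_right ?_ (Nat.cast_nonneg _)
    have : 2 * N + 1 - x ≤ 2 * N := by omega
    exact_mod_cast this
  rw [mean_split, h2, h4] at h1
  have h7 : Real.sqrt π ≤ 2 := by
    rw [Real.sqrt_le_iff]
    exact ⟨by norm_num, by linarith [Real.pi_lt_four]⟩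
  have h8 := congrArg norm h1
  rw [Complex.norm_real, norm_mul, Complex.norm_real, Real.norm_eq_abs, Real.norm_eq_abs,
    abs_of_nonneg (a := G * Real.sqrt π) (by positivity)] at h8
  refine (le_abs_self _).trans (h8.le.trans ?_)
  refine mul_le_mul (by nlinarith) ?_ (norm_nonneg _) (by positivity)
  refine norm_add₃_le.trans ?_
  rw [Complex.norm_conj]
  linarith

theorem mean_lg_nonneg {y : ℝ} (hy : 0 < y) : 0 ≤ lg y :=
  Real.log_nonneg (le_add_of_nonneg_right (by positivity))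

theorem mean_lg_anti {y y' : ℝ} (hy : 0 < y) (h : y ≤ y') : lg y' ≤ lg y := by
  have hy' : 0 < y' := hy.trans_le h
  have := one_div_le_one_div_of_le hy h
  exact Real.log_le_log (by positivity) (by linarith)

theorem mean_kap {G Y : ℝ} (hY : 1 ≤ Y) :
    Real.exp (-(G ^ 2 * lg (2 * Y) ^ 2 / 4)) * G ^ 2 ≤ 36 * Y ^ 2 := by
  have hY0 : 0 < Y := by linarith
  have h1 : 1 / (3 * Y) ≤ lg (2 * Y) := by
    have h := Real.one_sub_inv_le_log_of_pos (x := 1 + 1 / (2 * Y)) (by positivity)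
    refine le_trans ?_ h
    have h2 : 1 - (1 + 1 / (2 * Y))⁻¹ = 1 / (2 * Y + 1) := by field_simp; ring
    rw [h2]
    exact one_div_le_one_div_of_le (by positivity) (by linarith)
  have h2 : (1 / (3 * Y)) ^ 2 ≤ lg (2 * Y) ^ 2 := pow_le_pow_left₀ (by positivity) h1 2
  have h3 : G ^ 2 ≤ 36 * Y ^ 2 * (G ^ 2 * lg (2 * Y) ^ 2 / 4) := by
    calc G ^ 2 = 9 * Y ^ 2 * G ^ 2 * (1 / (3 * Y)) ^ 2 := by field_simp; ring
      _ ≤ 9 * Y ^ 2 * G ^ 2 * lg (2 * Y) ^ 2 := mul_le_mul_of_nonneg_left h2 (by positivity)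
      _ = _ := by ring
  set u := G ^ 2 * lg (2 * Y) ^ 2 / 4
  have h4 : u ≤ Real.exp u := by linarith [Real.add_one_le_exp u]
  rw [Real.exp_neg, inv_mul_le_iff₀ (Real.exp_pos u)]
  calc G ^ 2 ≤ 36 * Y ^ 2 * u := h3
    _ ≤ 36 * Y ^ 2 * Real.exp u := mul_le_mul_of_nonneg_left h4 (by positivity)
    _ = _ := by ring

theorem mean_num {G Y κ m : ℝ} (hG : 1 ≤ G) (hY : 1 ≤ Y) (h0 : 0 ≤ κ) (h1 : κ ≤ 1)
    (h2 : κ * G ^ 2 ≤ 36 * Y ^ 2) (hm : m = 1 ∨ (m = Y ∧ G ^ 2 ≤ Y)) :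
    κ ^ 2 * m * (1 + Y / G) * G ^ 3 ≤ 3000 * Y ^ 3 := by
  have hG0 : 0 < G := by linarith
  have hY0 : 0 < Y := by linarith
  have h3 : κ ^ 2 * m * (1 + Y / G) * G ^ 3 = κ ^ 2 * (m * ((G + Y) * G ^ 2)) := by
    field_simp
  have hκ : κ ^ 2 ≤ 1 := pow_le_one₀ h0 h1
  have hY3 : 0 < Y ^ 3 := by positivity
  rw [h3]
  rcases hm with rfl | ⟨rfl, hm⟩
  · rcases le_total Y G with h | h
    · refine le_of_mul_le_mul_right ?_ hG0
      have h4 : (κ * G ^ 2) ^ 2 ≤ (36 * Y ^ 2) ^ 2 := pow_le_pow_left₀ (by positivity) h2 2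
      calc κ ^ 2 * (1 * ((G + Y) * G ^ 2)) * G = κ ^ 2 * G ^ 3 * (G + Y) := by ring
        _ ≤ κ ^ 2 * G ^ 3 * (G + G) := mul_le_mul_of_nonneg_left (by linarith) (by positivity)
        _ = 2 * (κ * G ^ 2) ^ 2 := by ring
        _ ≤ 2 * (36 * Y ^ 2) ^ 2 := by linarith
        _ = 2592 * Y ^ 3 * Y := by ring
        _ ≤ 3000 * Y ^ 3 * G := mul_le_mul (by linarith) h hY0.le (by positivity)
    · have h4 : G ^ 2 ≤ Y ^ 2 := pow_le_pow_left₀ hG0.le h 2
      calc κ ^ 2 * (1 * ((G + Y) * G ^ 2)) ≤ 1 * (1 * ((Y + Y) * Y ^ 2)) := by gcongr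
        _ = 2 * Y ^ 3 := by ring
        _ ≤ _ := by linarith
  · have h4 : G ≤ m := by nlinarith
    calc κ ^ 2 * (m * ((G + m) * G ^ 2)) ≤ 1 * (m * ((m + m) * m)) := by gcongr
      _ = 2 * m ^ 3 := by ring
      _ ≤ _ := by linarith

theorem mean_sq {G Y H N L R κ m Z : ℝ} (hG : 1 ≤ G) (hY : 1 ≤ Y) (hH : 1 ≤ H) (hN : 0 ≤ N)
    (hL : 0 ≤ L) (hR : 0 ≤ R) (hYH : Y * H ≤ 2 * N) (hNS : N ^ 2 ≤ 4 * G ^ 7 * L)
    (hm0 : 0 ≤ m) (hm : κ ^ 2 * m * (1 + Y / G) * G ^ 3 ≤ 3000 * Y ^ 3)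
    (hZ : Z ^ 2 ≤ 100000 * m * (1 / (1 / (4 * H ^ 2))) *
      (1 / (1 / (4 * H ^ 2)) + 4 * G ^ 7 * L / Y ^ 2) * (Y * (1 + Y / G) * R)) :
    κ * (N / (Y * H)) * Z ≤ 2 * 10 ^ 5 * N * Real.sqrt (4 * G ^ 4 * L * R) := by
  have hG0 : 0 < G := by linarith
  have hY0 : 0 < Y := by linarith
  have hH0 : 0 < H := by linarith
  rw [one_div_one_div] at hZ
  have h1 : 4 * H ^ 2 ≤ 16 * (4 * G ^ 7 * L / Y ^ 2) := by
    have h2 : (Y * H) ^ 2 ≤ (2 * N) ^ 2 := pow_le_pow_left₀ (by positivity) hYH 2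
    rw [← mul_div_assoc, le_div_iff₀ (by positivity)]
    nlinarith
  have h2 : Z ^ 2 ≤ 100000 * m * (4 * H ^ 2) * (17 * (4 * G ^ 7 * L / Y ^ 2)) *
      (Y * (1 + Y / G) * R) := by
    refine hZ.trans (mul_le_mul_of_nonneg_right (mul_le_mul_of_nonneg_left ?_ ?_) ?_)
    · linarith
    · positivity
    · positivity
  refine le_trans (le_abs_self _) (abs_le_of_sq_le_sq ?_ (by positivity))
  rw [mul_pow _ (Real.sqrt _), Real.sq_sqrt (by positivity), mul_pow _ Z]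
  calc (κ * (N / (Y * H))) ^ 2 * Z ^ 2
      ≤ (κ * (N / (Y * H))) ^ 2 * (100000 * m * (4 * H ^ 2) * (17 * (4 * G ^ 7 * L / Y ^ 2)) *
        (Y * (1 + Y / G) * R)) := mul_le_mul_of_nonneg_left h2 (sq_nonneg _)
    _ = (κ ^ 2 * m * (1 + Y / G) * G ^ 3) * (6800000 * N ^ 2 * (4 * G ^ 4 * L * R) / Y ^ 3) := by
        field_simp
        ring
    _ ≤ (3000 * Y ^ 3) * (6800000 * N ^ 2 * (4 * G ^ 4 * L * R) / Y ^ 3) :=
        mul_le_mul_of_nonneg_right hm (by positivity)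
    _ = 20400000000 * (N ^ 2 * (4 * G ^ 4 * L * R)) := by
        field_simp
        ring
    _ ≤ 40000000000 * (N ^ 2 * (4 * G ^ 4 * L * R)) :=
        mul_le_mul_of_nonneg_right (by norm_num) (by positivity)
    _ = _ := by ring

theorem mean_bound {G th k X N x : ℕ} {al : ℕ → ℕ} {W : Finset ℕ} (hp : Par G th k X)
    (hW : Win G th k al W) (hN : 1 ≤ N) (hx : N ≤ x)
    (hNS : (N : ℝ) ^ 2 ≤ 4 * (G : ℝ) ^ 7 * (th : ℝ) ^ (2 * k)) :
    ∑ a ∈ W, gm G N x (G * a) ≤ 4 * G * N * W.card + 10 ^ 8 * G * (1 + Real.log N) ^ 3 * N *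
      Real.sqrt (4 * (G : ℝ) ^ 4 * (th : ℝ) ^ (2 * k) * W.card) := by
  have hG : (1 : ℝ) ≤ G := by exact_mod_cast le_trans (by norm_num) hp.hG
  have hG0 : (0 : ℝ) < G := by linarith
  have h1 := mean_expand hG0 hN hx W
  have h2 := arith hN hx (κ := fun y => Real.exp (-((G : ℝ) ^ 2 * lg y ^ 2 / 4)))
    (dual G W (fun _ => 1))
    (B := 2 * 10 ^ 5 * N * Real.sqrt (4 * (G : ℝ) ^ 4 * (th : ℝ) ^ (2 * k) * W.card))
    (fun y => (Real.exp_pos _).le) (fun y y' hy h => by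
      have h3 : lg y' ^ 2 ≤ lg y ^ 2 :=
        pow_le_pow_left₀ (mean_lg_nonneg (hy.trans_le h)) (mean_lg_anti hy h) 2
      have h4 := mul_le_mul_of_nonneg_left h3 (sq_nonneg (G : ℝ))
      exact Real.exp_le_exp.2 (by linarith)) (fun Y H hY hH hYH Θ ζ hsep hΘ hζ => by
      have hY' : (1 : ℝ) ≤ Y := by exact_mod_cast hY
      have hH' : (1 : ℝ) ≤ H := by exact_mod_cast hH
      have h3 := l1_all hp hW hY hζ (δ := 1 / (4 * (H : ℝ) ^ 2)) (by positivity)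
        (by rw [div_le_one (by positivity)]; nlinarith) Θ hsep hΘ
      simp only [per, kap, pow_zero, Complex.ofReal_one, mul_one] at h3
      refine mean_sq hG hY' hH' (Nat.cast_nonneg _) (by positivity) (Nat.cast_nonneg _)
        (by exact_mod_cast hYH) hNS ?_ (mean_num hG hY' (Real.exp_pos _).le ?_ (mean_kap hY') ?_)
        h3
      · split_ifs <;> positivity
      · exact Real.exp_le_one_iff.2 (neg_nonpos.2 (by positivity))
      · split_ifs with h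
        · exact Or.inl rfl
        · exact Or.inr ⟨rfl, by exact_mod_cast (not_le.1 h).le⟩)
  have hlog : 0 ≤ Real.log N := Real.log_natCast_nonneg N
  have h3 : 0 ≤ G * (1 + Real.log N) ^ 3 * N *
      Real.sqrt (4 * (G : ℝ) ^ 4 * (th : ℝ) ^ (2 * k) * W.card) := by positivity
  have h4 := mul_le_mul_of_nonneg_left h2 hG0.le
  nlinarith

end Pool.Agent.Lib.MP_ecd12e_nt.ZS
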