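import Pool.Agent.Lib.MP_ecd12e_nt.ZS.Defs

/-! The explicit kernel: the stationary point, its derivatives, and the curvature. -/

namespace Pool.Agent.Lib.MP_ecd12e_nt.ZS

open Real

theorem rt_disc {m r : ℝ} (hm : 0 < m) (hr : 1 < r) :
    0 < 4 * (r - 1) * m * (m + 1) := by
  have : 0 < r - 1 := by linarith
  positivity

theorem yr_pos {m r : ℝ} (hm : 0 < m) (hr : 1 < r) : 0 < yr m r := by
  have h := rt_disc hm hr
  refine div_pos ?_ (by linarith)
  have h1 : |2 * m + 1 - r| < √((2 * m + 1 - r) ^ 2 + 4 * (r - 1) * m * (m + 1)) :=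
    Real.lt_sqrt_of_sq_lt (by rw [sq_abs]; linarith)
  linarith [neg_abs_le (2 * m + 1 - r)]

theorem yr_quad {m r : ℝ} (hm : 0 < m) (hr : 1 < r) :
    (yr m r + m) * (yr m r + m + 1) = r * (yr m r * (yr m r + 1)) := by
  have h := rt_disc hm hr
  have h1 := Real.sq_sqrt (show 0 ≤ (2 * m + 1 - r) ^ 2 + 4 * (r - 1) * m * (m + 1) by positivity)
  have h2 : yr m r * (2 * (r - 1)) =
      (2 * m + 1 - r) + √((2 * m + 1 - r) ^ 2 + 4 * (r - 1) * m * (m + 1)) :=
    div_mul_cancel₀ _ (by linarith)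
  refine mul_left_cancel₀ (show 4 * (r - 1) ≠ 0 by linarith) ?_
  generalize yr m r = y at *
  generalize √((2 * m + 1 - r) ^ 2 + 4 * (r - 1) * m * (m + 1)) = q at *
  linear_combination (-(y * (2 * (r - 1)) - (2 * m + 1 - r) + q)) * h2 - h1

theorem rho_yr {m r : ℝ} (hm : 0 < m) (hr : 1 < r) : rho m (yr m r) = r := by
  have h := yr_pos hm hr
  rw [rho, yr_quad hm hr, mul_div_cancel_right₀ _ (by positivity)]

theorem Dq_pos {m y : ℝ} (hm : 0 < m) (hy : 0 < y) : 0 < Dq m y := by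
  unfold Dq
  positivity

theorem Lm_pos {m y : ℝ} (hm : 0 < m) (hy : 0 < y) : 0 < Lm m y := by
  have := Dq_pos hm hy
  unfold Lm
  positivity

theorem hasDerivAt_yr {m r : ℝ} (hm : 0 < m) (hr : 1 < r) :
    HasDerivAt (yr m) (-(r * Lm m (yr m r))⁻¹) r := by
  have h := rt_disc hm hr
  have y0 := yr_pos hm hr
  have hq := yr_quad hm hr
  have d0 : 0 < (2 * m + 1 - r) ^ 2 + 4 * (r - 1) * m * (m + 1) := by positivity
  have h2 : yr m r * (2 * (r - 1)) =
      (2 * m + 1 - r) + √((2 * m + 1 - r) ^ 2 + 4 * (r - 1) * m * (m + 1)) :=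
    div_mul_cancel₀ _ (by linarith)
  have a1 : HasDerivAt (fun r : ℝ => 2 * m + 1 - r) (-1) r := (hasDerivAt_id r).const_sub _
  have a2 : HasDerivAt (fun r : ℝ => (2 * m + 1 - r) ^ 2 + 4 * (r - 1) * m * (m + 1))
      (-2 * (2 * m + 1 - r) + 4 * m * (m + 1)) r := by
    have := (a1.pow 2).add (((((hasDerivAt_id r).sub_const 1).const_mul 4).mul_const m).mul_const
      (m + 1))
    exact this.congr_deriv (by simp)
  have a3 := (a1.add (a2.sqrt d0.ne')).div
    (((hasDerivAt_id r).sub_const 1).const_mul 2) (show 2 * (id r - 1) ≠ 0 by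
      simp only [id]; linarith)
  refine HasDerivAt.congr_deriv a3 ?_
  have q0 := Real.sqrt_pos.2 d0
  have D0 := Dq_pos hm y0
  simp only [Pi.add_apply, id]
  clear a1 a2 a3
  generalize yr m r = y at *
  generalize √((2 * m + 1 - r) ^ 2 + 4 * (r - 1) * m * (m + 1)) = q at *
  have e0 : m * Dq m y = q * (y * (y + 1)) := by
    unfold Dq
    linear_combination (y * (y + 1)) * h2 + (2 * y + 1) * hq
  have r0 : r ≠ 0 := by linarith
  have e1 : (r * Lm m y)⁻¹ = y * (y + 1) / q := by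
    rw [Lm, hq, e0]
    field_simp
  have r1 : r - 1 ≠ 0 := by linarith
  rw [e1, ← h2]
  field_simp
  linear_combination 4 * hq + 2 * (2 * y + 1) * h2

theorem hasDerivAt_lg {y : ℝ} (hy : 0 < y) : HasDerivAt lg (-(y * (y + 1))⁻¹) y := by
  have h : HasDerivAt (fun y : ℝ => 1 + 1 / y) (-(y ^ 2)⁻¹) y := by
    simpa only [one_div] using (hasDerivAt_inv hy.ne').const_add 1
  refine (h.log (by positivity)).congr_deriv ?_
  field_simp

theorem yr_da {m a s : ℝ} (hm : 0 < m) (hs : 0 < s) (hr : 1 < a / s) :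
    HasDerivAt (fun x => yr m (x / s)) (-(a * Lm m (yr m (a / s)))⁻¹) a := by
  have h := (hasDerivAt_yr hm hr).comp a ((hasDerivAt_id a).div_const s)
  refine h.congr_deriv ?_
  have := (Lm_pos hm (yr_pos hm hr)).ne'
  have : a ≠ 0 := ((one_lt_div hs).1 hr |> hs.trans).ne'
  field_simp

theorem yr_ds {m a s : ℝ} (hm : 0 < m) (hs : 0 < s) (hr : 1 < a / s) :
    HasDerivAt (fun x => yr m (a / x)) (s * Lm m (yr m (a / s)))⁻¹ s := by
  have h0 : HasDerivAt (fun x : ℝ => a / x) (-(a / s ^ 2)) s := by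
    simpa only [div_eq_mul_inv, mul_neg] using (hasDerivAt_inv hs.ne').const_mul a
  have h := (hasDerivAt_yr hm hr).comp s h0
  refine h.congr_deriv ?_
  have := (Lm_pos hm (yr_pos hm hr)).ne'
  have : a ≠ 0 := ((one_lt_div hs).1 hr |> hs.trans).ne'
  field_simp

theorem ph_da {G m a s : ℝ} (hm : 0 < m) (hs : 0 < s) (hr : 1 < a / s) :
    HasDerivAt (fun x => ph G m x s) (fq G m a s) a := by
  have y0 := yr_pos hm hr
  have hq := yr_quad hm hr
  have h1 := yr_da hm hs hr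
  have h2 := (hasDerivAt_lg (add_pos y0 hm)).comp a (h1.add_const m)
  have h3 := (hasDerivAt_lg y0).comp a h1
  have h := (((hasDerivAt_id a).const_mul G).mul h2).sub (h3.const_mul (G * s))
  refine HasDerivAt.congr_deriv h ?_
  have : a ≠ 0 := ((one_lt_div hs).1 hr |> hs.trans).ne'
  simp only [fq, Function.comp, id, hq]
  generalize (-(a * Lm m (yr m (a / s)))⁻¹) = w
  field_simp
  ring

theorem fq_ds {G m a s : ℝ} (hm : 0 < m) (hs : 0 < s) (hr : 1 < a / s) :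
    HasDerivAt (fun x => fq G m a x) (-(uu G m a s)⁻¹) s := by
  have y0 := yr_pos hm hr
  have h := ((hasDerivAt_lg (add_pos y0 hm)).comp s ((yr_ds hm hs hr).add_const m)).const_mul G
  refine HasDerivAt.congr_deriv h ?_
  have := (Dq_pos hm y0).ne'
  rw [uu, Lm]
  field_simp


/-- The logarithmic derivative of `uu` in `a`, times `a`. -/
noncomputable def zz (m y : ℝ) : ℝ :=
  (2 * m * y ^ 2 + 2 * (m + 1) * y + (m + 1)) * ((y + m) * (y + m + 1)) / (m * Dq m y ^ 2)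

theorem uu_pos {G m a s : ℝ} (hG : 0 < G) (hm : 0 < m) (hs : 0 < s) (hr : 1 < a / s) :
    0 < uu G m a s := by
  have y0 := yr_pos hm hr
  have := Dq_pos hm y0
  unfold uu
  positivity

theorem hasDerivAt_Dq (m y : ℝ) : HasDerivAt (Dq m) (4 * y + 2 * (m + 1)) y := by
  have h := ((((hasDerivAt_id y).pow 2).const_mul 2).add
    ((hasDerivAt_id y).const_mul (2 * (m + 1)))).add_const (m + 1)
  exact HasDerivAt.congr_deriv h (by simp; ring)

theorem rt_logD {m y : ℝ} (hm : 0 < m) (hy : 0 < y) :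
    HasDerivAt (fun y => Real.log (Dq m y / (y * (y + 1)))) (-(zz m y * Lm m y)) y := by
  have D0 := Dq_pos hm hy
  have h := ((hasDerivAt_Dq m y).div ((hasDerivAt_id y).mul ((hasDerivAt_id y).add_const 1))
    (show id y * (id y + 1) ≠ 0 by simp only [id]; positivity)).log
    (show Dq m y / (y * (y + 1)) ≠ 0 by positivity)
  refine HasDerivAt.congr_deriv h ?_
  simp only [Pi.div_apply, Pi.mul_apply, id, zz, Lm]
  field_simp
  unfold Dq
  ring

theorem rt_logU {G m a s : ℝ} (hG : 0 < G) (hm : 0 < m) (hs : 0 < s) (hr : 1 < a / s) :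
    Real.log (uu G m a s) = Real.log s + Real.log (m / G) +
      Real.log (Dq m (yr m (a / s)) / (yr m (a / s) * (yr m (a / s) + 1))) := by
  have y0 := yr_pos hm hr
  have D0 := Dq_pos hm y0
  rw [← Real.log_mul hs.ne' (by positivity), ← Real.log_mul (by positivity) (by positivity), uu]
  congr 1
  field_simp

theorem logU_da {G m a s : ℝ} (hG : 0 < G) (hm : 0 < m) (hs : 0 < s) (hr : 1 < a / s) :
    HasDerivAt (fun x => Real.log (uu G m x s)) (zz m (yr m (a / s)) / a) a := by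
  have y0 := yr_pos hm hr
  have h := ((rt_logD hm y0).comp a (yr_da hm hs hr)).const_add (Real.log s + Real.log (m / G))
  have L0 := (Lm_pos hm y0).ne'
  refine (h.congr_deriv (by field_simp)).congr_of_eventuallyEq ?_
  have : ∀ᶠ x in nhds a, 1 < x / s :=
    (continuous_id.div_const s).continuousAt.eventually (lt_mem_nhds hr)
  exact this.mono fun x hx => rt_logU hG hm hs hx

theorem logU_ds {G m a s : ℝ} (hG : 0 < G) (hm : 0 < m) (hs : 0 < s) (hr : 1 < a / s) :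
    HasDerivAt (fun x => Real.log (uu G m a x)) ((1 - zz m (yr m (a / s))) / s) s := by
  have y0 := yr_pos hm hr
  have h := ((Real.hasDerivAt_log hs.ne').add_const (Real.log (m / G))).add
    ((rt_logD hm y0).comp s (yr_ds hm hs hr))
  have L0 := (Lm_pos hm y0).ne'
  refine (h.congr_deriv (by field_simp; ring)).congr_of_eventuallyEq ?_
  have h1 : ∀ᶠ x in nhds s, 1 < a / x :=
    (continuousAt_const.div continuousAt_id hs.ne').eventually (lt_mem_nhds hr)
  exact (h1.and (lt_mem_nhds hs)).mono fun x hx => rt_logU hG hm hx.2 hx.1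

theorem zz_mem {m y : ℝ} (hm : 1 ≤ m) (hy : 0 < y) : 0 ≤ zz m y ∧ zz m y ≤ 1 := by
  have m0 : 0 < m := by linarith
  have D0 := Dq_pos m0 hy
  refine ⟨by unfold zz; positivity, (div_le_one (by positivity)).2 ?_⟩
  obtain ⟨k, rfl⟩ : ∃ k, m = k + 1 := ⟨m - 1, by ring⟩
  have k0 : 0 ≤ k := by linarith
  rw [← sub_nonneg]
  unfold Dq
  ring_nf
  positivity


/-- Minus the derivative of `zz`. -/
noncomputable def zd (m y : ℝ) : ℝ :=
  (4 * y ^ 4 + 8 * (m + 1) * y ^ 3 + 12 * (m + 1) * m * y ^ 2 + 4 * (m + 1) ^ 2 * (2 * m - 1) * y +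
    (m + 1) ^ 2 * (2 * m ^ 2 - 1)) / (m * Dq m y ^ 3)

theorem hasDerivAt_zz {m y : ℝ} (hm : 0 < m) (hy : 0 < y) : HasDerivAt (zz m) (-zd m y) y := by
  have D0 := Dq_pos hm hy
  have i := hasDerivAt_id y
  have h := ((((((i.pow 2).const_mul (2 * m)).add (i.const_mul (2 * (m + 1)))).add_const
    (m + 1)).mul ((i.add_const m).mul ((i.add_const m).add_const 1)))).div
    (((hasDerivAt_Dq m y).pow 2).const_mul m) (show m * Dq m y ^ 2 ≠ 0 by positivity)
  refine HasDerivAt.congr_deriv h ?_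
  simp only [Pi.add_apply, Pi.mul_apply, Pi.pow_apply, id, zd]
  norm_num
  field_simp
  unfold Dq
  ring

/-- The curvature. -/
theorem Lm_le_zd {m y : ℝ} (hm : 1 ≤ m) (hy : 3 ≤ y) (h : m + 1 ≤ y + 2) :
    Lm m y ≤ 324 * m ^ 2 * zd m y := by
  have m0 : 0 < m := by linarith
  have y0 : 0 < y := by linarith
  have D0 := Dq_pos m0 y0
  have D1 : Dq m y ≤ 6 * y ^ 2 := by
    unfold Dq
    nlinarith
  have h1 : Lm m y ≤ m * Dq m y / y ^ 4 := by
    refine div_le_div_of_nonneg_left (by positivity) (by positivity) ?_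
    rw [show y ^ 4 = y * y * (y * y) by ring]
    gcongr <;> linarith
  have h2 : 4 * y ^ 4 / (m * Dq m y ^ 3) ≤ zd m y := by
    refine div_le_div_of_nonneg_right ?_ (by positivity)
    have a1 : 0 ≤ 2 * m - 1 := by linarith
    have a2 : 0 ≤ 2 * m ^ 2 - 1 := by nlinarith
    have : 0 ≤ 8 * (m + 1) * y ^ 3 + 12 * (m + 1) * m * y ^ 2 +
      4 * (m + 1) ^ 2 * (2 * m - 1) * y + (m + 1) ^ 2 * (2 * m ^ 2 - 1) := by positivity
    linarith
  refine h1.trans (le_trans ?_ (mul_le_mul_of_nonneg_left h2 (by positivity)))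
  rw [← mul_div_assoc, div_le_div_iff₀ (by positivity) (by positivity)]
  have h3 := mul_le_mul_of_nonneg_left (pow_le_pow_left₀ D0.le D1 4) (sq_nonneg m)
  linarith


/-- The mean value inequality on an interval. -/
theorem rt_lip {f f' : ℝ → ℝ} {u v C x y : ℝ} (h : ∀ z ∈ Set.Icc u v, HasDerivAt f (f' z) z)
    (hC : ∀ z ∈ Set.Icc u v, |f' z| ≤ C) (hx : x ∈ Set.Icc u v) (hy : y ∈ Set.Icc u v) :
    |f x - f y| ≤ C * |x - y| :=
  (convex_Icc u v).norm_image_sub_le_of_norm_hasDerivWithin_le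
    (fun z hz => (h z hz).hasDerivWithinAt) hC hy hx

/-- The mean value theorem on an interval. -/
theorem rt_mvt {f f' : ℝ → ℝ} {u v x y : ℝ} (h : ∀ z ∈ Set.Icc u v, HasDerivAt f (f' z) z)
    (hx : x ∈ Set.Icc u v) (hy : y ∈ Set.Icc u v) :
    ∃ z ∈ Set.Icc u v, f x - f y = f' z * (x - y) := by
  have key : ∀ x ∈ Set.Icc u v, ∀ y ∈ Set.Icc u v, y < x →
      ∃ z ∈ Set.Icc u v, f x - f y = f' z * (x - y) := fun x hx y hy hlt => by
    have s := Set.Icc_subset_Icc hy.1 hx.2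
    obtain ⟨z, hz, e⟩ := exists_hasDerivAt_eq_slope f f' hlt
      (fun z hz => (h z (s hz)).continuousAt.continuousWithinAt)
      fun z hz => h z (s (Set.Ioo_subset_Icc_self hz))
    exact ⟨z, s (Set.Ioo_subset_Icc_self hz), by
      rw [e, div_mul_cancel₀ _ (sub_pos.2 hlt).ne']⟩
  rcases lt_trichotomy y x with hlt | rfl | hlt
  · exact key x hx y hy hlt
  · exact ⟨y, hy, by simp⟩
  · obtain ⟨z, hz, e⟩ := key y hy x hx hlt
    exact ⟨z, hz, by linear_combination -e⟩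

theorem rt_blk {G L a : ℝ} {g j : ℕ} (hg : (g : ℝ) = G ^ 6) (hL : 0 < L) (h1 : g ≤ j)
    (h2 : j < 4 * g) (ha : a ∈ Blk L j) : G ^ 6 * L ≤ a ∧ a ≤ 4 * (G ^ 6 * L) := by
  have a1 : (g : ℝ) ≤ j := by exact_mod_cast h1
  have a2 : (j : ℝ) + 1 ≤ 4 * g := by exact_mod_cast h2
  rw [← hg]
  exact ⟨(mul_le_mul_of_nonneg_right a1 hL.le).trans ha.1,
    ha.2.trans ((mul_le_mul_of_nonneg_right a2 hL.le).trans_eq (mul_assoc _ _ _))⟩

/-- Real form of the position of the shifts. -/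
theorem Sh.rt {G Y m j : ℕ} (h : Sh G Y m j) {y : ℝ} (h1 : (j : ℝ) - 2 ≤ y) (h2 : y ≤ j + 3) :
    (1000 : ℝ) ≤ G ∧ (1 : ℝ) ≤ m ∧ (m : ℝ) ≤ G ^ 2 ∧ 8 ≤ y ∧ (m : ℝ) + 1 ≤ y + 2 ∧
      1 ≤ 3 * (G : ℝ) ^ 4 * Lm m y := by
  obtain ⟨hG, hY, hYG, hm, hj, hjm⟩ := h
  have a1 : (1 : ℝ) ≤ m := by exact_mod_cast hm
  have a2 : (10 : ℝ) ≤ Y := by exact_mod_cast hY
  have a3 : (Y : ℝ) ≤ G ^ 2 := by exact_mod_cast hYG
  have a4 : (Y : ℝ) ≤ j := by exact_mod_cast hj
  have a5 : (j : ℝ) + m + 1 ≤ 2 * Y := by exact_mod_cast hjm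
  have y0 : 0 < y := by linarith
  refine ⟨by exact_mod_cast hG, a1, by linarith, by linarith, by linarith, ?_⟩
  rw [Lm, ← mul_div_assoc, le_div_iff₀ (by positivity), one_mul]
  have b1 : (y + m) * (y + m + 1) ≤ (12 / 5 * G ^ 2) * (12 / 5 * G ^ 2) :=
    mul_le_mul (by linarith) (by linarith) (by positivity) (by positivity)
  have b2 : 2 * (y * (y + 1)) ≤ m * Dq m y := by
    refine le_trans ?_ (le_mul_of_one_le_left (Dq_pos (by linarith) y0).le a1)
    unfold Dq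
    nlinarith
  have b3 := mul_le_mul_of_nonneg_left b1 (show 0 ≤ y * (y + 1) by positivity)
  have b4 := mul_le_mul_of_nonneg_left b2 (show 0 ≤ 3 * (G : ℝ) ^ 4 by positivity)
  have b5 : 0 ≤ (G : ℝ) ^ 4 * (y * (y + 1)) := by positivity
  linarith

/-- The explicit phase is an admissible kernel. -/
theorem ker_explicit {G Y m j jA jB : ℕ} {L : ℝ} (hS : Sh G Y m j) (hL : 0 < L)
    (hA : G ^ 6 ≤ jA) (hA' : jA < 4 * G ^ 6) (hB : G ^ 6 ≤ jB) (hB' : jB < 4 * G ^ 6)
    (hR : Rng L jA jB m j) :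
    Ker ((G : ℝ) ^ 20) L jA jB (ph G m) (fq G m) (uu G m) (psn L m j) := by
  have G1 : (1000 : ℝ) ≤ G := by exact_mod_cast hS.hG
  have G0 : (0 : ℝ) < G := by linarith
  have m1 : (1 : ℝ) ≤ m := by exact_mod_cast hS.hm
  have m0 : (0 : ℝ) < m := by linarith
  have M0 : 0 < (G : ℝ) ^ 6 * L := by positivity
  have bA := fun a (ha : a ∈ Blk L jA) => rt_blk (Nat.cast_pow G 6) hL hA hA' ha
  have bB := fun s (hs : s ∈ Blk L jB) => rt_blk (Nat.cast_pow G 6) hL hB hB' hs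
  have s0 := fun s (hs : s ∈ Blk L jB) => M0.trans_le (bB s hs).1
  have a0 := fun a (ha : a ∈ Blk L jA) => M0.trans_le (bA a ha).1
  have r1 := fun a ha s hs => (hR a ha s hs).1
  have y0 := fun a ha s hs => yr_pos m0 (r1 a ha s hs)
  have R := fun a ha s hs => hS.rt (hR a ha s hs).2.1 (hR a ha s hs).2.2
  have p : ∀ n : ℕ, n ≠ 0 → (1000 : ℝ) ≤ G ^ n := fun n hn =>
    G1.trans (le_self_pow₀ (by linarith) hn)
  have inv : ∀ x, (G : ℝ) ^ 6 * L ≤ x → ∀ z, 0 ≤ z → z ≤ 1 → |z / x| ≤ (20 * L)⁻¹ :=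
    fun x hx z z0 z1 => by
      rw [abs_of_nonneg (div_nonneg z0 (M0.le.trans hx)), ← one_div]
      exact div_le_div₀ zero_le_one z1 (by positivity) (by nlinarith [p 6 (by omega)])
  have inv' : ∀ x, (G : ℝ) ^ 6 * L ≤ x → ∀ z, 0 < z → 1 ≤ 3 * (G : ℝ) ^ 4 * z →
      |(x * z)⁻¹| ≤ L⁻¹ := fun x hx z z0 z1 => by
    have x0 := M0.trans_le hx
    rw [abs_of_pos (by positivity)]
    refine inv_anti₀ hL (le_trans ?_ (mul_le_mul_of_nonneg_right hx z0.le))
    have := mul_le_mul_of_nonneg_left z1 hL.le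
    have h3 : 0 ≤ ((G : ℝ) ^ 2 - 3) * (G ^ 4 * L * z) :=
      mul_nonneg (by linarith [p 2 (by omega)]) (by positivity)
    linarith
  refine ⟨fun a ha s hs => ph_da m0 (s0 s hs) (r1 a ha s hs),
    fun a ha s hs => fq_ds m0 (s0 s hs) (r1 a ha s hs), fun a ha s hs => ?_, fun a ha s hs => ?_,
    fun a ha a' ha' s hs s' hs' => ?_, fun a1 h1 a2 h2 v hv v' hv' => ?_,
    fun a ha a' ha' s hs s' hs' => ?_⟩
  · have y1 := y0 a ha s hs
    rw [uu, lt_div_iff₀ (by positivity)]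
    generalize yr m (a / s) = y at *
    have b2 : 2 * (y * (y + 1)) ≤ m * Dq m y := by
      refine le_trans ?_ (le_mul_of_one_le_left (Dq_pos m0 y1).le m1)
      unfold Dq
      nlinarith
    have b3 := mul_le_mul (bB s hs).1 b2 (by positivity) (s0 s hs).le
    have b4 : 0 < ((G : ℝ) ^ 5 - 1) * (G * L * (y * (y + 1))) :=
      mul_pos (by linarith [p 5 (by omega)]) (by positivity)
    linarith
  · have y1 := y0 a ha s hs
    obtain ⟨-, -, c1, c2, c3, -⟩ := R a ha s hs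
    rw [uu, div_lt_iff₀ (by positivity)]
    generalize yr m (a / s) = y at *
    have b2 : Dq m y ≤ 6 * (y * (y + 1)) := by
      unfold Dq
      nlinarith
    have b3 := mul_le_mul (mul_le_mul (bB s hs).2 c1 m0.le (by positivity)) b2
      (Dq_pos m0 y1).le (by positivity)
    have b4 : 0 < ((G : ℝ) ^ 13 - 24) * (G ^ 8 * L * (y * (y + 1))) :=
      mul_pos (by linarith [p 13 (by omega)]) (by positivity)
    linarith
  · have e1 := rt_lip (fun x hx => logU_da G0 m0 (s0 s hs) (r1 x hx s hs))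
      (fun x hx => inv x (bA x hx).1 _ (zz_mem m1 (y0 x hx s hs)).1 (zz_mem m1 (y0 x hx s hs)).2)
      ha ha'
    have e2 := rt_lip (fun x hx => logU_ds G0 m0 (s0 x hx) (r1 a' ha' x hx))
      (fun x hx => inv x (bB x hx).1 _ (sub_nonneg.2 (zz_mem m1 (y0 a' ha' x hx)).2)
        (sub_le_self _ (zz_mem m1 (y0 a' ha' x hx)).1)) hs hs'
    rw [← le_inv_mul_iff₀ (by positivity), mul_add]
    exact (abs_sub_le _ _ _).trans (add_le_add e1 e2)
  · obtain ⟨a, ha, e1⟩ := rt_mvt (fun x hx => (logU_da G0 m0 (s0 v' hv') (r1 x hx v' hv')).sub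
      (logU_da G0 m0 (s0 v hv) (r1 x hx v hv))) h2 h1
    obtain ⟨s, hs, e2⟩ := rt_mvt (fun x hx => (hasDerivAt_zz m0 (y0 a ha x hx)).comp x
      (yr_ds m0 (s0 x hx) (r1 a ha x hx))) hv' hv
    simp only [Pi.sub_apply, Function.comp] at e1 e2
    obtain ⟨-, -, c1, c2, c3, -⟩ := R a ha s hs
    have l0 := Lm_pos m0 (y0 a ha s hs)
    have l1 := Lm_le_zd m1 (by linarith) c3
    have a1' := a0 a ha
    have s1 := s0 s hs
    generalize Lm m (yr m (a / s)) = l at *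
    generalize zd m (yr m (a / s)) = z at *
    have z0 : 0 < z := by
      by_contra c
      nlinarith [mul_nonneg (sq_nonneg (m : ℝ)) (neg_nonneg.2 (not_lt.1 c))]
    rw [show ∀ x y z w : ℝ, x - y - (z - w) = x - z - (y - w) from fun _ _ _ _ => by ring, e1,
      ← sub_div, e2, abs_mul, abs_div, abs_mul, abs_mul, abs_neg, abs_of_pos z0, abs_of_pos a1',
      abs_of_pos (show 0 < (s * l)⁻¹ by positivity),
      show ((G : ℝ) ^ 20 * L) ^ 2 * (z * (s * l)⁻¹ * |v' - v| / a * |a2 - a1|) =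
        ((G : ℝ) ^ 20 * L) ^ 2 * z / (a * s * l) * (|a2 - a1| * |v' - v|) by field_simp]
    refine le_mul_of_one_le_left (by positivity) ((one_le_div (by positivity)).2 ?_)
    have b1 := mul_le_mul (mul_le_mul (bA a ha).2 (bB s hs).2 s1.le (by positivity))
      (l1.trans (mul_le_mul_of_nonneg_right (mul_le_mul_of_nonneg_left
        (pow_le_pow_left₀ m0.le c1 2) (by norm_num)) z0.le)) l0.le (by positivity)
    have b2 : 0 ≤ ((G : ℝ) ^ 12 * G ^ 12 - 5184) * (G ^ 16 * L ^ 2 * z) :=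
      mul_nonneg (by nlinarith [p 12 (by omega)]) (by positivity)
    linarith
  · have e1 := rt_lip (fun x hx => yr_da m0 (s0 s hs) (r1 x hx s hs))
      (fun x hx => (abs_neg _).trans_le (inv' x (bA x hx).1 _ (Lm_pos m0 (y0 x hx s hs))
        (R x hx s hs).2.2.2.2.2)) ha ha'
    have e2 := rt_lip (fun x hx => yr_ds m0 (s0 x hx) (r1 a' ha' x hx))
      (fun x hx => inv' x (bB x hx).1 _ (Lm_pos m0 (y0 a' ha' x hx))
        (R a' ha' x hx).2.2.2.2.2) hs hs'
    rw [psn, psn, ← mul_sub, sub_sub_sub_cancel_right, abs_mul, abs_of_pos hL,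
      ← le_inv_mul_iff₀ hL, mul_add]
    exact (abs_sub_le _ _ _).trans (add_le_add e1 e2)

end Pool.Agent.Lib.MP_ecd12e_nt.ZS
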