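import Pool.Agent.Lib.MP_ecd12e_nt.ZS.Root

/-! Monotonicity of `rho` and the range of the stationary point on a pair of blocks. -/

set_option autoImplicit false

namespace Pool.Agent.Lib.MP_ecd12e_nt.ZS

open Real

theorem rho_gt {m y : ℝ} (hm : 1 ≤ m) (hy : 0 < y) : 1 < rho m y :=
  (one_lt_div (by positivity)).2 (mul_lt_mul'' (by linarith) (by linarith) hy.le (by linarith))

theorem rho_anti {m y y' : ℝ} (hm : 1 ≤ m) (hy : 0 < y) (h : y < y') : rho m y' < rho m y := by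
  have y0 := hy.trans h
  have h1 : (y' + m) * y < (y + m) * y' := by nlinarith
  have h2 : (y' + m + 1) * (y + 1) < (y + m + 1) * (y' + 1) := by nlinarith
  have h3 := mul_lt_mul'' h1 h2 (by positivity) (by positivity)
  rw [rho, rho, div_lt_div_iff₀ (by positivity) (by positivity)]
  linarith

theorem lg_deriv2 {y : ℝ} (hy : 0 < y) :
    HasDerivAt (fun x : ℝ => -(x * (x + 1))⁻¹) (lg2 y) y := by
  have h := (((hasDerivAt_id y).mul ((hasDerivAt_id y).add_const 1)).inv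
    (show id y * (id y + 1) ≠ 0 by simp only [id]; positivity)).neg
  refine HasDerivAt.congr_deriv h ?_
  simp only [Pi.mul_apply, id, lg2]
  ring

theorem r2_step {m y e : ℝ} (hm : 1 ≤ m) (hy : 0 < y) (he : e * (y * (y + m + 2)) ≤ 2) :
    rho m (y + 1) * (1 + e) ≤ rho m y := by
  have e1 : rho m y = rho m (y + 1) * (1 + 2 * m / (y * (y + m + 2))) := by
    unfold rho
    field_simp
    ring
  rw [e1]
  refine mul_le_mul_of_nonneg_left ?_ (by linarith [rho_gt hm (show 0 < y + 1 by linarith)])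
  rw [add_le_add_iff_left, le_div_iff₀ (by positivity)]
  linarith

theorem r2_ratio {N L a a0 s s0 : ℝ} (hN : 1 ≤ N) (hL : 0 < L) (ha0 : N * L ≤ a0)
    (hs : N * L ≤ s) (hs0 : N * L ≤ s0) (h1 : a ≤ a0 + L) (h2 : s0 ≤ s + L) :
    a / s ≤ a0 / s0 * (1 + 3 * N⁻¹) := by
  have N0 : 0 < N := by linarith
  have M0 := mul_pos N0 hL
  have i0 := inv_pos.2 N0
  have i1 := inv_le_one_of_one_le₀ hN
  have c : ∀ z, N * L ≤ z → z + L ≤ z * (1 + N⁻¹) := fun z hz => by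
    have := (le_inv_mul_iff₀ N0).2 hz
    linarith
  have a1 := M0.trans_le ha0
  have s1 := M0.trans_le hs
  have s2 := M0.trans_le hs0
  have h3 := mul_le_mul (h1.trans (c a0 ha0)) (h2.trans (c s hs)) s2.le (by positivity)
  have h4 := mul_le_mul_of_nonneg_left
    (show (1 + N⁻¹) * (1 + N⁻¹) ≤ 1 + 3 * N⁻¹ by nlinarith) (mul_pos a1 s1).le
  rw [div_mul_eq_mul_div, div_le_div_iff₀ s1 s2]
  linarith

/-- Real form of `Sh`. -/
theorem Sh.re {G Y m j : ℕ} (h : Sh G Y m j) : (1000 : ℝ) ≤ G ∧ (1 : ℝ) ≤ m ∧ (10 : ℝ) ≤ j ∧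
    (j : ℝ) + m + 5 ≤ 12 / 5 * G ^ 2 := by
  obtain ⟨hG, hY, hYG, hm, hj, hjm⟩ := h
  have a2 : (10 : ℝ) ≤ Y := by exact_mod_cast hY
  have a3 : (Y : ℝ) ≤ G ^ 2 := by exact_mod_cast hYG
  have a4 : (Y : ℝ) ≤ j := by exact_mod_cast hj
  have a5 : (j : ℝ) + m + 1 ≤ 2 * Y := by exact_mod_cast hjm
  exact ⟨by exact_mod_cast hG, by exact_mod_cast hm, by linarith, by linarith⟩

theorem rng_of_stat {G Y m j jA jB : ℕ} {L a0 s0 : ℝ} (h : Sh G Y m j) (hL : 0 < L)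
    (hA : G ^ 6 ≤ jA) (hB : G ^ 6 ≤ jB) (ha : a0 ∈ Blk L jA) (hs : s0 ∈ Blk L jB)
    (hst : Stat m j a0 s0) : Rng L jA jB m j := by
  obtain ⟨g1, m1, j1, j2⟩ := h.re
  have G0 : (0 : ℝ) < G := by linarith
  have N1 : (1 : ℝ) ≤ G ^ 6 := one_le_pow₀ (by linarith)
  have lo : ∀ {i : ℕ} {z : ℝ}, G ^ 6 ≤ i → z ∈ Blk L i → (G : ℝ) ^ 6 * L ≤ z := fun hi hz =>
    (mul_le_mul_of_nonneg_right (by exact_mod_cast hi) hL.le).trans hz.1
  have d : ∀ {i : ℕ} {z z' : ℝ}, z ∈ Blk L i → z' ∈ Blk L i → z ≤ z' + L := fun hz hz' => by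
    linarith [hz.2, hz'.1]
  have st : ∀ y : ℝ, 0 < y → y ≤ j + 2 →
      rho m (y + 1) * (1 + 3 * ((G : ℝ) ^ 6)⁻¹) ≤ rho m y := fun y y0 y1 => by
    refine r2_step m1 y0 ?_
    have b1 : y * (y + m + 2) ≤ (12 / 5 * G ^ 2) * (12 / 5 * G ^ 2) :=
      mul_le_mul (by linarith) (by linarith) (by positivity) (by positivity)
    have b2 : (9 : ℝ) * G ^ 4 ≤ G ^ 2 * G ^ 4 :=
      mul_le_mul_of_nonneg_right (by nlinarith) (by positivity)
    have b3 : 0 ≤ (G : ℝ) ^ 4 := by positivity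
    rw [mul_assoc, ← le_div_iff₀' (by norm_num), inv_mul_le_iff₀ (by positivity)]
    linarith
  intro a ha' s hs'
  have c0 : (0 : ℝ) < 1 + 3 * ((G : ℝ) ^ 6)⁻¹ := by positivity
  have u1 : a / s ≤ rho m (j - 2) := by
    have := st (j - 2) (by linarith) (by linarith)
    rw [show (j : ℝ) - 2 + 1 = j - 1 by ring] at this
    exact (r2_ratio N1 hL (lo hA ha) (lo hB hs') (lo hB hs) (d ha' ha) (d hs hs')).trans
      ((mul_le_mul_of_nonneg_right hst.2.le c0.le).trans this)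
  have u2 : rho m (j + 3) ≤ a / s := by
    have := st (j + 2) (by linarith) le_rfl
    rw [show (j : ℝ) + 2 + 1 = j + 3 by ring] at this
    exact le_of_mul_le_mul_right (this.trans (hst.1.le.trans
      (r2_ratio N1 hL (lo hA ha') (lo hB hs) (lo hB hs') (d ha ha') (d hs' hs)))) c0
  have r1 : 1 < a / s := (rho_gt m1 (by linarith)).trans_le u2
  have m0 : (0 : ℝ) < m := by linarith
  have e := rho_yr m0 r1
  refine ⟨r1, not_lt.1 fun c => ?_, not_lt.1 fun c => ?_⟩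
  · linarith [rho_anti m1 (yr_pos m0 r1) c]
  · linarith [rho_anti m1 (show (0 : ℝ) < j + 3 by linarith) c]

end Pool.Agent.Lib.MP_ecd12e_nt.ZS
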