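import Pool.Agent.Lib.MP_ecd12e_nt.ZS.Mean
import Pool.Agent.Lib.MP_ecd12e_nt.ZS.Pts

/-! Large values of zeta sums from an abstract mean square bound for the periodised dual sum. -/

set_option autoImplicit false

namespace Pool.Agent.Lib.MP_ecd12e_nt.ZS

open Finset Real
open Pool.Agent.Lib.MP_ecd12e_nt.Bar (ei)

theorem VGen_sq {Y H N S κ c Z Q E E0 : ℝ} (hY : 1 ≤ Y) (hH : 1 ≤ H) (hN : 0 ≤ N)
    (hYH : Y * H ≤ 2 * N) (hNS : N ^ 2 ≤ S) (hE : 0 ≤ E) (hE0 : 0 ≤ E0)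
    (hκ : κ ^ 2 * E ≤ E0 * Y ^ 4) (hc : c ≤ (1 - 0) / (1 / (4 * H ^ 2)) + 1) (hQ0 : 0 ≤ Q)
    (hQ : Q ≤ 2 * (1 / (1 / (4 * H ^ 2)) + S / Y ^ 2) * E) (hZ : Z ^ 2 ≤ c * Q) :
    κ * (N / (Y * H)) * Z ≤ 17 * N * Real.sqrt (S * E0) := by
  have hY0 : 0 < Y := by linarith
  have hH0 : 0 < H := by linarith
  have hS : 0 ≤ S := (sq_nonneg N).trans hNS
  rw [sub_zero, one_div_one_div] at hc
  rw [one_div_one_div] at hQ
  have h1 : 4 * H ^ 2 ≤ 16 * (S / Y ^ 2) := by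
    have h2 : (Y * H) ^ 2 ≤ (2 * N) ^ 2 := pow_le_pow_left₀ (by positivity) hYH 2
    rw [← mul_div_assoc, le_div_iff₀ (by positivity)]
    nlinarith
  have h2 : Q ≤ 34 * (S / Y ^ 2) * E := hQ.trans (mul_le_mul_of_nonneg_right (by linarith) hE)
  have h3 : Z ^ 2 ≤ 8 * H ^ 2 * (34 * (S / Y ^ 2) * E) :=
    hZ.trans (mul_le_mul (by nlinarith) h2 hQ0 (by positivity))
  refine le_trans (le_abs_self _) (abs_le_of_sq_le_sq ?_ (by positivity))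
  rw [mul_pow _ (Real.sqrt _), Real.sq_sqrt (by positivity), mul_pow _ Z]
  calc (κ * (N / (Y * H))) ^ 2 * Z ^ 2
      ≤ (κ * (N / (Y * H))) ^ 2 * (8 * H ^ 2 * (34 * (S / Y ^ 2) * E)) :=
        mul_le_mul_of_nonneg_left h3 (sq_nonneg _)
    _ = (κ ^ 2 * E) * (272 * N ^ 2 * S / Y ^ 4) := by
        field_simp
        ring
    _ ≤ (E0 * Y ^ 4) * (272 * N ^ 2 * S / Y ^ 4) := mul_le_mul_of_nonneg_right hκ (by positivity)
    _ = 272 * (N ^ 2 * (S * E0)) := by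
        field_simp
    _ ≤ 289 * (N ^ 2 * (S * E0)) := mul_le_mul_of_nonneg_right (by norm_num) (by positivity)
    _ = _ := by ring

theorem mean_gen {G S E0 : ℝ} (hG : 1 ≤ G) {N x : ℕ} (hN : 1 ≤ N) (hx : N ≤ x)
    (hNS : (N : ℝ) ^ 2 ≤ S) (W : Finset ℕ) (hW : ∀ a ∈ W, G * a ≤ S) (hE0 : 0 ≤ E0) (E : ℕ → ℝ)
    (hE : ∀ Y : ℕ, 1 ≤ Y → Y ≤ 2 * N → ∀ (c ζ : ℕ → ℂ) (e : ℕ), e ≤ 1 → (∀ a ∈ W, ‖c a‖ ≤ 1) →
      (∀ j, ‖ζ j‖ ≤ 1) → ∫ x in (0 : ℝ)..2, ‖per G W c ζ e Y x‖ ^ 2 ≤ E Y)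
    (hκ : ∀ Y : ℕ, 1 ≤ Y → Y ≤ 2 * N → ∀ κ : ℝ, 0 ≤ κ → κ ≤ 1 → κ * G ^ 2 ≤ 36 * (Y : ℝ) ^ 2 →
      κ ^ 2 * E Y ≤ E0 * (Y : ℝ) ^ 4) :
    ∑ a ∈ W, gm G N x (G * a) ≤
      4 * G * N * W.card + 10 ^ 4 * G * (1 + Real.log N) ^ 3 * N * Real.sqrt (S * E0) := by
  have hG0 : (0 : ℝ) < G := by linarith
  have hN' : (1 : ℝ) ≤ N := by exact_mod_cast hN
  have hS : 0 < S := lt_of_lt_of_le (by positivity) hNS
  have h1 := mean_expand hG0 hN hx W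
  have h2 := arith hN hx (κ := fun y => Real.exp (-(G ^ 2 * lg y ^ 2 / 4)))
    (dual G W (fun _ => 1)) (B := 17 * N * Real.sqrt (S * E0))
    (fun y => (Real.exp_pos _).le) (fun y y' hy h => by
      have h3 : lg y' ^ 2 ≤ lg y ^ 2 :=
        pow_le_pow_left₀ (mean_lg_nonneg (hy.trans_le h)) (mean_lg_anti hy h) 2
      have h4 := mul_le_mul_of_nonneg_left h3 (sq_nonneg G)
      exact Real.exp_le_exp.2 (by linarith)) (fun Y H hY hH hYH Θ ζ hsep hΘ hζ => by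
      have hY' : (1 : ℝ) ≤ Y := by exact_mod_cast hY
      have hH' : (1 : ℝ) ≤ H := by exact_mod_cast hH
      have hY2 : Y ≤ 2 * N := (Nat.le_mul_of_pos_right Y hH).trans hYH
      have d0 : 0 < 1 / (4 * (H : ℝ) ^ 2) := by positivity
      have d1 : 1 / (4 * (H : ℝ) ^ 2) ≤ 1 := by rw [div_le_one (by positivity)]; nlinarith
      have h3 := l1_gal (b := 2) (B := E Y) (w := fun _ => 1) hG hY W hS hW ζ d0 zero_le_two
        continuous_const (fun _ => zero_le_one) (fun c e he hc => by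
          simp only [one_mul]
          exact hE Y hY hY2 c ζ e he hc hζ) Θ hsep fun θ hθ =>
          ⟨(hΘ θ hθ).1, by linarith [(hΘ θ hθ).2], fun _ _ => le_rfl⟩
      have h4 : 0 ≤ E Y := le_trans (intervalIntegral.integral_nonneg zero_le_two
        fun _ _ => by positivity) (hE Y hY hY2 (fun _ => 1) ζ 0 zero_le_one (by simp) hζ)
      simp only [per, kap, pow_zero, Complex.ofReal_one, mul_one] at h3
      exact VGen_sq hY' hH' (Nat.cast_nonneg _) (by exact_mod_cast hYH) hNS h4 hE0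
        (hκ Y hY hY2 _ (Real.exp_pos _).le
          (Real.exp_le_one_iff.2 (neg_nonpos.2 (by positivity))) (mean_kap hY'))
        (sep_card d0 zero_le_one Θ hsep fun θ hθ => ⟨(hΘ θ hθ).1, (hΘ θ hθ).2.le⟩)
        (sum_nonneg fun _ _ => sq_nonneg _) h3 sq_sum_le_card_mul_sum_sq)
  have hlog : 0 ≤ Real.log N := Real.log_natCast_nonneg N
  have h3 : 0 ≤ G * (1 + Real.log N) ^ 3 * N * Real.sqrt (S * E0) := by positivity
  have h4 := mul_le_mul_of_nonneg_left h2 hG0.le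
  nlinarith

theorem lv_gen {G V Bd : ℝ} (hG : 1 ≤ G) {N : ℕ} (hN : 1 ≤ N) (b : ℕ → ℂ)
    (hb : ‖b N‖ + ∑ n ∈ Ico N (2 * N), ‖b (n + 1) - b n‖ ≤ 2) (hV : 0 ≤ V) (W : Finset ℝ)
    (hsep : Bar.Sep 1 W)
    (hW : ∀ t ∈ W, 0 ≤ t ∧ V ≤ ‖∑ n ∈ Icc N (2 * N), b n * ei (t * Real.log n)‖) (hB0 : 0 ≤ Bd)
    (hB : ∀ x, N ≤ x → ∑ a ∈ W.image (fun t => ⌊t / G⌋₊), gm G N x (G * a) ≤ Bd) :
    (W.card : ℝ) * V ^ 2 ≤ 1000 * Bd := by
  have hG0 : (0 : ℝ) < G := by linarith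
  obtain ⟨w, hw0, hw1, hw⟩ := points hG hN b hb
  calc (W.card : ℝ) * V ^ 2 = ∑ _t ∈ W, V ^ 2 := by rw [sum_const, nsmul_eq_mul]
    _ ≤ ∑ t ∈ W, ‖∑ n ∈ Icc N (2 * N), b n * ei (t * Real.log n)‖ ^ 2 :=
        sum_le_sum fun t ht => pow_le_pow_left₀ hV (hW t ht).2 2
    _ = ∑ a ∈ W.image (fun t => ⌊t / G⌋₊), ∑ t ∈ W.filter (fun t => ⌊t / G⌋₊ = a),
          ‖∑ n ∈ Icc N (2 * N), b n * ei (t * Real.log n)‖ ^ 2 :=
        (sum_fiberwise_of_maps_to (fun t ht => mem_image_of_mem _ ht) _).symm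
    _ ≤ ∑ a ∈ W.image (fun t => ⌊t / G⌋₊),
          1000 * ∑ x ∈ Icc N (2 * N), w x * gm G N x (G * a) := by
        refine sum_le_sum fun a _ => hw (G * a) _
          (fun x hx y hy => hsep x (mem_filter.1 hx).1 y (mem_filter.1 hy).1) fun t ht => ?_
        obtain ⟨h1, rfl⟩ := mem_filter.1 ht
        have h2 := Nat.floor_le (div_nonneg (hW t h1).1 hG0.le)
        have h3 := (Nat.lt_floor_add_one (t / G)).le
        rw [le_div_iff₀ hG0] at h2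
        rw [div_le_iff₀ hG0] at h3
        constructor <;> linarith
    _ = 1000 * ∑ x ∈ Icc N (2 * N), w x *
          ∑ a ∈ W.image (fun t => ⌊t / G⌋₊), gm G N x (G * a) := by
        rw [← mul_sum, sum_comm]
        simp only [mul_sum]
    _ ≤ 1000 * ∑ x ∈ Icc N (2 * N), w x * Bd := by
        refine mul_le_mul_of_nonneg_left (sum_le_sum fun x hx => ?_) (by norm_num)
        exact mul_le_mul_of_nonneg_left (hB x (mem_Icc.1 hx).1) (hw0 x)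
    _ ≤ 1000 * Bd := by
        rw [← sum_mul]
        exact mul_le_mul_of_nonneg_left (mul_le_of_le_one_left hB0 hw1) (by norm_num)

theorem bv_norm {N : ℕ} (hN : 1 ≤ N) (b : ℕ → ℂ)
    (hb : ‖b N‖ + ∑ n ∈ Ico N (2 * N), ‖b (n + 1) - b n‖ ≤ 2) (t : ℝ) :
    ‖∑ n ∈ Icc N (2 * N), b n * ei (t * Real.log n)‖ ≤ 4 * N := by
  have h1 : ∀ n ∈ Icc N (2 * N), ‖b n * ei (t * Real.log n)‖ ≤ 2 := fun n hn => by
    rw [norm_mul, Bar.norm_ei, mul_one]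
    exact (pts_norm_le N b (mem_Icc.1 hn).1 (mem_Icc.1 hn).2).trans hb
  refine (norm_sum_le_of_le _ h1).trans ?_
  rw [sum_const, nsmul_eq_mul, Nat.card_Icc]
  have h2 : ((2 * N + 1 - N : ℕ) : ℝ) ≤ 2 * N := by
    exact_mod_cast (by omega : 2 * N + 1 - N ≤ 2 * N)
  linarith

theorem lv_four {T V : ℝ} {N : ℕ} (hN : 1 ≤ N) (hNT : (N : ℝ) ^ 2 ≤ T) (b : ℕ → ℂ)
    (hb : ‖b N‖ + ∑ n ∈ Ico N (2 * N), ‖b (n + 1) - b n‖ ≤ 2) (hV : 0 ≤ V) (W : Finset ℝ)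
    (hsep : Bar.Sep 1 W) (hW : ∀ t ∈ W, T ≤ t ∧ t ≤ 2 * T ∧
      V ≤ ‖∑ n ∈ Icc N (2 * N), b n * ei (t * Real.log n)‖) :
    (W.card : ℝ) * V ^ 4 ≤ 10 ^ 19 * (1 + Real.log N) ^ 6 * (N : ℝ) ^ 2 * T := by
  have hN' : (1 : ℝ) ≤ N := by exact_mod_cast hN
  have hT : 1 ≤ T := (one_le_pow₀ hN').trans hNT
  have hlog : 0 ≤ Real.log N := Real.log_natCast_nonneg N
  have hl : 1 ≤ (1 + Real.log N) ^ 6 := one_le_pow₀ (by linarith)
  have hR0 : (0 : ℝ) ≤ W.card := Nat.cast_nonneg _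
  have p1 : 0 ≤ (N : ℝ) ^ 2 * T := by positivity
  rcases le_total (V ^ 2) (8000 * N) with hVN | hVN
  · have h1 := sep_card one_pos (by linarith : T ≤ 2 * T) W hsep
      fun t ht => ⟨(hW t ht).1, (hW t ht).2.1⟩
    have h2 : (V ^ 2) ^ 2 ≤ (8000 * N) ^ 2 := pow_le_pow_left₀ (by positivity) hVN 2
    calc (W.card : ℝ) * V ^ 4 = W.card * (V ^ 2) ^ 2 := by ring
      _ ≤ (2 * T) * (8000 * N) ^ 2 := mul_le_mul (by linarith) h2 (by positivity) (by linarith)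
      _ = 128000000 * 1 * ((N : ℝ) ^ 2 * T) := by ring
      _ ≤ 10 ^ 19 * (1 + Real.log N) ^ 6 * ((N : ℝ) ^ 2 * T) :=
          mul_le_mul_of_nonneg_right (by linarith) p1
      _ = _ := by ring
  have hR : ((W.image fun t => ⌊t / 1⌋₊).card : ℝ) ≤ W.card := Nat.cast_le.2 card_image_le
  have h1 := lv_gen (Bd := 4 * N * W.card +
      10 ^ 4 * (1 + Real.log N) ^ 3 * N * Real.sqrt (8000 * T * W.card)) le_rfl hN b hb hV W hsep
    (fun t ht => ⟨by linarith [(hW t ht).1], (hW t ht).2.2⟩) (by positivity) fun x hx => by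
      refine (mean_gen (S := 2 * T) (E0 := 4000 * W.card) le_rfl hN hx (by linarith) _
        (fun a ha => ?_) (by positivity) _
        (fun Y hY _ c ζ e _ hc hζ => l2_triv le_rfl hY _ hc hζ e)
        fun Y hY _ κ k0 k1 _ => ?_).trans ?_
      · obtain ⟨t, ht, rfl⟩ := mem_image.1 ha
        have h2 := Nat.floor_le (show 0 ≤ t / 1 by linarith [(hW t ht).1])
        linarith [(hW t ht).2.1]
      · have hY' : (1 : ℝ) ≤ Y := by exact_mod_cast hY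
        have h2 : (1 : ℝ) + Y / 1 ≤ 2 * Y ^ 2 := by nlinarith
        calc _ ≤ 1 * (2000 * Y * (Y * (2 * Y ^ 2) * W.card) : ℝ) :=
              mul_le_mul (pow_le_one₀ k0 k1) (by gcongr) (by positivity) zero_le_one
          _ = _ := by ring
      · rw [show 2 * T * (4000 * (W.card : ℝ)) = 8000 * T * W.card by ring]
        nlinarith
  rcases hR0.eq_or_lt with h0 | h0
  · rw [← h0, zero_mul]
    positivity
  have h2 := mul_le_mul_of_nonneg_left hVN hR0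
  have h3 : W.card * V ^ 2 ≤
      2 * 10 ^ 7 * (1 + Real.log N) ^ 3 * N * Real.sqrt (8000 * T * W.card) := by linarith
  have h4 := pow_le_pow_left₀ (by positivity) h3 2
  rw [mul_pow _ (Real.sqrt _), Real.sq_sqrt (by positivity)] at h4
  refine le_of_mul_le_mul_right ?_ h0
  calc (W.card : ℝ) * V ^ 4 * W.card = (W.card * V ^ 2) ^ 2 := by ring
    _ ≤ _ := h4
    _ = 32 * 10 ^ 17 * ((1 + Real.log N) ^ 6 * (N : ℝ) ^ 2 * T * W.card) := by ring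
    _ ≤ 10 ^ 19 * ((1 + Real.log N) ^ 6 * (N : ℝ) ^ 2 * T * W.card) :=
        mul_le_mul_of_nonneg_right (by norm_num) (by positivity)
    _ = _ := by ring

end Pool.Agent.Lib.MP_ecd12e_nt.ZS
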