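import Pool.Agent.Lib.MP_ecd12e_nt.ZS.VPair
import Pool.Agent.Lib.MP_ecd12e_nt.ZS.L2

/-! The mean square of the periodised dual sum from the oscillatory integrals of pairs of shifts. -/

set_option autoImplicit false

namespace Pool.Agent.Lib.MP_ecd12e_nt.ZS

open Finset Real
open Pool.Agent.Lib.MP_ecd12e_nt.Bar (ei)

/-- The integral attached to the pair of shifts `u`, `v`. -/
noncomputable def vl2T (G : ℝ) (W : Finset ℕ) (c : ℕ → ℂ) (e Y : ℕ) (u v : ℝ) : ℝ :=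
  ‖∫ x in (0 : ℝ)..2, ((kap e Y (u + x) * kap e Y (v + x) : ℝ) : ℂ) *
    (dual G W c (u + x) * (starRingEnd ℂ) (dual G W c (v + x)))‖

/-- Expansion of the mean square. -/
theorem vl2_expand (G : ℝ) (W : Finset ℕ) (c : ℕ → ℂ) {ζ : ℕ → ℂ} (hζ : ∀ j, ‖ζ j‖ ≤ 1) (e : ℕ)
    {Y : ℕ} (hY : 1 ≤ Y) :
    ∫ x in (0 : ℝ)..2, ‖per G W c ζ e Y x‖ ^ 2 ≤
      ∑ j ∈ Ico Y (2 * Y), ∑ j' ∈ Ico Y (2 * Y), vl2T G W c e Y j j' := by
  have h1 : (1 : ℝ) ≤ Y := by exact_mod_cast hY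
  have hint : ∀ j ∈ Ico Y (2 * Y), ∀ j' ∈ Ico Y (2 * Y), IntervalIntegrable (fun x : ℝ =>
      ζ j * (starRingEnd ℂ) (ζ j') * (((kap e Y (j + x) * kap e Y (j' + x) : ℝ) : ℂ) *
        (dual G W c (j + x) * (starRingEnd ℂ) (dual G W c (j' + x)))))
      MeasureTheory.volume 0 2 := by
    intro j hj j' hj'
    have a1 : (Y : ℝ) ≤ j := by exact_mod_cast (mem_Ico.1 hj).1
    have a2 : (Y : ℝ) ≤ j' := by exact_mod_cast (mem_Ico.1 hj').1
    have c1 := l2_shift_cont (l2_kap_cont e Y) (d := j) (a := 0) (b := 2) (by linarith)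
    have c2 := l2_shift_cont (l2_kap_cont e Y) (d := j') (a := 0) (b := 2) (by linarith)
    have c3 := l2_shift_cont (dual_cont G W c) (d := j) (a := 0) (b := 2) (by linarith)
    have c4 := l2_shift_cont (dual_cont G W c) (d := j') (a := 0) (b := 2) (by linarith)
    exact (continuousOn_const.mul ((Complex.continuous_ofReal.comp_continuousOn
      (c1.mul c2)).mul (c3.mul
        (Complex.continuous_conj.comp_continuousOn c4)))).intervalIntegrable_of_Icc zero_le_two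
  have e1 : ∀ x : ℝ, ((‖per G W c ζ e Y x‖ ^ 2 : ℝ) : ℂ) =
      ∑ j ∈ Ico Y (2 * Y), ∑ j' ∈ Ico Y (2 * Y), ζ j * (starRingEnd ℂ) (ζ j') *
        (((kap e Y (j + x) * kap e Y (j' + x) : ℝ) : ℂ) *
          (dual G W c (j + x) * (starRingEnd ℂ) (dual G W c (j' + x)))) := by
    intro x
    rw [Complex.ofReal_pow, ← Complex.mul_conj']
    unfold per
    rw [map_sum, sum_mul_sum]
    refine sum_congr rfl fun j _ => sum_congr rfl fun j' _ => ?_
    rw [map_mul, map_mul, Complex.conj_ofReal]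
    push_cast
    ring
  refine (le_abs_self _).trans ?_
  rw [← Real.norm_eq_abs, ← Complex.norm_real, ← intervalIntegral.integral_ofReal]
  simp only [e1]
  rw [intervalIntegral.integral_finsetSum fun j hj => by
    have := IntervalIntegrable.sum _ (hint j hj)
    rwa [Finset.sum_fn] at this]
  refine (norm_sum_le _ _).trans (sum_le_sum fun j hj => ?_)
  rw [intervalIntegral.integral_finsetSum (hint j hj)]
  refine (norm_sum_le _ _).trans (sum_le_sum fun j' _ => ?_)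
  rw [intervalIntegral.integral_const_mul, norm_mul, norm_mul, Complex.norm_conj]
  exact mul_le_of_le_one_left (norm_nonneg _) (mul_le_one₀ (hζ j) (norm_nonneg _) (hζ j'))

theorem vl2_swap (G : ℝ) (W : Finset ℕ) (c : ℕ → ℂ) (e Y : ℕ) (u v : ℝ) :
    vl2T G W c e Y u v = vl2T G W c e Y v u := by
  unfold vl2T
  rw [← Complex.norm_conj, ← intervalIntegral.intervalIntegral_conj]
  congr 2
  funext x
  rw [map_mul, map_mul, Complex.conj_ofReal, Complex.conj_conj, mul_comm (kap e Y (u + x)),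
    mul_comm (dual G W c (v + x))]

/-- The diagonal terms. -/
theorem vl2_diag {G : ℝ} (hG : 1 ≤ G) {Y : ℕ} (hY : 1 ≤ Y) (W : Finset ℕ) {c : ℕ → ℂ}
    (hc : ∀ a ∈ W, ‖c a‖ ≤ 1) (e : ℕ) :
    ∑ j ∈ Ico Y (2 * Y), vl2T G W c e Y j j ≤ 2000 * (Y * (1 + Y / G) * W.card) := by
  have h1 : (1 : ℝ) ≤ Y := by exact_mod_cast hY
  have h2 := l2_diag hG hY W hc le_rfl zero_le_one
  have h3 := l2_diag hG hY W hc zero_le_one le_rfl
  rw [zero_add] at h2
  rw [one_add_one_eq_two] at h3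
  refine le_trans (sum_le_sum fun j hj => ?_) ((sum_add_distrib.le.trans
    (add_le_add h2 h3)).trans (le_of_eq (by ring)))
  have a1 : (Y : ℝ) ≤ j := by exact_mod_cast (mem_Ico.1 hj).1
  have hp : ∀ a b : ℝ, 0 ≤ a → a ≤ b →
      IntervalIntegrable (fun x => ‖dual G W c (j + x)‖ ^ 2) MeasureTheory.volume a b :=
    fun a b ha hab => (l2_shift_cont ((dual_cont G W c).norm.pow 2) (d := j)
      (by linarith)).intervalIntegrable_of_Icc hab
  rw [intervalIntegral.integral_add_adjacent_intervals (hp 0 1 le_rfl zero_le_one)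
    (hp 1 2 zero_le_one one_le_two)]
  refine intervalIntegral.norm_integral_le_of_norm_le zero_le_two
    (Filter.Eventually.of_forall fun x hx => ?_) (hp 0 2 le_rfl zero_le_two)
  have k1 := l2_kap_abs e hY (y := j + x) (by linarith [hx.1])
  rw [norm_mul, norm_mul, Complex.norm_conj, Complex.norm_real, Real.norm_eq_abs, abs_mul,
    ← sq (‖dual G W c (j + x)‖)]
  exact mul_le_of_le_one_left (by positivity) (mul_le_one₀ k1 (abs_nonneg _) k1)

/-- A pair of shifts, expanded in the points of `W`. -/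
theorem vl2_pair (G : ℝ) (W : Finset ℕ) {c : ℕ → ℂ} (hc : ∀ a ∈ W, ‖c a‖ ≤ 1) (e Y : ℕ) {u v : ℝ}
    (hu : 0 < u) (hv : 0 < v) :
    vl2T G W c e Y u v ≤ ∑ a ∈ W, ∑ s ∈ W,
      ‖∫ x in (0 : ℝ)..2, ((kap e Y (u + x) * kap e Y (v + x) : ℝ) : ℂ) *
        ei (G * a * lg (u + x) - G * s * lg (v + x))‖ := by
  have h1 : ∀ x : ℝ, ((kap e Y (u + x) * kap e Y (v + x) : ℝ) : ℂ) *
      (dual G W c (u + x) * (starRingEnd ℂ) (dual G W c (v + x))) =
      ∑ a ∈ W, ∑ s ∈ W, c a * (starRingEnd ℂ) (c s) *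
        (((kap e Y (u + x) * kap e Y (v + x) : ℝ) : ℂ) *
          ei (G * a * lg (u + x) - G * s * lg (v + x))) := by
    intro x
    unfold dual
    rw [map_sum, sum_mul_sum, mul_sum]
    refine sum_congr rfl fun a _ => ?_
    rw [mul_sum]
    refine sum_congr rfl fun s _ => ?_
    rw [map_mul, Bar.conj_ei, sub_eq_add_neg, Bar.ei_add]
    ring
  have c1 := l2_shift_cont (l2_kap_cont e Y) (d := u) (a := 0) (b := 2) (by linarith)
  have c2 := l2_shift_cont (l2_kap_cont e Y) (d := v) (a := 0) (b := 2) (by linarith)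
  have c3 := l2_shift_cont gauss_lg_cont (d := u) (a := 0) (b := 2) (by linarith)
  have c4 := l2_shift_cont gauss_lg_cont (d := v) (a := 0) (b := 2) (by linarith)
  have h2 : ∀ a s : ℕ, IntervalIntegrable (fun x : ℝ => c a * (starRingEnd ℂ) (c s) *
      (((kap e Y (u + x) * kap e Y (v + x) : ℝ) : ℂ) *
        ei (G * a * lg (u + x) - G * s * lg (v + x)))) MeasureTheory.volume 0 2 :=
    fun a s => (continuousOn_const.mul ((Complex.continuous_ofReal.comp_continuousOn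
      (c1.mul c2)).mul (fp2_ei_cont.comp_continuousOn ((continuousOn_const.mul c3).sub
        (continuousOn_const.mul c4))))).intervalIntegrable_of_Icc zero_le_two
  unfold vl2T
  simp only [h1]
  rw [intervalIntegral.integral_finsetSum fun a _ => by
    have := IntervalIntegrable.sum W (fun s _ => h2 a s)
    rwa [Finset.sum_fn] at this]
  refine (norm_sum_le _ _).trans (sum_le_sum fun a ha => ?_)
  rw [intervalIntegral.integral_finsetSum fun s _ => h2 a s]
  refine (norm_sum_le _ _).trans (sum_le_sum fun s hs => ?_)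
  rw [intervalIntegral.integral_const_mul, norm_mul, norm_mul, Complex.norm_conj]
  exact mul_le_of_le_one_left (norm_nonneg _) (mul_le_one₀ (hc a ha) (norm_nonneg _) (hc s hs))

theorem vl2_low {Y j : ℕ} (hj : Y ≤ j) (f : ℕ → ℝ) :
    ∑ i ∈ Ico Y (2 * Y), (if j < i then f i else 0) =
      ∑ m ∈ Ico 1 Y, (if j + m < 2 * Y then f (j + m) else 0) := by
  rw [← sum_filter, ← sum_filter]
  refine sum_nbij' (fun i => i - j) (fun m => j + m) ?_ ?_ ?_ ?_ ?_
  · intro i hi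
    simp only [mem_filter, mem_Ico] at hi ⊢
    omega
  · intro i hi
    simp only [mem_filter, mem_Ico] at hi ⊢
    omega
  · intro i hi
    simp only [mem_filter, mem_Ico] at hi ⊢
    omega
  · intro i _
    omega
  · intro i hi
    simp only [mem_filter, mem_Ico] at hi ⊢
    rw [show j + (i - j) = i by omega]

/-- A symmetric double sum split into the diagonal and the two triangles. -/
theorem vl2_comb {Y : ℕ} (T : ℕ → ℕ → ℝ) (hT : ∀ j j', T j j' = T j' j) :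
    ∑ j ∈ Ico Y (2 * Y), ∑ j' ∈ Ico Y (2 * Y), T j j' = ∑ j ∈ Ico Y (2 * Y), T j j +
      2 * ∑ m ∈ Ico 1 Y, ∑ j ∈ Ico Y (2 * Y), (if j + m < 2 * Y then T (j + m) j else 0) := by
  have h1 : ∀ j j', T j j' = (if j = j' then T j j else 0) + ((if j < j' then T j' j else 0) +
      (if j' < j then T j j' else 0)) := by
    intro j j'
    rcases lt_trichotomy j j' with h | rfl | h
    · rw [if_neg h.ne, if_pos h, if_neg h.not_gt, hT j j']
      ring
    · simp
    · rw [if_neg h.ne', if_neg h.not_gt, if_pos h]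
      ring
  have h2 : ∑ j ∈ Ico Y (2 * Y), ∑ j' ∈ Ico Y (2 * Y), (if j < j' then T j' j else 0) =
      ∑ m ∈ Ico 1 Y, ∑ j ∈ Ico Y (2 * Y), (if j + m < 2 * Y then T (j + m) j else 0) := by
    rw [sum_comm (s := Ico 1 Y)]
    exact sum_congr rfl fun j hj => vl2_low (mem_Ico.1 hj).1 fun i => T i j
  have h3 : ∑ j ∈ Ico Y (2 * Y), ∑ j' ∈ Ico Y (2 * Y), (if j = j' then T j j else 0) =
      ∑ j ∈ Ico Y (2 * Y), T j j :=
    sum_congr rfl fun j hj => by rw [sum_ite_eq, if_pos hj]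
  rw [sum_congr rfl fun j _ => sum_congr rfl fun j' _ => h1 j j']
  simp only [sum_add_distrib]
  rw [h3, sum_comm (f := fun j j' => if j' < j then T j j' else 0), h2]
  ring

/-- The pairs of shifts with a fixed difference. -/
theorem vl2_row {G S ρ : ℝ} (hS : 0 < S) {Y : ℕ} (hY : 1 ≤ Y) (W : Finset ℕ)
    (hW : ∀ a ∈ W, S / 4 ≤ G * a ∧ G * a ≤ S) (hρ : 0 < ρ) (hρY : 2 * (Y : ℝ) ^ 5 ≤ ρ ^ 2 * S)
    {c : ℕ → ℂ} (hc : ∀ a ∈ W, ‖c a‖ ≤ 1) {e : ℕ} (he : e ≤ 1) {m : ℕ} (hm : 1 ≤ m) :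
    ∑ j ∈ Ico Y (2 * Y), (if j + m < 2 * Y then vl2T G W c e Y ((j + m : ℕ) : ℝ) j else 0) ≤
      (W.card : ℝ) ^ 2 * (2560000 * (ρ + (Y : ℝ) ^ 4 / S) * (1 + Real.log Y)) * (1 / (m : ℝ)) := by
  have h1 : (1 : ℝ) ≤ Y := by exact_mod_cast hY
  have m0 : (0 : ℝ) < m := by exact_mod_cast hm
  calc _ ≤ ∑ j ∈ Ico Y (2 * Y), ∑ a ∈ W, ∑ s ∈ W, (if j + m < 2 * Y then
        ‖∫ x in (0 : ℝ)..2, ((kap e Y (j + m + x) * kap e Y (j + x) : ℝ) : ℂ) *
          ei (G * a * lg (j + m + x) - G * s * lg (j + x))‖ else 0) := by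
        refine sum_le_sum fun j hj => ?_
        have a1 : (Y : ℝ) ≤ j := by exact_mod_cast (mem_Ico.1 hj).1
        by_cases h : j + m < 2 * Y
        · simp only [if_pos h]
          rw [Nat.cast_add]
          exact vl2_pair G W hc e Y (by linarith) (by linarith)
        · simp only [if_neg h, sum_const_zero, le_refl]
    _ ≤ ∑ a ∈ W, ∑ s ∈ W,
        2560000 * (ρ + (Y : ℝ) ^ 4 / S) * (1 + Real.log Y) * (1 / (m : ℝ)) := by
        rw [sum_comm]
        refine sum_le_sum fun a ha => ?_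
        rw [sum_comm]
        refine sum_le_sum fun s hs => ?_
        obtain ⟨y0, b0, b1, hy⟩ := osc_pair hY hS (hW a ha).1 (hW a ha).2 (hW s hs).1 (hW s hs).2
          hm he hρ hρY
        have k0 : 0 ≤ 256000 * (ρ + (Y : ℝ) ^ 4 / S) / m := by positivity
        calc _ ≤ ∑ j ∈ Ico Y (2 * Y),
              256000 * (ρ + (Y : ℝ) ^ 4 / S) / m * (1 / (1 + |y0 - j|)) := by
              refine sum_le_sum fun j hj => ?_
              split_ifs with h
              · rw [mul_one_div]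
                exact hy j (mem_Ico.1 hj).1 h
              · positivity
          _ ≤ 256000 * (ρ + (Y : ℝ) ^ 4 / S) / m * (10 * (1 + Real.log Y)) := by
              rw [← mul_sum]
              exact mul_le_mul_of_nonneg_left (harm_sum hY b0 b1) k0
          _ = _ := by ring
    _ = _ := by
        rw [sum_const, sum_const, nsmul_eq_mul, nsmul_eq_mul]
        ring

theorem l2_vdc {G S ρ : ℝ} (hG : 1 ≤ G) (hS : 0 < S) {Y : ℕ} (hY : 1 ≤ Y) (W : Finset ℕ)
    (hW : ∀ a ∈ W, S / 4 ≤ G * a ∧ G * a ≤ S) (hρ : 0 < ρ) (hρY : 2 * (Y : ℝ) ^ 5 ≤ ρ ^ 2 * S)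
    {c ζ : ℕ → ℂ} (hc : ∀ a ∈ W, ‖c a‖ ≤ 1) (hζ : ∀ j, ‖ζ j‖ ≤ 1) {e : ℕ} (he : e ≤ 1) :
    ∫ x in (0 : ℝ)..2, ‖per G W c ζ e Y x‖ ^ 2 ≤ 2000 * (Y * (1 + Y / G) * W.card) +
      10 ^ 7 * (1 + Real.log Y) ^ 2 * (ρ + (Y : ℝ) ^ 4 / S) * (W.card : ℝ) ^ 2 := by
  have h1 : (1 : ℝ) ≤ Y := by exact_mod_cast hY
  have l0 : 0 ≤ 1 + Real.log Y := by linarith [Real.log_nonneg h1]
  refine (vl2_expand G W c hζ e hY).trans ?_
  rw [vl2_comb (fun j j' => vl2T G W c e Y j j') fun j j' => vl2_swap G W c e Y j j']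
  refine add_le_add (vl2_diag hG hY W hc e) ?_
  have k0 : 0 ≤ (W.card : ℝ) ^ 2 * (2560000 * (ρ + (Y : ℝ) ^ 4 / S) * (1 + Real.log Y)) := by
    positivity
  have h2 := sum_le_sum fun m (hm : m ∈ Ico 1 Y) =>
    vl2_row hS hY W hW hρ hρY hc he (mem_Ico.1 hm).1
  rw [← mul_sum] at h2
  have h3 := h2.trans (mul_le_mul_of_nonneg_left (harm_sum' hY) k0)
  have h4 : 0 ≤ (1 + Real.log Y) ^ 2 * (ρ + (Y : ℝ) ^ 4 / S) * (W.card : ℝ) ^ 2 := by positivity
  refine (mul_le_mul_of_nonneg_left h3 zero_le_two).trans ?_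
  nlinarith

end Pool.Agent.Lib.MP_ecd12e_nt.ZS
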