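import Pool.Agent.Lib.MP_ecd12e_nt.ZS.VTw
import Pool.Agent.Lib.MP_ecd12e_nt.ZS.FinalC

/-! Discrete moments of zeta sums between the fourth and the twelfth. -/

set_option autoImplicit false

namespace Pool.Agent.Lib.MP_ecd12e_nt.ZS

open Finset Real
open Pool.Agent.Lib.MP_ecd12e_nt.Bar (ei)

theorem vmom_log {ε : ℝ} (hε : 0 < ε) (n : ℕ) : ∃ C : ℝ, 0 ≤ C ∧ ∀ N : ℕ, 1 ≤ N → ∀ T : ℝ,
    (N : ℝ) ^ 2 ≤ T → (1 + Real.log N) ^ n ≤ C * T ^ ε := by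
  have hη : 0 < ε / (n + 1) := by positivity
  refine ⟨(1 + 1 / (ε / (n + 1))) ^ n, by positivity, fun N hN T hT => ?_⟩
  have h1 : (1 : ℝ) ≤ N := by exact_mod_cast hN
  have h2 : (N : ℝ) ≤ T := by nlinarith
  have h3 : 1 ≤ T := h1.trans h2
  have h4 : 1 ≤ T ^ (ε / (n + 1)) := Real.one_le_rpow h3 hη.le
  have h5 : Real.log N ≤ T ^ (ε / (n + 1)) / (ε / (n + 1)) :=
    (Real.log_le_log (by linarith) h2).trans (Real.log_le_rpow_div (by linarith) hη)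
  have h6 : 1 + Real.log N ≤ (1 + 1 / (ε / (n + 1))) * T ^ (ε / (n + 1)) := by
    rw [add_mul, one_mul, one_div_mul_eq_div]
    linarith
  have h7 : 0 ≤ Real.log N := Real.log_nonneg h1
  refine (pow_le_pow_left₀ (by linarith) h6 n).trans ?_
  rw [mul_pow]
  refine mul_le_mul_of_nonneg_left ?_ (by positivity)
  rw [← Real.rpow_mul_natCast (by linarith)]
  refine Real.rpow_le_rpow_of_exponent_le h3 ?_
  rw [div_mul_eq_mul_div, div_le_iff₀ (by positivity)]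
  nlinarith

theorem vmom_step {w V K M T x y z a q : ℝ} {k : ℕ} (hV : 0 < V) (hM : 0 < M) (hT : 1 ≤ T)
    (hK : 0 ≤ K) (hq : q = 2 * k + 2 * a)
    (h1 : w * V ^ (2 * k) ≤ K * M ^ k * T ^ x) (h2 : (V ^ 2) ^ a ≤ (M * T ^ y) ^ a)
    (hz : x + y * a ≤ z) : w * V ^ q ≤ K * M ^ (q / 2) * T ^ z := by
  have hT0 : 0 < T := by linarith
  have e1 : V ^ q = V ^ (2 * k) * (V ^ 2) ^ a := by
    rw [hq, Real.rpow_add hV, ← Real.rpow_natCast V (2 * k), ← Real.rpow_natCast V 2,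
      ← Real.rpow_mul hV.le]
    push_cast
    rfl
  have e2 : M ^ (q / 2) = M ^ k * M ^ a := by
    rw [← Real.rpow_natCast M k, ← Real.rpow_add hM, hq]
    congr 1
    ring
  rw [Real.mul_rpow hM.le (by positivity), ← Real.rpow_mul hT0.le] at h2
  calc _ = w * V ^ (2 * k) * (V ^ 2) ^ a := by rw [e1, mul_assoc]
    _ ≤ K * M ^ k * T ^ x * (M ^ a * T ^ (y * a)) :=
        mul_le_mul h1 h2 (by positivity) (by positivity)
    _ = K * M ^ (q / 2) * T ^ (x + y * a) := by rw [e2, Real.rpow_add hT0]; ring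
    _ ≤ _ := mul_le_mul_of_nonneg_left (Real.rpow_le_rpow_of_exponent_le hT hz) (by positivity)

theorem mom_level {q : ℝ} (hq : 4 < q) (hq' : q < 12) : ∃ d : ℝ, 0 < d ∧ ∃ C : ℝ, 0 ≤ C ∧
    ∀ N : ℕ, 1 ≤ N → ∀ T V : ℝ, (N : ℝ) ^ 2 ≤ T → 0 < V → ∀ b : ℕ → ℂ,
    ‖b N‖ + ∑ n ∈ Ico N (2 * N), ‖b (n + 1) - b n‖ ≤ 2 → ∀ W : Finset ℝ, Bar.Sep 1 W →
    (∀ t ∈ W, T ≤ t ∧ t ≤ 2 * T ∧ V ≤ ‖∑ n ∈ Icc N (2 * N), b n * ei (t * Real.log n)‖) →
    (W.card : ℝ) * V ^ q ≤ C * (N : ℝ) ^ (q / 2) * T ^ (1 + (q - 4) / 8 - d) := by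
  obtain ⟨δ, hδ, C0, h0⟩ := zeta_sums
  obtain ⟨d, hd, d1, d2, d3⟩ : ∃ d : ℝ, 0 < d ∧ 2 * d ≤ (q - 4) * δ / 2 ∧ 2 * d ≤ δ / 2 ∧
      2 * d ≤ (12 - q) * δ / 16 := by
    have a1 : 0 < (q - 4) * δ / 2 := div_pos (mul_pos (by linarith) hδ) two_pos
    have a2 : 0 < (12 - q) * δ / 16 := div_pos (mul_pos (by linarith) hδ) (by norm_num)
    refine ⟨min ((q - 4) * δ / 2) (min (δ / 2) ((12 - q) * δ / 16)) / 2, by positivity, ?_, ?_, ?_⟩
    · linarith [min_le_left ((q - 4) * δ / 2) (min (δ / 2) ((12 - q) * δ / 16))]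
    · linarith [min_le_right ((q - 4) * δ / 2) (min (δ / 2) ((12 - q) * δ / 16)),
        min_le_left (δ / 2) ((12 - q) * δ / 16)]
    · linarith [min_le_right ((q - 4) * δ / 2) (min (δ / 2) ((12 - q) * δ / 16)),
        min_le_right (δ / 2) ((12 - q) * δ / 16)]
  obtain ⟨C1, hC1, h1⟩ := vmom_log hd 6
  obtain ⟨C2, hC2, h2⟩ := vmom_log hd 24
  refine ⟨d, hd, 10 ^ 19 * C1 + |C0| + 10 ^ 82 * C2, by positivity,
    fun N hN T V hT hV b hb W hsep hW => ?_⟩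
  have hN1 : (1 : ℝ) ≤ N := by exact_mod_cast hN
  have hN0 : (0 : ℝ) < N := by linarith
  have hT1 : 1 ≤ T := by nlinarith
  have hT0 : 0 < T := by linarith
  have fin : ∀ K : ℝ, K ≤ 10 ^ 19 * C1 + |C0| + 10 ^ 82 * C2 →
      (W.card : ℝ) * V ^ q ≤ K * (N : ℝ) ^ (q / 2) * T ^ (1 + (q - 4) / 8 - d) →
      (W.card : ℝ) * V ^ q ≤ (10 ^ 19 * C1 + |C0| + 10 ^ 82 * C2) * (N : ℝ) ^ (q / 2) *
        T ^ (1 + (q - 4) / 8 - d) := fun K hK h => h.trans (by gcongr)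
  have p0 := abs_nonneg C0
  rcases le_total (V ^ 2) (N * T ^ (1 / 4 - δ)) with c1 | c1
  · refine fin (10 ^ 19 * C1) (by linarith) (vmom_step (k := 2) (a := (q - 4) / 2) (x := 1 + d)
      hV hN0 hT1 (by positivity) (by push_cast; ring) ?_
      (Real.rpow_le_rpow (by positivity) c1 (by linarith)) (by linarith))
    calc _ ≤ _ := lv_four hN hT b hb hV.le W hsep hW
      _ ≤ 10 ^ 19 * (C1 * T ^ d) * (N : ℝ) ^ 2 * T := by gcongr; exact h1 N hN T hT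
      _ = _ := by rw [Real.rpow_add hT0, Real.rpow_one]; ring
  rcases le_total (V ^ 2) (N * T ^ (1 / 4 + δ / 8)) with c2 | c2
  · refine fin |C0| (by linarith) (vmom_step (k := 2) (a := (q - 4) / 2) (x := 1 - δ)
      hV hN0 hT1 p0 (by push_cast; ring) ?_
      (Real.rpow_le_rpow (by positivity) c2 (by linarith)) (by nlinarith))
    have h3 := h0 N hN T V hT hV c1 b hb W hsep hW
    rw [le_div_iff₀ (by positivity)] at h3
    calc _ ≤ _ := h3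
      _ ≤ |C0| * T ^ (1 - δ) * (N : ℝ) ^ 2 := by gcongr; exact le_abs_self _
      _ = _ := by ring
  · refine fin (10 ^ 82 * C2) (by linarith) (vmom_step (k := 6) (a := (q - 12) / 2) (x := 2 + d)
      hV hN0 hT1 (by positivity) (by push_cast; ring) ?_
      (Real.rpow_le_rpow_of_nonpos (by positivity) c2 (by linarith)) (by linarith))
    calc _ ≤ _ := lv_twelve hN hT b hb hV.le W hsep hW
      _ ≤ 10 ^ 82 * (C2 * T ^ d) * (N : ℝ) ^ 6 * T ^ 2 := by gcongr; exact h2 N hN T hT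
      _ = _ := by rw [Real.rpow_add hT0, Real.rpow_two]; ring

theorem vmom_cls {N : ℕ} (hN : 1 ≤ N) :
    ((Nat.log 2 (4 * N) + 1 : ℕ) : ℝ) ≤ 3 * (1 + Real.log N) ^ 1 := by
  have h1 : (1 : ℝ) ≤ N := by exact_mod_cast hN
  have h2 : (2 : ℝ) ^ Nat.log 2 (4 * N) ≤ 2 ^ 2 * N := by
    exact_mod_cast Nat.pow_log_le_self 2 (show 4 * N ≠ 0 by omega)
  have h3 := Real.log_le_log (by positivity) h2
  rw [Real.log_mul (by norm_num) (by positivity), Real.log_pow, Real.log_pow] at h3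
  have h4 := Real.log_two_gt_d9
  have h5 : 0 ≤ Real.log N := Real.log_nonneg h1
  push_cast at h3 ⊢
  by_contra h
  nlinarith

theorem zeta_moments {q : ℝ} (hq : 4 < q) (hq' : q < 12) : ∃ d : ℝ, 0 < d ∧ ∃ C : ℝ,
    ∀ N : ℕ, 1 ≤ N → ∀ T : ℝ, (N : ℝ) ^ 2 ≤ T → ∀ b : ℕ → ℂ,
    ‖b N‖ + ∑ n ∈ Ico N (2 * N), ‖b (n + 1) - b n‖ ≤ 2 → ∀ W : Finset ℝ, Bar.Sep 1 W →
    (∀ t ∈ W, T ≤ t ∧ t ≤ 2 * T) →
    ∑ t ∈ W, ‖∑ n ∈ Icc N (2 * N), b n * ei (t * Real.log n)‖ ^ q ≤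
      C * (N : ℝ) ^ (q / 2) * T ^ (1 + (q - 4) / 8 - d) := by
  obtain ⟨d, hd, C, hC, h⟩ := mom_level hq hq'
  obtain ⟨C1, hC1, h1⟩ := vmom_log (half_pos hd) 1
  refine ⟨min (d / 2) ((q - 4) / 8), lt_min (half_pos hd) (by linarith),
    3 * C1 * (2 ^ 12 * C) + 2, fun N hN T hT b hb W hsep hW => ?_⟩
  have m1 := min_le_left (d / 2) ((q - 4) / 8)
  have m2 := min_le_right (d / 2) ((q - 4) / 8)
  generalize min (d / 2) ((q - 4) / 8) = d' at *
  have hN1 : (1 : ℝ) ≤ N := by exact_mod_cast hN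
  have hT1 : 1 ≤ T := by nlinarith
  have hT0 : 0 < T := by linarith
  have hD := bv_norm hN b hb
  have hlev := fun V hV => h N hN T V hT hV b hb
  generalize hDf : (fun t : ℝ => ‖∑ n ∈ Icc N (2 * N), b n * ei (t * Real.log n)‖) = D
  have hDe : ∀ t : ℝ, ‖∑ n ∈ Icc N (2 * N), b n * ei (t * Real.log n)‖ = D t :=
    fun t => congrFun hDf t
  have hD0 : ∀ t, 0 ≤ D t := fun t => by rw [← hDe]; exact norm_nonneg _
  simp only [hDe] at hD hlev ⊢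
  have hA : ∑ t ∈ W.filter (fun t => ¬ 1 ≤ D t), D t ^ q ≤
      2 * (N : ℝ) ^ (q / 2) * T ^ (1 + (q - 4) / 8 - d') := by
    have a1 := sep_card one_pos (by linarith : T ≤ 2 * T) W hsep hW
    have a2 : ((W.filter fun t => ¬ 1 ≤ D t).card : ℝ) ≤ W.card :=
      Nat.cast_le.2 (card_filter_le _ _)
    have a3 : 1 ≤ (N : ℝ) ^ (q / 2) := Real.one_le_rpow hN1 (by linarith)
    have a4 : T ≤ T ^ (1 + (q - 4) / 8 - d') := Real.self_le_rpow_of_one_le hT1 (by linarith)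
    refine (sum_le_card_nsmul _ _ 1 fun t ht => Real.rpow_le_one (hD0 t)
      (not_le.1 (mem_filter.1 ht).2).le (by linarith)).trans ?_
    rw [nsmul_one]
    have a5 : T ≤ (N : ℝ) ^ (q / 2) * T ^ (1 + (q - 4) / 8 - d') :=
      a4.trans (le_mul_of_one_le_left (by positivity) a3)
    rw [div_one] at a1
    rw [mul_assoc]
    linarith
  have hB : ∑ t ∈ W.filter (fun t => 1 ≤ D t), D t ^ q ≤
      3 * C1 * (2 ^ 12 * C) * (N : ℝ) ^ (q / 2) * T ^ (1 + (q - 4) / 8 - d') := by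
    have hmap : ∀ t ∈ W.filter (fun t => 1 ≤ D t),
        Nat.log 2 ⌊D t⌋₊ ∈ range (Nat.log 2 (4 * N) + 1) := by
      intro t _
      refine mem_range.2 (Nat.lt_succ_of_le (Nat.log_mono_right (Nat.floor_le_of_le ?_)))
      push_cast
      exact hD t
    rw [← sum_fiberwise_of_maps_to hmap]
    refine (sum_le_card_nsmul _ _ (2 ^ 12 * (C * (N : ℝ) ^ (q / 2) * T ^ (1 + (q - 4) / 8 - d)))
      fun i _ => ?_).trans ?_
    · have b1 : ∀ t ∈ (W.filter fun t => 1 ≤ D t).filter fun t => Nat.log 2 ⌊D t⌋₊ = i,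
          t ∈ W ∧ (2 : ℝ) ^ i ≤ D t ∧ D t ≤ 2 * 2 ^ i := by
        intro t ht
        obtain ⟨ht', hi⟩ := mem_filter.1 ht
        obtain ⟨ht, h2⟩ := mem_filter.1 ht'
        rw [← hi]
        have h3 : ⌊D t⌋₊ ≠ 0 := (Nat.floor_pos.2 h2).ne'
        refine ⟨ht, le_trans ?_ (Nat.floor_le (hD0 t)), (Nat.lt_floor_add_one _).le.trans ?_⟩
        · exact_mod_cast Nat.pow_log_le_self 2 h3
        · have h4 := Nat.lt_pow_succ_log_self (by norm_num : 1 < 2) ⌊D t⌋₊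
          rw [pow_succ'] at h4
          exact_mod_cast h4
      generalize ((W.filter fun t => 1 ≤ D t).filter fun t => Nat.log 2 ⌊D t⌋₊ = i) = U at b1 ⊢
      have b2 := hlev (2 ^ i) (by positivity) U
        (fun s hs t ht => hsep s (b1 s hs).1 t (b1 t ht).1)
        fun t ht => ⟨(hW t (b1 t ht).1).1, (hW t (b1 t ht).1).2, (b1 t ht).2.1⟩
      have b3 : (2 : ℝ) ^ q ≤ 2 ^ 12 := by
        rw [← Real.rpow_natCast]
        exact Real.rpow_le_rpow_of_exponent_le one_le_two (by push_cast; linarith)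
      refine (sum_le_card_nsmul _ _ (2 ^ 12 * ((2 : ℝ) ^ i) ^ q) fun t ht => ?_).trans ?_
      · refine (Real.rpow_le_rpow (hD0 t) (b1 t ht).2.2 (by linarith)).trans ?_
        rw [Real.mul_rpow (by norm_num) (by positivity)]
        gcongr
      · rw [nsmul_eq_mul, mul_left_comm]
        gcongr
    · rw [card_range, nsmul_eq_mul]
      have b1 := (vmom_cls hN).trans (mul_le_mul_of_nonneg_left (h1 N hN T hT) (by norm_num))
      calc _ ≤ 3 * (C1 * T ^ (d / 2)) *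
            (2 ^ 12 * (C * (N : ℝ) ^ (q / 2) * T ^ (1 + (q - 4) / 8 - d))) := by gcongr
        _ = 3 * C1 * (2 ^ 12 * C) * (N : ℝ) ^ (q / 2) *
            T ^ (d / 2 + (1 + (q - 4) / 8 - d)) := by rw [Real.rpow_add hT0]; ring
        _ ≤ _ := mul_le_mul_of_nonneg_left
            (Real.rpow_le_rpow_of_exponent_le hT1 (by linarith)) (by positivity)
  rw [← sum_filter_add_sum_filter_not W fun t => 1 ≤ D t, add_mul, add_mul]
  exact add_le_add hB hA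

end Pool.Agent.Lib.MP_ecd12e_nt.ZS
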