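import Pool.Agent.Lib.MP_ecd12e_nt.ZS.StatPh

/-! A second derivative test with decay in the position of the stationary point. -/

set_option autoImplicit false

namespace Pool.Agent.Lib.MP_ecd12e_nt.ZS

open Finset Real
open Pool.Agent.Lib.MP_ecd12e_nt.Bar (ei)

theorem vosc_cut {x0 q : ℝ} (hq : 0 < q) : ∃ c d : ℝ, 0 ≤ c ∧ c ≤ d ∧ d ≤ 2 ∧ d - c ≤ 2 * q ∧
    (c = 0 ∨ c ≤ x0 - q) ∧ (d = 2 ∨ x0 + q ≤ d) := by
  rcases le_total (x0 + q) 0 with h1 | h1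
  · exact ⟨0, 0, le_rfl, le_rfl, by linarith, by linarith, .inl rfl, .inr h1⟩
  rcases le_total 2 (x0 - q) with h2 | h2
  · exact ⟨2, 2, by linarith, le_rfl, le_rfl, by linarith, .inr h2, .inl rfl⟩
  rcases le_total (x0 - q) 0 with h3 | h3 <;> rcases le_total 2 (x0 + q) with h4 | h4
  · exact ⟨0, 2, le_rfl, by linarith, le_rfl, by linarith, .inl rfl, .inl rfl⟩
  · exact ⟨0, x0 + q, le_rfl, h1, h4, by linarith, .inl rfl, .inr le_rfl⟩
  · exact ⟨x0 - q, 2, h3, h2, le_rfl, by linarith, .inr le_rfl, .inl rfl⟩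
  · exact ⟨x0 - q, x0 + q, h3, by linarith, h4, by linarith, .inr le_rfl, .inr le_rfl⟩

theorem vosc_side {φ φ' φ'' γ γ' : ℝ → ℝ} {x0 q κ M a b D : ℝ} (hκ : 0 < κ)
    (hMq : M ≤ (q * κ) ^ 2) (h1 : ∀ x ∈ Set.Icc (0 : ℝ) 2, HasDerivAt φ (φ' x) x)
    (h2 : ∀ x ∈ Set.Icc (0 : ℝ) 2, HasDerivAt φ' (φ'' x) x)
    (c2 : ContinuousOn φ'' (Set.Icc (0 : ℝ) 2))
    (h3 : ∀ x ∈ Set.Icc (0 : ℝ) 2, HasDerivAt γ (γ' x) x)
    (c3 : ContinuousOn γ' (Set.Icc (0 : ℝ) 2)) (hγ : ∀ x ∈ Set.Icc (0 : ℝ) 2, |γ x| ≤ 1)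
    (hγ' : ∀ x ∈ Set.Icc (0 : ℝ) 2, |γ' x| ≤ 2)
    (hlow : ∀ x ∈ Set.Icc (0 : ℝ) 2, κ * |x - x0| ≤ |φ' x|)
    (hM : ∀ x ∈ Set.Icc (0 : ℝ) 2, |φ'' x| ≤ M) (hD : 0 < D) (ha : 0 ≤ a) (hab : a ≤ b)
    (hb : b ≤ 2) (hf : ∀ x ∈ Set.Icc a b, D ≤ |x - x0|) :
    ‖∫ x in a..b, (γ x : ℂ) * ei (φ x)‖ ≤ 6 * (κ * D)⁻¹ + q ^ 2 * (2 * min D⁻¹ (D⁻¹ ^ 2)) := by
  have s := Set.Icc_subset_Icc ha hb
  have kD := mul_pos hκ hD
  have p : ∀ x ∈ Set.Icc a b, x - x0 ≠ 0 := fun x hx => abs_pos.1 (hD.trans_le (hf x hx))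
  have l : ∀ x ∈ Set.Icc a b, κ * D ≤ |φ' x| := fun x hx =>
    (mul_le_mul_of_nonneg_left (hf x hx) hκ.le).trans (hlow x (s hx))
  have z : ∀ x ∈ Set.Icc a b, φ' x ≠ 0 := fun x hx => abs_pos.1 (kD.trans_le (l x hx))
  have c1 := (statph_on h2).mono s
  have cs : ContinuousOn (fun x => x - x0) (Set.Icc a b) := by fun_prop
  have e : ∀ x ∈ Set.Icc a b, |γ x| / |φ' x| ≤ (κ * D)⁻¹ := fun x hx =>
    (div_le_div₀ zero_le_one (hγ x (s hx)) kD (l x hx)).trans_eq (one_div _)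
  have ma : a ∈ Set.Icc a b := ⟨le_rfl, hab⟩
  have mb : b ∈ Set.Icc a b := ⟨hab, le_rfl⟩
  have ig : IntervalIntegrable (fun x => 2 / (κ * D) + q ^ 2 / (x - x0) ^ 2)
      MeasureTheory.volume a b := (continuousOn_const.add (continuousOn_const.div (cs.pow 2)
        fun x hx => pow_ne_zero 2 (p x hx))).intervalIntegrable_of_Icc hab
  have n := (nonstat hab (fun x hx => h1 x (s hx)) (fun x hx => h2 x (s hx)) (c2.mono s)
    (fun x hx => h3 x (s hx)) (c3.mono s) z).trans (add_le_add (add_le_add (e a ma) (e b mb))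
    (intervalIntegral.integral_mono_on hab
      ((((c3.mono s).abs.div c1.abs fun x hx => abs_ne_zero.2 (z x hx)).add
        ((((statph_on h3).mono s).abs.mul (c2.mono s).abs).div (c1.pow 2) fun x hx =>
          pow_ne_zero 2 (z x hx))).intervalIntegrable_of_Icc hab) ig fun x hx => ?_))
  · rw [intervalIntegral.integral_eq_sub_of_hasDerivAt
      (f := fun x => 2 / (κ * D) * x - q ^ 2 * (x - x0)⁻¹) (fun x hx => by
        rw [Set.uIcc_of_le hab] at hx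
        refine (((hasDerivAt_id x).const_mul _).sub ((((hasDerivAt_id x).sub_const x0).inv
          (p x hx)).const_mul _)).congr_deriv ?_
        simp only [id]
        ring) ig] at n
    have i : ∀ x ∈ Set.Icc a b, |(x - x0)⁻¹| ≤ D⁻¹ := fun x hx => by
      rw [abs_inv]
      exact inv_anti₀ hD (hf x hx)
    have j1 : (a - x0)⁻¹ - (b - x0)⁻¹ ≤ 2 * D⁻¹ := by
      linarith [(abs_le.1 (i a ma)).2, (abs_le.1 (i b mb)).1]
    have j2 : (a - x0)⁻¹ - (b - x0)⁻¹ ≤ 2 * D⁻¹ ^ 2 := by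
      have := p a ma
      have := p b mb
      rw [show (a - x0)⁻¹ - (b - x0)⁻¹ = (b - a) * ((a - x0)⁻¹ * (b - x0)⁻¹) by
        field_simp; ring]
      refine (mul_le_mul_of_nonneg_left (le_abs_self _) (sub_nonneg.2 hab)).trans
        (mul_le_mul (by linarith) ?_ (abs_nonneg _) zero_le_two)
      rw [abs_mul, sq]
      exact mul_le_mul (i a ma) (i b mb) (abs_nonneg _) (inv_pos.2 hD).le
    have j3 : (a - x0)⁻¹ - (b - x0)⁻¹ ≤ 2 * min D⁻¹ (D⁻¹ ^ 2) := by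
      rw [mul_min_of_nonneg _ _ zero_le_two]
      exact le_min j1 j2
    have j4 := mul_le_mul_of_nonneg_left j3 (sq_nonneg q)
    have j5 := mul_le_mul_of_nonneg_left (show b - a ≤ 2 by linarith) (inv_pos.2 kD).le
    rw [div_eq_mul_inv] at n
    linarith
  · have k := abs_pos.2 (p x hx)
    refine add_le_add (div_le_div₀ zero_le_two (hγ' x (s hx)) kD (l x hx)) ?_
    rw [← mul_div_mul_right (q ^ 2) _ (pow_pos hκ 2).ne', ← mul_pow, ← sq_abs (x - x0), ← mul_pow,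
      ← sq_abs (φ' x), mul_comm _ κ]
    exact div_le_div₀ (sq_nonneg _) (((mul_le_of_le_one_left (abs_nonneg _) (hγ x (s hx))).trans
      (hM x (s hx))).trans (hMq.trans_eq (by ring))) (by positivity)
      (pow_le_pow_left₀ (by positivity) ((by rw [mul_comm] : _ = _).trans_le (hlow x (s hx))) 2)

theorem osc_gen {φ φ' φ'' γ γ' : ℝ → ℝ} {x0 q κ M : ℝ} (hq : 0 < q) (hκ : 0 < κ) (hκM : κ ≤ M)
    (hMq : M ≤ (q * κ) ^ 2) (h1 : ∀ x ∈ Set.Icc (0 : ℝ) 2, HasDerivAt φ (φ' x) x)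
    (h2 : ∀ x ∈ Set.Icc (0 : ℝ) 2, HasDerivAt φ' (φ'' x) x)
    (c2 : ContinuousOn φ'' (Set.Icc (0 : ℝ) 2))
    (h3 : ∀ x ∈ Set.Icc (0 : ℝ) 2, HasDerivAt γ (γ' x) x)
    (c3 : ContinuousOn γ' (Set.Icc (0 : ℝ) 2)) (hγ : ∀ x ∈ Set.Icc (0 : ℝ) 2, |γ x| ≤ 1)
    (hγ' : ∀ x ∈ Set.Icc (0 : ℝ) 2, |γ' x| ≤ 2)
    (hlow : ∀ x ∈ Set.Icc (0 : ℝ) 2, κ * |x - x0| ≤ |φ' x|)
    (hM : ∀ x ∈ Set.Icc (0 : ℝ) 2, |φ'' x| ≤ M) :
    ‖∫ x in (0 : ℝ)..2, (γ x : ℂ) * ei (φ x)‖ * (1 + |x0|) ≤ 100 * (q + 1 / κ) := by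
  have S := fun {a b D : ℝ} => vosc_side (x0 := x0) (a := a) (b := b) (D := D) hκ hMq h1 h2 c2 h3
    c3 hγ hγ' hlow hM
  have k0 := inv_pos.2 hκ
  have tr : ∀ a b : ℝ, 0 ≤ a → a ≤ b → b ≤ 2 → ‖∫ x in a..b, (γ x : ℂ) * ei (φ x)‖ ≤ b - a :=
    fun a b ha hab hb => by
      refine (intervalIntegral.norm_integral_le_of_norm_le_const (C := 1) fun x hx => ?_).trans_eq
        (by rw [one_mul, abs_of_nonneg (sub_nonneg.2 hab)])
      rw [Set.uIoc_of_le hab] at hx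
      rw [norm_mul, Bar.norm_ei, mul_one, Complex.norm_real]
      exact hγ x ⟨ha.trans hx.1.le, hx.2.trans hb⟩
  rw [one_div]
  rcases le_total |x0| 3 with h | h
  · have cf : ContinuousOn (fun x => (γ x : ℂ) * ei (φ x)) (Set.Icc (0 : ℝ) 2) :=
      (Complex.continuous_ofReal.comp_continuousOn (statph_on h3)).mul
        (statph_cont.comp_continuousOn (statph_on h1))
    have it : ∀ a b : ℝ, 0 ≤ a → a ≤ b → b ≤ 2 → IntervalIntegrable
        (fun x => (γ x : ℂ) * ei (φ x)) MeasureTheory.volume a b := fun a b ha hab hb =>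
      (cf.mono (Set.Icc_subset_Icc ha hb)).intervalIntegrable_of_Icc hab
    have w : 6 * (κ * q)⁻¹ + q ^ 2 * (2 * min q⁻¹ (q⁻¹ ^ 2)) ≤ 8 * q := by
      have w1 : (κ * q)⁻¹ ≤ q := by
        rw [inv_le_iff_one_le_mul₀ (mul_pos hκ hq)]
        exact le_of_mul_le_mul_right (by linarith) hκ
      have w2 := mul_le_mul_of_nonneg_left (min_le_left q⁻¹ (q⁻¹ ^ 2)) (sq_nonneg q)
      have w3 : q ^ 2 * q⁻¹ = q := by field_simp
      linarith
    obtain ⟨c, d, c0, cd, d2, dc, hc, hd⟩ := vosc_cut (x0 := x0) hq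
    have o1 : ‖∫ x in (0 : ℝ)..c, (γ x : ℂ) * ei (φ x)‖ ≤ 8 * q := by
      rcases hc with hc | hc
      · exact (tr 0 c le_rfl c0 (cd.trans d2)).trans (by linarith)
      · exact (S hq le_rfl c0 (cd.trans d2) fun x hx =>
          le_abs.2 (.inr (by linarith [hx.2]))).trans w
    have o2 : ‖∫ x in d..2, (γ x : ℂ) * ei (φ x)‖ ≤ 8 * q := by
      rcases hd with hd | hd
      · exact (tr d 2 (c0.trans cd) d2 le_rfl).trans (by linarith)
      · exact (S hq (c0.trans cd) d2 le_rfl fun x hx =>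
          le_abs.2 (.inl (by linarith [hx.1]))).trans w
    rw [← intervalIntegral.integral_add_adjacent_intervals (it 0 d le_rfl (c0.trans cd) d2)
      (it d 2 (c0.trans cd) d2 le_rfl), ← intervalIntegral.integral_add_adjacent_intervals
      (it 0 c le_rfl c0 (cd.trans d2)) (it c d c0 cd d2)]
    refine (mul_le_mul (norm_add₃_le.trans (add_le_add (add_le_add o1
      ((tr c d c0 cd d2).trans dc)) o2)) (show 1 + |x0| ≤ 4 by linarith) (by positivity)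
      (by positivity)).trans (by linarith)
  · obtain ⟨D, hD⟩ : ∃ D, D = |x0| - 2 := ⟨_, rfl⟩
    have D0 : 0 < D := by linarith
    have o : ‖∫ x in (0 : ℝ)..2, (γ x : ℂ) * ei (φ x)‖ * D ≤ 6 * κ⁻¹ + 2 * q := by
      rcases le_total q D with c | c
      · have n := S D0 le_rfl zero_le_two le_rfl fun x hx => by
          have := abs_sub_abs_le_abs_sub x0 x
          rw [abs_of_nonneg hx.1, abs_sub_comm] at this
          linarith [hx.2]
        have w := mul_le_mul_of_nonneg_left (min_le_right D⁻¹ (D⁻¹ ^ 2)) (sq_nonneg q)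
        have w2 : (6 * (κ * D)⁻¹ + 2 * (q ^ 2 * D⁻¹ ^ 2)) * D = 6 * κ⁻¹ + 2 * (q * (q / D)) := by
          field_simp
        have w3 := mul_le_of_le_one_right hq.le ((div_le_one D0).2 c)
        exact (mul_le_mul_of_nonneg_right (n.trans (by linarith)) D0.le).trans
          (w2.trans_le (by linarith))
      · have := mul_le_mul (tr 0 2 le_rfl zero_le_two le_rfl) c D0.le (by norm_num)
        linarith
    have := mul_le_mul_of_nonneg_left (show 1 + |x0| ≤ 4 * D by linarith)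
      (norm_nonneg (∫ x in (0 : ℝ)..2, (γ x : ℂ) * ei (φ x)))
    linarith

end Pool.Agent.Lib.MP_ecd12e_nt.ZS
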