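import Pool.Agent.Lib.MP_ecd12e_nt.ZS.VOsc
import Pool.Agent.Lib.MP_ecd12e_nt.ZS.L2

/-! The oscillatory integral of one pair of shifts, by integration by parts only. -/

set_option autoImplicit false

namespace Pool.Agent.Lib.MP_ecd12e_nt.ZS

open Finset Real
open Pool.Agent.Lib.MP_ecd12e_nt.Bar (ei)

theorem vp_psi (B : ℝ) {m y z Y : ℝ} (hm : 1 ≤ m) (hY : 1 ≤ Y) (hy : Y ≤ y) (hz : 0 < z)
    (hz' : z ≤ 4 * Y) : ∃ w : ℝ, 2 / 5 ≤ w ∧
      B * ((y + m) * (y + m + 1)) - B * rho m z * (y * (y + 1)) = B * m * w * (z - y) := by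
  refine ⟨(2 * z * y + (m + 1) * (y + z + 1)) / (z * (z + 1)), ?_, ?_⟩
  · rw [le_div_iff₀ (by positivity)]
    have h1 : 0 ≤ (m + 1) * (y + z + 1) := by
      have : 0 ≤ y := by linarith
      positivity
    have h2 : z + 1 ≤ 5 * y := by linarith
    nlinarith [mul_le_mul_of_nonneg_left h2 hz.le]
  · unfold rho
    field_simp
    ring

theorem vp_root {A B m Y : ℝ} (hB : 0 < B) (hm : 1 ≤ m) (hY : 1 ≤ Y) :
    ∃ y0 : ℝ, 0 ≤ y0 ∧ y0 ≤ 4 * Y ∧ ∀ y, Y ≤ y → y ≤ 4 * Y →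
      2 / 5 * (B * m) * |y - y0| ≤ |B * ((y + m) * (y + m + 1)) - A * (y * (y + 1))| := by
  have m0 : 0 < m := by linarith
  have Bm : 0 < B * m := by positivity
  by_cases h : rho m (4 * Y) < A / B
  · have h1 : 1 < A / B := (rho_gt hm (by linarith)).trans h
    have h2 := yr_pos m0 h1
    have h3 := rho_yr m0 h1
    have h4 : yr m (A / B) ≤ 4 * Y := by
      by_contra c
      have := rho_anti hm (by linarith : 0 < 4 * Y) (not_le.1 c)
      linarith
    refine ⟨_, h2.le, h4, fun y hy _ => ?_⟩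
    obtain ⟨w, hw, e⟩ := vp_psi B hm hY hy h2 h4
    rw [h3, mul_div_cancel₀ _ hB.ne'] at e
    rw [e, abs_mul, abs_sub_comm y, abs_of_pos (by positivity : 0 < B * m * w)]
    exact mul_le_mul_of_nonneg_right (by nlinarith) (abs_nonneg _)
  · refine ⟨4 * Y, by linarith, le_rfl, fun y hy hy' => ?_⟩
    obtain ⟨w, hw, e⟩ := vp_psi B hm hY hy (by linarith : 0 < 4 * Y) le_rfl
    have h1 : A ≤ B * rho m (4 * Y) := by
      have := (div_le_iff₀ hB).1 (not_lt.1 h)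
      linarith
    have h2 : A * (y * (y + 1)) ≤ B * rho m (4 * Y) * (y * (y + 1)) :=
      mul_le_mul_of_nonneg_right h1 (by nlinarith)
    refine le_trans ?_ (le_abs_self _)
    rw [abs_sub_comm, abs_of_nonneg (by linarith)]
    have h3 : 2 / 5 * (B * m) * (4 * Y - y) ≤ B * m * w * (4 * Y - y) :=
      mul_le_mul_of_nonneg_right (by nlinarith) (by linarith)
    linarith

theorem vp_lg2 {Y y : ℝ} (hY : 1 ≤ Y) (hy : Y ≤ y) : 0 ≤ lg2 y ∧ lg2 y ≤ 2 / Y ^ 3 := by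
  have y0 : 0 < y := by linarith
  unfold lg2
  refine ⟨by positivity, ?_⟩
  have h1 : Y ^ 3 ≤ y ^ 3 := pow_le_pow_left₀ (by linarith) hy 3
  rw [div_le_div_iff₀ (by positivity) (by positivity)]
  have h2 : (2 * y + 1) * y ^ 3 ≤ 2 * (y * (y + 1)) ^ 2 := by
    have : 0 ≤ y ^ 3 := by positivity
    have : 0 ≤ y ^ 2 := by positivity
    nlinarith
  exact (mul_le_mul_of_nonneg_left h1 (by positivity)).trans h2

theorem vp_lg2_cont : ContinuousOn lg2 (Set.Ioi 0) := by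
  unfold lg2
  refine ContinuousOn.div (by fun_prop) (by fun_prop) fun y hy => ?_
  have : 0 < y := hy
  positivity

theorem osc_pair {S A B ρ : ℝ} {Y m e : ℕ} (hY : 1 ≤ Y) (hS : 0 < S) (hA : S / 4 ≤ A) (hA' : A ≤ S)
    (hB : S / 4 ≤ B) (hB' : B ≤ S) (hm : 1 ≤ m) (he : e ≤ 1) (hρ : 0 < ρ)
    (hρY : 2 * (Y : ℝ) ^ 5 ≤ ρ ^ 2 * S) : ∃ y0 : ℝ, 0 ≤ y0 ∧ y0 ≤ 4 * Y ∧
      ∀ j : ℕ, Y ≤ j → j + m < 2 * Y →
        ‖∫ x in (0 : ℝ)..2, ((kap e Y (j + m + x) * kap e Y (j + x) : ℝ) : ℂ) *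
          ei (A * lg (j + m + x) - B * lg (j + x))‖ ≤
          256000 * (ρ + (Y : ℝ) ^ 4 / S) / m / (1 + |y0 - j|) := by
  have Y1 : (1 : ℝ) ≤ Y := by exact_mod_cast hY
  have m1 : (1 : ℝ) ≤ m := by exact_mod_cast hm
  have Y0 : (0 : ℝ) < Y := by linarith
  have m0 : (0 : ℝ) < m := by linarith
  have A0 : 0 < A := by linarith
  have B0 : 0 < B := by linarith
  obtain ⟨y0, a1, a2, a3⟩ := vp_root (A := A) B0 m1 Y1
  refine ⟨y0, a1, a2, fun j hj hjm => ?_⟩
  have j1 : (Y : ℝ) ≤ j := by exact_mod_cast hj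
  have j2 : (j : ℝ) + m + 1 ≤ 2 * Y := by exact_mod_cast hjm
  obtain ⟨κ', d1, d2, d3⟩ := l2_kap_der he Y
  have key := osc_gen (φ := fun x => A * lg (j + m + x) - B * lg (j + x))
    (φ' := fun x => A * -((j + m + x) * (j + m + x + 1))⁻¹ - B * -((j + x) * (j + x + 1))⁻¹)
    (φ'' := fun x => A * lg2 (j + m + x) - B * lg2 (j + x))
    (γ := fun x => kap e Y (j + m + x) * kap e Y (j + x))
    (γ' := fun x => κ' (j + m + x) * kap e Y (j + x) + kap e Y (j + m + x) * κ' (j + x))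
    (x0 := y0 - j) (q := 2560 * ρ / m) (κ := S * m / (2560 * (Y : ℝ) ^ 4))
    (M := 2 * S / (Y : ℝ) ^ 3) (by positivity) (by positivity) ?_ ?_ (fun x hx => ?_)
    (fun x hx => ?_) ?_ (fun x hx => ?_) ?_ (fun x hx => ?_) (fun x hx => ?_) (fun x hx => ?_)
    (fun x hx => ?_)
  · rw [le_div_iff₀ (by positivity)]
    refine key.trans_eq ?_
    field_simp
    ring
  · rw [div_le_div_iff₀ (by positivity) (by positivity)]
    have h1 : (m : ℝ) ≤ Y := by linarith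
    have h2 : 0 < S * (Y : ℝ) ^ 3 := by positivity
    nlinarith [mul_le_mul_of_nonneg_left h1 h2.le, mul_pos h2 Y0]
  · have e1 : (2560 * ρ / m * (S * m / (2560 * (Y : ℝ) ^ 4))) ^ 2 =
        ρ ^ 2 * S * (S / (Y : ℝ) ^ 8) := by field_simp
    have e2 : 2 * S / (Y : ℝ) ^ 3 = 2 * (Y : ℝ) ^ 5 * (S / (Y : ℝ) ^ 8) := by field_simp
    rw [e1, e2]
    exact mul_le_mul_of_nonneg_right hρY (by positivity)
  · exact (((hasDerivAt_lg (by linarith [hx.1])).comp_const_add _ x).const_mul A).sub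
      (((hasDerivAt_lg (by linarith [hx.1])).comp_const_add _ x).const_mul B)
  · exact (((lg_deriv2 (by linarith [hx.1])).comp_const_add ((j : ℝ) + m) x).const_mul A).sub
      (((lg_deriv2 (by linarith [hx.1])).comp_const_add (j : ℝ) x).const_mul B)
  · exact (continuousOn_const.mul (l2_shift_cont vp_lg2_cont (by linarith))).sub
      (continuousOn_const.mul (l2_shift_cont vp_lg2_cont (by linarith)))
  · exact ((d1 _ (by linarith [hx.1])).comp_const_add _ x).mul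
      ((d1 _ (by linarith [hx.1])).comp_const_add _ x)
  · exact ((l2_shift_cont d2 (by linarith)).mul (l2_shift_cont (l2_kap_cont e Y) (by linarith))).add
      ((l2_shift_cont (l2_kap_cont e Y) (by linarith)).mul (l2_shift_cont d2 (by linarith)))
  · rw [abs_mul]
    exact mul_le_one₀ (l2_kap_abs e hY (by linarith [hx.1])) (abs_nonneg _)
      (l2_kap_abs e hY (by linarith [hx.1]))
  · have k1 := l2_kap_abs e hY (y := j + m + x) (by linarith [hx.1])
    have k2 := l2_kap_abs e hY (y := j + x) (by linarith [hx.1])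
    have k3 := d3 (j + m + x) (by linarith [hx.1]) (by linarith [hx.1])
    have k4 := d3 (j + x) (by linarith [hx.1]) (by linarith [hx.1])
    refine (abs_add_le _ _).trans ?_
    rw [abs_mul, abs_mul]
    linarith [mul_le_one₀ k3 (abs_nonneg _) k2, mul_le_one₀ k1 (abs_nonneg _) k4]
  · obtain ⟨y, hy⟩ : ∃ y : ℝ, y = j + x := ⟨_, rfl⟩
    have b1 : (Y : ℝ) ≤ y := by linarith [hx.1]
    have b2 : y + m + 1 ≤ 4 * Y := by linarith [hx.2]
    have b0 : 0 < y := by linarith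
    have h1 := a3 y b1 (by linarith)
    have e1 : x - (y0 - j) = y - y0 := by rw [hy]; ring
    have e2 : (j : ℝ) + m + x = y + m := by rw [hy]; ring
    have e3 : A * -((y + m) * (y + m + 1))⁻¹ - B * -(y * (y + 1))⁻¹ =
        (B * ((y + m) * (y + m + 1)) - A * (y * (y + 1))) /
          (y * (y + 1) * ((y + m) * (y + m + 1))) := by
      field_simp
      ring
    simp only [e1, e2, ← hy]
    rw [e3, abs_div, abs_of_pos (by positivity : 0 < y * (y + 1) * ((y + m) * (y + m + 1))),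
      le_div_iff₀ (by positivity)]
    refine le_trans ?_ h1
    have h2 : y * (y + 1) * ((y + m) * (y + m + 1)) ≤ 4 * Y * (4 * Y) * (4 * Y * (4 * Y)) := by
      gcongr <;> linarith
    calc S * m / (2560 * (Y : ℝ) ^ 4) * |y - y0| * (y * (y + 1) * ((y + m) * (y + m + 1)))
        ≤ S * m / (2560 * (Y : ℝ) ^ 4) * |y - y0| * (4 * Y * (4 * Y) * (4 * Y * (4 * Y))) :=
          mul_le_mul_of_nonneg_left h2 (by positivity)
      _ = 2 / 5 * (S / 4 * m) * |y - y0| := by field_simp; ring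
      _ ≤ _ := by gcongr
  · obtain ⟨u1, u2⟩ := vp_lg2 Y1 (y := j + m + x) (by linarith [hx.1])
    obtain ⟨v1, v2⟩ := vp_lg2 Y1 (y := j + x) (by linarith [hx.1])
    have w1 := mul_le_mul hA' u2 u1 hS.le
    have w2 := mul_le_mul hB' v2 v1 hS.le
    have w3 := mul_nonneg A0.le u1
    have w4 := mul_nonneg B0.le v1
    have e : 2 * S / (Y : ℝ) ^ 3 = S * (2 / (Y : ℝ) ^ 3) := by ring
    rw [e, abs_le]
    constructor <;> linarith

theorem vp_range (n : ℕ) : ∑ i ∈ range n, 1 / (1 + (i : ℝ)) ≤ 1 + Real.log n := by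
  have h := harmonic_le_one_add_log n
  rw [harmonic] at h
  push_cast at h
  refine le_trans (le_of_eq (sum_congr rfl fun i _ => ?_)) h
  rw [one_div, add_comm]

theorem vp_half {n : ℕ} {y0 : ℝ} (J : Finset ℕ) (h : ∀ j ∈ J, ⌊|y0 - j|⌋₊ < n)
    (hi : Set.InjOn (fun j : ℕ => ⌊|y0 - j|⌋₊) J) :
    ∑ j ∈ J, 1 / (1 + |y0 - j|) ≤ 1 + Real.log n := by
  refine le_trans ?_ (vp_range n)
  calc ∑ j ∈ J, 1 / (1 + |y0 - j|) ≤ ∑ j ∈ J, 1 / (1 + ((⌊|y0 - j|⌋₊ : ℕ) : ℝ)) :=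
        sum_le_sum fun j _ => one_div_le_one_div_of_le (by positivity)
          (by linarith [Nat.floor_le (abs_nonneg (y0 - j))])
    _ = ∑ i ∈ J.image (fun j : ℕ => ⌊|y0 - j|⌋₊), 1 / (1 + (i : ℝ)) :=
        (sum_image (f := fun i : ℕ => 1 / (1 + (i : ℝ))) hi).symm
    _ ≤ _ := sum_le_sum_of_subset_of_nonneg (fun i hi' => by
        obtain ⟨j, hj, rfl⟩ := mem_image.1 hi'
        exact mem_range.2 (h j hj)) fun i _ _ => by positivity

theorem vp_floor {u v : ℝ} (hu : 0 ≤ u) (hv : 0 ≤ v) (h : ⌊u⌋₊ = ⌊v⌋₊) : |u - v| < 1 := by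
  have a1 := Nat.floor_le hu
  have a2 := Nat.floor_le hv
  have a3 := Nat.lt_floor_add_one u
  have a4 := Nat.lt_floor_add_one v
  rw [h] at a1 a3
  rw [abs_lt]
  constructor <;> linarith

theorem vp_nat {j j' : ℕ} (h : |(j : ℝ) - j'| < 1) : j = j' := by
  rw [abs_lt] at h
  have h1 : (j : ℝ) < j' + 1 := by linarith [h.2]
  have h2 : (j' : ℝ) < j + 1 := by linarith [h.1]
  have h3 : j < j' + 1 := by exact_mod_cast h1
  have h4 : j' < j + 1 := by exact_mod_cast h2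
  omega

theorem harm_sum {Y : ℕ} (hY : 1 ≤ Y) {y0 : ℝ} (h0 : 0 ≤ y0) (h1 : y0 ≤ 4 * Y) :
    ∑ j ∈ Ico Y (2 * Y), 1 / (1 + |y0 - j|) ≤ 10 * (1 + Real.log Y) := by
  have Y1 : (1 : ℝ) ≤ Y := by exact_mod_cast hY
  have hl : 0 ≤ Real.log Y := Real.log_nonneg Y1
  have hb : ∀ j ∈ Ico Y (2 * Y), ⌊|y0 - j|⌋₊ < 4 * Y := fun j hj => by
    obtain ⟨b1, b2⟩ := mem_Ico.1 hj
    have c1 : (Y : ℝ) ≤ j := by exact_mod_cast b1
    have c2 : (j : ℝ) < 2 * Y := by exact_mod_cast b2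
    rw [Nat.floor_lt (abs_nonneg _), abs_lt]
    push_cast
    constructor <;> linarith
  have hlog : Real.log ((4 * Y : ℕ) : ℝ) ≤ 3 + Real.log Y := by
    push_cast
    rw [Real.log_mul (by norm_num) (by linarith)]
    linarith [Real.log_le_sub_one_of_pos (by norm_num : (0 : ℝ) < 4)]
  rw [← sum_filter_add_sum_filter_not _ (fun j : ℕ => (j : ℝ) ≤ y0)]
  have s1 := vp_half (y0 := y0) ((Ico Y (2 * Y)).filter fun j : ℕ => (j : ℝ) ≤ y0)
    (fun j hj => hb j (mem_filter.1 hj).1) fun j hj j' hj' h => by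
      have c1 := (mem_filter.1 (mem_coe.1 hj)).2
      have c2 := (mem_filter.1 (mem_coe.1 hj')).2
      have c3 := vp_floor (abs_nonneg _) (abs_nonneg _) h
      rw [abs_of_nonneg (sub_nonneg.2 c1), abs_of_nonneg (sub_nonneg.2 c2),
        show y0 - j - (y0 - j') = (j' : ℝ) - j by ring] at c3
      exact (vp_nat c3).symm
  have s2 := vp_half (y0 := y0) ((Ico Y (2 * Y)).filter fun j : ℕ => ¬ (j : ℝ) ≤ y0)
    (fun j hj => hb j (mem_filter.1 hj).1) fun j hj j' hj' h => by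
      have c1 := (not_le.1 (mem_filter.1 (mem_coe.1 hj)).2).le
      have c2 := (not_le.1 (mem_filter.1 (mem_coe.1 hj')).2).le
      have c3 := vp_floor (abs_nonneg _) (abs_nonneg _) h
      rw [abs_of_nonpos (sub_nonpos.2 c1), abs_of_nonpos (sub_nonpos.2 c2),
        show -(y0 - j) - -(y0 - j') = (j : ℝ) - j' by ring] at c3
      exact vp_nat c3
  linarith

theorem harm_sum' {Y : ℕ} (hY : 1 ≤ Y) : ∑ m ∈ Ico 1 Y, 1 / (m : ℝ) ≤ 1 + Real.log Y := by
  refine le_trans ?_ (vp_range Y)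
  rw [sum_Ico_eq_sum_range]
  push_cast
  exact sum_le_sum_of_subset_of_nonneg (range_subset_range.2 (by omega)) fun i _ _ => by positivity

end Pool.Agent.Lib.MP_ecd12e_nt.ZS
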