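import Pool.Agent.Lib.MP_ecd12e_nt.ZS.VL2
import Pool.Agent.Lib.MP_ecd12e_nt.ZS.VGen

set_option autoImplicit false

namespace Pool.Agent.Lib.MP_ecd12e_nt.ZS

open Finset Real
open Pool.Agent.Lib.MP_ecd12e_nt.Bar (ei)

theorem vtw_kap {G Y κ : ℝ} (hG : 1 ≤ G) (hY : 1 ≤ Y) (h0 : 0 ≤ κ) (h1 : κ ≤ 1)
    (h2 : κ * G ^ 2 ≤ 36 * Y ^ 2) : κ ^ 2 * (1 + Y / G) ≤ 3000 * Y ^ 2 / G ^ 2 := by
  have hG0 : 0 < G := by linarith
  have hκ : κ ^ 2 ≤ κ := by nlinarith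
  rw [le_div_iff₀ (by positivity)]
  have e : κ ^ 2 * (1 + Y / G) * G ^ 2 = κ ^ 2 * G ^ 2 + κ ^ 2 * (Y * G) := by field_simp
  have a1 : κ ^ 2 * G ^ 2 ≤ 36 * Y ^ 2 :=
    (mul_le_mul_of_nonneg_right hκ (by positivity)).trans h2
  have a2 : κ ^ 2 * (Y * G) ≤ 36 * Y ^ 2 := by
    rcases le_total Y G with h | h
    · refine le_trans (mul_le_mul_of_nonneg_left ?_ (by positivity)) a1
      nlinarith
    · have b1 : κ ^ 2 * (Y * G) ≤ 1 * (Y * G) :=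
        mul_le_mul_of_nonneg_right (hκ.trans h1) (by positivity)
      nlinarith
  rw [e]
  nlinarith [sq_nonneg Y]

theorem vtw_log {N Y : ℕ} (hN : 1 ≤ N) (hY : 1 ≤ Y) (h : Y ≤ 2 * N) :
    (1 + Real.log Y) ^ 2 ≤ 4 * (1 + Real.log N) ^ 2 := by
  have n0 : (1 : ℝ) ≤ N := by exact_mod_cast hN
  have y0 : (1 : ℝ) ≤ Y := by exact_mod_cast hY
  have y1 : (Y : ℝ) ≤ 2 * N := by exact_mod_cast h
  have h3 := Real.log_le_log (by linarith) y1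
  rw [Real.log_mul (by norm_num) (by linarith)] at h3
  have h4 := Real.log_two_lt_d9
  have h5 := Real.log_nonneg n0
  have h6 := Real.log_nonneg y0
  have h7 : 1 + Real.log Y ≤ 2 * (1 + Real.log N) := by linarith
  calc (1 + Real.log Y) ^ 2 ≤ (2 * (1 + Real.log N)) ^ 2 :=
        pow_le_pow_left₀ (by linarith) h7 2
    _ = _ := by ring

theorem vtw_E {G S τ Y κ R l L : ℝ} (hG : 1 ≤ G) (hS : 0 < S) (hτ : 0 < τ) (hY : 1 ≤ Y)
    (h0 : 0 ≤ κ) (h1 : κ ≤ 1) (h2 : κ * G ^ 2 ≤ 36 * Y ^ 2) (hR : 0 ≤ R)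
    (hL : L ^ 2 ≤ 4 * l ^ 2) :
    κ ^ 2 * (2000 * (Y * (1 + Y / G) * R) +
      10 ^ 7 * L ^ 2 * (τ * Y ^ 2 * (1 + Y / G) + Y ^ 4 / S) * R ^ 2) ≤
      (6 * 10 ^ 6 * R / G ^ 3 + 4 * 10 ^ 7 * l ^ 2 * (3000 * τ / G ^ 2 + 1 / S) * R ^ 2) *
        Y ^ 4 := by
  have hG0 : 0 < G := by linarith
  have hY0 : 0 < Y := by linarith
  have a1 : κ ^ 2 * (1 + Y / G) ≤ 3000 * Y ^ 3 / G ^ 3 := by
    rw [le_div_iff₀ (by positivity)]
    have := mean_num (m := 1) hG hY h0 h1 h2 (Or.inl rfl)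
    rwa [mul_one] at this
  have a2 := vtw_kap hG hY h0 h1 h2
  have a3 : κ ^ 2 ≤ 1 := pow_le_one₀ h0 h1
  have b1 : κ ^ 2 * (2000 * (Y * (1 + Y / G) * R)) ≤ 6 * 10 ^ 6 * R / G ^ 3 * Y ^ 4 := by
    calc κ ^ 2 * (2000 * (Y * (1 + Y / G) * R)) = 2000 * Y * R * (κ ^ 2 * (1 + Y / G)) := by ring
      _ ≤ 2000 * Y * R * (3000 * Y ^ 3 / G ^ 3) := mul_le_mul_of_nonneg_left a1 (by positivity)
      _ = _ := by ring
  have b2 : κ ^ 2 * (τ * Y ^ 2 * (1 + Y / G) + Y ^ 4 / S) ≤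
      (3000 * τ / G ^ 2 + 1 / S) * Y ^ 4 := by
    calc κ ^ 2 * (τ * Y ^ 2 * (1 + Y / G) + Y ^ 4 / S)
        = τ * Y ^ 2 * (κ ^ 2 * (1 + Y / G)) + κ ^ 2 * (Y ^ 4 / S) := by ring
      _ ≤ τ * Y ^ 2 * (3000 * Y ^ 2 / G ^ 2) + 1 * (Y ^ 4 / S) :=
          add_le_add (mul_le_mul_of_nonneg_left a2 (by positivity))
            (mul_le_mul_of_nonneg_right a3 (by positivity))
      _ = _ := by ring
  have b3 : L ^ 2 * (κ ^ 2 * (τ * Y ^ 2 * (1 + Y / G) + Y ^ 4 / S)) ≤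
      4 * l ^ 2 * ((3000 * τ / G ^ 2 + 1 / S) * Y ^ 4) :=
    mul_le_mul hL b2 (by positivity) (by positivity)
  have b4 := mul_le_mul_of_nonneg_left b3 (show 0 ≤ 10 ^ 7 * R ^ 2 by positivity)
  calc _ = κ ^ 2 * (2000 * (Y * (1 + Y / G) * R)) +
        10 ^ 7 * R ^ 2 * (L ^ 2 * (κ ^ 2 * (τ * Y ^ 2 * (1 + Y / G) + Y ^ 4 / S))) := by ring
    _ ≤ 6 * 10 ^ 6 * R / G ^ 3 * Y ^ 4 +
        10 ^ 7 * R ^ 2 * (4 * l ^ 2 * ((3000 * τ / G ^ 2 + 1 / S) * Y ^ 4)) := add_le_add b1 b4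
    _ = _ := by ring

theorem vtw_sqrt {G S τ σ U R K l : ℝ} (hG : 1 ≤ G) (hS : 0 < S) (hσ : 0 < σ)
    (hστ : σ ^ 2 = S * τ) (hσU : σ ≤ U) (hGU : G ≤ U) (hR : 0 ≤ R) (hRK : R ≤ K) (hl : 0 ≤ l) :
    G * Real.sqrt (S *
      (6 * 10 ^ 6 * R / G ^ 3 + 4 * 10 ^ 7 * l ^ 2 * (3000 * τ / G ^ 2 + 1 / S) * R ^ 2)) ≤
      2450 * Real.sqrt (S * K / G) + 350000 * l * U * K := by
  have hG0 : 0 < G := by linarith
  have hU : 0 < U := by linarith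
  have hK : 0 ≤ K := hR.trans hRK
  have s0 := Real.sqrt_nonneg (S * K / G)
  have s1 : Real.sqrt (S * K / G) ^ 2 = S * K / G := Real.sq_sqrt (by positivity)
  generalize Real.sqrt (S * K / G) = s at s0 s1 ⊢
  rw [mul_comm, ← le_div_iff₀ hG0]
  refine Real.sqrt_le_iff.2 ⟨by positivity, ?_⟩
  rw [div_pow, le_div_iff₀ (by positivity)]
  have e : S * (6 * 10 ^ 6 * R / G ^ 3 +
      4 * 10 ^ 7 * l ^ 2 * (3000 * τ / G ^ 2 + 1 / S) * R ^ 2) * G ^ 2 =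
      6 * 10 ^ 6 * (S * R / G) + 4 * 10 ^ 7 * (l ^ 2 * ((3000 * σ ^ 2 + G ^ 2) * R ^ 2)) := by
    rw [hστ]
    field_simp
  have a1 : S * R / G ≤ s ^ 2 := by
    rw [s1]
    exact div_le_div_of_nonneg_right (mul_le_mul_of_nonneg_left hRK hS.le) hG0.le
  have a2 : σ ^ 2 ≤ U ^ 2 := pow_le_pow_left₀ hσ.le hσU 2
  have a3 : G ^ 2 ≤ U ^ 2 := pow_le_pow_left₀ hG0.le hGU 2
  have a4 : R ^ 2 ≤ K ^ 2 := pow_le_pow_left₀ hR hRK 2
  have a5 : l ^ 2 * ((3000 * σ ^ 2 + G ^ 2) * R ^ 2) ≤ l ^ 2 * ((3001 * U ^ 2) * K ^ 2) :=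
    mul_le_mul_of_nonneg_left (mul_le_mul (by linarith) a4 (by positivity) (by positivity))
      (by positivity)
  have a6 : l ^ 2 * ((3001 * U ^ 2) * K ^ 2) = 3001 * (l * U * K) ^ 2 := by ring
  have a7 : 0 ≤ l * U * K := by positivity
  have a8 : 350000 * l * U * K = 350000 * (l * U * K) := by ring
  rw [e, a8]
  rw [a6] at a5
  generalize l * U * K = w at a5 a7 ⊢
  nlinarith [mul_nonneg s0 a7, sq_nonneg s, sq_nonneg w]

theorem vtw_end {G S U V R K N l s : ℝ} (hG : 1 ≤ G) (hS : 0 < S) (hGU : G ≤ U) (hRK : R ≤ K)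
    (hK : 0 ≤ K) (hN : 0 ≤ N) (hl : 1 ≤ l) (s0 : 0 ≤ s) (s1 : s ^ 2 = S * K / G)
    (hVU : 4 * (10 ^ 13 * l ^ 4) * N * U ≤ V ^ 2)
    (h : K * V ^ 2 ≤ 1000 * (4 * G * N * R + 10 ^ 4 * l ^ 3 * N * (2450 * s + 350000 * l * U * K))) :
    K * V ^ 4 * G ≤ 4 * (10 ^ 13 * l ^ 4) ^ 2 * N ^ 2 * S := by
  have hG0 : 0 < G := by linarith
  have hU : 0 < U := by linarith
  have l3 : l ^ 3 ≤ l ^ 4 := pow_le_pow_right₀ hl (by norm_num)
  have l4 : 1 ≤ l ^ 4 := one_le_pow₀ hl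
  rcases hK.eq_or_lt with rfl | hK'
  · rw [zero_mul, zero_mul]
    positivity
  have a1 : G * N * R ≤ l ^ 4 * (N * U * K) := by
    calc G * N * R ≤ G * N * K := mul_le_mul_of_nonneg_left hRK (by positivity)
      _ ≤ U * N * K := by gcongr
      _ = 1 * (N * U * K) := by ring
      _ ≤ _ := mul_le_mul_of_nonneg_right l4 (by positivity)
  have a2 : l ^ 3 * (N * s) ≤ l ^ 4 * (N * s) := mul_le_mul_of_nonneg_right l3 (by positivity)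
  have a3 : 4 * 10 ^ 13 * (l ^ 4 * (N * U * K)) ≤ K * V ^ 2 := by
    calc 4 * 10 ^ 13 * (l ^ 4 * (N * U * K)) = K * (4 * (10 ^ 13 * l ^ 4) * N * U) := by ring
      _ ≤ _ := mul_le_mul_of_nonneg_left hVU hK
  have a4 : 1000 * (4 * G * N * R + 10 ^ 4 * l ^ 3 * N * (2450 * s + 350000 * l * U * K)) =
      4000 * (G * N * R) + 2450 * 10 ^ 7 * (l ^ 3 * (N * s)) +
        35 * 10 ^ 11 * (l ^ 4 * (N * U * K)) := by ring
  have a5 : 0 ≤ l ^ 4 * (N * U * K) := by positivity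
  have a6 : 0 ≤ l ^ 4 * (N * s) := by positivity
  have a7 : K * V ^ 2 ≤ 2 * 10 ^ 13 * (l ^ 4 * (N * s)) := by
    rw [a4] at h
    linarith
  have a8 : (K * V ^ 2) ^ 2 ≤ (2 * 10 ^ 13 * (l ^ 4 * (N * s))) ^ 2 :=
    pow_le_pow_left₀ (by positivity) a7 2
  have a9 : s ^ 2 * G = S * K := by
    rw [s1]
    field_simp
  refine le_of_mul_le_mul_left ?_ hK'
  calc K * (K * V ^ 4 * G) = (K * V ^ 2) ^ 2 * G := by ring
    _ ≤ (2 * 10 ^ 13 * (l ^ 4 * (N * s))) ^ 2 * G := mul_le_mul_of_nonneg_right a8 hG0.le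
    _ = 4 * (10 ^ 13 * l ^ 4) ^ 2 * N ^ 2 * (s ^ 2 * G) := by ring
    _ = _ := by rw [a9]; ring

theorem tw_core {T V G τ σ U : ℝ} {N : ℕ} (hN : 1 ≤ N) (hNT : (N : ℝ) ^ 2 ≤ T) (hG : 1 ≤ G)
    (hGT : 2 * G ≤ T) (hτ : 0 < τ) (hτG : 2 * T * τ ^ 2 = G) (hσ : 0 < σ) (hστ : σ ^ 2 = 2 * T * τ)
    (hσU : σ ≤ U) (hGU : G ≤ U) (b : ℕ → ℂ)
    (hb : ‖b N‖ + ∑ n ∈ Ico N (2 * N), ‖b (n + 1) - b n‖ ≤ 2) (hV : 0 ≤ V)
    (hVU : 4 * (10 ^ 13 * (1 + Real.log N) ^ 4) * N * U ≤ V ^ 2) (W : Finset ℝ)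
    (hsep : Bar.Sep 1 W) (hW : ∀ t ∈ W, T ≤ t ∧ t ≤ 2 * T ∧
      V ≤ ‖∑ n ∈ Icc N (2 * N), b n * ei (t * Real.log n)‖) :
    (W.card : ℝ) * V ^ 4 * G ≤
      4 * (10 ^ 13 * (1 + Real.log N) ^ 4) ^ 2 * (N : ℝ) ^ 2 * (2 * T) := by
  have hG0 : 0 < G := by linarith
  have hT : 0 < T := by linarith
  have hS : 0 < 2 * T := by linarith
  have hU : 0 < U := by linarith
  have l0 : 0 ≤ Real.log N := Real.log_natCast_nonneg N
  set W' := W.image (fun t => ⌊t / G⌋₊) with hW'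
  have hRK : (W'.card : ℝ) ≤ W.card := by exact_mod_cast card_image_le
  have hWa : ∀ a ∈ W', 2 * T / 4 ≤ G * a ∧ G * a ≤ 2 * T := by
    intro a ha
    obtain ⟨t, ht, rfl⟩ := mem_image.1 ha
    obtain ⟨h1, h2, -⟩ := hW t ht
    have e : G * (t / G) = t := by field_simp
    have f1 := mul_le_mul_of_nonneg_left
      (Nat.floor_le (div_nonneg (hT.le.trans h1) hG0.le)) hG0.le
    have f2 := mul_le_mul_of_nonneg_left (Nat.lt_floor_add_one (t / G)).le hG0.le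
    rw [e] at f1
    rw [e, mul_add, mul_one] at f2
    constructor <;> linarith
  have hmean : ∀ x, N ≤ x → ∑ a ∈ W', gm G N x (G * a) ≤ 4 * G * N * W'.card +
      10 ^ 4 * (1 + Real.log N) ^ 3 * N * (2450 * Real.sqrt (2 * T * W.card / G) +
        350000 * (1 + Real.log N) * U * W.card) := by
    intro x hx
    have h1 := mean_gen (S := 2 * T) (E0 := 6 * 10 ^ 6 * (W'.card : ℝ) / G ^ 3 +
        4 * 10 ^ 7 * (1 + Real.log N) ^ 2 * (3000 * τ / G ^ 2 + 1 / (2 * T)) * (W'.card : ℝ) ^ 2)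
      hG hN hx (by linarith) W' (fun a ha => (hWa a ha).2) (by positivity)
      (fun Y => 2000 * (Y * (1 + Y / G) * W'.card) + 10 ^ 7 * (1 + Real.log Y) ^ 2 *
        (τ * (Y : ℝ) ^ 2 * (1 + Y / G) + (Y : ℝ) ^ 4 / (2 * T)) * (W'.card : ℝ) ^ 2)
      (fun Y hY _ c ζ e he hc hζ => by
        have y0 : (1 : ℝ) ≤ Y := by exact_mod_cast hY
        refine l2_vdc hG hS hY W' hWa (by positivity) ?_ hc hζ he
        have e1 : (τ * (Y : ℝ) ^ 2 * (1 + Y / G)) ^ 2 * (2 * T) =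
            (2 * T * τ ^ 2) * (1 + Y / G) ^ 2 * (Y : ℝ) ^ 4 := by ring
        have e2 : G * (2 * (Y / G)) * (Y : ℝ) ^ 4 = 2 * (Y : ℝ) ^ 5 := by field_simp
        rw [e1, hτG, ← e2]
        refine mul_le_mul_of_nonneg_right (mul_le_mul_of_nonneg_left ?_ hG0.le) (by positivity)
        nlinarith [sq_nonneg ((Y : ℝ) / G)])
      (fun Y hY hYN κ h0 h1 h2 => vtw_E hG hS hτ (by exact_mod_cast hY) h0 h1 h2
        (Nat.cast_nonneg _) (vtw_log hN hY hYN))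
    have h2 := vtw_sqrt (l := 1 + Real.log N) hG hS hσ hστ hσU hGU (Nat.cast_nonneg W'.card) hRK
      (by linarith)
    have h3 := mul_le_mul_of_nonneg_left h2
      (show 0 ≤ 10 ^ 4 * (1 + Real.log N) ^ 3 * N by positivity)
    refine h1.trans (add_le_add le_rfl (le_trans (le_of_eq ?_) h3))
    ring
  exact vtw_end hG hS hGU hRK (Nat.cast_nonneg _) (Nat.cast_nonneg _) (by linarith)
    (Real.sqrt_nonneg _) (Real.sq_sqrt (by positivity)) hVU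
    (lv_gen hG hN b hb hV W hsep (fun t ht => ⟨hT.le.trans (hW t ht).1, (hW t ht).2.2⟩)
      (by positivity) hmean)

theorem vtw_half {T u : ℝ} (hT : 4 ≤ T) (h : u ^ 3 ≤ 2 * T) : 2 * u ≤ T := by
  refine le_of_pow_le_pow_left₀ (n := 3) (by norm_num) (by linarith) ?_
  have : 16 ≤ T ^ 2 := by nlinarith
  nlinarith

theorem lv_twelve {T V : ℝ} {N : ℕ} (hN : 1 ≤ N) (hNT : (N : ℝ) ^ 2 ≤ T) (b : ℕ → ℂ)
    (hb : ‖b N‖ + ∑ n ∈ Ico N (2 * N), ‖b (n + 1) - b n‖ ≤ 2) (hV : 0 ≤ V) (W : Finset ℝ)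
    (hsep : Bar.Sep 1 W) (hW : ∀ t ∈ W, T ≤ t ∧ t ≤ 2 * T ∧
      V ≤ ‖∑ n ∈ Icc N (2 * N), b n * ei (t * Real.log n)‖) :
    (W.card : ℝ) * V ^ 12 ≤ 10 ^ 82 * (1 + Real.log N) ^ 24 * (N : ℝ) ^ 6 * T ^ 2 := by
  have n0 : (1 : ℝ) ≤ N := by exact_mod_cast hN
  have hT1 : 1 ≤ T := (one_le_pow₀ n0).trans hNT
  have hT0 : 0 < T := by linarith
  have l1 : 1 ≤ 1 + Real.log N := le_add_of_nonneg_right (Real.log_natCast_nonneg N)
  rcases W.eq_empty_or_nonempty with rfl | ⟨t0, ht0⟩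
  · rw [card_empty, Nat.cast_zero, zero_mul]
    positivity
  have hK : (1 : ℝ) ≤ W.card := by exact_mod_cast card_pos.2 ⟨t0, ht0⟩
  have four := lv_four hN hNT b hb hV W hsep hW
  have core := fun (G τ σ U : ℝ) h1 h2 h3 h4 h5 h6 h7 h8 h9 =>
    tw_core (G := G) (τ := τ) (σ := σ) (U := U) hN hNT h1 h2 h3 h4 h5 h6 h7 h8 b hb hV h9 W hsep hW
  have hc := sep_card one_pos (show T ≤ 2 * T by linarith) W hsep
    (fun t ht => ⟨(hW t ht).1, (hW t ht).2.1⟩)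
  have hv : V ≤ 4 * N := (hW t0 ht0).2.2.trans (bv_norm hN b hb t0)
  generalize 1 + Real.log N = l at l1 four core ⊢
  generalize (W.card : ℝ) = K at hK four core hc ⊢
  generalize (N : ℝ) = M at n0 hNT four core hv ⊢
  have hl : 0 < l := by linarith
  have hM : 0 < M := by linarith
  have p0 : 0 < l ^ 24 * M ^ 6 * T ^ 2 := by positivity
  have goal : ∀ c : ℝ, c ≤ 10 ^ 82 → K * V ^ 12 ≤ c * (l ^ 24 * M ^ 6 * T ^ 2) →
      K * V ^ 12 ≤ 10 ^ 82 * l ^ 24 * M ^ 6 * T ^ 2 := fun c h1 h2 =>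
    h2.trans ((mul_le_mul_of_nonneg_right h1 p0.le).trans (le_of_eq (by ring)))
  rcases lt_or_ge T 4 with hT | hT
  · refine goal (5 * 8 ^ 12) (by norm_num) ?_
    have k5 : K ≤ 5 := by
      rw [div_one] at hc
      linarith
    have v8 : V ≤ 8 := by nlinarith
    have q1 : 1 ≤ l ^ 24 * M ^ 6 * T ^ 2 :=
      one_le_mul_of_one_le_of_one_le
        (one_le_mul_of_one_le_of_one_le (one_le_pow₀ l1) (one_le_pow₀ n0)) (one_le_pow₀ hT1)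
    calc K * V ^ 12 ≤ 5 * 8 ^ 12 :=
          mul_le_mul k5 (pow_le_pow_left₀ hV v8 12) (by positivity) (by norm_num)
      _ ≤ _ := le_mul_of_one_le_right (by norm_num) q1
  obtain ⟨U, hU0, hU⟩ : ∃ U : ℝ, 0 ≤ U ∧ 4 * (10 ^ 13 * l ^ 4) * M * U = V ^ 2 :=
    ⟨V ^ 2 / (4 * (10 ^ 13 * l ^ 4) * M), by positivity, by field_simp⟩
  have v8 : V ^ 8 = (4 * (10 ^ 13 * l ^ 4) * M) ^ 4 * U ^ 4 := by
    rw [← mul_pow, hU]
    ring
  rcases le_total (U ^ 4) (2 * T) with h4 | h4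
  · refine goal (512 * 10 ^ 71) (by norm_num) ?_
    have q1 : l ^ 22 ≤ l ^ 24 := pow_le_pow_right₀ l1 (by norm_num)
    calc K * V ^ 12 = K * V ^ 4 * V ^ 8 := by ring
      _ ≤ 10 ^ 19 * l ^ 6 * M ^ 2 * T * ((4 * (10 ^ 13 * l ^ 4) * M) ^ 4 * (2 * T)) := by
          refine mul_le_mul four ?_ (by positivity) (by positivity)
          rw [v8]
          exact mul_le_mul_of_nonneg_left h4 (by positivity)
      _ = 512 * 10 ^ 71 * (l ^ 22 * M ^ 6 * T ^ 2) := by ring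
      _ ≤ _ := by gcongr
  have hU1 : 0 < U := by
    refine hU0.lt_of_ne fun h => ?_
    rw [← h] at h4
    linarith [show (0 : ℝ) ^ 4 = 0 by norm_num]
  rcases le_total (U ^ 3) (2 * T) with h3 | h3
  · have g1 : U ^ 4 / (2 * T) ≤ U := by
      rw [div_le_iff₀ (by positivity)]
      calc U ^ 4 = U * U ^ 3 := by ring
        _ ≤ _ := mul_le_mul_of_nonneg_left h3 hU0
    have := core (U ^ 4 / (2 * T)) (U ^ 2 / (2 * T)) U U ((one_le_div (by positivity)).2 h4)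
      (by linarith [vtw_half hT h3]) (by positivity) (by field_simp) hU1 (by field_simp) le_rfl g1
      hU.le
    rw [← mul_div_assoc, div_le_iff₀ (by positivity)] at this
    refine goal (4096 * 10 ^ 78) (by norm_num) ?_
    calc K * V ^ 12 = K * V ^ 4 * V ^ 8 := by ring
      _ = (4 * (10 ^ 13 * l ^ 4) * M) ^ 4 * (K * V ^ 4 * U ^ 4) := by rw [v8]; ring
      _ ≤ (4 * (10 ^ 13 * l ^ 4) * M) ^ 4 *
          (4 * (10 ^ 13 * l ^ 4) ^ 2 * M ^ 2 * (2 * T) * (2 * T)) :=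
          mul_le_mul_of_nonneg_left this (by positivity)
      _ = _ := by ring
  · exfalso
    obtain ⟨u, hu0, hu⟩ : ∃ u : ℝ, 0 < u ∧ u ^ 3 = 2 * T :=
      ⟨(2 * T) ^ ((3 : ℕ) : ℝ)⁻¹, by positivity,
        Real.rpow_inv_natCast_pow (by positivity) (by norm_num)⟩
    have u1 : 1 ≤ u := by
      refine le_of_pow_le_pow_left₀ (n := 3) (by norm_num) hu0.le ?_
      linarith
    have uU : u ≤ U := le_of_pow_le_pow_left₀ (n := 3) (by norm_num) hU0 (hu.le.trans h3)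
    have := core u (1 / u) u U u1 (vtw_half hT hu.le) (by positivity)
      (by rw [← hu]; field_simp) hu0 (by rw [← hu]; field_simp) uU uU hU.le
    have v4 : V ^ 4 = (4 * (10 ^ 13 * l ^ 4) * M * U) ^ 2 := by
      rw [hU]
      ring
    rw [v4, ← hu] at this
    have q0 : 0 < 4 * (10 ^ 13 * l ^ 4) ^ 2 * M ^ 2 * u := by positivity
    have q1 : 4 * (K * U ^ 2) ≤ u ^ 2 := by
      refine le_of_mul_le_mul_left ?_ q0
      calc _ = K * (4 * (10 ^ 13 * l ^ 4) * M * U) ^ 2 * u := by ring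
        _ ≤ _ := this
        _ = _ := by ring
    have q2 : u ^ 2 ≤ U ^ 2 := pow_le_pow_left₀ hu0.le uU 2
    have q3 : 1 * U ^ 2 ≤ K * U ^ 2 := mul_le_mul_of_nonneg_right hK (by positivity)
    have q4 : 0 < U ^ 2 := by positivity
    linarith

end Pool.Agent.Lib.MP_ecd12e_nt.ZS
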